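import Pool.Agent.Lib.MP_776403_ag.SD.FR.Defs

/-!
# THEOREM FR, part M: most special lines, no numerics

Statements with complete proofs in the docstrings; `S_Xyz` is proved in `SD/FR/Xyz.lean` (theorem `SD.FR.tXyz`).
Closed forms: everything in `SD/U` (`U.tFB`, `U.tCut`, `U.tZak`, `U.tVL`, `U.tVT`, `U.tKrR`, `U.tWGC`, …: pass them as
hypotheses or use the closed theorems) and `SD/Main.lean`.
-/

set_option autoImplicit false

open MvPolynomial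

noncomputable section

namespace Pool.Agent.Lib.MP_776403_ag.SD.FR

variable {N : ℕ}

/-- (B2) No conormal covector is constant along a line: `a ≤ δ` is enough (`U.S_Base` has `a + 1 ≤ δ`).

PROOF.  As `U.tBase`: suppose `q_ξ^0(z₀) = 0`, `ξ ≠ 0`.  `U.S_Cut` with `K = 0`: `J' ≥ J`, `Fml I J' c a x`, `z₀ ∈ zer J'`,
`DimGe J' (δ - (a - c))`, `δ - (a - c) ≥ c`, and `q_ξ^0(z) = 0` for `z ∈ zer J'`, `z ≠ 0` (`Fj L 0 z = ⊥`).  `lam = lf α ∈ J'`,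
`dp α x = 1` (`Fml.lam`; `U.V3` has `exists_lf`).  `J'' = joinI J' x` (`HE/Main.lean`; see `U/Zak.lean` for the lemmas): prime,
homogeneous, `DimGe J'' (c + 1)` (`ZakAux.cUpZ`), `I ≤ J''` (`Fml.line`: `z + t x ∈ zer I`).  Let `η = xv L ξ`; `η ≠ 0`
(`xv L ξ (L.B b) = ξ b`, `U.VTAux.xv_B`).  CLAIM: `η ∈ CN I y` for all `y ∈ zer J''`, `y ≠ 0`.  `z = y - dp α y • x ∈ zer J'`: for
`F ∈ J'` the polynomial `F(X - lam(X) x)` is in `J''` (at `z' + t x`, `z' ∈ zer J'`: `lam = t`, so it is `F(z') = 0`).  If `z = 0`: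
`y = t x`, `t ≠ 0`; `η` is a combination of gradients of elements of `I` at `x` (`L.coef b j = ∑_i adj(M)_(b i) ∂_j F_i`), so
`η ∈ CN I x = CN I (t x)` (`LI.S_TS`/`S_Perp`; or the case `τ = 0` of the next argument with any line `(x, z₀)`).  If `z ≠ 0`:
`U.S_VL` with `K = 0` (`qv L ξ 0 z = 0 ∈ Fj L 0 z`): `p`, all `p j` constants `= xv L ξ j`, and `(p j).reflect 0` is a section in
`Sec I x z 1`; `S_SecVal`: its value at `t x + z` (`σ = t`, `τ = 1`), the constant vector `η`, is in `CN I y`.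
`U.S_Zak` for `J''`, `η`: contradiction. -/
def S_B2 : Prop :=
  ∀ (N c a δ : ℕ) (I J : Ideal (Sx N)) (x : Vx N), 1 ≤ c → c ≤ a → I.IsPrime → IsHom I →
    (∀ F ∈ I, F.IsHomogeneous 1 → F = 0) → Smooth I c → U.Fml I J c a x → DimGe J δ → a ≤ δ →
    ∀ L : Loc I x c, ∀ z ∈ zer J, z ≠ 0 → ∀ ξ : Fin c → ℂ, ξ ≠ 0 → U.qv L ξ 0 z ≠ 0

/-- (MSs) ONE STEP.  The undetermined `d i` have the value `b + 2`.

PROOF.  If all `d i ≤ K`: `d' = d`, `B' = B`, `J' = J` (`FI d (K + 1) = FI d K`).  Let some `d i = b + 2`.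
`A_z = {ξ | qv L ξ K z ∈ Fj L K z}`, a subspace of `ℂ^c` (`qv` is linear in `ξ`).  `U = span {B i | d i ≤ K} ≤ A_z` for all
`z ∈ zer J - 0` (`mem`, shift: `U.S_FB` (1)).  Choose `z₀ ∈ zer J - 0` with `dim A_(z₀)` maximal.  `η_1, …, η_μ` ∈ `A_(z₀)`, a basis
of a complement of `U` in `A_(z₀)`.  `U.S_Cut` `μ` times (each time for the new ideal; `Flag L d _ K B` restricts to larger
ideals): `J' ≥ J`, `Fml`, `z₀ ∈ zer J'`, `q_(η l)^K(z) ∈ F_K(z)` on `zer J'`, `DimGe J' (δ - μ (b - c - card (FI d K)))`.  So for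
`z ∈ zer J' - 0`: `A_z ≥ A_(z₀)`, and by maximality `A_z = A_(z₀) = U + span η`.
`μ ≤` the number of undetermined indices (the dimension of a complement of `U` in `ℂ^c`).  Choose a set of `μ` undetermined
indices: `d' i = K + 1`, `B' i = η_l` there; the other undetermined indices keep `d' i = b + 2` and `B' i` completes the
basis; `d' = d`, `B' = B` on the determined ones.  (`μ = 0` is allowed.)
`mem`: old ones; new ones: `q_(η l)^K ∈ F_K`.  `ind` at `z ∈ zer J' - 0`: let `∑_((i, k) ∈ FI d' (K+1)) c_(i k) q_(B' i)^k(z) = 0`, `k₀`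
the largest `k` with some `c_(i k) ≠ 0`, `θ = ∑_i c_(i k₀) B' i` (sum over `k₀ + 1 < d' i`), `q_θ^(k₀)(z) ∈ F_(k₀)(z)`.  If `k₀ < K`:
`U.S_FB` (4): `θ ∈ span {B i | d i ≤ k₀ + 1}`, where `B i = B' i`, `d i = d' i` (`k₀ + 1 ≤ K`): by the independence of `B'` all
`c_(i k₀) = 0`.  If `k₀ = K`: `θ ∈ A_z = span {B' i | d' i ≤ K + 1}`: the same.  (Compare `StAux.frame_ind`, `newB`, `snoc_ind`.)
LAST CLAIM: if all `d' i ≤ K + 1` then `A_z = ℂ^c` on `zer J'`: `Fj L (K + 1) z = Fj L K z`, and by the shift (`U.S_FB` (1)) all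
`q_ξ^k(z) ∈ F_K(z)`; so `F_K(z)` is `Q(z)`, of dimension `b - c` (`FBAux.rk`), and of dimension `card (FI d K)` (`U.S_FB`). -/
def S_MSs : Prop :=
  ∀ (N c b : ℕ) (I J : Ideal (Sx N)) (x : Vx N), 1 ≤ c → I.IsPrime → IsHom I → Smooth I c →
    U.Fml I J c b x → (∃ z ∈ zer J, z ≠ 0) → ∀ L : Loc I x c,
    ∀ (d : Fin c → ℕ) (K : ℕ) (B : Fin c → Fin c → ℂ), 1 ≤ K → K ≤ b →
    (∀ i, 2 ≤ d i ∧ (d i ≤ K ∨ d i = b + 2)) → U.Flag L d J K B → ∀ δ : ℕ, DimGe J δ →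
    ∃ (d' : Fin c → ℕ) (J' : Ideal (Sx N)) (B' : Fin c → Fin c → ℂ), J ≤ J' ∧
      U.Fml I J' c b x ∧ (∃ z ∈ zer J', z ≠ 0) ∧
      (∀ i, 2 ≤ d' i ∧ (d' i ≤ K + 1 ∨ d' i = b + 2)) ∧ (∀ i, d i ≤ K → d' i = d i) ∧
      (∀ i, d i = b + 2 → d' i = K + 1 ∨ d' i = b + 2) ∧ U.Flag L d' J' (K + 1) B' ∧
      DimGe J' (δ - Nat.card {i : Fin c // d' i = K + 1} * (b - c - (U.FI d K).card)) ∧
      ((∀ i, d' i ≤ K + 1) → (∃ i, d i = b + 2) → (U.FI d K).card = b - c)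

/-- (MS) MOST SPECIAL FLAG.

PROOF.  `2 c ≤ b`: at a point `z ∈ zer J₀ - 0` the `q_(e_i)^0(z)` are independent (`hq`), `F_1(z)` has dimension `c`, `U.S_FB` (2):
`c + c ≤ b`.  `K = 1`: `d i = b + 2`, `B` the standard basis, `J = J₀`: `U.Flag L d J₀ 1 B` (`FI d 1` = the `(i, 0)`; `mem` void).
Induction on `K` with `S_MSs`, from `1` to `b + 1`, with the invariant: `J₀ ≤ J`, `Fml`, a point, `2 ≤ d i`, `d i ≤ K ∨ d i = b + 2`, `Flag`, and
(if all `d i ≤ K`: `card (FI d K) = b - c` and `DimGe J (δ - (c - 1) (b - 2 c))`; otherwise `DimGe J (δ - u (b - 2 c))`, `u` = the number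
of the `i` with `d i ≤ K`).  Step: `card (FI d K) ≥ c` (the `(i, 0)`), so the loss is `≤ b - 2 c` for each new `i` with `d' i = K + 1`; if all
are determined after the step and not before then the loss is `0` (last claim of `S_MSs`), and before the step `u ≤ c - 1`; also
`card (FI d' (K + 1)) = card (FI d K)` then (`min (K + 1) (d' i - 1) = min K (d i - 1)`).  If all are determined before:
`d' = d`, `FI d (K + 1) = FI d K` (`ChAux.card_FI`: `card (FI d K) = ∑ min K (d i - 1)`).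
At `K = b + 1`: if some `d i = b + 2` then `card (FI d K) ≥ (c - 1) + (b + 1) > b - c`, contradiction to `U.S_FB` (2) and
`finrank (F_K) = card (FI d K)`.  So all `d i ≤ b + 1`, `∑ (d i - 1) = card (FI d K) = b - c`, `∑ d i = b`, so `d i ≤ b`.
`Flag L d J b B`: restriction of `Flag L d J (b + 1) B` (`UpAux.flag_mono`). -/
def S_MS : Prop :=
  ∀ (N c b : ℕ) (I J₀ : Ideal (Sx N)) (x : Vx N), 1 ≤ c → I.IsPrime → IsHom I → Smooth I c →
    U.Fml I J₀ c b x → (∃ z ∈ zer J₀, z ≠ 0) → ∀ L : Loc I x c,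
    (∀ z ∈ zer J₀, z ≠ 0 → ∀ ξ : Fin c → ℂ, ξ ≠ 0 → U.qv L ξ 0 z ≠ 0) → ∀ δ : ℕ, DimGe J₀ δ →
    2 * c ≤ b ∧ ∃ (d : Fin c → ℕ) (J : Ideal (Sx N)) (B : Fin c → Fin c → ℂ),
      (∀ i, 2 ≤ d i) ∧ ∑ i, d i = b ∧ J₀ ≤ J ∧ U.Fml I J c b x ∧ (∃ z ∈ zer J, z ≠ 0) ∧
      U.Flag L d J b B ∧ DimGe J (δ - (c - 1) * (b - 2 * c))

/-- (MT) OUTPUT.

PROOF.  `x`: `L : Loc I x c` (`mLoc`); `BDat.cone` at `x`: `P`; a linear form `lam` with `lam(x) = 1`; the cut cone `J₀`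
(`zWCut`, as in `U/Ch.lean`): `DimGe J₀ (N - b)`, `Fml I J₀ c b x`; `N - b ≥ b ≥ 1`, so it has a point `≠ 0`.  `S_B2` with `δ = N - b`;
`S_MS`; `lam'` with `lf lam' = lam ∈ J`, `ξ i = xv L (B i)` (independent), `ty` and `IsLine`: `U.S_VT`; `deg`: `Fml.deg` (see `U/V3.lean`). -/
def S_MT : Prop :=
  ∀ (N c b D : ℕ) (I : Ideal (Sx N)) (q0 : Polynomial ℤ), BDat c b D I q0 → 2 * b ≤ N →
    2 * c ≤ b ∧ ∀ x ∈ zer I, x ≠ 0 → ∃ (d : Fin c → ℕ) (lam : Vx N) (ξ : Fin c → Vx N)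
      (J : Ideal (Sx N)), (∀ i, 2 ≤ d i) ∧ ∑ i, d i = b ∧
      FTm I d x lam ξ J (N - b - (c - 1) * (b - 2 * c)) ∧ ∃ z ∈ zer J, z ≠ 0

end Pool.Agent.Lib.MP_776403_ag.SD.FR
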