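import Pool.Agent.Lib.MP_776403_ag.SD.FR.FCI
import Pool.Agent.Lib.MP_776403_ag.SD.UN.FHc
import Pool.Agent.Lib.MP_776403_ag.SD.UN.U6v
import Pool.Agent.Lib.MP_776403_ag.SD.UN.U6b

/-!
# THEOREM FR: the cone of the lines through a general point, relative version (helper44)

`S_U6w`: as `S_U6v` with the weaker hypothesis `DimGe J₀ (∑ d i - c + 1)`.
-/

set_option autoImplicit false

open MvPolynomial

noncomputable section

namespace Pool.Agent.Lib.MP_776403_ag.SD.UN

open LI

/-- Closed form of `S_FCI1`. -/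
theorem cFCI1 : S_FCI1 := tFCI1 (tFCIg (tFRg tFRl) tFDr tFLn tFHc)

/-- Closed form of `S_FCI2`. -/
theorem cFCI2 : S_FCI2 := tFCI2 tFHc cFCI1

/-- The cone of the lines through a general point is a complete intersection. -/
def S_U6w : Prop :=
  ∀ (N c : ℕ) (I : Ideal (Sx N)) (d : Fin c → ℕ), I.IsPrime → IsHom I → Smooth I c →
    (∀ i, 1 ≤ d i) → ∀ (x lam : Vx N) (ξ : Fin c → Vx N) (J₀ : Ideal (Sx N)),
    Cn I x lam J₀ → DimGe J₀ (∑ i, d i - c + 1) → LinearIndependent ℂ ξ →
    (∀ z ∈ zer J₀, z ≠ 0 → DegEq I c (∑ i, d i) x z) →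
    (∀ z : Vx N, IsLine I x z → FreeL I x z) →
    ∀ F : Fin c → Sx N, (∀ i, F i ∈ I ∧ grad (F i) x = ξ i) →
    (∀ z ∈ zer J₀, z ≠ 0 → JL I x ≤ Ideal.span (Set.range (gT d F x)) ⊔ ptI z * JL I x) →
    ∃ J : Ideal (Sx N), LC I d x lam (gT d F x) J

open U6vAux

theorem tU6w : S_U6b → S_FCI1 → S_U6w := by
  intro hU hC N c I d hI hh hS hd1 x lam ξ J₀ hcn hdim hξ hdeg hfree F hF hloc
  classical
  set g := gT d F x with hg
  have hcard : Fintype.card (Ex d) = ∑ i, d i := by
    rw [Fintype.card_sigma]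
    exact Finset.sum_congr rfl fun i _ => Fintype.card_fin _
  -- the equations
  have hgJ : ∀ e, g e ∈ JL I x := fun e =>
    Ideal.subset_span ⟨F e.1, (hF e.1).1, e.2.1 + 1, rfl⟩
  have hghom : ∀ e, (g e).IsHomogeneous (e.2.1 + 1) := fun e =>
    (mLinS N x (F e.1) (e.2.1 + 1)).2.2.1
  have hlam : ∀ z : Vx N, dp lam z = 0 → (∀ s t : ℂ, s • x + t • z ∈ zer I) → z ≠ 0 →
      IsLine I x z := by
    intro z hz hl hz0
    refine ⟨?_, hl⟩
    rw [LinearIndependent.pair_iff]
    intro s t hst
    have h1 : dp lam (s • x + t • z) = s := by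
      rw [dp_add, dp_smul, dp_smul, hcn.lamx, hz, mul_one, mul_zero, add_zero]
    have h2 : s = 0 := by
      rw [← h1, hst]
      simp [dp]
    refine ⟨h2, ?_⟩
    rw [h2, zero_smul, zero_add] at hst
    exact (smul_eq_zero.1 hst).resolve_right hz0
  have hlam0 : ∀ z ∈ zer J₀, dp lam z = 0 := fun z hz => by
    rw [← eval_lf]
    exact hz _ hcn.lamJ
  -- independence of the gradients
  have hind1 : ∀ z ∈ zer J₀, z ≠ 0 → LinearIndependent ℂ fun e => grad (g e) z := by
    intro z hz hz0
    have hl := hcn.line z hz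
    have hIL := hlam z (hlam0 z hz) hl hz0
    have hJz := JL_eval hl
    have h1 := hU N c (∑ i, d i) I hI hh hS x z hIL (hdeg z hz hz0) (hfree z hIL)
    rw [linearIndependent_iff_card_le_finrank_span, hcard]
    refine h1.trans ?_
    refine Submodule.finrank_mono ?_
    rw [Submodule.span_le]
    rintro _ ⟨G, hG, n, rfl⟩
    have h2 : (linS x G).coeff n ∈ Ideal.span (Set.range g) ⊔ ptI z * JL I x :=
      hloc z hz hz0 (Ideal.subset_span ⟨G, hG, n, rfl⟩)
    obtain ⟨u, hu, v, hv, huv⟩ := Submodule.mem_sup.1 h2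
    rw [← huv, grad_add, grad_mulI hJz hv, add_zero]
    exact (grad_span (fun e => hJz _ (hgJ e)) hu).2
  have hgx : ∀ z ∈ zer J₀, ∀ e, dp (grad (g e) z) x = 0 := by
    intro z hz e
    have h1 : lin z x (g e) = 0 := by
      refine poly_ext fun s => ?_
      rw [lin_eval, Polynomial.eval_zero]
      refine JL_eval (I := I) (x := x) ?_ _ (hgJ e)
      intro s' t'
      have h2 : s' • x + t' • (z + s • x) = (s' + t' * s) • x + t' • z := by
        rw [smul_add, add_smul, mul_smul]
        abel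
      rw [h2]
      exact hcn.line z hz _ _
    rw [← lin_coeff_one, h1, Polynomial.coeff_zero]
  have hind : ∀ z ∈ zer J₀, z ≠ 0 →
      LinearIndependent ℂ (fun o : Option (Ex d) => o.elim lam fun e => grad (g e) z) := by
    intro z hz hz0
    rw [Fintype.linearIndependent_iff]
    intro a ha
    rw [Fintype.sum_option] at ha
    simp only [Option.elim_none, Option.elim_some] at ha
    have h0 : a none = 0 := by
      have h1 : dp (a none • lam + ∑ e, a (some e) • grad (g e) z) x = a none := by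
        rw [dp_add_left, dp_smul_left, hcn.lamx, dp_sum_left]
        rw [Finset.sum_eq_zero fun e _ => by rw [dp_smul_left, hgx z hz e, mul_zero]]
        ring
      rw [← h1, ha, dp_zero_left]
    rw [h0, zero_smul, zero_add] at ha
    have h2 := (Fintype.linearIndependent_iff.1 (hind1 z hz hz0)) (fun e => a (some e)) ha
    intro o
    cases o with
    | none => exact h0
    | some e => exact h2 e
  -- the family indexed by `Fin r`
  set f₀ : Option (Ex d) → Sx N := fun o => o.elim (lf lam) g with hf₀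
  set e₀ : Option (Ex d) → ℕ := fun o => o.elim 1 fun e => e.2.1 + 1 with he₀
  have hcard' : Fintype.card (Option (Ex d)) = ∑ i, d i + 1 := by
    rw [Fintype.card_option, hcard]
  let κ : Option (Ex d) ≃ Fin (∑ i, d i + 1) := Fintype.equivFinOfCardEq hcard'
  have hf₀J : ∀ o, f₀ o ∈ J₀ := by
    intro o
    cases o with
    | none => exact hcn.lamJ
    | some e =>
      exact (tNull N J₀ hcn.prime hcn.hom).1 _ fun z hz => JL_eval (hcn.line z hz) _ (hgJ e)
  have hf₀h : ∀ o, (f₀ o).IsHomogeneous (e₀ o) := by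
    intro o
    cases o with
    | none => exact lf_hom lam
    | some e => exact hghom e
  have hf₀g : ∀ z : Vx N, (fun o => grad (f₀ o) z) =
      fun o : Option (Ex d) => o.elim lam fun e => grad (g e) z := by
    intro z
    funext o
    cases o with
    | none => exact grad_lf lam z
    | some e => rfl
  -- the linear forms
  have hlin : ∀ i, (linS x (F i)).coeff 1 = lf (ξ i) := by
    intro i
    refine MvPolynomial.funext fun v => ?_
    rw [(mLinS N x (F i) 1).2.1 v, lin_coeff_one, (hF i).2, eval_lf]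
  have hspf : ∀ o, f₀ o ∈ Ideal.span (Set.range (f₀ ∘ κ.symm)) := by
    intro o
    refine Ideal.subset_span ⟨κ o, ?_⟩
    rw [Function.comp_apply, Equiv.symm_apply_apply]
  have hlf : ∀ j : Fin (c + 1), lf (Fin.snoc (α := fun _ => Vx N) ξ lam j) ∈
      Ideal.span (Set.range (f₀ ∘ κ.symm)) := by
    intro j
    refine Fin.lastCases ?_ (fun i => ?_) j
    · rw [Fin.snoc_last]
      exact hspf none
    · rw [Fin.snoc_castSucc, ← hlin i]
      exact hspf (some ⟨i, ⟨0, hd1 i⟩⟩)
  have hlind : LinearIndependent ℂ (Fin.snoc (α := fun _ => Vx N) ξ lam) := by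
    rw [linearIndependent_finSnoc]
    refine ⟨hξ, fun hmem => ?_⟩
    have h1 : ∀ φ ∈ Submodule.span ℂ (Set.range ξ), dp φ x = 0 := by
      intro φ hφ
      refine Submodule.span_induction (p := fun φ _ => dp φ x = 0) ?_ (dp_zero_left x) ?_ ?_ hφ
      · rintro _ ⟨i, rfl⟩
        have hx := TSAux.euler hh hcn.xI (F i) (hF i).1
        rwa [(hF i).2] at hx
      · intro a b _ _ ha hb
        rw [dp_add_left, ha, hb, add_zero]
      · intro r a _ ha
        rw [dp_smul_left, ha, mul_zero]
    have h2 := h1 lam hmem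
    rw [hcn.lamx] at h2
    exact one_ne_zero h2
  obtain ⟨hprime, -, hhf⟩ := hC N (∑ i, d i + 1) (c + 1) (f₀ ∘ κ.symm) (e₀ ∘ κ.symm) J₀
    (Fin.snoc (α := fun _ => Vx N) ξ lam)
    (fun i => by
      show 1 ≤ e₀ (κ.symm i)
      cases κ.symm i with
      | none => exact le_refl _
      | some e => exact Nat.le_add_left _ _)
    (fun i => hf₀h _) hcn.prime hcn.hom (fun i => hf₀J _) hlind hlf (by
      have he : ∑ i, d i + 1 - (c + 1) + 1 = ∑ i, d i - c + 1 := by omega
      rw [he]
      exact hdim)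
    (fun z hz hz0 => by
      have h1 := hind z hz hz0
      rw [← hf₀g z] at h1
      exact h1.comp κ.symm κ.symm.injective)
  have hrange : Set.range (f₀ ∘ κ.symm) = Set.range g ∪ {lf lam} := by
    rw [EquivLike.range_comp f₀ κ.symm]
    ext p
    constructor
    · rintro ⟨o, rfl⟩
      cases o with
      | none => exact Or.inr rfl
      | some e => exact Or.inl ⟨e, rfl⟩
    · rintro (⟨e, rfl⟩ | h)
      · exact ⟨some e, rfl⟩
      · exact ⟨none, (Set.mem_singleton_iff.1 h).symm⟩
  rw [hrange] at hprime hhf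
  set J : Ideal (Sx N) := Ideal.span (Set.range g) ⊔ Ideal.span {lf lam} with hJ
  have hJs : Ideal.span (Set.range g ∪ {lf lam}) = J := Ideal.span_union _ _
  rw [hJs] at hprime hhf
  have hJhom : IsHom J := by
    rw [← hJs]
    refine span_hom _ ?_
    rintro p (⟨e, rfl⟩ | h)
    · exact ⟨_, hghom e⟩
    · rw [Set.mem_singleton_iff.1 h]
      exact ⟨1, lf_hom lam⟩
  have hJJ₀ : J ≤ J₀ := by
    rw [← hJs, Ideal.span_le]
    rintro p (⟨e, rfl⟩ | h)
    · exact hf₀J (some e)
    · rw [Set.mem_singleton_iff.1 h]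
      exact hcn.lamJ
  have hgJJ : Ideal.span (Set.range g) ≤ J := le_sup_left
  have hlamJ : lf lam ∈ J := Ideal.mem_sup_right (Ideal.subset_span rfl)
  obtain ⟨z₀, hz₀, hz₀0⟩ := exists_pt hcn.prime hcn.hom (D := ∑ i, d i - c) hdim
  -- all equations of the lines are in `J`
  have hJL : JL I x ≤ J := by
    have hnp : (ptI z₀).IsPrime := RingHom.ker_isPrime _
    have hJfg : (JL I x).FG := IsNoetherian.noetherian _
    obtain ⟨h, hh1, hhJ⟩ := Submodule.exists_sub_one_mem_and_smul_le_of_fg_of_le_sup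
      (I := ptI z₀) (N := Ideal.span (Set.range g)) (N' := JL I x) (P := JL I x) hJfg le_rfl
      (hloc z₀ hz₀ hz₀0)
    have hhn : h ∉ ptI z₀ := by
      intro hx
      have h1 : (1 : Sx N) ∈ ptI z₀ := by
        have := Ideal.sub_mem _ hx hh1
        rwa [sub_sub_cancel] at this
      exact hnp.ne_top ((Ideal.eq_top_iff_one _).2 h1)
    have hhJn : h ∉ J := fun hx => hhn (RingHom.mem_ker.2 (hz₀ _ (hJJ₀ hx)))
    intro G hG
    have h2 : h * G ∈ Ideal.span (Set.range g) :=
      hhJ (Submodule.smul_mem_pointwise_smul G h (JL I x) hG)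
    exact (hprime.mem_or_mem (hgJJ h2)).resolve_left hhJn
  have hline : ∀ z ∈ zer J, ∀ s t : ℂ, s • x + t • z ∈ zer I := fun z hz =>
    line_of_JL hh fun f hf => hz f (hJL hf)
  have hcn' : Cn I x lam J :=
    { x0 := hcn.x0
      xI := hcn.xI
      lamx := hcn.lamx
      prime := hprime
      hom := hJhom
      lamJ := hlamJ
      line := hline }
  refine ⟨J, hcn', hd1, hghom, ?_, rfl, ?_, ⟨z₀, fun f hf => hz₀ f (hJJ₀ hf), hz₀0, hind z₀ hz₀ hz₀0⟩, ?_⟩
  · -- tangent space
    intro v
    have hev : ∀ e : Ex d, e.2.1 = 0 → eval v (g e) = dp (ξ e.1) v := by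
      intro e he
      have h1 : g e = (linS x (F e.1)).coeff 1 := by
        show (linS x (F e.1)).coeff (e.2.1 + 1) = _
        rw [he]
      rw [h1, (mLinS N x (F e.1) 1).2.1 v, lin_coeff_one, (hF e.1).2]
    constructor
    · intro h
      obtain ⟨hfr, hmem, -⟩ := eCN N c I hS x hcn.xI hcn.x0
      have hle : Submodule.span ℂ (Set.range ξ) ≤ CN I x := by
        rw [Submodule.span_le]
        rintro _ ⟨i, rfl⟩
        rw [← (hF i).2]
        exact hmem _ (hF i).1
      have heq : Submodule.span ℂ (Set.range ξ) = CN I x := by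
        refine Submodule.eq_of_le_of_finrank_eq hle ?_
        rw [hfr, finrank_span_eq_card hξ, Fintype.card_fin]
      intro G hG
      have h1 : grad G x ∈ Submodule.span ℂ (Set.range ξ) := by
        rw [heq]
        exact hmem G hG
      refine Submodule.span_induction (p := fun φ _ => dp φ v = 0) ?_ (dp_zero_left v) ?_ ?_ h1
      · rintro _ ⟨i, rfl⟩
        have h2 := h ⟨i, ⟨0, hd1 i⟩⟩ rfl
        rwa [hev _ rfl] at h2
      · intro a b _ _ ha hb
        rw [dp_add_left, ha, hb, add_zero]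
      · intro r a _ ha
        rw [dp_smul_left, ha, mul_zero]
    · intro hv e he
      rw [hev e he, ← (hF e.1).2]
      exact hv _ (hF e.1).1
  · intro z hz hz0
    refine hfree z (hlam z ?_ (hline z hz) hz0)
    rw [← eval_lf]
    exact hz _ hlamJ
  · intro k
    rw [hhf k, ← hcG_equiv κ.symm e₀ k]

/-- Closed form of `S_U6w`. -/
theorem cU6w : S_U6w := tU6w tU6b cFCI1

end Pool.Agent.Lib.MP_776403_ag.SD.UN
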