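import Pool.Agent.Lib.MP_776403_ag.SD.FR.SpecZ
import Pool.Agent.Lib.MP_776403_ag.SD.FR.SpecM
import Pool.Agent.Lib.MP_776403_ag.SD.FR.U6
import Pool.Agent.Lib.MP_776403_ag.SD.UN.FU6a
import Pool.Agent.Lib.MP_776403_ag.SD.UN.FDe
import Pool.Agent.Lib.MP_776403_ag.SD.UN.U5
import Pool.Agent.Lib.MP_776403_ag.SD.UN.U5a
import Pool.Agent.Lib.MP_776403_ag.SD.UN.U5b
import Pool.Agent.Lib.MP_776403_ag.SD.UN.U5c
import Pool.Agent.Lib.MP_776403_ag.SD.UN.U5d

/-!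
# THEOREM FR, part Z: one general point (proof of `S_As`)
-/

set_option autoImplicit false

open MvPolynomial

noncomputable section

namespace Pool.Agent.Lib.MP_776403_ag.SD.FR

namespace AsAux

open LI UN.U6vAux

variable {N : ℕ}

/-- The points of the cut cone give lines through `x`. -/
theorem isLine_of_cn {I J : Ideal (Sx N)} {x lam : Vx N} (hcn : UN.Cn I x lam J) {z : Vx N}
    (hz : z ∈ zer J) (hz0 : z ≠ 0) : IsLine I x z := by
  have hlz : dp lam z = 0 := by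
    rw [← eval_lf]
    exact hz _ hcn.lamJ
  refine ⟨?_, hcn.line z hz⟩
  rw [LinearIndependent.pair_iff]
  intro s t hst
  have h1 : dp lam (s • x + t • z) = s := by
    rw [dp_add, dp_smul, dp_smul, hcn.lamx, hlz, mul_one, mul_zero, add_zero]
  have h2 : s = 0 := by
    rw [← h1, hst]
    simp [dp]
  refine ⟨h2, ?_⟩
  rw [h2, zero_smul, zero_add] at hst
  exact (smul_eq_zero.1 hst).resolve_right hz0

/-- A general point of the cone: all lines through it are free. -/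
theorem gen_pt {c b D : ℕ} {I : Ideal (Sx N)} {q0 : Polynomial ℤ} (hU : BDat c b D I q0) :
    ∃ x ∈ zer I, x ≠ 0 ∧ ∀ z : Vx N, IsLine I x z → UN.FreeL I x z := by
  obtain ⟨g, hg, hfree⟩ := (UN.tFU6a UN.tFDe) N c I hU.prime hU.hom hU.smooth
  have hX : (X 0 : Sx N) ∉ I := fun h => X_ne_zero 0 (hU.nd _ h (isHomogeneous_X ℂ 0))
  have hgX : g * X 0 ∉ I := fun h => (hU.prime.mem_or_mem h).elim hg hX
  have h1 : ¬ ∀ z ∈ zer I, eval z (g * X 0 : Sx N) = 0 := fun h =>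
    hgX ((tNull N I hU.prime hU.hom).1 _ h)
  push Not at h1
  obtain ⟨x, hx, hne⟩ := h1
  rw [map_mul, eval_X] at hne
  refine ⟨x, hx, ?_, fun z hl => hfree x z hl (left_ne_zero_of_mul hne)⟩
  intro h0
  exact right_ne_zero_of_mul hne (by rw [h0]; rfl)

/-- Closed form of `UN.S_U5`. -/
theorem aU5 : UN.S_U5 :=
  UN.tU5Of (UN.t5c mSecVal eCN)
    (UN.t5d mLoc mHom eLinB mLinS eMapL (eTh1 mHom eLinB) (UN.t5a mHom mCr eLinB)
      (UN.t5b mLoc (UN.t5a mHom mCr eLinB)))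

/-- The values of the sections at `x` are conormal. -/
theorem xi_mem {c : ℕ} {I : Ideal (Sx N)} (hp : I.IsPrime) (hh : IsHom I) (hs : Smooth I c)
    {x z : Vx N} (hl : IsLine I x z) {d : Fin c → ℕ} {s : Fin c → (Fin (N + 1) → Polynomial ℂ)}
    (hT : UN.Ty I x z d s) {ξ : Fin c → Vx N} (hξ : ∀ i l, (s i l).coeff 0 = ξ i l) (i : Fin c) :
    ξ i ∈ CN I x := by
  have h1 := (mSecVal N c I hp hh hs x z hl (d i) (s i) (hT.sec i).1).1 (hT.sec i) 1 0
    (Or.inl one_ne_zero)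
  rw [UN.U5cAux.hval_one (s i) (d i) (hT.one_le i) (hT.sec i).1 0, one_smul, zero_smul,
    add_zero] at h1
  have h2 : (fun k => (s i k).eval 0) = ξ i := by
    funext k
    rw [← Polynomial.coeff_zero_eq_eval_zero]
    exact hξ i k
  rwa [h2] at h1

end AsAux

open AsAux in
/-- (As) ONE GENERAL POINT. -/
theorem tAs (hT : S_MT) (hE : S_FE) (h7 : S_R7) (hz : S_U6z) (hB : S_LB) (hD : S_LD) : S_As := by
  intro N c b D I q0 hU h2b
  obtain ⟨x, hx, hx0, hfree⟩ := gen_pt hU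
  obtain ⟨-, hMT⟩ := hT N c b D I q0 hU h2b
  obtain ⟨d, lam, ξ, J, hd, hsum, hF, hpt⟩ := hMT x hx hx0
  have hcn := hF.cn
  have hline : ∀ z ∈ zer J, z ≠ 0 → IsLine I x z := fun z hzJ hz0 => isLine_of_cn hcn hzJ hz0
  have hξ : ∀ i, ξ i ∈ CN I x := by
    intro i
    obtain ⟨z, hzJ, hz0⟩ := hpt
    obtain ⟨s, hTy, hs⟩ := hF.ty z hzJ hz0
    exact xi_mem hU.prime hU.hom hU.smooth (hline z hzJ hz0) hTy hs i
  obtain ⟨F, f, hEq⟩ := hE N c I hU.prime hU.hom hU.smooth x lam hx hx0 hcn.lamx ξ hξ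
  have hloc : ∀ z ∈ zer J, z ≠ 0 →
      UN.JL I x ≤ Ideal.span (Set.range (UN.gT d F x)) ⊔ ptI z * UN.JL I x := by
    intro z hzJ hz0
    obtain ⟨s, hTy, hs⟩ := hF.ty z hzJ hz0
    exact aU5 N c I d hU.prime hU.hom hU.smooth x z (hline z hzJ hz0) s hTy F
      fun i => ⟨hEq.mem i, fun l => by rw [hEq.gr i, hs i l]⟩
  have hd1 : ∀ i, 1 ≤ d i := fun i => le_trans (by norm_num) (hd i)
  refine ⟨d, hd, hsum, fun hm => ?_, fun hm => ?_⟩
  · obtain ⟨l, hl⟩ := hz N c _ I d hU.prime hU.hom hU.smooth hU.pos hd x lam ξ J hF hpt hfree F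
      (fun i => ⟨hEq.mem i, hEq.gr i⟩) hloc (by rw [hsum]; exact hm)
    have hbN := hU.bN
    exact hD N c D I d (by omega) hd1 hU.deg
      (hB N c I hU.prime hU.hom hU.smooth x lam d ξ F f hEq hF.ind l hl)
  · obtain ⟨J', hLC⟩ := UN.cU6w N c I d hU.prime hU.hom hU.smooth hd1 x lam ξ J hcn
      (tMono _ J _ _ (by rw [hsum]; exact hm) hF.dim) hF.ind hF.deg hfree F
      (fun i => ⟨hEq.mem i, hEq.gr i⟩) hloc
    exact h7 N c b D I q0 hU h2b x lam d ξ F f hd hsum hEq hF.ind J' hLC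

end Pool.Agent.Lib.MP_776403_ag.SD.FR
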