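import Pool.Agent.Lib.MP_776403_ag.SD.FR.SpecM
import Pool.Agent.Lib.MP_776403_ag.SD.U.Ch
import Pool.Agent.Lib.MP_776403_ag.SD.U.V3

/-!
# THEOREM FR, part M: the output (proof of `S_MT`)
-/

set_option autoImplicit false

open MvPolynomial

noncomputable section

namespace Pool.Agent.Lib.MP_776403_ag.SD.FR

namespace MTAux

variable {N : ℕ}

/-- A cone of dimension at least `1` has a point `≠ 0`. -/
theorem ex_pt_dim {J : Ideal (Sx N)} (hp : J.IsPrime) (hh : IsHom J) {m : ℕ} (hm : 1 ≤ m)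
    (hJ : DimGe J m) : ∃ z ∈ zer J, z ≠ 0 := by
  by_contra hcon
  push Not at hcon
  obtain ⟨i, hi⟩ := hJ
  have h1 : (X (i ⟨0, hm⟩) : Sx N) ∈ J := by
    refine (tNull N J hp hh).1 _ fun z hz => ?_
    rw [hcon z hz, eval_X]
    rfl
  have h2 : Ideal.Quotient.mk J (X (i ⟨0, hm⟩) : Sx N) ≠ 0 := hi.ne_zero ⟨0, hm⟩
  exact h2 (Ideal.Quotient.eq_zero_iff_mem.mpr h1)

/-- The cone of the lines through `x`, cut by a linear form. -/
theorem cut_cone {c b D : ℕ} {I : Ideal (Sx N)} {q0 : Polynomial ℤ} (hU : BDat c b D I q0)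
    {x : Vx N} (hx : x ∈ zer I) (hx0 : x ≠ 0) :
    ∃ J₀ : Ideal (Sx N), U.Fml I J₀ c b x ∧ DimGe J₀ (N - b) := by
  obtain ⟨i0, hi0⟩ : ∃ i, x i ≠ 0 := by
    by_contra hno
    push Not at hno
    exact hx0 (funext hno)
  set lam : Sx N := C (x i0)⁻¹ * X i0 with hlam
  have hl1 : lam.IsHomogeneous 1 := by
    have := (isHomogeneous_C (Fin (N + 1)) (x i0)⁻¹).mul (isHomogeneous_X ℂ i0)
    simpa using this
  have hl2 : eval x lam = 1 := by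
    rw [hlam, map_mul, eval_C, eval_X, inv_mul_cancel₀ hi0]
  obtain ⟨P, hPp, hPh, hIP, hdim, hstab, hlines, hdeg⟩ := hU.cone x hx hx0
  have hbN := hU.bN
  have hdim' : DimGe P (N - b + 1) := U.ChAux.dimGe_le (by omega) hdim
  obtain ⟨J₀, hJp, hJh, hPJ, hlJ, hJd⟩ :=
    wCut tNull tTB N (N - b) P x lam hPp hPh hl1 hl2 hstab hdim'
  have hIJ : I ≤ J₀ := hIP.trans hPJ
  have hzJ : ∀ z ∈ zer J₀, z ∈ zer P := fun z hz F hF => hz F (hPJ hF)
  refine ⟨J₀, ⟨hJp, hJh, hIJ, hx, hx0, ⟨lam, hl1, hl2, hlJ⟩, fun z hz => hlines z (hzJ z hz),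
    fun z hz hz0 => hdeg z (hzJ z hz) ?_⟩, hJd⟩
  rw [LinearIndependent.pair_iff]
  intro s t hst
  have h2 : eval (s • x + t • z) lam = s := by
    have h3 : ∀ w : Vx N, eval w lam = (x i0)⁻¹ * w i0 := fun w => by
      rw [hlam, map_mul, eval_C, eval_X]
    have h4 := hz lam hlJ
    rw [h3] at h4
    have h5 : eval x lam = 1 := hl2
    rw [h3] at h5
    rw [h3]
    simp only [Pi.add_apply, Pi.smul_apply, smul_eq_mul]
    linear_combination s * h5 + t * h4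
  rw [hst] at h2
  have hs0 : s = 0 := by
    rw [← h2, hlam, map_mul, eval_X]
    simp
  refine ⟨hs0, ?_⟩
  rw [hs0, zero_smul, zero_add] at hst
  exact (smul_eq_zero.mp hst).resolve_right hz0

end MTAux

open MTAux U.V3Aux in
/-- (MT) The output of part M (`U.S_VT` is closed by `U.tVT`). -/
theorem tMT (h1 : S_B2) (h2 : S_MS) (h3 : U.S_VT) : S_MT := by
  intro N c b D I q0 hU hbN
  have hcb := hU.cb
  have hpos := hU.pos
  have key : ∀ x ∈ zer I, x ≠ 0 → 2 * c ≤ b ∧ ∃ (d : Fin c → ℕ) (lam : Vx N) (ξ : Fin c → Vx N)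
      (J : Ideal (Sx N)), (∀ i, 2 ≤ d i) ∧ ∑ i, d i = b ∧
      FTm I d x lam ξ J (N - b - (c - 1) * (b - 2 * c)) ∧ ∃ z ∈ zer J, z ≠ 0 := by
    intro x hxI hx0
    obtain ⟨L⟩ := eLoc N c I hU.smooth x hxI hx0
    obtain ⟨J₀, hF0, hJ0⟩ := cut_cone hU hxI hx0
    have hpt : ∃ z ∈ zer J₀, z ≠ 0 := ex_pt_dim hF0.prime hF0.hom (m := N - b) (by omega) hJ0
    have hq : ∀ z ∈ zer J₀, z ≠ 0 → ∀ ξ : Fin c → ℂ, ξ ≠ 0 → U.qv L ξ 0 z ≠ 0 :=
      h1 N c b (N - b) I J₀ x hpos hcb hU.prime hU.hom hU.nd hU.smooth hF0 hJ0 (by omega) L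
    obtain ⟨hcb2, d, J, B, hd, hs, hJJ, hF, hz, hB, hJ⟩ :=
      h2 N c b I J₀ x hpos hU.prime hU.hom hU.smooth hF0 hpt L hq (N - b) hJ0
    refine ⟨hcb2, ?_⟩
    obtain ⟨l, hl1, hlx, hlJ⟩ := hF.lam
    obtain ⟨lam, rfl⟩ := exists_lf l hl1
    refine ⟨d, lam, fun i => U.xv L (B i), J, hd, hs, ⟨⟨hx0, hxI, ?_, hF.prime, hF.hom, hlJ,
      hF.line⟩, hJ, xv_ind L hB.bas, fun z hz hz0 => ?_, fun z hz hz0 => ?_⟩, hz⟩
    · rw [← eval_lf]
      exact hlx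
    · exact (h3 N c b I J x hpos hU.prime hU.hom hU.smooth hF L d B
        (fun i => le_trans (by omega) (hd i)) hs hB z hz hz0).2
    · rw [hs]
      exact hF.deg z hz hz0
  obtain ⟨y, hy, hy0⟩ := ex_pt hU.prime hU.hom hU.nd
  exact ⟨(key y hy hy0).1, fun x hx hx0 => (key x hx hx0).2⟩

end Pool.Agent.Lib.MP_776403_ag.SD.FR
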