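import Pool.Agent.Lib.MP_776403_ag.SD.FR.SpecZ

/-!
# THEOREM FR, part Z: arithmetic (proofs of `S_A1`, `S_A2`)
-/

set_option autoImplicit false

open MvPolynomial

noncomputable section

namespace Pool.Agent.Lib.MP_776403_ag.SD.FR

namespace A12Aux

/-- The sum of the first `k + 1` terms. -/
theorem sum_first (c A : ℕ) : ∀ k : ℕ, c * k ≤ A →
    2 * ∑ j ∈ Finset.range (k + 1), (A - c * j) + (k + 1) * (c * k) = (k + 1) * (2 * A) := by
  intro k
  induction k with
  | zero => intro _; simp
  | succ k ih =>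
    intro hk
    have h1 : c * k ≤ A := le_trans (Nat.mul_le_mul_left c (Nat.le_succ k)) hk
    have h2 := ih h1
    rw [Finset.sum_range_succ]
    obtain ⟨t, ht⟩ := Nat.exists_eq_add_of_le hk
    have h3 : A - c * (k + 1) = t := by omega
    rw [h3]
    have h4 : A = c * (k + 1) + t := ht
    have h5 : 2 * ∑ j ∈ Finset.range (k + 1), (A - c * j) =
        (k + 1) * (2 * A) - (k + 1) * (c * k) := by omega
    have h6 : (k + 1) * (c * k) ≤ (k + 1) * (2 * A) := by
      apply Nat.mul_le_mul_left
      omega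
    zify [h6] at h5 ⊢
    rw [mul_add, h5]
    rw [h4]
    push_cast
    ring

/-- The whole sum. -/
theorem sum_all {c D m e : ℕ} (hm : D = m * c + e + 1) (he : e < c) :
    2 * ∑ j ∈ Finset.range D, (D - 1 - c * j) = (m + 1) * (m * c + 2 * e) := by
  have hc : 1 ≤ c := by omega
  have hmD : m + 1 ≤ D := by nlinarith
  have h1 : ∑ j ∈ Finset.range D, (D - 1 - c * j) =
      ∑ j ∈ Finset.range (m + 1), (D - 1 - c * j) := by
    symm
    apply Finset.sum_subset
    · intro j hj
      rw [Finset.mem_range] at hj ⊢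
      omega
    · intro j _ hj
      rw [Finset.mem_range, not_lt] at hj
      have h2 : c * (m + 1) ≤ c * j := Nat.mul_le_mul_left c hj
      have h3 : c * (m + 1) = m * c + c := by ring
      omega
  have h2 := sum_first c (D - 1) m (by rw [hm, mul_comm c m]; omega)
  rw [← h1] at h2
  have h3 : D - 1 = m * c + e := by omega
  have h4 : (m + 1) * (2 * (D - 1)) = (m + 1) * (m * c + 2 * e) + (m + 1) * (c * m) := by
    rw [h3]
    ring
  omega

end A12Aux

open A12Aux

theorem tA1 : S_A1 := by
  intro c b D hc hb hD h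
  set m := (D - 1) / c with hm
  set e := (D - 1) % c with he
  have h1 : c * m + e = D - 1 := Nat.div_add_mod (D - 1) c
  have hec : e < c := Nat.mod_lt _ (by omega)
  have h2 : D = m * c + e + 1 := by
    rw [mul_comm m c]
    omega
  rw [sum_all h2 hec] at h
  obtain ⟨u, hu⟩ := Nat.exists_eq_add_of_le hb
  have h3 : b - c = u := by omega
  rw [h3] at h
  refine ⟨?_, fun hdvd => ?_⟩
  · by_contra hcon
    have h4 : m + 2 ≤ u := by omega
    have h5 : D * (m + 2) ≤ (m + 1) * (m * c + 2 * e) := le_trans (Nat.mul_le_mul_left D h4) h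
    rw [h2] at h5
    have h6 : m * e ≤ m * c := Nat.mul_le_mul_left m hec.le
    nlinarith
  · have he0 : e = 0 := Nat.eq_zero_of_dvd_of_lt
      ((Nat.dvd_add_right (Dvd.intro m rfl)).1 (by rw [h1]; exact hdvd)) hec
    by_contra hcon
    have h4 : m + 1 ≤ u := by omega
    have h5 : D * (m + 1) ≤ (m + 1) * (m * c + 2 * e) := le_trans (Nat.mul_le_mul_left D h4) h
    rw [h2, he0] at h5
    nlinarith

theorem tA2 : S_A2 := by
  intro N c b D hc hD hN h1 h2
  set m := (D - 1) / c with hm
  set e := (D - 1) % c with he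
  have h3 : c * m + e = D - 1 := Nat.div_add_mod (D - 1) c
  have hec : e < c := Nat.mod_lt _ (by omega)
  have hm1 : 1 ≤ m := by
    rw [hm]
    exact (Nat.one_le_div_iff (by omega)).2 (by omega)
  have hD' : D = c * m + e + 1 := by omega
  obtain ⟨t, ht⟩ := Nat.exists_eq_add_of_le hc
  obtain ⟨r, hr⟩ := Nat.exists_eq_add_of_le hm1
  have h4 : c * m = c + c * r := by rw [hr]; ring
  have h5 : c * r = 3 * r + t * r := by rw [ht]; ring
  rcases Nat.eq_zero_or_pos r with hr0 | hr0
  · subst hr0
    omega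
  · rcases Nat.eq_zero_or_pos e with he0 | he0
    · have h6 : c ∣ D - 1 := by
        rw [← h3, he0]
        exact ⟨m, rfl⟩
      have h7 := h2 h6
      have h8 : 0 ≤ t * r := Nat.zero_le _
      have h9 : t ≤ t * r := Nat.le_mul_of_pos_right t hr0
      omega
    · have h9 : t ≤ t * r := Nat.le_mul_of_pos_right t hr0
      omega

end Pool.Agent.Lib.MP_776403_ag.SD.FR
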