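import Pool.Agent.Lib.MP_776403_ag.SD.FR.SpecZ

/-! THEOREM FR, statement (A3): the cases. -/

set_option autoImplicit false

open MvPolynomial

noncomputable section

namespace Pool.Agent.Lib.MP_776403_ag.SD.FR

namespace A3Aux

/-- the case `5 ≤ c` -/
lemma big (N c b D m e : ℕ) (hc : 5 ≤ c) (hD : c * m + e = D - 1) (hD1 : 1 ≤ D) (hN : D + 1 + c ≤ N)
    (h2 : 2 * c ≤ b) (h3 : b ≤ c + m + 1) : 2 * b + c + 1 ≤ N := by
  have hm : c ≤ m + 1 := by omega
  have h4 : 2 * c + 2 * m + 1 ≤ c * m := by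
    obtain ⟨k, rfl⟩ : ∃ k, c = k + 5 := ⟨c - 5, by omega⟩
    obtain ⟨l, rfl⟩ : ∃ l, m = l + k + 4 := ⟨m - k - 4, by omega⟩
    nlinarith [Nat.zero_le (k * l), Nat.zero_le (k * k), Nat.zero_le k, Nat.zero_le l]
  omega

end A3Aux

theorem tA3 : S_A3 := by
  intro N c b D hc hD hN h2 h3 h4
  have hdm := Nat.div_add_mod (D - 1) c
  have he : (D - 1) % c < c := Nat.mod_lt _ (by omega)
  have h5 : (D - 1) % c = 0 → b ≤ c + (D - 1) / c := fun h => h4 (Nat.dvd_of_mod_eq_zero h)
  clear h4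
  generalize (D - 1) / c = m at *
  generalize (D - 1) % c = e at *
  rcases (by omega : c = 3 ∨ c = 4 ∨ 5 ≤ c) with rfl | rfl | h
  · simp only [show (3 - 1 : ℕ) = 2 from rfl]
    rcases (by omega : 7 ≤ m ∨ m ≤ 6) with h | h
    · left; omega
    · have hm2 : 2 ≤ m := by omega
      have hb : b ≤ 10 := by omega
      by_cases hs : b = 9 ∧ D = 17 ∧ N = 21
      · obtain ⟨rfl, rfl, rfl⟩ := hs
        right; right
        norm_num
      · have hs2 : 2 * b + 3 + 1 ≤ N ∨ b - 3 + 1 ≤ N - b - 2 * (b - 6) := by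
          interval_cases m <;> interval_cases e <;> interval_cases b <;> omega
        rcases hs2 with hs2 | hs2
        · exact Or.inl hs2
        · exact Or.inr (Or.inl hs2)
  · simp only [show (4 - 1 : ℕ) = 3 from rfl]
    rcases (by omega : 4 ≤ m ∨ m ≤ 3) with h | h
    · left; omega
    · right; left; omega
  · left
    exact A3Aux.big N c b D m e h hdm (by omega) hN h2 h3

end Pool.Agent.Lib.MP_776403_ag.SD.FR
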