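import Pool.Agent.Lib.MP_776403_ag.SD.FR.SpecZ

/-!
# THEOREM FR, module A45: arithmetic of the types
-/

set_option autoImplicit false

noncomputable section

namespace Pool.Agent.Lib.MP_776403_ag.SD.FR

namespace A45Aux

theorem prod_ge {ι : Type*} [DecidableEq ι] (s : Finset ι) (x : ι → ℕ) :
    2 ^ s.card * (2 + ∑ i ∈ s, x i) ≤ 2 * ∏ i ∈ s, (2 + x i) := by
  induction s using Finset.induction_on with
  | empty => simp
  | insert a s ha ih =>
    rw [Finset.card_insert_of_notMem ha, Finset.sum_insert ha, Finset.prod_insert ha, pow_succ]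
    have h1 : (2 + x a) * (2 ^ s.card * (2 + ∑ i ∈ s, x i)) ≤
        (2 + x a) * (2 * ∏ i ∈ s, (2 + x i)) := Nat.mul_le_mul_left _ ih
    have h2 : 2 ^ s.card * 2 * (2 + (x a + ∑ i ∈ s, x i)) ≤
        (2 + x a) * (2 ^ s.card * (2 + ∑ i ∈ s, x i)) := by
      have h3 : 2 * (2 + (x a + ∑ i ∈ s, x i)) ≤ (2 + x a) * (2 + ∑ i ∈ s, x i) := by
        nlinarith [Nat.zero_le (x a * ∑ i ∈ s, x i)]
      calc 2 ^ s.card * 2 * (2 + (x a + ∑ i ∈ s, x i))
          = 2 ^ s.card * (2 * (2 + (x a + ∑ i ∈ s, x i))) := by ring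
        _ ≤ 2 ^ s.card * ((2 + x a) * (2 + ∑ i ∈ s, x i)) := Nat.mul_le_mul_left _ h3
        _ = (2 + x a) * (2 ^ s.card * (2 + ∑ i ∈ s, x i)) := by ring
    calc 2 ^ s.card * 2 * (2 + (x a + ∑ i ∈ s, x i))
        ≤ (2 + x a) * (2 * ∏ i ∈ s, (2 + x i)) := h2.trans h1
      _ = 2 * ((2 + x a) * ∏ i ∈ s, (2 + x i)) := by ring

theorem two_pow_ge (c : ℕ) (hc : 3 ≤ c) : 2 * (c + 1) ≤ 2 ^ c := by
  induction c, hc using Nat.le_induction with
  | base => norm_num
  | succ n hn ih =>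
    rw [pow_succ]
    omega

end A45Aux

open A45Aux

theorem tA4 : S_A4 := by
  intro N c b D d hc hd hb hD hN
  have h1 := prod_ge (Finset.univ : Finset (Fin c)) (fun i => d i - 2)
  have e1 : ∏ i, (2 + (d i - 2)) = D := by
    rw [← hD]
    exact Finset.prod_congr rfl fun i _ => by have := hd i; omega
  have e2 : 2 * c + ∑ i, (d i - 2) = b := by
    rw [← hb]
    have h3 : ∑ i : Fin c, d i = ∑ i : Fin c, (2 + (d i - 2)) :=
      Finset.sum_congr rfl fun i _ => by have := hd i; omega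
    rw [h3, Finset.sum_add_distrib, Finset.sum_const, Finset.card_univ, Fintype.card_fin,
      smul_eq_mul]
    ring
  rw [Finset.card_univ, Fintype.card_fin, e1] at h1
  generalize ∑ i, (d i - 2) = X at h1 e2
  have h2 := two_pow_ge c hc
  have h3 : 2 * (c + 1) * (2 + X) ≤ 2 ^ c * (2 + X) := Nat.mul_le_mul_right _ h2
  have h4 : (c + 1) * (2 + X) ≤ D := by nlinarith
  have h5 : b - 2 * c = X := by omega
  rw [h5]
  obtain ⟨k, rfl⟩ : ∃ k, c = k + 1 := ⟨c - 1, by omega⟩
  have h6 : k + 1 - 1 = k := by omega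
  rw [h6]
  have h7 : (k + 1 + 1) * (2 + X) = 2 * k + 4 + k * X + 2 * X := by ring
  rw [h7] at h4
  generalize k * X = Y at h4 ⊢
  omega

theorem tA5 : S_A5 := by
  intro d hd hs
  have h0 := hd 0
  have h1 := hd 1
  have h2 := hd 2
  rw [Fin.sum_univ_three] at hs
  rw [Fin.prod_univ_three]
  generalize d 0 = x at *
  generalize d 1 = y at *
  generalize d 2 = z at *
  have hx : x ≤ 5 := by omega
  have hy : y ≤ 5 := by omega
  obtain rfl : z = 9 - x - y := by omega
  interval_cases x <;> interval_cases y <;> omega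

end Pool.Agent.Lib.MP_776403_ag.SD.FR
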