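import Pool.Agent.Lib.MP_776403_ag.SD.FR.SpecC2
import Pool.Agent.Lib.MP_776403_ag.SD.FR.As
import Pool.Agent.Lib.MP_776403_ag.SD.U.V3
import Pool.Agent.Lib.MP_776403_ag.SD.U.QD
import Pool.Agent.Lib.MP_776403_ag.SD.U.Gp

/-!
# THEOREM FR: one general point, exact loss (proof of `S_Asx`), and the full range for `c = 2`
-/

set_option autoImplicit false

open MvPolynomial

noncomputable section

namespace Pool.Agent.Lib.MP_776403_ag.SD.FR

open AsAux in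
/-- (Asx) ONE GENERAL POINT. -/
theorem tAsx (hT : S_MTx) (hE : S_FE) (h7 : S_R7) : S_Asx := by
  intro N c b D I q0 hU h2b
  obtain ⟨x, hx, hx0, hfree⟩ := gen_pt hU
  obtain ⟨d, lam, ξ, J, hd, hsum, hF, hpt, hprod⟩ := hT N c b D I q0 hU h2b x hx hx0
  have hcn := hF.cn
  have hline : ∀ z ∈ zer J, z ≠ 0 → IsLine I x z := fun z hzJ hz0 => isLine_of_cn hcn hzJ hz0
  have hξ : ∀ i, ξ i ∈ CN I x := by
    intro i
    obtain ⟨z, hzJ, hz0⟩ := hpt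
    obtain ⟨s, hTy, hs⟩ := hF.ty z hzJ hz0
    exact xi_mem hU.prime hU.hom hU.smooth (hline z hzJ hz0) hTy hs i
  obtain ⟨F, f, hEq⟩ := hE N c I hU.prime hU.hom hU.smooth x lam hx hx0 hcn.lamx ξ hξ
  have hloc : ∀ z ∈ zer J, z ≠ 0 →
      UN.JL I x ≤ Ideal.span (Set.range (UN.gT d F x)) ⊔ ptI z * UN.JL I x := by
    intro z hzJ hz0
    obtain ⟨s, hTy, hs⟩ := hF.ty z hzJ hz0
    exact aU5 N c I d hU.prime hU.hom hU.smooth x z (hline z hzJ hz0) s hTy F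
      fun i => ⟨hEq.mem i, fun l => by rw [hEq.gr i, hs i l]⟩
  have hd1 : ∀ i, 1 ≤ d i := fun i => le_trans (by norm_num) (hd i)
  refine ⟨d, hd, hsum, hprod, fun hm => ?_⟩
  obtain ⟨J', hLC⟩ := UN.cU6w N c I d hU.prime hU.hom hU.smooth hd1 x lam ξ J hcn
    (tMono _ J _ _ (by rw [hsum]; exact hm) hF.dim) hF.ind hF.deg hfree F
    (fun i => ⟨hEq.mem i, hEq.gr i⟩) hloc
  exact h7 N c b D I q0 hU h2b x lam d ξ F f hd hsum hEq hF.ind J' hLC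

/-- (C2) THE FULL RANGE FOR `c = 2`. -/
theorem tC2 (hW : S_W1) (hDG : S_DG) (hA : S_Asx) (hE : S_E1) (ha : S_C2a) (hb : S_C2b) :
    S_C2 := by
  intro N n D I hN hDn hI hh hnd hS hdeg
  have hn : N - 2 = n := by omega
  have hdeg' : U.HasDeg I (N - 2) D := by rw [hn]; exact hdeg
  obtain ⟨b, q0, hB⟩ := hW N 2 D I le_rfl (by omega) hI hh hnd hS hdeg'
  rcases Nat.eq_zero_or_pos D with h0 | hD
  · -- `D ≥ 1`
    exfalso
    subst h0
    obtain ⟨x, hx, hx0⟩ := U.V3Aux.ex_pt hI hh hnd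
    have hQD := (U.tQD U.tGp) N 2 0 I (by omega) hI hh hS ⟨x, hx, hx0⟩ hdeg'
    obtain ⟨q', -, h1, h2⟩ := hQD
    rw [h1] at h2
    simp at h2
  have h1 := ha b D hD (hDG N 2 b D I q0 le_rfl hB)
  by_cases h2 : D = 2 * (b - 2)
  · exact hE N b D I q0 hB h2
  · have h2b : 2 * b ≤ N := by
      have := hB.cb
      omega
    obtain ⟨d, hd, hs, hp, hG⟩ := hA N 2 b D I q0 hB h2b
    obtain ⟨h3, h4⟩ := hb N b D d hd hs h2b (by omega)
    obtain ⟨G, hG1, hG2⟩ := hG (h4 (hp h3) h2)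
    exact ⟨G, fun i => ⟨d i, hG1 i⟩, hG2⟩

end Pool.Agent.Lib.MP_776403_ag.SD.FR
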