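import Pool.Agent.Lib.MP_776403_ag.SD.FR.SpecM
import Pool.Agent.Lib.MP_776403_ag.SD.Main
import Pool.Agent.Lib.MP_776403_ag.SD.U.Base
import Pool.Agent.Lib.MP_776403_ag.SD.U.Zak
import Pool.Agent.Lib.MP_776403_ag.SD.U.V3
import Pool.Agent.Lib.MP_776403_ag.SD.U.FB

/-!
# THEOREM FR, part M: no conormal covector is constant along a line, sharp form (proof of `S_B2`)

`tB2 (h1 : U.S_Cut) (h2 : U.S_VL) (h3 : U.S_Zak) : S_B2`.
-/

set_option autoImplicit false

open MvPolynomial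

noncomputable section

namespace Pool.Agent.Lib.MP_776403_ag.SD.FR

namespace B2Aux

open LI

variable {N : ℕ} {I J : Ideal (Sx N)} {x : Vx N} {c a : ℕ}

/-- If `q_ξ^0(z) = 0` then the constant vector `xv L ξ` is conormal along the line `span (x, z)`. -/
theorem const_line (h2 : U.S_VL) (hI : I.IsPrime) (hIh : IsHom I) (hsm : Smooth I c)
    (L : Loc I x c) (ξ : Fin c → ℂ) (z : Vx N) (hline : IsLine I x z)
    (hq : U.qv L ξ 0 z = 0) (σ τ : ℂ) (hστ : σ ≠ 0 ∨ τ ≠ 0) :
    U.xv L ξ ∈ CN I (σ • x + τ • z) := by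
  obtain ⟨g, p, -, -, -, hpc, hps⟩ := h2 N c I hI hIh hsm x z hline L 0 ξ
    (by rw [hq]; exact Submodule.zero_mem _)
  have h5 := (mSecVal N c I hI hIh hsm x z hline (0 + 1) _ hps.1).1 hps σ τ hστ
  have h6 : hval (fun j => (p j).reflect 0) (0 + 1) σ τ = U.xv L ξ := by
    funext j
    change ∑ i ∈ Finset.range (0 + 1), ((p j).reflect 0).coeff i * σ ^ (0 + 1 - 1 - i) * τ ^ i = _
    rw [zero_add, Finset.sum_range_one, Polynomial.coeff_reflect, Polynomial.revAt_zero, hpc j]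
    simp
  rwa [h6] at h5

end B2Aux

open B2Aux LI U.ZakAux in
/-- (B2) No conormal covector is constant along a line: `a ≤ δ` is enough. -/
theorem tB2 (h1 : U.S_Cut) (h2 : U.S_VL) (h3 : U.S_Zak) : S_B2 := by
  intro N c a δ I J x hc hca hI hIh hnd hsm hF hD hδ L z₀ hz₀ hz₀0 ξ hξ h0
  have hFI : (U.FI (fun _ : Fin c => 1) 0).card = 0 := by
    rw [U.BaseAux.FI_zero, Finset.card_empty]
  have hempty : IsEmpty (U.FI (fun _ : Fin c => 1) 0) := by
    rw [U.BaseAux.FI_zero]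
    exact Finset.isEmpty_coe_sort.2 rfl
  have hflag : U.Flag L (fun _ => 1) J 0 (fun i => Pi.single i 1) := by
    refine ⟨Pi.linearIndependent_single_one (Fin c) ℂ, fun z _ _ => ?_, fun z _ _ i hi => ?_⟩
    · exact linearIndependent_empty_type
    · exact absurd hi (by norm_num)
  obtain ⟨J', hJJ', hF', hz', hD', hq⟩ := h1 N c a I J x hc hI hIh hsm hF L (fun _ => 1) 0
    (fun i => Pi.single i 1) (fun _ => le_refl 1) hflag ξ z₀ hz₀ hz₀0
    (by rw [h0]; exact Submodule.zero_mem _) δ hD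
  rw [hFI, Nat.sub_zero] at hD'
  have hq0 : ∀ z ∈ zer J', z ≠ 0 → U.qv L ξ 0 z = 0 := by
    intro z hz hz0
    have h4 := hq z hz hz0
    rw [U.BaseAux.Fj_zero] at h4
    exact (Submodule.mem_bot ℂ).1 h4
  obtain ⟨l, hl1, hlx, hlJ⟩ := hF'.lam
  obtain ⟨α, rfl⟩ := U.V3Aux.exists_lf l hl1
  have hαx : dp α x = 1 := by
    rw [← U.ZakAux.eval_lf]
    exact hlx
  have hkey : ∀ z ∈ zer J', z ≠ 0 → ∀ σ τ : ℂ, (σ ≠ 0 ∨ τ ≠ 0) →
      U.xv L ξ ∈ CN I (σ • x + τ • z) := fun z hz hz0 σ τ hστ =>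
    const_line h2 hI hIh hsm L ξ z (U.FBAux.isLine hF' hz hz0) (hq0 z hz hz0) σ τ hστ
  have hD2 : DimGe (H.joinI J' x) (c + 1) :=
    U.ZakAux.cUpZ J' hF'.prime x α hαx hlJ c (tMono _ J' _ c (by omega) hD')
  refine h3 N c I hI hIh hnd hsm (H.joinI J' x) (H.joinI_prime hF'.prime x)
    (H.joinI_hom hF'.prime hF'.hom x) ?_ (U.xv L ξ) ?_ ?_ hD2
  · intro F hFI'
    rw [H.mem_joinI hF'.prime hF'.hom]
    intro z hz s
    have h4 := hF'.line z hz s 1
    rw [one_smul, add_comm] at h4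
    exact h4 F hFI'
  · intro h
    refine hξ (funext fun b => ?_)
    rw [← U.V3Aux.xv_B L ξ b, h]
    rfl
  · intro y hy hy0
    have hz : y - dp α y • x ∈ zer J' := by
      intro F hFJ
      have h4 : prjZ x (lf α) F ∈ H.joinI J' x := by
        rw [H.mem_joinI hF'.prime hF'.hom]
        intro w hw t
        have hw0 : dp α w = 0 := by
          rw [← U.ZakAux.eval_lf]
          exact hw _ hlJ
        have h5 : eval (w + t • x) (lf α) = t := by
          rw [U.ZakAux.eval_lf, dp_add_right, dp_smul_right, hw0, hαx, zero_add, mul_one]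
        rw [eval_prj, h5, add_sub_cancel_right]
        exact hw F hFJ
      have h5 := hy _ h4
      rwa [eval_prj, U.ZakAux.eval_lf] at h5
    by_cases hz0 : y - dp α y • x = 0
    · have hyx : y = dp α y • x + (0 : ℂ) • z₀ := by
        rw [zero_smul, add_zero]
        exact sub_eq_zero.1 hz0
      have hα : dp α y ≠ 0 := by
        intro h
        rw [h, zero_smul, zero_smul, add_zero] at hyx
        exact hy0 hyx
      have h4 := hkey z₀ hz' hz₀0 (dp α y) 0 (Or.inl hα)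
      rwa [← hyx] at h4
    · have hyx : dp α y • x + (1 : ℂ) • (y - dp α y • x) = y := by
        rw [one_smul]
        exact add_sub_cancel _ _
      have h4 := hkey _ hz hz0 (dp α y) 1 (Or.inr one_ne_zero)
      rwa [hyx] at h4

end Pool.Agent.Lib.MP_776403_ag.SD.FR
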