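import Pool.Agent.Lib.MP_776403_ag.SD.FR.SpecC2

set_option autoImplicit false

open MvPolynomial

noncomputable section

namespace Pool.Agent.Lib.MP_776403_ag.SD.FR

namespace C2aAux

private lemma step (D : ℕ) :
    ∑ j ∈ Finset.range (D + 2), (D + 2 - 1 - 2 * j) =
      (D + 1) + ∑ j ∈ Finset.range D, (D - 1 - 2 * j) := by
  rw [Finset.sum_range_succ', Finset.sum_range_succ]
  have h1 : ∀ j : ℕ, D + 2 - 1 - 2 * (j + 1) = D - 1 - 2 * j := by intro j; omega
  simp only [h1]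
  omega

private lemma bound : ∀ D : ℕ,
    4 * ∑ j ∈ Finset.range D, (D - 1 - 2 * j) ≤ D * D ∧
    4 * ∑ j ∈ Finset.range (D + 1), (D + 1 - 1 - 2 * j) ≤ (D + 1) * (D + 1) := by
  intro D
  induction D with
  | zero => constructor <;> simp
  | succ D ih =>
    refine ⟨ih.2, ?_⟩
    have h := step D
    have h2 : D + 1 + 1 = D + 2 := rfl
    rw [h2, h]
    nlinarith [ih.1]

end C2aAux

/-- (C2a). -/
theorem tC2a : S_C2a := by
  intro b D hD h
  have h1 := (C2aAux.bound D).1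
  have h2 : D * (2 * (b - 2)) ≤ D * D := by
    calc D * (2 * (b - 2)) = 2 * (D * (b - 2)) := by ring
      _ ≤ 2 * (2 * ∑ j ∈ Finset.range D, (D - 1 - 2 * j)) := Nat.mul_le_mul_left 2 h
      _ = 4 * ∑ j ∈ Finset.range D, (D - 1 - 2 * j) := by ring
      _ ≤ D * D := h1
  exact Nat.le_of_mul_le_mul_left h2 hD

end Pool.Agent.Lib.MP_776403_ag.SD.FR
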