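import Pool.Agent.Lib.MP_776403_ag.SD.FR.SpecC2

/-!
# SD/FR/C2b: the arithmetic of the dimensions for `c = 2`
-/

set_option autoImplicit false

open MvPolynomial

noncomputable section

namespace Pool.Agent.Lib.MP_776403_ag.SD.FR

namespace C2bAux

theorem aux1 (p q N b s : ℕ) (hp : 2 ≤ p) (hpq : p ≤ q) (hb : p + q = b) (hN : 2 * b ≤ N)
    (hs : s = q - p) : 2 + 1 ≤ N - b - s := by
  omega

theorem aux2 (p q N b D s : ℕ) (hp : 2 ≤ p) (hpq : p ≤ q) (hb : p + q = b)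
    (hD : p * q = D) (hDN : D + 3 ≤ N) (hne : D ≠ 2 * (b - 2)) (hs : s = q - p) :
    b - 2 + 1 ≤ N - b - s := by
  have hp3 : 3 ≤ p := by
    rcases Nat.lt_or_ge p 3 with h | h
    · exfalso
      apply hne
      have hp2 : p = 2 := by omega
      subst hp2
      rw [← hD, ← hb]
      omega
    · exact h
  obtain ⟨u, rfl⟩ := Nat.exists_eq_add_of_le hp3
  obtain ⟨v, rfl⟩ := Nat.exists_eq_add_of_le hpq
  have h1 : (3 + u) * (3 + u + v) = 9 + 6 * u + 3 * v + u * u + u * v := by ring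
  rw [h1] at hD
  obtain ⟨uu, huu⟩ : ∃ uu, uu = u * u := ⟨_, rfl⟩
  obtain ⟨uv, huv⟩ : ∃ uv, uv = u * v := ⟨_, rfl⟩
  rw [← huu, ← huv] at hD
  omega

end C2bAux

theorem tC2b : S_C2b := by
  intro N b D d hd hb hN hDN
  have h0 := hd 0
  have h1 := hd 1
  rw [Fin.sum_univ_two] at hb
  have hs : ∑ i, ∑ j, (d j - d i) = (d 0 - d 1) + (d 1 - d 0) := by
    rw [Fin.sum_univ_two, Fin.sum_univ_two, Fin.sum_univ_two]
    omega
  rw [hs]
  rcases le_total (d 0) (d 1) with h | h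
  · have hs' : (d 0 - d 1) + (d 1 - d 0) = d 1 - d 0 := by omega
    refine ⟨C2bAux.aux1 (d 0) (d 1) N b _ h0 h hb hN hs', ?_⟩
    intro hD hne
    rw [Fin.prod_univ_two] at hD
    exact C2bAux.aux2 (d 0) (d 1) N b D _ h0 h hb hD hDN hne hs'
  · have hs' : (d 0 - d 1) + (d 1 - d 0) = d 0 - d 1 := by omega
    have hb' : d 1 + d 0 = b := by omega
    refine ⟨C2bAux.aux1 (d 1) (d 0) N b _ h1 h hb' hN hs', ?_⟩
    intro hD hne
    rw [Fin.prod_univ_two] at hD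
    exact C2bAux.aux2 (d 1) (d 0) N b D _ h1 h hb' (by rw [mul_comm]; exact hD) hDN hne hs'

end Pool.Agent.Lib.MP_776403_ag.SD.FR
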