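import Pool.Agent.Lib.MP_776403_ag.SD.FR.W1
import Pool.Agent.Lib.MP_776403_ag.SD.UK.Spec2

/-!
# THEOREM FR, part W: the inequality of Castelnuovo for the degree of the lines, all `n ≥ c + 1`
-/

set_option autoImplicit false

open MvPolynomial

noncomputable section

namespace Pool.Agent.Lib.MP_776403_ag.SD.FR

theorem tDG (hC : UK.S_Cas) (hr : S_W1r) : S_DG := by
  intro N c b D I q0 hc2 hB
  rcases Nat.eq_zero_or_pos D with h0 | hD
  · subst h0
    simp
  have hcb := hB.cb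
  have hbN := hB.bN
  have h1 := hC N c D I q0 hB.pos (by omega) hD hB.prime hB.hom hB.nd hB.qp hB.q1
  have h2 := hr N c b D I q0 hB
  have h3 : ((D * (b - c) : ℕ) : ℤ) = (D : ℤ) * ((b : ℤ) - c) := by
    rw [Nat.cast_mul, Nat.cast_sub hcb]
  have h4 : ((D * (b - c) : ℕ) : ℤ) ≤
      ((2 * ∑ j ∈ Finset.range D, (D - 1 - c * j) : ℕ) : ℤ) := by
    rw [h3, ← h2, Nat.cast_mul]
    push_cast at h1 ⊢
    linarith
  exact_mod_cast h4

end Pool.Agent.Lib.MP_776403_ag.SD.FR
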