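import Pool.Agent.Lib.MP_776403_ag.SD.U.SpecC
import Pool.Agent.Lib.MP_776403_ag.SD.U.SpecV
import Pool.Agent.Lib.MP_776403_ag.SD.UN.Spec7

/-!
# THEOREM FR (full range): `c ≥ 3`, `deg X ≥ c + 3`, `n ≥ deg X + 1` implies complete intersection

Definitions.  `b` = the degree of `N_X` on the lines.  The flags are those of a MOST SPECIAL line; the numbers
`d i` need not come from THEOREM W.
-/

set_option autoImplicit false

open MvPolynomial

noncomputable section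

namespace Pool.Agent.Lib.MP_776403_ag.SD.FR

variable {N : ℕ}

/-- The first order data: `b` = degree of the lines, `q0` = numerator of the Hilbert series, `D` = degree. -/
structure BDat (c b D : ℕ) (I : Ideal (Sx N)) (q0 : Polynomial ℤ) : Prop where
  pos : 1 ≤ c
  prime : I.IsPrime
  hom : IsHom I
  nd : ∀ F ∈ I, F.IsHomogeneous 1 → F = 0
  smooth : Smooth I c
  cb : c ≤ b
  bN : b + c + 1 ≤ N
  deg : U.HasDeg I (N - c) D
  qp : QP N c (fun k => Module.finrank ℂ (gr I k)) q0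
  q1 : q0.eval 1 = D
  cone : ∀ y ∈ zer I, y ≠ 0 → ∃ P : Ideal (Sx N), P.IsPrime ∧ IsHom P ∧ I ≤ P ∧
    DimGe P (N + 1 - b) ∧ (∀ z ∈ zer P, ∀ s : ℂ, z + s • y ∈ zer P) ∧
    (∀ z ∈ zer P, ∀ s t : ℂ, s • y + t • z ∈ zer I) ∧
    ∀ z ∈ zer P, LinearIndependent ℂ ![y, z] → DegEq I c b y z

/-- A FAMILY OF LINES OF TYPE `d` THROUGH `x` with fixed values `ξ i` at `x`, of dimension `≥ m`
(`UN.FT` has `m = ∑ d i + 2`). -/
structure FTm (I : Ideal (Sx N)) {c : ℕ} (d : Fin c → ℕ) (x lam : Vx N) (ξ : Fin c → Vx N)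
    (J₀ : Ideal (Sx N)) (m : ℕ) : Prop where
  cn : UN.Cn I x lam J₀
  dim : DimGe J₀ m
  ind : LinearIndependent ℂ ξ
  ty : ∀ z ∈ zer J₀, z ≠ 0 → ∃ s : Fin c → (Fin (N + 1) → Polynomial ℂ),
    UN.Ty I x z d s ∧ ∀ i l, (s i l).coeff 0 = ξ i l
  deg : ∀ z ∈ zer J₀, z ≠ 0 → DegEq I c (∑ i, d i) x z

/-- Local equations `F i` at `x`, forms, with the gradients `ξ i`. -/
structure Eqs (I : Ideal (Sx N)) {c : ℕ} (x : Vx N) (ξ : Fin c → Vx N) (F : Fin c → Sx N)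
    (f : Fin c → ℕ) : Prop where
  mem : ∀ i, F i ∈ I
  hom : ∀ i, (F i).IsHomogeneous (f i)
  gr : ∀ i, grad (F i) x = ξ i

/-- The Taylor forms `g` at `x` and `lam` form a complete intersection: together with `l` (linear forms) they
have only the zero `0`. -/
structure CX (I : Ideal (Sx N)) {c : ℕ} (d : Fin c → ℕ) (x lam : Vx N) (F : Fin c → Sx N)
    (l : Fin (N - ∑ i, d i) → Sx N) : Prop where
  le : ∑ i, d i ≤ N
  one_le : ∀ i, 1 ≤ d i
  x0 : x ≠ 0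
  xI : x ∈ zer I
  lamx : LI.dp lam x = 1
  lin : ∀ j, (l j).IsHomogeneous 1
  zero : ∀ y : Vx N, (∀ e : UN.Ex d, eval y (UN.gT d F x e) = 0) → eval y (LI.lf lam) = 0 →
    (∀ j, eval y (l j) = 0) → y = 0

end Pool.Agent.Lib.MP_776403_ag.SD.FR
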