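import Pool.Agent.Lib.MP_776403_ag.SD.UN.FCI
import Pool.Agent.Lib.MP_776403_ag.SD.UN.FRl
import Pool.Agent.Lib.MP_776403_ag.SD.UN.FRg
import Pool.Agent.Lib.MP_776403_ag.SD.UN.FDr
import Pool.Agent.Lib.MP_776403_ag.SD.UN.FLn
import Pool.Agent.Lib.MP_776403_ag.SD.J.Jn
import Pool.Agent.Lib.MP_776403_ag.SD.LI.TS
import Pool.Agent.Lib.MP_776403_ag.SD.UN.U6v

/-!
# THEOREM FR: forms with independent gradients generate a prime ideal, relative version (helper44)

`S_FCIg`: the general form, with a hypothesis on the intersections.  `tRMeet`: the projective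
dimension theorem inside a linear space.  `S_FCI1`: if the ideal of the forms contains `s`
independent linear forms, then `DimGe J₀ (r - s + 1)` is enough.
-/

set_option autoImplicit false

open MvPolynomial

noncomputable section

namespace Pool.Agent.Lib.MP_776403_ag.SD.UN

open LI

/-- The general form of `S_FCI`. -/
def S_FCIg : Prop :=
  ∀ (N r : ℕ) (f : Fin r → Sx N) (e : Fin r → ℕ) (J₀ : Ideal (Sx N)), (∀ i, 1 ≤ e i) →
    (∀ i, (f i).IsHomogeneous (e i)) → J₀.IsPrime → IsHom J₀ → (∀ i, f i ∈ J₀) →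
    DimGe J₀ 1 →
    (∀ Q : Ideal (Sx N), Q.IsPrime → IsHom Q → Ideal.span (Set.range f) ≤ Q →
      DimGe Q (N + 1 - r) → ∃ z : Vx N, z ≠ 0 ∧ z ∈ zer Q ∧ z ∈ zer J₀) →
    (∀ z ∈ zer J₀, z ≠ 0 → LinearIndependent ℂ fun i => grad (f i) z) →
    (Ideal.span (Set.range f)).IsPrime ∧
      (∀ (j : Fin r) (z : Sx N), f j * z ∈ Ideal.span (f '' {i | i < j}) →
        z ∈ Ideal.span (f '' {i | i < j})) ∧
      ∀ k, (Module.finrank ℂ (gr (Ideal.span (Set.range f)) k) : ℤ) = hcG e N k

open FCIAux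

theorem tFCIg : S_FRg → S_FDr → S_FLn → S_FHc → S_FCIg := by
  classical
  intro hRg hDr hLn hHc N r f e J₀ he hf hJp hJh hfJ hdim hmeet hind
  set 𝔟 := Ideal.span (Set.range f) with hb
  have hbh : IsHom 𝔟 := Q1.span_hom _ (by rintro _ ⟨i, rfl⟩; exact ⟨e i, hf i⟩)
  have hbJ : 𝔟 ≤ J₀ := Ideal.span_le.mpr (by rintro _ ⟨i, rfl⟩; exact hfJ i)
  have hbf : ∀ i, f i ∈ 𝔟 := fun i => Ideal.subset_span ⟨i, rfl⟩
  -- a point
  obtain ⟨z₀, hz₀, hz₀0⟩ : ∃ z ∈ zer J₀, z ≠ 0 := by
    by_contra hcon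
    push Not at hcon
    obtain ⟨i, hi⟩ := hdim
    have hX : (X (i 0) : Sx N) ∈ J₀ := by
      refine (tNull N J₀ hJp hJh).1 _ fun z hz => ?_
      rw [hcon z hz]
      simp
    have h1 : Ideal.Quotient.mk J₀ (X (i 0)) = 0 := Ideal.Quotient.eq_zero_iff_mem.mpr hX
    exact hi.ne_zero 0 h1
  have hfz : ∀ z ∈ zer J₀, ∀ i, eval z (f i) = 0 := fun z hz i => hz _ (hfJ i)
  obtain ⟨P, hPp, hPm, hPz, hPf, hPloc⟩ := hRg N r f z₀ (hfz z₀ hz₀) (hind z₀ hz₀ hz₀0)
  set J := P (Fin.last r) with hJ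
  have hbJ' : 𝔟 ≤ J := Ideal.span_le.mpr (by rintro _ ⟨i, rfl⟩; exact hPf i)
  have hJle : ∀ R : Ideal (Sx N), R.IsPrime → 𝔟 ≤ R → z₀ ∈ zer R → J ≤ R := by
    intro R hR hbR hzR F hF
    obtain ⟨h, hh, hhF⟩ := hPloc F hF
    exact (hR.mem_or_mem (hbR hhF)).resolve_left fun hc => hh (hzR h hc)
  have hJJ0 : J ≤ J₀ := hJle J₀ hJp hbJ hz₀
  have h2r : r ≤ N := by
    have := (hDr N).2 r 1 P hPp hPm (Q1.dimGe_anti hJJ0 hdim)
    omega
  -- uniqueness
  have huniq : ∀ z ∈ zer J₀, z ≠ 0 → ∀ Q : Ideal (Sx N), Q.IsPrime → 𝔟 ≤ Q → z ∈ zer Q →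
      DimGe Q (N + 1 - r) → Q = J := by
    intro z hz hz0 Q hQ hbQ hzQ hQd
    obtain ⟨P', hP'p, hP'm, hP'z, hP'f, hP'loc⟩ := hRg N r f z (hfz z hz) (hind z hz hz0)
    have hle : ∀ R : Ideal (Sx N), R.IsPrime → 𝔟 ≤ R → z ∈ zer R → P' (Fin.last r) ≤ R := by
      intro R hR hbR hzR F hF
      obtain ⟨h, hh, hhF⟩ := hP'loc F hF
      exact (hR.mem_or_mem (hbR hhF)).resolve_left fun hc => hh (hzR h hc)
    have h1 : Q = P' (Fin.last r) := by
      by_contra hne
      have hlt : P' (Fin.last r) < Q := lt_of_le_of_ne (hle Q hQ hbQ hzQ) (Ne.symm hne)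
      have hd := (hDr N).1 (N + 1 - r) _ Q (hP'p _) hQ hlt hQd
      have := (hDr N).2 r (N + 1 - r + 1) P' hP'p hP'm hd
      omega
    have h2 : P' (Fin.last r) ≤ J₀ := hle J₀ hJp hbJ hz
    have h3 : J ≤ P' (Fin.last r) := hJle _ (hP'p _)
      (Ideal.span_le.mpr (by rintro _ ⟨i, rfl⟩; exact hP'f i)) (fun F hF => hz₀ F (h2 hF))
    have h4 : P' (Fin.last r) ≤ J := hle J (hPp _) hbJ' (fun F hF => hz F (hJJ0 hF))
    rw [h1]
    exact le_antisymm h4 h3
  -- all components
  have hcomp : ∀ y ∈ zer 𝔟, y ∈ zer J ∧ IsHom J := by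
    intro y hy
    obtain ⟨Q, hQ, hQh, hbQ, hyQ, hQd⟩ := Q1.krullPt 𝔟 hbh y hy r f hbf 1 (by simp)
      (fun G hG => by rwa [one_mul])
    obtain ⟨z, hz0, hzQ, hz⟩ := hmeet Q hQ hQh hbQ hQd
    have h1 := huniq z hz hz0 Q hQ hbQ hzQ hQd
    rw [← h1]
    exact ⟨hyQ, hQh⟩
  have hz₀b : z₀ ∈ zer 𝔟 := fun F hF => hz₀ F (hbJ hF)
  have hJh' : IsHom J := (hcomp z₀ hz₀b).2
  have hz₀J : z₀ ∈ zer J := (hcomp z₀ hz₀b).1
  -- the radical
  have hrad : ∀ Q : Ideal (Sx N), Q.IsPrime → 𝔟 ≤ Q → J ≤ Q := by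
    intro Q hQ hbQ F hF
    have h1 : F ∈ 𝔟.radical := by
      rw [← vanishingIdeal_zeroLocus_eq_radical (K := ℂ) 𝔟, mem_vanishingIdeal_iff]
      intro z hz
      have hz' : z ∈ zer 𝔟 := by
        intro G hG
        have := mem_zeroLocus_iff.1 hz G hG
        rwa [aeval_eq_eval] at this
      rw [aeval_eq_eval]
      exact (hcomp z hz').1 F hF
    obtain ⟨n, hn⟩ := Ideal.mem_radical_iff.1 h1
    exact hQ.mem_of_pow_mem n (hbQ hn)
  -- the Hilbert function
  have hno : NoCh 𝔟 (N + 1 - r) := by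
    intro Q hQp hQm hQ0 _
    have := chain_add hDr P hPp hPm Q hQp hQm (hrad _ (hQp 0) hQ0)
    omega
  obtain ⟨l, hl, hl0⟩ := hLn N (N + 1 - r) 𝔟 hbh hno
  have hreg := reg_part (by omega : r + (N + 1 - r) = N + 1) f l e he hf hl (by
    intro y hy1 hy2
    refine hl0 y ?_ hy2
    intro G hG
    have h1 : 𝔟 ≤ ptI y := Ideal.span_le.mpr (by
      rintro _ ⟨i, rfl⟩
      exact hy1 i)
    exact h1 hG)
  refine ⟨?_, hreg, hHc N r f e he hf hreg⟩
  -- primality
  have hform : ∀ (m : ℕ) (F : Sx N), F.IsHomogeneous m → F ∈ J → F ∈ 𝔟 := by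
    intro m F hFm hF
    obtain ⟨h₀, hh₀, hh₀F⟩ := hPloc F hF
    obtain ⟨p, hp⟩ : ∃ p, eval z₀ (homogeneousComponent p h₀) ≠ 0 := by
      by_contra hcon
      push Not at hcon
      apply hh₀
      rw [← sum_homogeneousComponent h₀, map_sum]
      exact Finset.sum_eq_zero fun i _ => hcon i
    have hhF : homogeneousComponent p h₀ * F ∈ 𝔟 := by
      have h1 := hbh _ hh₀F (p + m)
      have h2 : homogeneousComponent (p + m) (h₀ * F) = homogeneousComponent p h₀ * F := by
        have h3 := Pool.Agent.Lib.MP_410da7_ag.CYGraded_comp_mul (fun _ : Fin (N + 1) => 1)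
          (p + m) m F hFm h₀
        rw [if_pos (by omega), Nat.add_sub_cancel] at h3
        exact h3
      rwa [h2] at h1
    set h := homogeneousComponent p h₀ with hh
    have hhh : h.IsHomogeneous p := homogeneousComponent_isHomogeneous p h₀
    rcases Nat.eq_zero_or_pos p with hp0 | hp0
    · subst hp0
      rw [hh, homogeneousComponent_zero] at hhF hp
      rw [eval_C] at hp
      have h3 : F = C (coeff 0 h₀)⁻¹ * (C (coeff 0 h₀) * F) := by
        rw [← mul_assoc, ← C_mul, inv_mul_cancel₀ hp, C_1, one_mul]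
      rw [h3]
      exact Ideal.mul_mem_left _ _ hhF
    · -- one more form
      have hhJ : h ∉ J := fun hc => hp (hz₀J h hc)
      have hah : IsHom (𝔟 ⊔ Ideal.span {h}) :=
        Q1.sup_hom hbh (Q1.span_hom _ (by rintro _ rfl; exact ⟨p, hhh⟩))
      have hno' : NoCh (𝔟 ⊔ Ideal.span {h}) (N - r) := by
        intro Q hQp hQm hQ0 _
        have hJQ : J ≤ Q 0 := hrad _ (hQp 0) (le_sup_left.trans hQ0)
        have hlt : J < Q 0 := by
          refine lt_of_le_of_ne hJQ fun heq => hhJ ?_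
          rw [heq]
          exact hQ0 (Ideal.mem_sup_right (Ideal.mem_span_singleton_self h))
        have hd : DimGe (Q 0) (N - r + 1) := dim_chain hDr _ Q hQp hQm
        have hd' : DimGe J (N - r + 1 + 1) := (hDr N).1 _ _ _ (hPp _) (hQp 0) hlt hd
        have := (hDr N).2 r _ P hPp hPm hd'
        omega
      obtain ⟨l', hl', hl'0⟩ := hLn N (N - r) _ hah hno'
      have hreg' := reg_part (by omega : (r + 1) + (N - r) = N + 1)
        (Fin.snoc (α := fun _ => Sx N) f h) l' (Fin.snoc (α := fun _ => ℕ) e p)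
        (by
          intro i
          refine Fin.lastCases ?_ (fun i => ?_) i
          · rw [Fin.snoc_last]
            exact hp0
          · rw [Fin.snoc_castSucc]
            exact he i)
        (by
          intro i
          refine Fin.lastCases ?_ (fun i => ?_) i
          · rw [Fin.snoc_last, Fin.snoc_last]
            exact hhh
          · rw [Fin.snoc_castSucc, Fin.snoc_castSucc]
            exact hf i)
        hl' (by
          intro y hy1 hy2
          refine hl'0 y ?_ hy2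
          intro G hG
          have h1 : 𝔟 ⊔ Ideal.span {h} ≤ ptI y := by
            refine sup_le (Ideal.span_le.mpr ?_) (Ideal.span_le.mpr ?_)
            · rintro _ ⟨i, rfl⟩
              have := hy1 (Fin.castSucc i)
              rw [Fin.snoc_castSucc] at this
              exact this
            · rintro _ rfl
              have := hy1 (Fin.last r)
              rw [Fin.snoc_last] at this
              exact this
          exact h1 hG) (Fin.last r) F
      have hset : (Fin.snoc (α := fun _ => Sx N) f h : Fin (r + 1) → Sx N) ''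
          {i | i < Fin.last r} = Set.range f := by
        ext G
        constructor
        · rintro ⟨i, hi, rfl⟩
          have hi' : i < Fin.last r := hi
          have hi2 : i.1 < r := hi'
          have hi3 : i = Fin.castSucc ⟨i.1, hi2⟩ := by
            ext
            rfl
          rw [hi3, Fin.snoc_castSucc]
          exact ⟨_, rfl⟩
        · rintro ⟨i, rfl⟩
          exact ⟨Fin.castSucc i, Fin.castSucc_lt_last i, Fin.snoc_castSucc _ _ _⟩
      rw [hset, Fin.snoc_last] at hreg'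
      exact hreg' hhF
  have hbeq : 𝔟 = J := by
    refine le_antisymm hbJ' fun F hF => ?_
    rw [← sum_homogeneousComponent F]
    exact Ideal.sum_mem _ fun m _ =>
      hform m _ (homogeneousComponent_isHomogeneous m F) (hJh' F hF m)
  rw [hbeq]
  exact hPp _

/-! ### The projective dimension theorem in a linear space -/

namespace RMeetAux

open JJnAux LI.TSAux

variable {N : ℕ}

theorem eval_lf (a z : Vx N) : eval z (lf a) = dp a z := by
  simp [lf, dp]

/-- A vector which is dual to the last one of a family of independent linear forms. -/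
theorem exists_dual {s : ℕ} (l : Fin (s + 1) → Vx N) (hl : LinearIndependent ℂ l) :
    ∃ w : Vx N, dp (l (Fin.last s)) w = 1 ∧ ∀ i : Fin s, dp (l i.castSucc) w = 0 := by
  set W : Submodule ℂ (Vx N) := Submodule.span ℂ (Set.range (Fin.init l)) with hW
  have hn : l (Fin.last s) ∉ W := (linearIndependent_finSucc'.1 hl).2
  obtain ⟨w, hw, hw0⟩ : ∃ w ∈ (bd N).orthogonal W, dp (l (Fin.last s)) w ≠ 0 := by
    by_contra hcon
    push Not at hcon
    apply hn
    rw [← LinearMap.BilinForm.orthogonal_orthogonal bd_nd bd_refl W, mem_orth]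
    intro u hu
    rw [dp_comm]
    exact hcon u hu
  rw [mem_orth] at hw
  refine ⟨(dp (l (Fin.last s)) w)⁻¹ • w, ?_, fun i => ?_⟩
  · rw [dp_smul, inv_mul_cancel₀ hw0]
  · rw [dp_smul, hw (l i.castSucc) (Submodule.subset_span ⟨i, rfl⟩), mul_zero]

/-- The projection along `w`. -/
theorem prj_eval (a w z : Vx N) (F : Sx N) :
    eval z (aeval (fun i => X i - C (w i) * lf a) F) = eval (z - dp a z • w) F := by
  have h : ((eval z : Sx N →+* ℂ).comp
      (aeval (fun i => X i - C (w i) * lf a) : Sx N →ₐ[ℂ] Sx N).toRingHom) =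
      (eval (z - dp a z • w) : Sx N →+* ℂ) := by
    refine MvPolynomial.ringHom_ext (fun r => ?_) (fun i => ?_)
    · simp [MvPolynomial.algebraMap_eq]
    · simp [eval_lf]
      ring
  exact DFunLike.congr_fun h F

/-- The join with `w`. -/
theorem ker_hom {P : Ideal (Sx N)} (hP : P.IsPrime) (hH : IsHom P) (x : Vx N) :
    IsHom (RingHom.ker (phi P x)) := by
  intro F hF m
  rw [mem_ker tNull hP hH x] at hF ⊢
  intro z hz T
  refine comp_zero _ F (fun s => ?_) m
  have h1 := hF (s • z) (zer_smul hH hz s) (s * T)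
  rw [smul_add, smul_smul]
  exact h1

end RMeetAux

open JJnAux LI.TSAux RMeetAux in
/-- The projective dimension theorem in the linear space of the zeros of `s` independent linear
forms. -/
theorem tRMeet : ∀ (s N : ℕ) (l : Fin s → Vx N), LinearIndependent ℂ l →
    ∀ (P P' : Ideal (Sx N)) (D D' : ℕ), P.IsPrime → P'.IsPrime → IsHom P → IsHom P' →
    (∀ j, lf (l j) ∈ P) → (∀ j, lf (l j) ∈ P') →
    DimGe P D → DimGe P' D' → N + 2 ≤ D + D' + s →
    ∃ z : Vx N, z ≠ 0 ∧ z ∈ zer P ∧ z ∈ zer P' := by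
  intro s
  induction s with
  | zero =>
    intro N l _ P P' D D' hP hP' hH hH' _ _ hD hD' h
    exact mMeet N P P' D D' hP hP' hH hH' hD hD' (by omega)
  | succ s ih =>
    intro N l hl P P' D D' hP hP' hH hH' hlP hlP' hD hD' h
    obtain ⟨w, hw1, hw0⟩ := exists_dual l hl
    have hmem := mem_ker tNull hP' hH' w
    have hJp : (RingHom.ker (phi P' w)).IsPrime := RingHom.ker_isPrime _
    have hJh := ker_hom hP' hH' w
    have hlt : RingHom.ker (phi P' w) < P' := by
      refine lt_of_le_of_ne ?_ ?_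
      · intro F hF
        rw [hmem] at hF
        refine (tNull N P' hP' hH').1 F fun z hz => ?_
        have h1 := hF z hz 0
        rw [zero_smul, add_zero] at h1
        exact h1
      · intro heq
        have h1 : lf (l (Fin.last s)) ∈ RingHom.ker (phi P' w) := by
          rw [heq]
          exact hlP' _
        rw [hmem] at h1
        refine hP'.ne_top ((Ideal.eq_top_iff_one _).2 ((tNull N P' hP' hH').1 1 fun z hz => ?_))
        have h2 := h1 z hz 1
        have h3 := hz _ (hlP' (Fin.last s))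
        rw [eval_lf] at h2 h3
        rw [dp_add, dp_smul, h3, hw1, zero_add, one_mul] at h2
        exact absurd h2 one_ne_zero
    obtain ⟨z, hz0, hzP, hzJ⟩ := ih N (fun i => l i.castSucc)
      (hl.comp _ (Fin.castSucc_injective s)) P (RingHom.ker (phi P' w)) D (D' + 1) hP hJp hH hJh
      (fun j => hlP _) (fun j => by
        rw [hmem]
        intro z hz T
        have h3 := hz _ (hlP' j.castSucc)
        rw [eval_lf] at h3 ⊢
        rw [dp_add, dp_smul, h3, hw0, mul_zero, add_zero])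
      hD ((tFDr N).1 D' _ P' hJp hP' hlt hD') (by omega)
    refine ⟨z, hz0, hzP, fun F hF => ?_⟩
    have hG : aeval (fun i => X i - C (w i) * lf (l (Fin.last s))) F ∈
        RingHom.ker (phi P' w) := by
      rw [hmem]
      intro z' hz' T
      have h3 := hz' _ (hlP' (Fin.last s))
      rw [eval_lf] at h3
      rw [prj_eval, dp_add, dp_smul, h3, hw1, zero_add, mul_one, add_sub_cancel_right]
      exact hz' F hF
    have h4 := hzJ _ hG
    have h5 := hzP _ (hlP (Fin.last s))
    rw [eval_lf] at h5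
    rw [prj_eval, h5, zero_smul, sub_zero] at h4
    exact h4

/-- RELATIVE VERSION of `S_FCI`: if the ideal of the forms contains `s` independent linear forms,
then `DimGe J₀ (r - s + 1)` is enough. -/
def S_FCI1 : Prop :=
  ∀ (N r s : ℕ) (f : Fin r → Sx N) (e : Fin r → ℕ) (J₀ : Ideal (Sx N)) (l : Fin s → Vx N),
    (∀ i, 1 ≤ e i) → (∀ i, (f i).IsHomogeneous (e i)) → J₀.IsPrime → IsHom J₀ → (∀ i, f i ∈ J₀) →
    LinearIndependent ℂ l → (∀ j, lf (l j) ∈ Ideal.span (Set.range f)) →
    DimGe J₀ (r - s + 1) → (∀ z ∈ zer J₀, z ≠ 0 → LinearIndependent ℂ fun i => grad (f i) z) →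
    (Ideal.span (Set.range f)).IsPrime ∧
      (∀ (j : Fin r) (z : Sx N), f j * z ∈ Ideal.span (f '' {i | i < j}) →
        z ∈ Ideal.span (f '' {i | i < j})) ∧
      ∀ k, (Module.finrank ℂ (gr (Ideal.span (Set.range f)) k) : ℤ) = hcG e N k

theorem tFCI1 : S_FCIg → S_FCI1 := by
  intro h N r s f e J₀ l he hf hJp hJh hfJ hl hlf hdim hind
  have hbJ : Ideal.span (Set.range f) ≤ J₀ :=
    Ideal.span_le.mpr (by rintro _ ⟨i, rfl⟩; exact hfJ i)
  have hd1 : DimGe J₀ 1 := tMono _ _ _ 1 (by omega) (show DimGeG J₀ (r - s + 1) from hdim)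
  refine h N r f e J₀ he hf hJp hJh hfJ hd1 (fun Q hQ hQh hbQ hQd => ?_) hind
  exact tRMeet s N l hl Q J₀ (N + 1 - r) (r - s + 1) hQ hJp hQh hJh (fun j => hbQ (hlf j))
    (fun j => hbJ (hlf j)) hQd hdim (by omega)

/-- One form more: `DimGe J₀ (r - s + 1)` for `r + 1` forms with independent gradients (`s` independent
linear forms in the ideal of the first `r` of them).  The first `r` forms generate a prime ideal
and all `r + 1` forms are a regular sequence.

PROOF.  `S_FCI1` for the first `r` forms: prime `𝔭`.  The last form is not in `𝔭`: its gradient at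
`z₀ ∈ zer J₀ - 0` would be a combination of the others. -/
def S_FCI2 : Prop :=
  ∀ (N r s : ℕ) (f : Fin (r + 1) → Sx N) (e : Fin (r + 1) → ℕ) (J₀ : Ideal (Sx N))
    (l : Fin s → Vx N),
    (∀ i, 1 ≤ e i) → (∀ i, (f i).IsHomogeneous (e i)) → J₀.IsPrime → IsHom J₀ → (∀ i, f i ∈ J₀) →
    LinearIndependent ℂ l → (∀ j, lf (l j) ∈ Ideal.span (Set.range (Fin.init f))) →
    DimGe J₀ (r - s + 1) → (∀ z ∈ zer J₀, z ≠ 0 → LinearIndependent ℂ fun i => grad (f i) z) →
    (Ideal.span (Set.range (Fin.init f))).IsPrime ∧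
      f (Fin.last r) ∉ Ideal.span (Set.range (Fin.init f)) ∧
      (∀ (j : Fin (r + 1)) (z : Sx N), f j * z ∈ Ideal.span (f '' {i | i < j}) →
        z ∈ Ideal.span (f '' {i | i < j})) ∧
      ∀ k, (Module.finrank ℂ (gr (Ideal.span (Set.range f)) k) : ℤ) = hcG e N k

open UN.U6vAux in
theorem tFCI2 : S_FHc → S_FCI1 → S_FCI2 := by
  intro hHc hC N r s f e J₀ l he hf hJp hJh hfJ hl hlf hdim hind
  obtain ⟨hprime, hreg, -⟩ := hC N r s (Fin.init f) (Fin.init e) J₀ l (fun i => he _)
    (fun i => hf _) hJp hJh (fun i => hfJ _) hl hlf hdim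
    (fun z hz hz0 => (hind z hz hz0).comp _ (Fin.castSucc_injective r))
  obtain ⟨z₀, hz₀, hz₀0⟩ := exists_pt hJp hJh hdim
  have hlast : f (Fin.last r) ∉ Ideal.span (Set.range (Fin.init f)) := by
    intro hmem
    have h1 := (grad_span (g := Fin.init f) (y := z₀) (fun i => hz₀ _ (hfJ _)) hmem).2
    have h2 := hind z₀ hz₀ hz₀0
    rw [linearIndependent_finSucc'] at h2
    exact h2.2 h1
  have hreg' : ∀ (j : Fin (r + 1)) (z : Sx N), f j * z ∈ Ideal.span (f '' {i | i < j}) →
      z ∈ Ideal.span (f '' {i | i < j}) := by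
    intro j
    refine Fin.lastCases ?_ (fun j => ?_) j
    · intro z hz
      have hset : f '' {i | i < Fin.last r} = Set.range (Fin.init f) := by
        ext G
        constructor
        · rintro ⟨i, hi, rfl⟩
          have hi2 : i.1 < r := hi
          exact ⟨⟨i.1, hi2⟩, rfl⟩
        · rintro ⟨i, rfl⟩
          exact ⟨Fin.castSucc i, Fin.castSucc_lt_last i, rfl⟩
      rw [hset] at hz ⊢
      exact (hprime.mem_or_mem hz).resolve_left hlast
    · intro z hz
      have hset : f '' {i | i < Fin.castSucc j} = Fin.init f '' {i | i < j} := by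
        ext G
        constructor
        · rintro ⟨i, hi, rfl⟩
          have hi1 : i.1 < j.1 := hi
          have hi2 : i.1 < r := lt_trans hi1 j.2
          exact ⟨⟨i.1, hi2⟩, hi1, rfl⟩
        · rintro ⟨i, hi, rfl⟩
          exact ⟨Fin.castSucc i, hi, rfl⟩
      rw [hset] at hz ⊢
      exact hreg j z hz
  exact ⟨hprime, hlast, hreg', hHc N (r + 1) f e he hf hreg'⟩

end Pool.Agent.Lib.MP_776403_ag.SD.UN
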