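import Pool.Agent.Lib.MP_776403_ag.SD.FR.SpecR
import Pool.Agent.Lib.MP_776403_ag.SD.FR.U6

/-!
# THEOREM FR, module FCz (helper44): complete intersection, one dimension less
-/

set_option autoImplicit false

open MvPolynomial

noncomputable section

namespace Pool.Agent.Lib.MP_776403_ag.SD.FR

open UN UN.FCIAux UN.U6vAux

/-- (FCz) closed. -/
theorem tFCz : S_FCz := by
  intro N r s f e J₀ l he hf hl hlf hsr hJp hJh hfJ hdim hind
  set 𝔟 := Ideal.span (Set.range fun i : Fin r => f i.castSucc) with hb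
  obtain ⟨hprime, -, -⟩ := cFCI1 N r s (fun i => f i.castSucc) (fun i => e i.castSucc) J₀ l
    (fun i => he _) (fun i => hf _) hJp hJh (fun i => hfJ _) hl hlf hdim
    (fun z hz hz0 => (hind z hz hz0).comp _ (Fin.castSucc_injective r))
  have hbJ : 𝔟 ≤ J₀ := Ideal.span_le.mpr (by rintro _ ⟨i, rfl⟩; exact hfJ _)
  have hd1 : DimGe J₀ 1 := tMono _ _ _ 1 (by omega) (show DimGeG J₀ (r - s + 1) from hdim)
  obtain ⟨z₀, hz₀, hz₀0⟩ := exists_pt hJp hJh hdim
  have hlast : f (Fin.last r) ∉ 𝔟 := by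
    intro hmem
    have h1 := (grad_span (g := fun i : Fin r => f i.castSucc) (y := z₀)
      (fun i => hz₀ _ (hfJ _)) hmem).2
    have h2 := hind z₀ hz₀ hz₀0
    rw [linearIndependent_finSucc'] at h2
    exact h2.2 h1
  -- the chain
  obtain ⟨P, hPp, hPm, hPz, hPf, hPloc⟩ := tFRg tFRl N r (fun i => f i.castSucc) z₀
    (fun i => hz₀ _ (hfJ _)) ((hind z₀ hz₀ hz₀0).comp _ (Fin.castSucc_injective r))
  have hPb : P (Fin.last r) ≤ 𝔟 := by
    intro F hF
    obtain ⟨h, hh, hhF⟩ := hPloc F hF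
    exact (hprime.mem_or_mem hhF).resolve_left fun hc => hh (hz₀ h (hbJ hc))
  have hup : ∀ k, DimGe 𝔟 k → k + r ≤ N + 1 := fun k hk =>
    (tFDr N).2 r k P hPp hPm (Q1.dimGe_anti hPb hk)
  have hrN : r ≤ N := by
    have := hup 1 (Q1.dimGe_anti hbJ hd1)
    omega
  refine ⟨hrN, ?_⟩
  have hbh : IsHom 𝔟 := Q1.span_hom _ (by rintro _ ⟨i, rfl⟩; exact ⟨e i.castSucc, hf _⟩)
  have hah : IsHom (𝔟 ⊔ Ideal.span {f (Fin.last r)}) :=
    Q1.sup_hom hbh (Q1.span_hom _ (by rintro _ rfl; exact ⟨e (Fin.last r), hf _⟩))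
  have hno : NoCh (𝔟 ⊔ Ideal.span {f (Fin.last r)}) (N - r) := by
    intro Q hQp hQm hQ0 _
    have hlt : 𝔟 < Q 0 := by
      refine lt_of_le_of_ne (le_sup_left.trans hQ0) fun heq => hlast ?_
      rw [heq]
      exact hQ0 (Ideal.mem_sup_right (Ideal.mem_span_singleton_self _))
    have hd : DimGe (Q 0) (N - r + 1) := dim_chain tFDr _ Q hQp hQm
    have := hup _ ((tFDr N).1 _ _ _ hprime (hQp 0) hlt hd)
    omega
  obtain ⟨l', hl', hl'0⟩ := tFLn N (N - r) _ hah hno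
  refine ⟨l', hl', fun y hy1 hy2 => hl'0 y ?_ hy2⟩
  intro G hG
  have h1 : 𝔟 ⊔ Ideal.span {f (Fin.last r)} ≤ ptI y := by
    refine sup_le (Ideal.span_le.mpr ?_) (Ideal.span_le.mpr ?_)
    · rintro _ ⟨i, rfl⟩
      exact hy1 _
    · rintro _ rfl
      exact hy1 _
  exact h1 hG

end Pool.Agent.Lib.MP_776403_ag.SD.FR
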