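import Pool.Agent.Lib.MP_776403_ag.SD.FR.SpecR
import Pool.Agent.Lib.MP_776403_ag.SD.E.CN

/-!
# THEOREM FR, (FE): forms with given gradients
-/

set_option autoImplicit false

open MvPolynomial

noncomputable section

namespace Pool.Agent.Lib.MP_776403_ag.SD.FR

namespace FEAux

variable {N : ℕ}

theorem lf_hom (a : Vx N) : (LI.lf a : Sx N).IsHomogeneous 1 := by
  unfold LI.lf
  refine IsHomogeneous.sum _ _ _ fun i _ => ?_
  simpa using (isHomogeneous_C (Fin (N + 1)) (a i)).mul (isHomogeneous_X ℂ i)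

theorem eval_lf (a u : Vx N) : eval u (LI.lf a) = LI.dp a u := by
  unfold LI.lf LI.dp
  rw [map_sum]
  exact Finset.sum_congr rfl fun i _ => by rw [map_mul, eval_C, eval_X]

/-- the homogenization of `G` by the linear form `lf lam` -/
def hz (lam : Vx N) (G : Sx N) : Sx N :=
  ∑ m ∈ Finset.range (G.totalDegree + 1),
    LI.lf lam ^ (G.totalDegree - m) * homogeneousComponent m G

theorem hz_mem {I : Ideal (Sx N)} (hI : IsHom I) (lam : Vx N) {G : Sx N} (hG : G ∈ I) :
    hz lam G ∈ I :=
  Ideal.sum_mem _ fun m _ => I.mul_mem_left _ (hI G hG m)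

theorem hz_hom (lam : Vx N) (G : Sx N) : (hz lam G).IsHomogeneous G.totalDegree := by
  refine IsHomogeneous.sum _ _ _ fun m hm => ?_
  have hm' : m ≤ G.totalDegree := Nat.lt_succ_iff.mp (Finset.mem_range.mp hm)
  have h := ((lf_hom lam).pow (G.totalDegree - m)).mul (homogeneousComponent_isHomogeneous m G)
  rwa [one_mul, Nat.sub_add_cancel hm'] at h

theorem grad_hz {I : Ideal (Sx N)} (hI : IsHom I) {x lam : Vx N} (hx : x ∈ zer I)
    (hlam : LI.dp lam x = 1) {G : Sx N} (hG : G ∈ I) : grad (hz lam G) x = grad G x := by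
  funext l
  have h1 : ∀ m : ℕ, eval x (pderiv l (LI.lf lam ^ (G.totalDegree - m) *
      homogeneousComponent m G)) = eval x (pderiv l (homogeneousComponent m G)) := by
    intro m
    rw [pderiv_mul, map_add, map_mul, map_mul, hx _ (hI G hG m), mul_zero, zero_add, map_pow,
      eval_lf, hlam, one_pow, one_mul]
  show eval x (pderiv l (hz lam G)) = eval x (pderiv l G)
  conv_rhs => rw [← sum_homogeneousComponent G]
  unfold hz
  rw [map_sum, map_sum, map_sum, map_sum]
  exact Finset.sum_congr rfl fun m _ => h1 m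

end FEAux

/-- (FE), closed. -/
theorem tFE : S_FE := by
  intro N c I _ hH hS x lam hx hx0 hlam ξ hξ
  have h := fun i => (eCN N c I hS x hx hx0).2.2 (ξ i) (hξ i)
  choose F₀ hF₀ hg using h
  refine ⟨fun i => FEAux.hz lam (F₀ i), fun i => (F₀ i).totalDegree, ?_, ?_, ?_⟩
  · exact fun i => FEAux.hz_mem hH lam (hF₀ i)
  · exact fun i => FEAux.hz_hom lam (F₀ i)
  · exact fun i => by rw [FEAux.grad_hz hH hx hlam (hF₀ i), ← hg i]

end Pool.Agent.Lib.MP_776403_ag.SD.FR
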