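import Pool.Agent.Lib.MP_776403_ag.SD.FR.SpecZ
import Pool.Agent.Lib.MP_776403_ag.SD.FR.SpecM

/-!
# THEOREM FR: final assembly
-/

set_option autoImplicit false

open MvPolynomial

noncomputable section

namespace Pool.Agent.Lib.MP_776403_ag.SD.FR

/-- THEOREM FR from the inequality of Castelnuovo. -/
theorem tFRc (h1 : S_W1) (h2 : S_W2) (hT : S_MT) (ha1 : S_A1) (ha2 : S_A2) (ha3 : S_A3)
    (ha4 : S_A4) (ha5 : S_A5) (hs : S_As) : S_FRc := by
  intro N n c D I hN hc3 hcD hDn hI hh hnd hS hdeg hCas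
  have hn : N - c = n := by omega
  have hdeg' : U.HasDeg I (N - c) D := by rw [hn]; exact hdeg
  obtain ⟨b, q0, hB⟩ := h1 N c D I (by omega) (by omega) hI hh hnd hS hdeg'
  obtain ⟨hb1, hb2⟩ := ha1 c b D (by omega) hB.cb (by omega) (hCas b q0 hB)
  have h2b : 2 * b ≤ N := ha2 N c b D hc3 hcD (by omega) hb1 hb2
  have hcb : 2 * c ≤ b := (hT N c b D I q0 hB h2b).1
  obtain ⟨d, hd2, hdb, hle, hG⟩ := hs N c b D I q0 hB h2b
  have key : b - c + 1 ≤ N - b - (c - 1) * (b - 2 * c) →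
      ∃ (d : Fin c → ℕ) (G : Fin c → Sx N), (∀ i, 2 ≤ d i ∧ (G i).IsHomogeneous (d i)) ∧
        I = Ideal.span (Set.range G) := by
    intro h
    obtain ⟨G, hGh, hGI⟩ := hG h
    exact ⟨d, G, fun i => ⟨hd2 i, hGh i⟩, hGI⟩
  rcases ha3 N c b D hc3 hcD (by omega) hcb hb1 hb2 with h | h | ⟨h3, h9, h17, h⟩
  · obtain ⟨d', hd'2, hd'b, hd'D⟩ := h2 N c b D I q0 (by omega) hB h
    exact key (ha4 N c b D d' hc3 hd'2 hd'b hd'D (by omega))
  · exact key h
  · exfalso
    have h4 := hle h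
    subst h3
    have h5 := ha5 d hd2 (by rw [hdb, h9])
    omega

/-- THEOREM FR in the range of the inequality of Castelnuovo for general projections. -/
theorem tFR1 (h : S_FRc) (hc : S_Ca) : S_FR1 := by
  intro N n c D I hN hc3 hcD hDn hcn hI hh hnd hS hdeg
  exact h N n c D I hN hc3 hcD hDn hI hh hnd hS hdeg
    fun b q0 hB => hc N c b D I q0 (by omega) hB (by omega)

/-- THEOREM FR. -/
theorem tFR (h : S_FRc) (hd : S_DG) : S_FR := by
  intro N n c D I hN hc3 hcD hDn hI hh hnd hS hdeg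
  exact h N n c D I hN hc3 hcD hDn hI hh hnd hS hdeg
    fun b q0 hB => hd N c b D I q0 (by omega) hB

end Pool.Agent.Lib.MP_776403_ag.SD.FR
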