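import Pool.Agent.Lib.MP_776403_ag.SD.FR.SpecQ
import Pool.Agent.Lib.MP_776403_ag.SD.GR.Spec

/-!
# The Grassmannian: from matrices to Pluecker coordinates
-/

set_option autoImplicit false

open MvPolynomial

noncomputable section

namespace Pool.Agent.Lib.MP_776403_ag.SD.FR

namespace GRfAux

/-- The upper triangular entries. -/
def up : Matrix (Fin 5) (Fin 5) ℂ →ₗ[ℂ] (Pij → ℂ) where
  toFun M q := M q.1.1 q.1.2
  map_add' M M' := by
    funext q
    rfl
  map_smul' r M := by
    funext q
    rfl

theorem up_apply (M : Matrix (Fin 5) (Fin 5) ℂ) (q : Pij) : up M q = M q.1.1 q.1.2 := rfl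

/-- A skew symmetric matrix is determined by its upper triangular entries. -/
theorem up_inj {M M' : Matrix (Fin 5) (Fin 5) ℂ} (h : M.transpose = -M)
    (h' : M'.transpose = -M') (he : up M = up M') : M = M' := by
  have key : ∀ i j : Fin 5, i < j → M i j = M' i j := fun i j hij => by
    have := congrFun he ⟨(i, j), hij⟩
    rwa [up_apply, up_apply] at this
  have hs : ∀ i j, M j i = - M i j := fun i j => by
    have := congrFun (congrFun h i) j
    rwa [Matrix.transpose_apply, Matrix.neg_apply] at this
  have hs' : ∀ i j, M' j i = - M' i j := fun i j => by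
    have := congrFun (congrFun h' i) j
    rwa [Matrix.transpose_apply, Matrix.neg_apply] at this
  ext i j
  rcases lt_trichotomy i j with hij | hij | hij
  · exact key i j hij
  · subst hij
    have h1 := hs i i
    have h2 := hs' i i
    have h3 : M i i = 0 := by
      have : (2 : ℂ) * M i i = 0 := by linear_combination h1
      simpa using this
    have h4 : M' i i = 0 := by
      have : (2 : ℂ) * M' i i = 0 := by linear_combination h2
      simpa using this
    rw [h3, h4]
  · rw [hs j i, hs' j i, key j i hij]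

theorem wdg_skew (a b : Fin 5 → ℂ) : (GR.wdg a b).transpose = - GR.wdg a b := by
  ext i j
  rw [Matrix.transpose_apply, Matrix.neg_apply]
  show a j * b i - a i * b j = -(a i * b j - a j * b i)
  ring

theorem card_Pij : Fintype.card Pij = 10 := by decide

end GRfAux

open GRfAux

theorem tGRf (h : GR.S_GR3) : S_GR := by
  intro I hI hIh hnd hX h5
  obtain ⟨P, hinj, hskew, hmem⟩ := h I hI hIh hnd hX h5
  have hT : Function.Injective (up ∘ₗ P) := by
    intro y y' hyy
    exact hinj (up_inj (hskew y) (hskew y') hyy)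
  have hfr : Module.finrank ℂ (Vx 9) = Module.finrank ℂ (Pij → ℂ) := by
    rw [Module.finrank_fintype_fun_eq_card, Module.finrank_fintype_fun_eq_card, card_Pij,
      Fintype.card_fin]
  let T : Vx 9 ≃ₗ[ℂ] (Pij → ℂ) := LinearEquiv.ofInjectiveOfFinrankEq (up ∘ₗ P) hT hfr
  have hTy : ∀ y, T y = up (P y) := fun y => rfl
  refine ⟨T, ?_⟩
  ext p
  constructor
  · rintro ⟨y, hy, rfl⟩
    obtain ⟨a, b, hab⟩ := (hmem y).1 hy
    refine ⟨a, b, fun q => ?_⟩
    rw [hTy, up_apply, hab]
    rfl
  · rintro ⟨u, v, huv⟩
    refine ⟨T.symm p, ?_, T.apply_symm_apply p⟩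
    refine (hmem _).2 ⟨u, v, up_inj (hskew _) (wdg_skew u v) ?_⟩
    rw [← hTy, T.apply_symm_apply]
    funext q
    rw [huv q]
    rfl

end Pool.Agent.Lib.MP_776403_ag.SD.FR
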