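import Pool.Agent.Lib.MP_776403_ag.SD.FR.SpecL
import Pool.Agent.Lib.MP_776403_ag.SD.Main
import Pool.Agent.Lib.MP_776403_ag.SD.U.Zak

/-!
# THEOREM FR, part L: expansions (proof of `S_L1`)
-/

set_option autoImplicit false

open MvPolynomial

noncomputable section

namespace Pool.Agent.Lib.MP_776403_ag.SD.FR

namespace L1Aux

variable {N : ℕ}

theorem lf_hom1 (lam : Vx N) : (LI.lf lam).IsHomogeneous 1 := U.ZakAux.lf_hom lam

theorem ux_hom (x lam : Vx N) (j : Fin (N + 1)) : (ux x lam j).IsHomogeneous 1 := by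
  unfold ux
  refine (isHomogeneous_X ℂ j).sub ?_
  have := (isHomogeneous_C (Fin (N + 1)) (x j)).mul (lf_hom1 lam)
  rwa [zero_add] at this

theorem sg_hom (x lam : Vx N) {G : Sx N} {n : ℕ} (h : G.IsHomogeneous n) :
    (sg x lam G).IsHomogeneous n := by
  have := h.aeval (ux x lam) (ux_hom x lam)
  rwa [one_mul] at this

/-- Scaling in a homogeneous polynomial. -/
theorem scale {A : Type} [CommRing A] [Algebra ℂ A] (w : Fin (N + 1) → A) (t : A) {G : Sx N}
    {n : ℕ} (h : G.IsHomogeneous n) : aeval (fun j => t * w j) G = t ^ n * aeval w G := by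
  rw [aeval_def, aeval_def, eval₂_eq', eval₂_eq', Finset.mul_sum]
  refine Finset.sum_congr rfl fun d hd => ?_
  have h1 : ∑ i, d i = n := by
    have h2 := h (mem_support_iff.1 hd)
    rw [← h2, Finsupp.weight_apply, Finsupp.sum_fintype]
    · simp
    · simp
  rw [← h1, Finset.prod_congr rfl fun i _ => mul_pow t (w i) (d i), Finset.prod_mul_distrib,
    Finset.prod_pow_eq_pow_sum]
  ring

theorem eval_ux (x lam y : Vx N) (j : Fin (N + 1)) :
    eval y (ux x lam j) = y j - x j * LI.dp lam y := by
  unfold ux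
  rw [map_sub, map_mul, eval_X, eval_C, U.ZakAux.eval_lf]

theorem eval_sg (x lam y : Vx N) (G : Sx N) :
    eval y (sg x lam G) = eval (y - LI.dp lam y • x) G := by
  have h1 : (fun j => eval y (ux x lam j)) = y - LI.dp lam y • x := by
    funext j
    rw [eval_ux, Pi.sub_apply, Pi.smul_apply, smul_eq_mul]
    ring
  rw [← h1]
  have h2 : (eval y).comp (aeval (ux x lam) : Sx N →ₐ[ℂ] Sx N).toRingHom =
      eval fun j => eval y (ux x lam j) := by
    refine MvPolynomial.ringHom_ext (fun a => ?_) fun j => ?_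
    · simp
    · simp
  exact RingHom.congr_fun h2 G

end L1Aux

open L1Aux

theorem tL1 : S_L1 := by
  intro N r x lam f B T hT hlam
  refine ⟨fun G n hG => ?_, ?_, fun F m hF => ?_⟩
  · refine ⟨sg_hom x lam hG, ?_⟩
    -- the coordinates
    have h0 : ∀ j, PowerSeries.coeff 0 (T (ux x lam j)) = 0 := by
      intro j
      rw [hT.c0, eval_ux, hlam, mul_one, sub_self, map_zero]
    have h1 : ∀ j, ∃ w : PowerSeries (UN.Ay B), T (ux x lam j) = PowerSeries.X * w := by
      intro j
      exact PowerSeries.X_dvd_iff.2 (by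
        rw [← PowerSeries.coeff_zero_eq_constantCoeff_apply]
        exact h0 j)
    choose w hw using h1
    have h2 : T (sg x lam G) = PowerSeries.X ^ n * aeval w G := by
      have h3 : T (sg x lam G) = aeval (fun j => T (ux x lam j)) G := by
        unfold sg
        have h4 := MvPolynomial.comp_aeval (R := ℂ) (ux x lam) T
        exact DFunLike.congr_fun h4 G
      rw [h3]
      have h4 : (fun j => T (ux x lam j)) = fun j => PowerSeries.X * w j := funext hw
      rw [h4]
      exact scale w PowerSeries.X hG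
    refine ⟨⟨_, h2⟩, ?_⟩
    rw [h2]
    have h5 : PowerSeries.coeff n (PowerSeries.X ^ n * aeval w G) =
        PowerSeries.coeff 0 (aeval w G) := by
      have := PowerSeries.coeff_X_pow_mul (aeval w G : PowerSeries (UN.Ay B)) n 0
      rwa [zero_add] at this
    rw [h5]
    have h6 : ∀ j, PowerSeries.coeff 1 (T (ux x lam j)) = PowerSeries.coeff 0 (w j) := by
      intro j
      rw [hw j]
      have := PowerSeries.coeff_succ_X_mul 0 (w j)
      rwa [zero_add] at this
    unfold rho
    have h7 : (fun j => PowerSeries.coeff 1 (T (ux x lam j))) =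
        fun j => PowerSeries.constantCoeff (w j) := by
      funext j
      rw [h6 j, PowerSeries.coeff_zero_eq_constantCoeff_apply]
    rw [h7, PowerSeries.coeff_zero_eq_constantCoeff_apply, aeval_def, aeval_def, eval₂_eq',
      eval₂_eq', map_sum]
    refine Finset.sum_congr rfl fun d _ => ?_
    rw [map_mul, map_prod]
    congr 1
    exact Finset.prod_congr rfl fun i _ => map_pow _ _ _
  · rw [hT.c0, U.ZakAux.eval_lf, hlam, map_one]
  · refine MvPolynomial.funext fun y => ?_
    rw [map_sum]
    have h1 : y = LI.dp lam y • x + (1 : ℂ) • (y - LI.dp lam y • x) := by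
      rw [one_smul]
      abel
    have h2 := ((eLinB N x (y - LI.dp lam y • x) F).2.1 m hF).2.2 (LI.dp lam y) 1
    rw [← h1] at h2
    rw [h2]
    refine Finset.sum_congr rfl fun n _ => ?_
    rw [map_mul, map_pow, U.ZakAux.eval_lf, eval_sg, (mLinS N x F n).2.1, one_pow, mul_one]
    ring

end Pool.Agent.Lib.MP_776403_ag.SD.FR
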