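import Pool.Agent.Lib.MP_776403_ag.SD.FR.SpecL
import Pool.Agent.Lib.MP_776403_ag.SD.E.LinB
import Pool.Agent.Lib.MP_776403_ag.SD.E.LinS

/-!
# THEOREM FR, part L2: the Taylor polynomials and their leading forms
-/

set_option autoImplicit false

open MvPolynomial

noncomputable section

namespace Pool.Agent.Lib.MP_776403_ag.SD.FR

namespace L2Aux

variable {N : ℕ}

theorem lf_hom (a : Vx N) : (LI.lf a).IsHomogeneous 1 := by
  refine IsHomogeneous.sum _ _ _ fun i _ => ?_
  have h := (isHomogeneous_C (Fin (N + 1)) (a i)).mul (isHomogeneous_X ℂ i)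
  rwa [zero_add] at h

theorem lf_eval (a y : Vx N) : eval y (LI.lf a) = LI.dp a y := by
  unfold LI.lf LI.dp
  rw [map_sum]
  exact Finset.sum_congr rfl fun i _ => by rw [map_mul, eval_C, eval_X]

theorem lf_pderiv (a : Vx N) (l : Fin (N + 1)) : pderiv l (LI.lf a) = C (a l) := by
  unfold LI.lf
  rw [map_sum, Finset.sum_eq_single l]
  · rw [pderiv_C_mul, pderiv_X_self, mul_one]
  · intro b _ hb
    rw [pderiv_C_mul, pderiv_X_of_ne hb, mul_zero]
  · intro h
    exact absurd (Finset.mem_univ l) h

theorem eval_zero_form {G : Sx N} {n : ℕ} (hG : G.IsHomogeneous n) (hn : 1 ≤ n) :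
    eval (0 : Vx N) G = 0 := by
  have h := eval_smul_form hG 0 (0 : Vx N)
  rwa [zero_smul, zero_pow (by omega), zero_mul] at h

theorem ux_eval (x lam : Vx N) (hl : LI.dp lam x = 1) (j : Fin (N + 1)) :
    eval x (ux x lam j) = 0 := by
  unfold ux
  rw [map_sub, map_mul, eval_X, eval_C, lf_eval, hl, mul_one, sub_self]

theorem sg_C (x lam : Vx N) (a : ℂ) : sg x lam (C a) = C a := (sg x lam).commutes a

theorem sg_X (x lam : Vx N) (j : Fin (N + 1)) : sg x lam (X j) = ux x lam j := aeval_X _ _

theorem sg_eval (x lam : Vx N) (hl : LI.dp lam x = 1) (G : Sx N) :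
    eval x (sg x lam G) = eval (0 : Vx N) G := by
  induction G using MvPolynomial.induction_on with
  | C a => rw [sg_C, eval_C, eval_C]
  | add p q hp hq => rw [map_add, map_add, map_add, hp, hq]
  | mul_X p i hp => rw [map_mul, map_mul, map_mul, hp, sg_X, ux_eval x lam hl, eval_X]; rfl

theorem ux_grad (x lam : Vx N) (j l : Fin (N + 1)) :
    grad (ux x lam j) x l = (if j = l then 1 else 0) - x j * lam l := by
  unfold grad ux
  rw [map_sub, pderiv_C_mul, lf_pderiv, map_sub, map_mul, eval_C, eval_C]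
  congr 1
  split_ifs with h
  · rw [h, pderiv_X_self, map_one]
  · rw [pderiv_X_of_ne h, map_zero]

/-- The gradient of `sg G` at `x`. -/
theorem sg_grad (x lam : Vx N) (hl : LI.dp lam x = 1) (G : Sx N) (l : Fin (N + 1)) :
    grad (sg x lam G) x l =
      ∑ j, eval (0 : Vx N) (pderiv j G) * ((if j = l then 1 else 0) - x j * lam l) := by
  induction G using MvPolynomial.induction_on with
  | C a =>
    rw [sg_C]
    unfold grad
    simp
  | add p q hp hq =>
    rw [map_add, grad_add, Pi.add_apply, hp, hq, ← Finset.sum_add_distrib]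
    refine Finset.sum_congr rfl fun j _ => ?_
    rw [map_add, map_add]
    ring
  | mul_X p i hp =>
    rw [map_mul, sg_X, grad_mul, ux_eval x lam hl, zero_smul, add_zero, Pi.smul_apply,
      sg_eval x lam hl, ux_grad, smul_eq_mul, Finset.sum_eq_single i]
    · rw [pderiv_mul, pderiv_X_self, mul_one, map_add, map_mul, eval_X, Pi.zero_apply, mul_zero,
        zero_add]
    · intro j _ hj
      rw [pderiv_mul, pderiv_X_of_ne (Ne.symm hj), mul_zero, add_zero, map_mul, eval_X,
        Pi.zero_apply, mul_zero, zero_mul]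
    · intro h
      exact absurd (Finset.mem_univ i) h

/-- The linear part of `F(x + t v)`. -/
theorem coeff_one_pderiv (x : Vx N) (F : Sx N) (l : Fin (N + 1)) :
    pderiv l ((linS x F).coeff 1) = C (eval x (pderiv l F)) := by
  induction F using MvPolynomial.induction_on with
  | C a =>
    have h : linS x (C a) = Polynomial.C (C a) := by
      unfold linS
      rw [← MvPolynomial.algebraMap_eq, AlgHom.commutes]
      rfl
    rw [h, Polynomial.coeff_C, if_neg one_ne_zero, map_zero, pderiv_C, map_zero, map_zero]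
  | add p q hp hq =>
    rw [map_add, Polynomial.coeff_add, map_add, hp, hq, map_add, map_add, map_add]
  | mul_X p i hp =>
    have h : linS x (X i) = Polynomial.C (C (x i)) + Polynomial.C (X i) * Polynomial.X :=
      aeval_X _ _
    have h0 : (linS x p).coeff 0 = C (eval x p) := ((eLinS eLinB) N x p 0).2.2.2.2
    have h1 : (linS x (p * X i)).coeff 1 = (linS x p).coeff 1 * C (x i) + C (eval x p) * X i := by
      rw [map_mul, h, mul_add, Polynomial.coeff_add, Polynomial.coeff_mul_C, ← mul_assoc,
        Polynomial.coeff_mul_X, Polynomial.coeff_mul_C, h0]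
    rw [h1, map_add, pderiv_mul, hp, pderiv_C, mul_zero, add_zero, pderiv_C_mul, pderiv_mul,
      map_add, map_mul, map_mul, eval_X, map_add, map_mul, map_mul]
    congr 2
    by_cases hi : i = l
    · rw [hi, pderiv_X_self, map_one, map_one]
    · rw [pderiv_X_of_ne hi, map_zero, map_zero]

/-- Euler's relation at a zero. -/
theorem euler {F : Sx N} {f : ℕ} (hF : F.IsHomogeneous f) {x : Vx N} (h0 : eval x F = 0) :
    ∑ j, eval x (pderiv j F) * x j = 0 := by
  have h := congrArg (eval x) hF.sum_X_mul_pderiv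
  rw [map_sum, map_nsmul, h0, smul_zero] at h
  rw [← h]
  refine Finset.sum_congr rfl fun j _ => ?_
  rw [map_mul, eval_X, mul_comm]

/-- The leading coefficient of a product. -/
theorem coeff_lead {A : Type} [CommRing A] {u g : PowerSeries A} {n : ℕ}
    (h : PowerSeries.X ^ n ∣ g) :
    PowerSeries.coeff n (u * g) = PowerSeries.coeff 0 u * PowerSeries.coeff n g := by
  obtain ⟨g', rfl⟩ := h
  have h1 : u * (PowerSeries.X ^ n * g') = PowerSeries.X ^ n * (u * g') := by ring
  have h2 := PowerSeries.coeff_X_pow_mul (u * g') n 0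
  have h3 := PowerSeries.coeff_X_pow_mul g' n 0
  rw [zero_add] at h2 h3
  rw [h1, h2, h3, PowerSeries.coeff_zero_eq_constantCoeff_apply,
    PowerSeries.coeff_zero_eq_constantCoeff_apply, PowerSeries.coeff_zero_eq_constantCoeff_apply,
    map_mul]

theorem tr_hom (x lam : Vx N) {F : Sx N} {m : ℕ}
    (hsg : ∀ (G : Sx N) (n : ℕ), G.IsHomogeneous n → (sg x lam G).IsHomogeneous n) :
    (tr x lam F m).IsHomogeneous m := by
  unfold tr
  refine IsHomogeneous.sum _ _ _ fun r hr => ?_
  have hr' : r ≤ m := Nat.lt_succ_iff.1 (Finset.mem_range.1 hr)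
  have h1 := ((lf_hom lam).pow (m - r)).mul (hsg _ r (((eLinS eLinB) N x F r).2.2.1))
  have h2 : 1 * (m - r) + r = m := by omega
  rwa [h2] at h1

theorem sg_coeff_eval (x lam : Vx N) (hl : LI.dp lam x = 1) {F : Sx N} (h0 : eval x F = 0)
    (r : ℕ) : eval x (sg x lam ((linS x F).coeff r)) = 0 := by
  rw [sg_eval x lam hl]
  rcases Nat.eq_zero_or_pos r with rfl | hr
  · rw [((eLinS eLinB) N x F 0).2.2.2.2, h0, map_zero, map_zero]
  · exact eval_zero_form (((eLinS eLinB) N x F r).2.2.1) hr

theorem sg_coeff_grad (x lam : Vx N) (hl : LI.dp lam x = 1) {F : Sx N} {f : ℕ}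
    (hF : F.IsHomogeneous f) (h0 : eval x F = 0) (r : ℕ) :
    grad (sg x lam ((linS x F).coeff r)) x = if r = 1 then grad F x else 0 := by
  funext l
  rw [sg_grad x lam hl]
  split_ifs with h1
  · subst h1
    simp only [coeff_one_pderiv, eval_C, mul_sub, Finset.sum_sub_distrib]
    have h2 : ∑ j, eval x (pderiv j F) * (x j * lam l) = 0 := by
      simp only [← mul_assoc]
      rw [← Finset.sum_mul, euler hF h0, zero_mul]
    rw [h2, sub_zero, Finset.sum_eq_single l]
    · rw [if_pos rfl, mul_one]
      rfl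
    · intro j _ hj
      rw [if_neg hj, mul_zero]
    · intro h
      exact absurd (Finset.mem_univ l) h
  · rw [Pi.zero_apply]
    refine Finset.sum_eq_zero fun j _ => ?_
    have h3 : eval (0 : Vx N) (pderiv j ((linS x F).coeff r)) = 0 := by
      rcases Nat.eq_zero_or_pos r with rfl | hr
      · rw [((eLinS eLinB) N x F 0).2.2.2.2, pderiv_C, map_zero]
      · exact eval_zero_form ((((eLinS eLinB) N x F r).2.2.1).pderiv) (by omega)
    rw [h3, zero_mul]

theorem T_mem {I : Ideal (Sx N)} {x : Vx N} {c : ℕ} (L : Loc I x c)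
    {T : Sx N →ₐ[ℂ] PowerSeries (UN.Ay L.B)} (hT : UN.PT x L.F L.B T) {F : Sx N} (hF : F ∈ I) :
    T F = 0 := by
  have h1 : Ideal.span (Set.range L.F) ≤ RingHom.ker (T : Sx N →+* PowerSeries (UN.Ay L.B)) := by
    rw [Ideal.span_le]
    rintro _ ⟨i, rfl⟩
    exact hT.zero i
  have h2 : T (L.h * F) = 0 := h1 (L.mul F hF)
  rw [map_mul] at h2
  rcases mul_eq_zero.1 h2 with h3 | h3
  · exfalso
    have h4 := hT.c0 L.h
    rw [h3, map_zero] at h4
    exact L.hx (C_injective _ _ (by rw [← h4, map_zero]))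
  · exact h3

end L2Aux

open L2Aux in
theorem tL2 (h : S_L1) : S_L2 := by
  intro N c I hp hh x lam hx hl L T hT F f m hFI hF hm
  obtain ⟨hL1, hL2, hL3⟩ := h N c x lam L.F L.B T hT hl
  have h0 : eval x F = 0 := hx F hFI
  have hTF : T F = 0 := T_mem L hT hFI
  have hcoef : ∀ r, ((linS x F).coeff r).IsHomogeneous r := fun r =>
    ((eLinS eLinB) N x F r).2.2.1
  refine ⟨tr_hom x lam fun G n hG => (hL1 G n hG).1, ?_⟩
  have hkey : PowerSeries.X ^ (m + 1) ∣ T (tr x lam F m) ∧
      PowerSeries.coeff (m + 1) (T (tr x lam F m)) =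
        - rho x lam T ((linS x F).coeff (m + 1)) := by
    rcases Nat.lt_or_ge m f with hmf | hmf
    · set U : PowerSeries (UN.Ay L.B) := T (LI.lf lam) with hU
      have hU0 : ∀ k : ℕ, PowerSeries.coeff 0 (U ^ k) = 1 := by
        intro k
        rw [PowerSeries.coeff_zero_eq_constantCoeff_apply, map_pow,
          ← PowerSeries.coeff_zero_eq_constantCoeff_apply, hL2, one_pow]
      have hunit : IsUnit (U ^ (f - m)) := by
        rw [PowerSeries.isUnit_iff_constantCoeff, ← PowerSeries.coeff_zero_eq_constantCoeff_apply,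
          hU0]
        exact isUnit_one
      have hsum : ∑ n ∈ Finset.range (f + 1), U ^ (f - n) * T (sg x lam ((linS x F).coeff n)) =
          0 := by
        rw [← hTF]
        conv_rhs => rw [hL3 F f hF, map_sum]
        exact Finset.sum_congr rfl fun n _ => by rw [map_mul, map_pow]
      rw [← Finset.sum_range_add_sum_Ico _ (show m + 1 ≤ f + 1 by omega)] at hsum
      have h1 : ∑ n ∈ Finset.range (m + 1), U ^ (f - n) * T (sg x lam ((linS x F).coeff n)) =
          U ^ (f - m) * T (tr x lam F m) := by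
        unfold tr
        rw [map_sum, Finset.mul_sum]
        refine Finset.sum_congr rfl fun n hn => ?_
        have hn' : n ≤ m := Nat.lt_succ_iff.1 (Finset.mem_range.1 hn)
        rw [map_mul, map_pow, ← mul_assoc, ← pow_add]
        congr 2
        omega
      rw [h1, Finset.sum_eq_sum_Ico_succ_bot (show m + 1 < f + 1 by omega)] at hsum
      have h2 : PowerSeries.X ^ (m + 2) ∣ ∑ n ∈ Finset.Ico (m + 1 + 1) (f + 1),
          U ^ (f - n) * T (sg x lam ((linS x F).coeff n)) := by
        refine Finset.dvd_sum fun n hn => ?_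
        have hn' := (Finset.mem_Ico.1 hn).1
        exact dvd_mul_of_dvd_right ((pow_dvd_pow _ hn').trans (hL1 _ n (hcoef n)).2.1) _
      have h3 : U ^ (f - m) * T (tr x lam F m) =
          -(U ^ (f - (m + 1)) * T (sg x lam ((linS x F).coeff (m + 1))) +
            ∑ n ∈ Finset.Ico (m + 1 + 1) (f + 1),
              U ^ (f - n) * T (sg x lam ((linS x F).coeff n))) := eq_neg_of_add_eq_zero_left hsum
      have h4 : PowerSeries.X ^ (m + 1) ∣ T (tr x lam F m) := by
        refine (hunit.dvd_mul_left).1 ?_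
        rw [h3, dvd_neg]
        exact dvd_add (dvd_mul_of_dvd_right (hL1 _ (m + 1) (hcoef (m + 1))).2.1 _)
          ((pow_dvd_pow _ (by omega)).trans h2)
      refine ⟨h4, ?_⟩
      have h5 := congrArg (PowerSeries.coeff (m + 1)) h3
      rw [coeff_lead h4, hU0, one_mul, map_neg, map_add,
        coeff_lead (hL1 _ (m + 1) (hcoef (m + 1))).2.1, hU0, one_mul,
        (hL1 _ (m + 1) (hcoef (m + 1))).2.2,
        PowerSeries.X_pow_dvd_iff.1 h2 (m + 1) (by omega), add_zero] at h5
      exact h5
    · have h1 : tr x lam F m = LI.lf lam ^ (m - f) * F := by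
        conv_rhs => rw [hL3 F f hF, Finset.mul_sum]
        unfold tr
        rw [← Finset.sum_range_add_sum_Ico _ (show f + 1 ≤ m + 1 by omega)]
        have h2 : ∑ n ∈ Finset.Ico (f + 1) (m + 1),
            LI.lf lam ^ (m - n) * sg x lam ((linS x F).coeff n) = 0 := by
          refine Finset.sum_eq_zero fun n hn => ?_
          have hn' := (Finset.mem_Ico.1 hn).1
          rw [(((eLinS eLinB) N x F n).2.2.2.1 f hF).2 (by omega), map_zero, mul_zero]
        rw [h2, add_zero]
        refine Finset.sum_congr rfl fun n hn => ?_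
        have hn' : n ≤ f := Nat.lt_succ_iff.1 (Finset.mem_range.1 hn)
        rw [← mul_assoc, ← pow_add]
        congr 2
        omega
      rw [h1, map_mul, hTF, mul_zero, map_zero,
        (((eLinS eLinB) N x F (m + 1)).2.2.2.1 f hF).2 (by omega), map_zero, neg_zero]
      exact ⟨dvd_zero _, rfl⟩
  refine ⟨hkey.1, hkey.2, ?_, ?_⟩
  · unfold tr
    rw [map_sum]
    refine Finset.sum_eq_zero fun r _ => ?_
    rw [map_mul, sg_coeff_eval x lam hl h0, mul_zero]
  · unfold tr
    rw [grad_sum]
    have h1 : ∀ r ∈ Finset.range (m + 1),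
        grad (LI.lf lam ^ (m - r) * sg x lam ((linS x F).coeff r)) x =
          if r = 1 then grad F x else 0 := by
      intro r _
      rw [grad_mul, sg_coeff_eval x lam hl h0, zero_smul, add_zero, map_pow, lf_eval, hl, one_pow,
        one_smul, sg_coeff_grad x lam hl hF h0]
    rw [Finset.sum_congr rfl h1, Finset.sum_ite_eq' (Finset.range (m + 1)) 1,
      if_pos (Finset.mem_range.2 (by omega))]

end Pool.Agent.Lib.MP_776403_ag.SD.FR
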