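import Pool.Agent.Lib.MP_776403_ag.SD.FR.SpecL
import Pool.Agent.Lib.MP_776403_ag.SD.E.LinS
import Pool.Agent.Lib.MP_776403_ag.SD.E.LinB

/-!
# THEOREM FR, part L: products realize all leading forms (`S_L3`).
-/

set_option autoImplicit false

open MvPolynomial

noncomputable section

namespace Pool.Agent.Lib.MP_776403_ag.SD.FR

namespace L3Aux

/-- `P = ε^n a + …`. -/
def Od {A : Type*} [CommRing A] (n : ℕ) (P : PowerSeries A) (a : A) : Prop :=
  ∃ Q : PowerSeries A, P = PowerSeries.X ^ n * Q ∧ PowerSeries.constantCoeff Q = a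

section
variable {A : Type*} [CommRing A]

theorem coeff_smulC [Algebra ℂ A] (c : ℂ) (P : PowerSeries A) (n : ℕ) :
    PowerSeries.coeff n (c • P) = c • PowerSeries.coeff n P := by
  rw [Algebra.smul_def, PowerSeries.algebraMap_apply, PowerSeries.coeff_C_mul,
    ← Algebra.smul_def]

theorem Od.of {n : ℕ} {P : PowerSeries A} {a : A} (h : PowerSeries.X ^ n ∣ P)
    (h' : PowerSeries.coeff n P = a) : Od n P a := by
  obtain ⟨Q, rfl⟩ := h
  refine ⟨Q, rfl, ?_⟩
  rw [← h', ← PowerSeries.coeff_zero_eq_constantCoeff_apply]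
  have := PowerSeries.coeff_X_pow_mul Q n 0
  rw [zero_add] at this
  exact this.symm

theorem Od.dvd {n : ℕ} {P : PowerSeries A} {a : A} (h : Od n P a) : PowerSeries.X ^ n ∣ P := by
  obtain ⟨Q, rfl, -⟩ := h
  exact Dvd.intro _ rfl

theorem Od.coeff {n : ℕ} {P : PowerSeries A} {a : A} (h : Od n P a) :
    PowerSeries.coeff n P = a := by
  obtain ⟨Q, rfl, rfl⟩ := h
  have := PowerSeries.coeff_X_pow_mul Q n 0
  rw [zero_add] at this
  rw [this, PowerSeries.coeff_zero_eq_constantCoeff_apply]

theorem Od.mul {n m : ℕ} {P Q : PowerSeries A} {a b : A} (h : Od n P a) (h' : Od m Q b) :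
    Od (n + m) (P * Q) (a * b) := by
  obtain ⟨P', rfl, rfl⟩ := h
  obtain ⟨Q', rfl, rfl⟩ := h'
  refine ⟨P' * Q', by rw [pow_add]; ring, by rw [map_mul]⟩

theorem Od.pow {n : ℕ} {P : PowerSeries A} {a : A} (h : Od n P a) (k : ℕ) :
    Od (n * k) (P ^ k) (a ^ k) := by
  obtain ⟨P', rfl, rfl⟩ := h
  exact ⟨P' ^ k, by rw [mul_pow, pow_mul], by rw [map_pow]⟩

theorem Od.prod {ι : Type*} (s : Finset ι) {n : ι → ℕ} {P : ι → PowerSeries A} {a : ι → A}
    (h : ∀ i ∈ s, Od (n i) (P i) (a i)) :
    Od (∑ i ∈ s, n i) (∏ i ∈ s, P i) (∏ i ∈ s, a i) := by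
  classical
  induction s using Finset.induction_on with
  | empty => exact ⟨1, by simp, by simp⟩
  | insert i s hi ih =>
    rw [Finset.sum_insert hi, Finset.prod_insert hi, Finset.prod_insert hi]
    exact (h i (Finset.mem_insert_self i s)).mul
      (ih fun j hj => h j (Finset.mem_insert_of_mem hj))

end

/-- The forms `p ∏ g_i^(α_i)` of degree `r` with `|α| = m`. -/
def Wm {N : ℕ} {ι : Type} [Fintype ι] (g : ι → Sx N) (w : ι → ℕ) (m r : ℕ) :
    Submodule ℂ (Sx N) :=
  Submodule.span ℂ {G | ∃ (s : ℕ) (p : Sx N) (α : ι → ℕ), p.IsHomogeneous s ∧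
    ∑ i, α i = m ∧ s + ∑ i, α i * w i = r ∧ G = p * ∏ i, g i ^ α i}

section
variable {N : ℕ} {ι : Type} [Fintype ι] (g : ι → Sx N) (w : ι → ℕ)

theorem Wm_mul (i : ι) (m r : ℕ) (G : Sx N) (hG : G ∈ Wm g w m r) :
    G * g i ∈ Wm g w (m + 1) (r + w i) := by
  classical
  unfold Wm at hG
  induction hG using Submodule.span_induction with
  | mem G h =>
    obtain ⟨s, p, α, hp, h1, h2, rfl⟩ := h
    refine Submodule.subset_span ⟨s, p, α + Pi.single i 1, hp, ?_, ?_, ?_⟩
    · simp [Finset.sum_add_distrib, h1]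
    · have h3 : ∑ j, (α + Pi.single i 1 : ι → ℕ) j * w j = ∑ j, α j * w j + w i := by
        simp only [Pi.add_apply, add_mul, Finset.sum_add_distrib]
        congr 1
        rw [Finset.sum_eq_single i]
        · simp
        · intro j _ hj
          rw [Pi.single_eq_of_ne hj]
          simp
        · simp
      rw [h3, ← h2]
      ring
    · have h3 : ∏ j, g j ^ ((α + Pi.single i 1 : ι → ℕ) j) = (∏ j, g j ^ α j) * g i := by
        simp only [Pi.add_apply, pow_add, Finset.prod_mul_distrib]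
        congr 1
        rw [Finset.prod_eq_single i]
        · simp
        · intro j _ hj
          rw [Pi.single_eq_of_ne hj]
          simp
        · simp
      rw [h3]
      ring
  | zero => rw [zero_mul]; exact Submodule.zero_mem _
  | add a b _ _ ha hb => rw [add_mul]; exact Submodule.add_mem _ ha hb
  | smul c a _ ha => rw [smul_mul_assoc]; exact Submodule.smul_mem _ c ha

/-- Multiplication by `g i`, components. -/
theorem comp_mul (hg : ∀ i, (g i).IsHomogeneous (w i)) (i : ι) (m : ℕ) (a : Sx N)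
    (ha : ∀ r, homogeneousComponent r a ∈ Wm g w m r) (r : ℕ) :
    homogeneousComponent r (a * g i) ∈ Wm g w (m + 1) r := by
  have h1 : a * g i = ∑ j ∈ Finset.range (a.totalDegree + 1),
      homogeneousComponent j a * g i := by
    rw [← Finset.sum_mul, sum_homogeneousComponent]
  rw [h1, map_sum]
  refine Submodule.sum_mem _ fun j _ => ?_
  have h2 : homogeneousComponent j a * g i ∈ homogeneousSubmodule (Fin (N + 1)) ℂ (j + w i) :=
    (homogeneousComponent_isHomogeneous j a).mul (hg i)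
  rw [homogeneousComponent_of_mem h2]
  split_ifs with h3
  · subst h3
    exact Wm_mul g w i m j _ (ha j)
  · exact Submodule.zero_mem _

/-- The components of the elements of the powers. -/
theorem comp_pow (hg : ∀ i, (g i).IsHomogeneous (w i)) (m : ℕ) :
    ∀ G ∈ Ideal.span (Set.range g) ^ m, ∀ r, homogeneousComponent r G ∈ Wm g w m r := by
  induction m with
  | zero =>
    intro G _ r
    refine Submodule.subset_span ⟨r, homogeneousComponent r G, 0,
      homogeneousComponent_isHomogeneous r G, by simp, by simp, by simp⟩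
  | succ m ih =>
    intro G hG
    rw [pow_succ] at hG
    refine Submodule.mul_induction_on hG ?_ ?_
    · intro a ha b hb
      have key : ∀ b ∈ Ideal.span (Set.range g), ∀ a ∈ Ideal.span (Set.range g) ^ m,
          ∀ r, homogeneousComponent r (a * b) ∈ Wm g w (m + 1) r := by
        intro b hb
        refine Submodule.span_induction ?_ ?_ ?_ ?_ hb
        · rintro _ ⟨i, rfl⟩ a ha r
          exact comp_mul g w hg i m a (fun r => ih a ha r) r
        · intro a _ r
          rw [mul_zero, map_zero]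
          exact Submodule.zero_mem _
        · intro b b' _ _ h h' a ha r
          rw [mul_add, map_add]
          exact Submodule.add_mem _ (h a ha r) (h' a ha r)
        · intro c b _ h a ha r
          have h1 : a * c • b = a * c * b := by rw [smul_eq_mul]; ring
          rw [h1]
          exact h (a * c) (Ideal.mul_mem_right c _ ha) r
      exact key b hb a ha
    · intro a b ha hb r
      rw [map_add]
      exact Submodule.add_mem _ (ha r) (hb r)

end

end L3Aux

open L3Aux

/-- (L3) PRODUCTS REALIZE ALL LEADING FORMS. -/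
theorem tL3 (h1 : S_L1) (h2 : S_L2) : S_L3 := by
  intro N c I hI hH x lam hx hlx L T hT d ξ F f hE k r
  obtain ⟨hsg, hlam, -⟩ := h1 N c x lam L.F L.B T hT hlx
  have hlam' : Od 0 (T (LI.lf lam)) 1 := Od.of (by simp) hlam
  have hgen : ∀ (e s : ℕ) (p : Sx N) (α : UN.Ex2 d → ℕ), p.IsHomogeneous s →
      (LI.lf lam ^ e * sg x lam p *
        ∏ i, tr x lam (F i.1.1) i.1.2.1 ^ α i).IsHomogeneous (e + s + ∑ i, α i * i.1.2.1) ∧
      Od (s + ∑ i, α i * (i.1.2.1 + 1)) (T (LI.lf lam ^ e * sg x lam p *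
        ∏ i, tr x lam (F i.1.1) i.1.2.1 ^ α i))
        (rho x lam T p * ∏ i : UN.Ex2 d, (- rho x lam T (UN.gT d F x i.1)) ^ α i) := by
    intro e s p α hp
    have htr : ∀ i : UN.Ex2 d, (tr x lam (F i.1.1) i.1.2.1).IsHomogeneous i.1.2.1 ∧
        Od (i.1.2.1 + 1) (T (tr x lam (F i.1.1) i.1.2.1))
          (- rho x lam T (UN.gT d F x i.1)) := by
      intro i
      obtain ⟨g1, g2, g3, -, -⟩ := h2 N c I hI hH x lam hx hlx L T hT (F i.1.1) (f i.1.1)
        i.1.2.1 (hE.mem _) (hE.hom _) (Nat.one_le_iff_ne_zero.mpr i.2)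
      exact ⟨g1, Od.of g2 g3⟩
    have hl1 : (LI.lf lam : Sx N).IsHomogeneous 1 := by
      refine IsHomogeneous.sum _ _ _ fun i _ => ?_
      have := (isHomogeneous_C (Fin (N + 1)) (lam i)).mul (isHomogeneous_X ℂ i)
      rwa [zero_add] at this
    constructor
    · refine IsHomogeneous.mul (IsHomogeneous.mul ?_ (hsg p s hp).1) ?_
      · have := hl1.pow e
        rwa [one_mul] at this
      · refine IsHomogeneous.prod _ _ _ fun i _ => ?_
        have := (htr i).1.pow (α i)
        rwa [mul_comm] at this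
    · rw [map_mul, map_mul, map_pow, map_prod]
      have e1 := (hlam'.pow e).mul (Od.of (hsg p s hp).2.1 (hsg p s hp).2.2)
      rw [zero_mul, zero_add, one_pow, one_mul] at e1
      refine e1.mul ?_
      have e2 := Od.prod (Finset.univ : Finset (UN.Ex2 d))
        (n := fun i => (i.1.2.1 + 1) * α i)
        (P := fun i => T (tr x lam (F i.1.1) i.1.2.1) ^ α i)
        (a := fun i => (- rho x lam T (UN.gT d F x i.1)) ^ α i)
        (fun i _ => (htr i).2.pow (α i))
      have e3 : ∑ i : UN.Ex2 d, α i * (i.1.2.1 + 1) = ∑ i : UN.Ex2 d, (i.1.2.1 + 1) * α i :=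
        Finset.sum_congr rfl fun i _ => mul_comm _ _
      rw [e3]
      have e4 : ∏ i : UN.Ex2 d, T (tr x lam (F i.1.1) i.1.2.1 ^ α i) =
          ∏ i : UN.Ex2 d, T (tr x lam (F i.1.1) i.1.2.1) ^ α i :=
        Finset.prod_congr rfl fun i _ => map_pow _ _ _
      rw [e4]
      exact e2
  constructor
  · intro H hH
    unfold Pr at hH
    induction hH using Submodule.span_induction with
    | mem H h =>
      obtain ⟨e, s, p, α, hp, hk, hr, rfl⟩ := h
      obtain ⟨g1, g2⟩ := hgen e s p α hp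
      rw [hk] at g1
      exact ⟨g1, (pow_dvd_pow _ hr).trans g2.dvd⟩
    | zero => exact ⟨isHomogeneous_zero _ _ _, by rw [map_zero]; exact dvd_zero _⟩
    | add a b _ _ ha hb =>
      exact ⟨ha.1.add hb.1, by rw [map_add]; exact dvd_add ha.2 hb.2⟩
    | smul c a _ ha =>
      refine ⟨?_, ?_⟩
      · exact (homogeneousSubmodule (Fin (N + 1)) ℂ k).smul_mem c ha.1
      · rw [map_smul]
        exact dvd_smul_of_dvd c ha.2
  · rintro _ ⟨G, ⟨hGh, hGI⟩, rfl⟩
    have hg : ∀ e : UN.Ex2 d, (UN.gT d F x e.1).IsHomogeneous (e.1.2.1 + 1) := fun e =>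
      (eLinS eLinB N x (F e.1.1) (e.1.2.1 + 1)).2.2.1
    have h3 := comp_pow (fun e : UN.Ex2 d => UN.gT d F x e.1) (fun e => e.1.2.1 + 1) hg
      (r - k) G hGI r
    rw [homogeneousComponent_of_mem hGh, if_pos rfl] at h3
    unfold Wm at h3
    clear hGh hGI
    induction h3 using Submodule.span_induction with
    | mem G h =>
      obtain ⟨s, p, α, hp, ha, hs, rfl⟩ := h
      obtain ⟨g1, g2⟩ := hgen (k - r) s p α hp
      have hsum : ∑ i : UN.Ex2 d, α i * (i.1.2.1 + 1) =
          ∑ i : UN.Ex2 d, α i * i.1.2.1 + ∑ i : UN.Ex2 d, α i := by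
        rw [← Finset.sum_add_distrib]
        exact Finset.sum_congr rfl fun i _ => by ring
      have hk : k - r + s + ∑ i : UN.Ex2 d, α i * i.1.2.1 = k := by
        have h4 := hs
        rw [hsum, ha] at h4
        omega
      refine ⟨(-1 : ℂ) ^ (r - k) • (LI.lf lam ^ (k - r) * sg x lam p *
        ∏ i, tr x lam (F i.1.1) i.1.2.1 ^ α i), ?_, ?_⟩
      · refine Submodule.smul_mem _ _ (Submodule.subset_span ⟨k - r, s, p, α, hp, hk, ?_, rfl⟩)
        exact hs.ge
      · rw [hs] at g2
        rw [map_smul, coeff_smulC, g2.coeff]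
        have h5 : ∏ i : UN.Ex2 d, (- rho x lam T (UN.gT d F x i.1)) ^ α i =
            (-1) ^ (r - k) * ∏ i : UN.Ex2 d, rho x lam T (UN.gT d F x i.1) ^ α i := by
          rw [← ha, ← Finset.prod_pow_eq_pow_sum, ← Finset.prod_mul_distrib]
          exact Finset.prod_congr rfl fun i _ => by rw [neg_pow]
        rw [h5]
        simp only [AlgHom.toLinearMap_apply, map_mul, map_prod, map_pow]
        rw [MvPolynomial.smul_eq_C_mul, map_pow, map_neg, map_one]
        have h6 : ((-1 : UN.Ay L.B) ^ (r - k)) * (-1) ^ (r - k) = 1 := by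
          rw [← mul_pow]; simp
        linear_combination (rho x lam T p *
          ∏ i : UN.Ex2 d, rho x lam T (UN.gT d F x i.1) ^ α i) * h6
    | zero => exact ⟨0, Submodule.zero_mem _, by simp⟩
    | add a b _ _ ha hb =>
      obtain ⟨H, hH1, hH2⟩ := ha
      obtain ⟨H', hH1', hH2'⟩ := hb
      exact ⟨H + H', Submodule.add_mem _ hH1 hH1', by rw [map_add, map_add, hH2, hH2', map_add]⟩
    | smul c a _ ha =>
      obtain ⟨H, hH1, hH2⟩ := ha
      exact ⟨c • H, Submodule.smul_mem _ c hH1, by rw [map_smul, coeff_smulC, hH2, map_smul]⟩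

end Pool.Agent.Lib.MP_776403_ag.SD.FR
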