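import Pool.Agent.Lib.MP_776403_ag.SD.FR.SpecL

/-!
# THEOREM FR, (L4): COUNTING ORDERS
-/

set_option autoImplicit false

open MvPolynomial

noncomputable section

namespace Pool.Agent.Lib.MP_776403_ag.SD.FR

variable {N : ℕ}

namespace L4Aux

/-- The equations of `X` are in the kernel of `T`. -/
theorem T_zero {c : ℕ} {I : Ideal (Sx N)} {x : Vx N} (L : Loc I x c)
    {T : Sx N →ₐ[ℂ] PowerSeries (UN.Ay L.B)} (hT : UN.PT x L.F L.B T) {F : Sx N} (hF : F ∈ I) :
    T F = 0 := by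
  have h1 : T (L.h * F) = 0 := by
    have h2 := L.mul F hF
    have h3 : Ideal.span (Set.range L.F) ≤ RingHom.ker T.toRingHom := by
      rw [Ideal.span_le]
      rintro _ ⟨i, rfl⟩
      exact hT.zero i
    exact h3 h2
  rw [map_mul] at h1
  rcases mul_eq_zero.1 h1 with h | h
  · exfalso
    have h4 := hT.c0 L.h
    rw [h, map_zero] at h4
    have h5 : eval x L.h = 0 := by
      have := congrArg (eval (fun _ => 0)) h4.symm
      simpa using this
    exact L.hx h5
  · exact h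

/-- The forms of degree `k` and order `≥ r`. -/
def U {r₀ : ℕ} {B : Fin r₀ → Fin (N + 1)} (T : Sx N →ₐ[ℂ] PowerSeries (UN.Ay B)) (k r : ℕ) :
    Submodule ℂ (Sx N) :=
  homogeneousSubmodule (Fin (N + 1)) ℂ k ⊓
    ((Ideal.span {(PowerSeries.X ^ r : PowerSeries (UN.Ay B))}).restrictScalars ℂ).comap
      T.toLinearMap

theorem mem_U {r₀ : ℕ} {B : Fin r₀ → Fin (N + 1)} (T : Sx N →ₐ[ℂ] PowerSeries (UN.Ay B))
    (k r : ℕ) (F : Sx N) : F ∈ U T k r ↔ F.IsHomogeneous k ∧ PowerSeries.X ^ r ∣ T F := by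
  simp only [U, Submodule.mem_inf, mem_homogeneousSubmodule, Submodule.mem_comap,
    Submodule.restrictScalars_mem, Ideal.mem_span_singleton]
  rfl

theorem fin_S (k : ℕ) : FiniteDimensional ℂ (homogeneousSubmodule (Fin (N + 1)) ℂ k) :=
  Module.Finite.iff_fg.2 (homogeneousSubmodule_fg (Fin (N + 1)) ℂ k)

theorem fin_U {r₀ : ℕ} {B : Fin r₀ → Fin (N + 1)} (T : Sx N →ₐ[ℂ] PowerSeries (UN.Ay B))
    (k r : ℕ) : FiniteDimensional ℂ (U T k r) := by
  have := fin_S (N := N) k
  exact Submodule.finiteDimensional_of_le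
    (inf_le_left : U T k r ≤ homogeneousSubmodule (Fin (N + 1)) ℂ k)

theorem U_succ_le {r₀ : ℕ} {B : Fin r₀ → Fin (N + 1)} (T : Sx N →ₐ[ℂ] PowerSeries (UN.Ay B))
    (k r : ℕ) : U T k (r + 1) ≤ U T k r := fun F hF => by
  rw [mem_U] at hF ⊢
  exact ⟨hF.1, (pow_dvd_pow _ (Nat.le_succ r)).trans hF.2⟩

/-- One step. -/
theorem step {r₀ : ℕ} {B : Fin r₀ → Fin (N + 1)} (T : Sx N →ₐ[ℂ] PowerSeries (UN.Ay B))
    (k r : ℕ) (W : Submodule ℂ (UN.Ay B))
    (hW : ∀ p ∈ W, ∃ H ∈ U T k r, PowerSeries.coeff r (T H) = p) :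
    Module.finrank ℂ (U T k (r + 1)) + Module.finrank ℂ W ≤ Module.finrank ℂ (U T k r) := by
  have := fin_U T k r
  let φ₀ : Sx N →ₗ[ℂ] UN.Ay B :=
    ((PowerSeries.coeff (R := UN.Ay B) r).restrictScalars ℂ).comp T.toLinearMap
  let φ : U T k r →ₗ[ℂ] UN.Ay B := φ₀.comp (U T k r).subtype
  have h1 := LinearMap.finrank_range_add_finrank_ker φ
  have h2 : LinearMap.ker φ = (U T k (r + 1)).comap (U T k r).subtype := by
    ext ⟨F, hF⟩
    rw [LinearMap.mem_ker, Submodule.mem_comap]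
    change PowerSeries.coeff r (T F) = 0 ↔ F ∈ U T k (r + 1)
    rw [mem_U] at hF ⊢
    refine ⟨fun h => ⟨hF.1, ?_⟩, fun h => ?_⟩
    · rw [PowerSeries.X_pow_dvd_iff] at hF ⊢
      intro m hm
      rcases Nat.lt_succ_iff_lt_or_eq.1 hm with h' | h'
      · exact hF.2 m h'
      · rw [h']
        exact h
    · exact (PowerSeries.X_pow_dvd_iff.1 h.2) r (Nat.lt_succ_self r)
  have h3 : Module.finrank ℂ (LinearMap.ker φ) = Module.finrank ℂ (U T k (r + 1)) := by
    rw [h2]
    exact (Submodule.comapSubtypeEquivOfLe (U_succ_le T k r)).finrank_eq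
  have h4 : W ≤ LinearMap.range φ := fun p hp => by
    obtain ⟨H, hH, e⟩ := hW p hp
    exact ⟨⟨H, hH⟩, e⟩
  have h5 := Submodule.finrank_mono h4
  omega

end L4Aux

open L4Aux in
theorem tL4 (h : S_L3) : S_L4 := by
  intro N c I hI hh x lam hx hlam L T hT d ξ F f hE k R
  have h3 := h N c I hI hh x lam hx hlam L T hT d ξ F f hE k
  have h4 : ∀ R : ℕ, Module.finrank ℂ (U T k R) +
      ∑ r ∈ Finset.range R, Module.finrank ℂ (Ga d x lam F T r (r - k)) ≤
        Module.finrank ℂ (homogeneousSubmodule (Fin (N + 1)) ℂ k) := by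
    intro R
    induction R with
    | zero =>
      have := fin_S (N := N) k
      rw [Finset.sum_range_zero, add_zero]
      exact Submodule.finrank_mono inf_le_left
    | succ R ih =>
      have h5 := step T k R (Ga d x lam F T R (R - k)) fun p hp => by
        obtain ⟨H, hH, e⟩ := (h3 R).2 p hp
        exact ⟨H, (mem_U T k R H).2 ((h3 R).1 H hH), e⟩
      rw [Finset.sum_range_succ]
      omega
  have h6 : Module.finrank ℂ (homogeneousSubmodule (Fin (N + 1)) ℂ k) ≤
      Module.finrank ℂ (gr I k) + Module.finrank ℂ (U T k R) := by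
    have := fin_S (N := N) k
    have := fin_U T k R
    let ψ₀ : Sx N →ₗ[ℂ] Sx N ⧸ I := (Ideal.Quotient.mkₐ ℂ I).toLinearMap
    let ψ : homogeneousSubmodule (Fin (N + 1)) ℂ k →ₗ[ℂ] Sx N ⧸ I :=
      ψ₀.comp (homogeneousSubmodule (Fin (N + 1)) ℂ k).subtype
    have h7 := LinearMap.finrank_range_add_finrank_ker ψ
    have h8 : LinearMap.range ψ = gr I k := by
      rw [gr, LinearMap.range_comp, Submodule.range_subtype]
    have h9 : (LinearMap.ker ψ).map (homogeneousSubmodule (Fin (N + 1)) ℂ k).subtype ≤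
        U T k R := by
      rintro _ ⟨⟨G, hG⟩, hG', rfl⟩
      have h10 : G ∈ I := by
        have : Ideal.Quotient.mk I G = 0 := hG'
        exact Ideal.Quotient.eq_zero_iff_mem.1 this
      refine (mem_U T k R _).2 ⟨hG, ?_⟩
      change PowerSeries.X ^ R ∣ T G
      rw [T_zero L hT h10]
      exact dvd_zero _
    have h11 := Submodule.finrank_mono h9
    have h12 : Module.finrank ℂ ((LinearMap.ker ψ).map
        (homogeneousSubmodule (Fin (N + 1)) ℂ k).subtype) = Module.finrank ℂ (LinearMap.ker ψ) :=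
      (Submodule.equivMapOfInjective _ (Submodule.injective_subtype _) _).finrank_eq.symm
    have h14 : Module.finrank ℂ (LinearMap.ker ψ) ≤ Module.finrank ℂ (U T k R) :=
      h12.symm.le.trans h11
    rw [h8] at h7
    exact h7.ge.trans (Nat.add_le_add_left h14 _)
  have h13 := h4 R
  omega

end Pool.Agent.Lib.MP_776403_ag.SD.FR
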