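import Pool.Agent.Lib.MP_776403_ag.SD.FR.SpecL
import Pool.Agent.Lib.MP_776403_ag.SD.UN.RI
import Pool.Agent.Lib.MP_776403_ag.SD.UN.RZ
import Pool.Agent.Lib.MP_776403_ag.SD.P2.TS
import Pool.Agent.Lib.MP_776403_ag.SD.E.CN

/-!
# THEOREM FR, (L5): the kernel of `rho` is generated by linear forms
-/

set_option autoImplicit false

open MvPolynomial

noncomputable section

namespace Pool.Agent.Lib.MP_776403_ag.SD.FR

open LI

namespace L5Aux

variable {N c r : ℕ}

theorem dp_sub' (a v w : Vx N) (s : ℂ) : dp a (v - s • w) = dp a v - s * dp a w := by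
  unfold dp
  rw [Finset.mul_sum, ← Finset.sum_sub_distrib]
  refine Finset.sum_congr rfl fun i _ => ?_
  rw [Pi.sub_apply, Pi.smul_apply, smul_eq_mul]
  ring

section

variable {x lam : Vx N} {f : Fin r → Sx N} {B : Fin r → Fin (N + 1)}
  {T : Sx N →ₐ[ℂ] PowerSeries (UN.Ay B)}

theorem T_C (T : Sx N →ₐ[ℂ] PowerSeries (UN.Ay B)) (a : ℂ) :
    T (C a) = PowerSeries.C (C a) := by
  rw [← MvPolynomial.algebraMap_eq, T.commutes, PowerSeries.algebraMap_apply]
  rfl

theorem coeff_one_mul (p q : PowerSeries (UN.Ay B)) : PowerSeries.coeff 1 (p * q) =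
    PowerSeries.coeff 0 p * PowerSeries.coeff 1 q +
      PowerSeries.coeff 1 p * PowerSeries.coeff 0 q := by
  rw [PowerSeries.coeff_mul, Finset.Nat.antidiagonal_succ]
  simp

theorem coeff_one (hT : UN.PT x f B T) (G : Sx N) : PowerSeries.coeff 1 (T G) =
    ∑ l, C (grad G x l) * PowerSeries.coeff 1 (T (X l)) := by
  classical
  induction G using MvPolynomial.induction_on with
  | C a =>
    rw [T_C, PowerSeries.coeff_C, if_neg one_ne_zero]
    symm
    refine Finset.sum_eq_zero fun l _ => ?_
    unfold grad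
    rw [pderiv_C, map_zero, map_zero, zero_mul]
  | add p q hp hq =>
    rw [map_add, map_add, hp, hq, ← Finset.sum_add_distrib]
    refine Finset.sum_congr rfl fun l _ => ?_
    unfold grad
    rw [map_add, map_add, map_add, add_mul]
  | mul_X p i hp =>
    rw [map_mul, coeff_one_mul, hT.c0, hT.c0, eval_X, hp]
    have h1 : ∀ l, C (grad (p * X i) x l) * PowerSeries.coeff 1 (T (X l)) =
        (if l = i then C (eval x p) * PowerSeries.coeff 1 (T (X i)) else 0) +
          C (grad p x l) * PowerSeries.coeff 1 (T (X l)) * C (x i) := by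
      intro l
      unfold grad
      rw [pderiv_mul, map_add, map_mul, map_mul, eval_X, map_add, map_mul, map_mul]
      by_cases hl : l = i
      · subst hl
        rw [if_pos rfl, pderiv_X_self, map_one, map_one]
        ring
      · rw [if_neg hl, pderiv_X_of_ne (Ne.symm hl), map_zero, map_zero]
        ring
    rw [Finset.sum_congr rfl fun l _ => h1 l, Finset.sum_add_distrib, Finset.sum_ite_eq',
      if_pos (Finset.mem_univ _), ← Finset.sum_mul]

/-- the vector of the linear terms -/
def yt (T : Sx N →ₐ[ℂ] PowerSeries (UN.Ay B)) (u : UN.Bn B → ℂ) : Vx N :=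
  fun l => eval u (PowerSeries.coeff 1 (T (X l)))

theorem eval_coeff_one (hT : UN.PT x f B T) (u : UN.Bn B → ℂ) (G : Sx N) :
    eval u (PowerSeries.coeff 1 (T G)) = dp (grad G x) (yt T u) := by
  rw [coeff_one hT, map_sum]
  unfold dp yt
  refine Finset.sum_congr rfl fun l _ => ?_
  rw [map_mul, eval_C]

theorem yt_free (hT : UN.PT x f B T) (u : UN.Bn B → ℂ) (j : UN.Bn B) : yt T u j.1 = u j := by
  unfold yt
  rw [hT.var j, map_add, PowerSeries.coeff_C, if_neg one_ne_zero, zero_add,
    PowerSeries.coeff_C_mul, PowerSeries.coeff_one_X, mul_one, eval_X]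

theorem eval_ux (hT : UN.PT x f B T) (u : UN.Bn B → ℂ) (j : Fin (N + 1)) :
    eval u (PowerSeries.coeff 1 (T (ux x lam j))) =
      (yt T u - dp lam (yt T u) • x) j := by
  unfold ux
  rw [map_sub, map_mul, T_C, map_sub, map_sub, PowerSeries.coeff_C_mul, map_mul,
    eval_C, eval_coeff_one hT u (lf lam), UN.RIAux.grad_lf, Pi.sub_apply, Pi.smul_apply,
    smul_eq_mul, mul_comm (x j)]
  rfl

theorem eval_rho (hT : UN.PT x f B T) (u : UN.Bn B → ℂ) (G : Sx N) :
    eval u (rho x lam T G) = eval (yt T u - dp lam (yt T u) • x) G := by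
  induction G using MvPolynomial.induction_on with
  | C a =>
    have h : rho x lam T (C a) = C a := by
      unfold rho
      rw [aeval_C]
      rfl
    rw [h, eval_C, eval_C]
  | add p q hp hq => rw [map_add, map_add, map_add, hp, hq]
  | mul_X p i hp =>
    have h : rho x lam T (X i) = PowerSeries.coeff 1 (T (ux x lam i)) := by
      unfold rho
      rw [aeval_X]
    rw [map_mul, map_mul, map_mul, hp, h, eval_ux hT, eval_X]

end

section

variable {I : Ideal (Sx N)} {x lam : Vx N} (L : Loc I x c)
  {T : Sx N →ₐ[ℂ] PowerSeries (UN.Ay L.B)}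

include L

/-- Tangent vectors are determined by the coordinates outside `B`. -/
theorem uniq {v w : Vx N} (hv : v ∈ TS I x) (hw : w ∈ TS I x)
    (h : ∀ j : UN.Bn L.B, v j.1 = w j.1) : v = w := by
  classical
  set M : Matrix (Fin c) (Fin c) ℂ := Matrix.of fun i b => eval x (pderiv (L.B b) (L.F i)) with hM
  have hdet : M.det ≠ 0 := by
    have h1 : M.det = eval x (Matrix.det (Matrix.of fun i b => pderiv (L.B b) (L.F i))) := by
      rw [RingHom.map_det]
      rfl
    rw [h1]
    exact L.detx
  set z : Vx N := v - w with hz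
  have hzT : z ∈ TS I x := (TS I x).sub_mem hv hw
  have hz0 : ∀ l, l ∉ Set.range L.B → z l = 0 := by
    intro l hl
    have h1 := h ⟨l, hl⟩
    rw [hz, Pi.sub_apply, sub_eq_zero]
    exact h1
  have hMz : M.mulVec (fun b => z (L.B b)) = 0 := by
    funext i
    have h1 : dp (grad (L.F i) x) z = 0 := hzT _ (L.memF i)
    rw [Pi.zero_apply, ← h1]
    unfold dp Matrix.mulVec dotProduct
    have h2 : ∀ l, grad (L.F i) x l * z l =
        ∑ b, if L.B b = l then grad (L.F i) x (L.B b) * z (L.B b) else 0 := by
      intro l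
      by_cases hl : l ∈ Set.range L.B
      · obtain ⟨b, rfl⟩ := hl
        rw [Finset.sum_eq_single b]
        · rw [if_pos rfl]
        · intro b' _ hb'
          rw [if_neg fun h => hb' (L.injB h)]
        · intro h
          exact absurd (Finset.mem_univ _) h
      · rw [hz0 l hl, mul_zero]
        symm
        refine Finset.sum_eq_zero fun b _ => ?_
        rw [if_neg]
        intro h
        exact hl ⟨b, h⟩
    rw [Finset.sum_congr rfl fun l _ => h2 l, Finset.sum_comm]
    refine Finset.sum_congr rfl fun b _ => ?_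
    rw [Finset.sum_ite_eq, if_pos (Finset.mem_univ _)]
    rfl
  have h3 : (fun b => z (L.B b)) = 0 := Matrix.eq_zero_of_mulVec_eq_zero hdet hMz
  have h4 : z = 0 := by
    funext l
    by_cases hl : l ∈ Set.range L.B
    · obtain ⟨b, rfl⟩ := hl
      exact congrFun h3 b
    · exact hz0 l hl
  rw [← sub_eq_zero, ← hz, h4]

theorem yt_mem (hT : UN.PT x L.F L.B T) (u : UN.Bn L.B → ℂ) : yt T u ∈ TS I x := by
  refine UN.RIAux.mem_TS L fun i => ?_
  rw [← eval_coeff_one hT, hT.zero i, map_zero, map_zero]

end

/-- The linear coefficient. -/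
theorem linS_one (x : Vx N) (F : Sx N) : (linS x F).coeff 1 = lf (grad F x) := by
  refine MvPolynomial.funext fun z => ?_
  rw [(mLinS N x F 1).2.1 z, UN.RZAux.coeff1, UN.RIAux.eval_lf]
  unfold dp
  exact Finset.sum_congr rfl fun l _ => mul_comm _ _

/-- A polynomial vanishing on the common zeros of independent linear forms. -/
theorem mem_of_van {ι : Type} [Fintype ι] [DecidableEq ι] (a : ι → Vx N)
    (h : LinearIndependent ℂ a) (G : Sx N)
    (hG : ∀ v : Vx N, (∀ o, dp (a o) v = 0) → eval v G = 0) :
    G ∈ Ideal.span (Set.range fun o => lf (a o)) := by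
  obtain ⟨w, hw⟩ := UN.RZAux.dual a h
  set J : Ideal (Sx N) := Ideal.span (Set.range fun o => lf (a o)) with hJ
  set φ : Sx N →ₐ[ℂ] Sx N := aeval fun j => X j - ∑ o, C (w o j) * lf (a o) with hφ
  have h1 : (Ideal.Quotient.mkₐ ℂ J).comp φ = Ideal.Quotient.mkₐ ℂ J := by
    refine MvPolynomial.algHom_ext fun j => ?_
    rw [AlgHom.comp_apply, hφ, aeval_X, Ideal.Quotient.mkₐ_eq_mk, Ideal.Quotient.eq]
    have h2 : X j - ∑ o, C (w o j) * lf (a o) - X j = - ∑ o, C (w o j) * lf (a o) := by ring
    rw [h2]
    refine J.neg_mem (J.sum_mem fun o _ => J.mul_mem_left _ ?_)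
    exact Ideal.subset_span ⟨o, rfl⟩
  have h2 : φ G = 0 := by
    refine MvPolynomial.funext fun y => ?_
    rw [map_zero]
    have h3 : eval y (φ G) = eval (fun j => y j - ∑ o, w o j * dp (a o) y) G := by
      clear hG
      induction G using MvPolynomial.induction_on with
      | C b =>
        have : φ (C b) = C b := by
          rw [hφ, aeval_C]
          rfl
        rw [this, eval_C, eval_C]
      | add p q hp hq => rw [map_add, map_add, map_add, hp, hq]
      | mul_X p i hp =>
        rw [map_mul, map_mul, map_mul, hp, eval_X]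
        congr 1
        rw [hφ, aeval_X, map_sub, eval_X, map_sum]
        congr 1
        refine Finset.sum_congr rfl fun o _ => ?_
        rw [map_mul, eval_C, UN.RIAux.eval_lf]
    rw [h3]
    refine hG _ fun o => ?_
    unfold dp
    have h4 : ∀ l, a o l * (y l - ∑ o', w o' l * ∑ i, a o' i * y i) =
        a o l * y l - ∑ o', (w o' l * a o l) * dp (a o') y := by
      intro l
      rw [mul_sub, Finset.mul_sum]
      congr 1
      refine Finset.sum_congr rfl fun o' _ => ?_
      unfold dp
      ring
    rw [Finset.sum_congr rfl fun l _ => h4 l, Finset.sum_sub_distrib, Finset.sum_comm]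
    have h5 : ∀ o', ∑ l, (w o' l * a o l) * dp (a o') y =
        if o = o' then dp (a o') y else 0 := by
      intro o'
      rw [← Finset.sum_mul, hw o o']
      split_ifs <;> ring
    rw [Finset.sum_congr rfl fun o' _ => h5 o', Finset.sum_ite_eq, if_pos (Finset.mem_univ _)]
    unfold dp
    ring
  have h3 : Ideal.Quotient.mkₐ ℂ J (φ G) = Ideal.Quotient.mkₐ ℂ J G := by
    rw [← AlgHom.comp_apply, h1]
  rw [h2, map_zero] at h3
  exact Ideal.Quotient.eq_zero_iff_mem.1 h3.symm

end L5Aux

open L5Aux in
theorem tL5 : S_L5 := by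
  intro N c I hp hh hs x lam hxI hx0 hlam L T hT d ξ F f hE hξ hd
  classical
  have hxT : x ∈ TS I x := (P2.tTS N c I hp hh hs x hxI hx0).2.1
  have hy : ∀ u, yt T u - dp lam (yt T u) • x ∈ TS I x ∧
      dp lam (yt T u - dp lam (yt T u) • x) = 0 := by
    intro u
    refine ⟨(TS I x).sub_mem (yt_mem L hT u) ((TS I x).smul_mem _ hxT), ?_⟩
    rw [dp_sub', hlam, mul_one, sub_self]
  have part1 : ∀ u : UN.Bn L.B → ℂ, ∃ v ∈ TS I x, dp lam v = 0 ∧
      ∀ G : Sx N, eval u (rho x lam T G) = eval v G :=
    fun u => ⟨_, (hy u).1, (hy u).2, fun G => eval_rho hT u G⟩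
  have part2 : ∀ v ∈ TS I x, dp lam v = 0 → ∀ G : Sx N,
      eval (fun j : UN.Bn L.B => v j.1) (rho x lam T G) = eval v G := by
    intro v hv hl G
    have h1 : yt T (fun j : UN.Bn L.B => v j.1) = v :=
      uniq L (yt_mem L hT _) hv fun j => yt_free hT _ j
    rw [eval_rho hT, h1, hl, zero_smul, sub_zero]
  refine ⟨part1, part2, fun G => ⟨fun hG => ?_, fun hG => ?_⟩⟩
  · -- the linear forms
    have hvan : ∀ v ∈ TS I x, dp lam v = 0 → eval v G = 0 := by
      intro v hv hl
      rw [← part2 v hv hl, hG, map_zero]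
    have hξC : ∀ i, ξ i ∈ CN I x := fun i => by
      rw [← hE.gr i]
      exact Submodule.subset_span ⟨F i, hE.mem i, rfl⟩
    have hspan : Submodule.span ℂ (Set.range ξ) = CN I x := by
      have hle : Submodule.span ℂ (Set.range ξ) ≤ CN I x := by
        rw [Submodule.span_le]
        rintro _ ⟨i, rfl⟩
        exact hξC i
      refine Submodule.eq_of_le_of_finrank_eq hle ?_
      rw [finrank_span_eq_card hξ, Fintype.card_fin, (eCN N c I hs x hxI hx0).1]
    have hTS : ∀ v : Vx N, (∀ i, dp (ξ i) v = 0) → v ∈ TS I x := by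
      intro v hv F' hF'
      have h1 : grad F' x ∈ Submodule.span ℂ (Set.range ξ) := by
        rw [hspan]
        exact Submodule.subset_span ⟨F', hF', rfl⟩
      generalize grad F' x = g at h1 ⊢
      induction h1 using Submodule.span_induction with
      | mem a ha => obtain ⟨i, rfl⟩ := ha; exact hv i
      | zero => simp [dp]
      | add a b _ _ ha hb =>
        have : dp (a + b) v = dp a v + dp b v := by
          simp only [dp, Pi.add_apply, add_mul, Finset.sum_add_distrib]
        rw [this, ha, hb, add_zero]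
      | smul s a _ ha =>
        have : dp (s • a) v = s * dp a v := by
          simp only [dp, Pi.smul_apply, smul_eq_mul, Finset.mul_sum, mul_assoc]
        rw [this, ha, mul_zero]
    have hind : LinearIndependent ℂ (fun o : Option (Fin c) => o.elim lam ξ) := by
      have he : (fun o : Option (Fin c) => o.elim lam ξ) =
          fun o => Option.casesOn' o lam ξ := by
        funext o
        cases o <;> rfl
      rw [he, linearIndependent_option']
      refine ⟨hξ, ?_⟩
      intro hmem
      rw [show Submodule.span ℂ (Set.range fun i : Fin c => ξ i) = CN I x from hspan] at hmem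
      obtain ⟨F', hF', he⟩ := (eCN N c I hs x hxI hx0).2.2 _ hmem
      have h1 : dp (grad F' x) x = 0 := hxT F' hF'
      rw [← he] at h1
      rw [hlam] at h1
      exact one_ne_zero h1
    have hmem := mem_of_van (fun o : Option (Fin c) => o.elim lam ξ) hind G (by
      intro v hv
      exact hvan v (hTS v fun i => hv (some i)) (hv none))
    refine (Ideal.span_le.2 ?_) hmem
    rintro _ ⟨o, rfl⟩
    cases o with
    | none => exact Ideal.mem_sup_left (Ideal.subset_span rfl)
    | some i =>
      refine Ideal.mem_sup_right (Ideal.subset_span ⟨⟨i, ⟨0, hd i⟩⟩, rfl, ?_⟩)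
      change (linS x (F i)).coeff (0 + 1) = lf (ξ i)
      rw [Nat.zero_add, linS_one, hE.gr i]
  · refine MvPolynomial.funext fun u => ?_
    obtain ⟨v, hv, hl, hev⟩ := part1 u
    rw [hev, map_zero]
    have h1 : UN.aI d lam (UN.gT d F x) ≤ RingHom.ker (eval v) := by
      unfold UN.aI
      refine sup_le ?_ ?_
      · rw [Ideal.span_le]
        rintro _ rfl
        exact (UN.RIAux.eval_lf lam v).trans hl
      · rw [Ideal.span_le]
        rintro _ ⟨⟨i, j⟩, he, rfl⟩
        change eval v ((linS x (F i)).coeff ((j : ℕ) + 1)) = 0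
        have hj : (j : ℕ) = 0 := he
        rw [hj, Nat.zero_add, linS_one, UN.RIAux.eval_lf]
        exact hv _ (hE.mem i)
    exact h1 hG

end Pool.Agent.Lib.MP_776403_ag.SD.FR
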