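import Pool.Agent.Lib.MP_776403_ag.SD.FR.SpecL
import Pool.Agent.Lib.MP_776403_ag.SD.Main
import Pool.Agent.Lib.MP_410da7_agP.Fre
import Pool.Agent.Lib.MP_410da7_agP.Reg
import Pool.Agent.Lib.MP_410da7_agP.Rlo

/-!
# THEOREM FR, module L6 (helper27): the dimension of the powers, by freeness
-/

set_option autoImplicit false

open MvPolynomial

noncomputable section

namespace Pool.Agent.Lib.MP_776403_ag.SD.FR

namespace L6Aux

/-! ### 1. Counting exponents -/

section count

variable {τ : Type} [Fintype τ] [DecidableEq τ] {m : ℕ}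

/-- The pairs `(i, β)` of degree `v`. -/
def Tm (w : τ → ℕ) (e : Fin m → ℕ) (v : ℕ) : Finset (Fin m × (τ →₀ ℕ)) :=
  ((Finset.univ : Finset (Fin m)) ×ˢ
    Finset.Iic (Finsupp.equivFunOnFinite.symm fun _ : τ => v)).filter
      fun k => e k.1 + ∑ t, w t * k.2 t = v

theorem mem_Tm {w : τ → ℕ} (hw : ∀ t, 1 ≤ w t) {e : Fin m → ℕ} {v : ℕ}
    {k : Fin m × (τ →₀ ℕ)} : k ∈ Tm w e v ↔ e k.1 + ∑ t, w t * k.2 t = v := by
  unfold Tm
  rw [Finset.mem_filter, Finset.mem_product]
  constructor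
  · exact fun h => h.2
  · intro h
    refine ⟨⟨Finset.mem_univ _, ?_⟩, h⟩
    rw [Finset.mem_Iic]
    intro t
    change k.2 t ≤ v
    have h1 : w t * k.2 t ≤ ∑ t, w t * k.2 t :=
      Finset.single_le_sum (f := fun t => w t * k.2 t) (fun _ _ => Nat.zero_le _)
        (Finset.mem_univ t)
    have h2 : k.2 t ≤ w t * k.2 t := Nat.le_mul_of_pos_left _ (hw t)
    omega

/-- the indicator exponent of a set of indices -/
def dA {ι : Type} (j : ι → τ) (A : Finset ι) : τ →₀ ℕ := ∑ o ∈ A, Finsupp.single (j o) 1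

theorem dA_sum {ι : Type} (j : ι → τ) (w : τ → ℕ) (A : Finset ι) :
    ∑ t, w t * dA j A t = ∑ o ∈ A, w (j o) := by
  simp only [dA, Finsupp.finsetSum_apply, Finset.mul_sum]
  rw [Finset.sum_comm]
  refine Finset.sum_congr rfl fun o _ => ?_
  simp [Finsupp.single_apply]

theorem dA_le {ι : Type} {j : ι → τ} (hj : Function.Injective j) (A : Finset ι)
    (β : τ →₀ ℕ) : dA j A ≤ β ↔ ∀ o ∈ A, 1 ≤ β (j o) := by
  classical
  constructor
  · intro h o ho
    refine le_trans ?_ (h (j o))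
    rw [dA, Finsupp.finsetSum_apply]
    have h1 : 1 = Finsupp.single (j o) 1 (j o) := by simp
    conv_lhs => rw [h1]
    exact Finset.single_le_sum (f := fun o' => Finsupp.single (j o') 1 (j o))
      (fun _ _ => Nat.zero_le _) ho
  · intro h t
    rw [dA, Finsupp.finsetSum_apply]
    by_cases ht : ∃ o ∈ A, j o = t
    · obtain ⟨o, ho, rfl⟩ := ht
      rw [Finset.sum_eq_single o]
      · rw [Finsupp.single_eq_same]
        exact h o ho
      · intro o' _ hne
        rw [Finsupp.single_apply, if_neg (fun h' => hne (hj h'))]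
      · intro h'
        exact absurd ho h'
    · rw [Finset.sum_eq_zero]
      · exact Nat.zero_le _
      · intro o ho
        rw [Finsupp.single_apply, if_neg (fun h' => ht ⟨o, ho, h'⟩)]

theorem card_ge {w : τ → ℕ} (hw : ∀ t, 1 ≤ w t) (e : Fin m → ℕ) {N : ℕ}
    (hN : ∀ v, (Tm w e v).card = (N + v).choose N) (u : ℕ) (δ : τ →₀ ℕ) :
    ((Tm w e u).filter fun k => δ ≤ k.2).card =
      if ∑ t, w t * δ t ≤ u then (N + (u - ∑ t, w t * δ t)).choose N else 0 := by
  classical
  split_ifs with h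
  · rw [← hN]
    have h1 : (Tm w e u).filter (fun k => δ ≤ k.2) =
        (Tm w e (u - ∑ t, w t * δ t)).image (fun k => (k.1, k.2 + δ)) := by
      ext k
      rw [Finset.mem_filter, Finset.mem_image]
      constructor
      · rintro ⟨h2, h3⟩
        refine ⟨(k.1, k.2 - δ), ?_, ?_⟩
        · rw [mem_Tm hw] at h2 ⊢
          have h4 : ∑ t, w t * (k.2 - δ) t + ∑ t, w t * δ t = ∑ t, w t * k.2 t := by
            rw [← Finset.sum_add_distrib]
            refine Finset.sum_congr rfl fun t _ => ?_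
            rw [Finsupp.tsub_apply, ← Nat.mul_add, Nat.sub_add_cancel (h3 t)]
          change e k.1 + ∑ t, w t * (k.2 - δ) t = _
          omega
        · change (k.1, k.2 - δ + δ) = k
          rw [tsub_add_cancel_of_le h3]
      · rintro ⟨k', h2, rfl⟩
        rw [mem_Tm hw] at h2 ⊢
        refine ⟨?_, le_add_self⟩
        change e k'.1 + ∑ t, w t * (k'.2 + δ) t = u
        have h4 : ∑ t, w t * (k'.2 + δ) t = ∑ t, w t * k'.2 t + ∑ t, w t * δ t := by
          rw [← Finset.sum_add_distrib]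
          refine Finset.sum_congr rfl fun t _ => ?_
          rw [Finsupp.add_apply, Nat.mul_add]
        rw [h4]
        omega
    rw [h1, Finset.card_image_of_injective]
    rintro ⟨i, β⟩ ⟨i', β'⟩ h5
    rw [Prod.mk.injEq] at h5
    obtain ⟨h6, h7⟩ := h5
    rw [Prod.mk.injEq]
    exact ⟨h6, add_right_cancel h7⟩
  · rw [Finset.card_eq_zero, Finset.filter_eq_empty_iff]
    intro k h2 h3
    rw [mem_Tm hw] at h2
    apply h
    have : ∑ t, w t * δ t ≤ ∑ t, w t * k.2 t :=
      Finset.sum_le_sum fun t _ => Nat.mul_le_mul_left _ (h3 t)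
    omega

/-- inclusion-exclusion -/
theorem incl {w : τ → ℕ} (hw : ∀ t, 1 ≤ w t) (e : Fin m → ℕ) {N : ℕ}
    (hN : ∀ v, (Tm w e v).card = (N + v).choose N) {ι : Type} [Fintype ι] {j : ι → τ}
    (hj : Function.Injective j) (u : ℕ) :
    (((Tm w e u).filter fun k => ∀ o, k.2 (j o) = 0).card : ℤ) = hcG (fun o => w (j o)) N u := by
  classical
  have h1 : (((Tm w e u).filter fun k => ∀ o, k.2 (j o) = 0).card : ℤ) =
      ∑ k ∈ Tm w e u, ∏ o : ι, (-(if 1 ≤ k.2 (j o) then (1 : ℤ) else 0) + 1) := by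
    have h2 : ∀ k : Fin m × (τ →₀ ℕ),
        ∏ o : ι, (-(if 1 ≤ k.2 (j o) then (1 : ℤ) else 0) + 1) =
        if ∀ o, k.2 (j o) = 0 then (1 : ℤ) else 0 := by
      intro k
      split_ifs with h
      · refine Finset.prod_eq_one fun o _ => ?_
        rw [h o, if_neg (by norm_num)]
        norm_num
      · push Not at h
        obtain ⟨o, ho⟩ := h
        refine Finset.prod_eq_zero (Finset.mem_univ o) ?_
        rw [if_pos (Nat.one_le_iff_ne_zero.2 ho)]
        norm_num
    simp only [h2, Finset.sum_boole]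
  rw [h1]
  have h3 : ∀ k : Fin m × (τ →₀ ℕ), ∏ o : ι, (-(if 1 ≤ k.2 (j o) then (1 : ℤ) else 0) + 1) =
      ∑ A : Finset ι, (-1) ^ A.card * (if dA j A ≤ k.2 then (1 : ℤ) else 0) := by
    intro k
    rw [Finset.prod_add, Finset.powerset_univ]
    refine Finset.sum_congr rfl fun A _ => ?_
    rw [Finset.prod_const_one, mul_one, Finset.prod_neg]
    congr 1
    by_cases h : dA j A ≤ k.2
    · rw [if_pos h]
      rw [dA_le hj] at h
      exact Finset.prod_eq_one fun o ho => if_pos (h o ho)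
    · rw [if_neg h]
      rw [dA_le hj] at h
      push Not at h
      obtain ⟨o, ho, h'⟩ := h
      exact Finset.prod_eq_zero ho (if_neg (not_le.2 h'))
  simp only [h3]
  rw [Finset.sum_comm, hcG]
  refine Finset.sum_congr rfl fun A _ => ?_
  rw [← Finset.mul_sum, Finset.sum_boole, card_ge hw e hN, dA_sum]
  congr 1
  split_ifs
  · rfl
  · rfl

end count

/-! ### 2. The basis -/

section basis

variable {N m : ℕ} {τ : Type} [Fintype τ] [DecidableEq τ]

/-- the combination -/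
def cb (E : τ → Sx N) (b : Fin m → Sx N) (c : Fin m → MvPolynomial τ ℂ) : Sx N :=
  ∑ i, aeval E (c i) * b i

theorem cb_add (E : τ → Sx N) (b : Fin m → Sx N) (c c' : Fin m → MvPolynomial τ ℂ) :
    cb E b (fun i => c i + c' i) = cb E b c + cb E b c' := by
  simp only [cb, map_add, add_mul, Finset.sum_add_distrib]

theorem cb_mul (E : τ → Sx N) (b : Fin m → Sx N) (q : MvPolynomial τ ℂ)
    (c : Fin m → MvPolynomial τ ℂ) :
    cb E b (fun i => q * c i) = aeval E q * cb E b c := by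
  simp only [cb, map_mul, Finset.mul_sum, mul_assoc]

theorem cb_zero (E : τ → Sx N) (b : Fin m → Sx N) : cb E b (fun _ => 0) = 0 := by
  simp [cb]

/-- the product `b_i E^β` -/
def mn (E : τ → Sx N) (b : Fin m → Sx N) (k : Fin m × (τ →₀ ℕ)) : Sx N :=
  (∏ t, E t ^ k.2 t) * b k.1

theorem aeval_mon (E : τ → Sx N) (β : τ →₀ ℕ) (a : ℂ) :
    aeval E (monomial β a) = a • ∏ t, E t ^ β t := by
  rw [aeval_monomial, Algebra.smul_def, Finsupp.prod_fintype]
  intro t
  rw [pow_zero]

theorem mn_sum (E : τ → Sx N) (b : Fin m → Sx N) (s : Finset (Fin m × (τ →₀ ℕ)))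
    (a : Fin m × (τ →₀ ℕ) → ℂ) :
    ∑ k ∈ s, a k • mn E b k =
      cb E b (fun i => ∑ k ∈ s.filter (fun k => k.1 = i), monomial k.2 (a k)) := by
  unfold cb
  simp only [map_sum, Finset.sum_mul]
  have h1 : ∀ i : Fin m, ∑ k ∈ s.filter (fun k => k.1 = i), aeval E (monomial k.2 (a k)) * b i =
      ∑ k ∈ s.filter (fun k => k.1 = i), a k • mn E b k := by
    intro i
    refine Finset.sum_congr rfl fun k hk => ?_
    rw [aeval_mon, mn, ← (Finset.mem_filter.1 hk).2, smul_mul_assoc]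
  simp only [h1]
  exact (Finset.sum_fiberwise s (fun k => k.1) fun k => a k • mn E b k).symm

theorem coef_cb (s : Finset (Fin m × (τ →₀ ℕ))) (a : Fin m × (τ →₀ ℕ) → ℂ)
    (k : Fin m × (τ →₀ ℕ)) (hk : k ∈ s) :
    coeff k.2 (∑ k' ∈ s.filter (fun k' => k'.1 = k.1), monomial k'.2 (a k')) = a k := by
  rw [MvPolynomial.coeff_sum, Finset.sum_eq_single k]
  · rw [coeff_monomial, if_pos rfl]
  · intro k' hk' hne
    rw [coeff_monomial, if_neg]
    intro h
    exact hne (Prod.ext (Finset.mem_filter.1 hk').2 h)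
  · intro h
    exact (h (Finset.mem_filter.2 ⟨hk, rfl⟩)).elim

/-- unique representation -/
def UR (E : τ → Sx N) (b : Fin m → Sx N) : Prop :=
  ∀ P : Sx N, ∃! c : Fin m → MvPolynomial τ ℂ, P = cb E b c

theorem mem_span {E : τ → Sx N} {b : Fin m → Sx N} (hu : UR E b) (A : Set τ) {P : Sx N}
    (hP : P ∈ Ideal.span (E '' A)) {c : Fin m → MvPolynomial τ ℂ} (hc : P = cb E b c) (i : Fin m) :
    c i ∈ Ideal.span ((X : τ → MvPolynomial τ ℂ) '' A) := by
  have key : ∀ a : Sx N, ∃ c : Fin m → MvPolynomial τ ℂ,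
      (∀ i, c i ∈ Ideal.span ((X : τ → MvPolynomial τ ℂ) '' A)) ∧ a * P = cb E b c := by
    refine Submodule.span_induction (p := fun P _ => ∀ a : Sx N,
      ∃ c : Fin m → MvPolynomial τ ℂ, (∀ i, c i ∈ Ideal.span ((X : τ → MvPolynomial τ ℂ) '' A)) ∧
        a * P = cb E b c) ?_ ?_ ?_ ?_ hP
    · rintro _ ⟨t, ht, rfl⟩ a
      obtain ⟨c, hc, -⟩ := hu a
      have hc : a = cb E b c := hc
      refine ⟨fun i => X t * c i, fun i => Ideal.mul_mem_right _ _
        (Ideal.subset_span ⟨t, ht, rfl⟩), ?_⟩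
      rw [cb_mul, aeval_X, ← hc, mul_comm]
    · intro a
      exact ⟨fun _ => 0, fun _ => Ideal.zero_mem _, by rw [cb_zero, mul_zero]⟩
    · intro p q _ _ hp hq a
      obtain ⟨c, h1, h2⟩ := hp a
      obtain ⟨c', h3, h4⟩ := hq a
      exact ⟨fun i => c i + c' i, fun i => Ideal.add_mem _ (h1 i) (h3 i), by
        rw [cb_add, mul_add, h2, h4]⟩
    · intro r p _ hp a
      obtain ⟨c, h1, h2⟩ := hp (a * r)
      exact ⟨c, h1, by rw [← h2, smul_eq_mul, mul_assoc]⟩
  obtain ⟨c', h1, h2⟩ := key 1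
  rw [one_mul] at h2
  obtain ⟨c₀, -, h3⟩ := hu P
  have h4 : c = c₀ := h3 c hc
  have h5 : c' = c₀ := h3 c' h2
  rw [h4, ← h5]
  exact h1 i

/-- products with exponents not involving `A` are independent modulo `span (E '' A)` -/
theorem ind_mod {E : τ → Sx N} {b : Fin m → Sx N} (hu : UR E b) (A : Set τ)
    (s : Finset (Fin m × (τ →₀ ℕ))) (hs : ∀ k ∈ s, ∀ t ∈ A, k.2 t = 0)
    (a : Fin m × (τ →₀ ℕ) → ℂ) (ha : ∑ k ∈ s, a k • mn E b k ∈ Ideal.span (E '' A)) :
    ∀ k ∈ s, a k = 0 := by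
  intro k hk
  by_contra hne
  have h1 := mem_span hu A ha (mn_sum E b s a) k.1
  rw [mem_ideal_span_X_image] at h1
  obtain ⟨t, ht, h2⟩ := h1 k.2 (by
    rw [mem_support_iff, coef_cb s a k hk]
    exact hne)
  exact h2 (hs k hk t ht)

theorem mn_hom {E : τ → Sx N} {w : τ → ℕ} (hE : ∀ t, (E t).IsHomogeneous (w t))
    {b : Fin m → Sx N} {e : Fin m → ℕ} (hb : ∀ i, (b i).IsHomogeneous (e i))
    (k : Fin m × (τ →₀ ℕ)) : (mn E b k).IsHomogeneous (e k.1 + ∑ t, w t * k.2 t) := by
  unfold mn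
  rw [Nat.add_comm (e k.1)]
  refine IsHomogeneous.mul ?_ (hb _)
  exact IsHomogeneous.prod _ _ _ fun t _ => (hE t).pow _

theorem span_mn {E : τ → Sx N} {w : τ → ℕ} (hw : ∀ t, 1 ≤ w t)
    (hE : ∀ t, (E t).IsHomogeneous (w t)) {b : Fin m → Sx N} {e : Fin m → ℕ}
    (hb : ∀ i, (b i).IsHomogeneous (e i)) (hu : UR E b) (v : ℕ) :
    homogeneousSubmodule (Fin (N + 1)) ℂ v =
      Submodule.span ℂ (Set.range fun k : {k // k ∈ Tm w e v} => mn E b k.1) := by
  apply le_antisymm
  · intro P hP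
    have hP' : P.IsHomogeneous v := hP
    obtain ⟨c, hc, -⟩ := hu P
    have hc : P = cb E b c := hc
    have h1 : P = homogeneousComponent v (cb E b c) := by
      rw [← hc, homogeneousComponent_of_mem hP', if_pos rfl]
    rw [h1, cb, map_sum]
    refine Submodule.sum_mem _ fun i _ => ?_
    have h2 : aeval E (c i) = ∑ β ∈ (c i).support, coeff β (c i) • ∏ t, E t ^ β t := by
      conv_lhs => rw [(c i).as_sum, map_sum]
      exact Finset.sum_congr rfl fun β _ => aeval_mon E β _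
    rw [h2, Finset.sum_mul, map_sum]
    refine Submodule.sum_mem _ fun β _ => ?_
    rw [smul_mul_assoc, map_smul]
    refine Submodule.smul_mem _ _ ?_
    change homogeneousComponent v (mn E b (i, β)) ∈ _
    rw [homogeneousComponent_of_mem (mn_hom hE hb (i, β))]
    split_ifs with h3
    · refine Submodule.subset_span ⟨⟨(i, β), ?_⟩, rfl⟩
      rw [mem_Tm hw]
      exact h3.symm
    · exact Submodule.zero_mem _
  · rw [Submodule.span_le]
    rintro _ ⟨⟨k, hk⟩, rfl⟩
    rw [mem_Tm hw] at hk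
    have := mn_hom hE hb k
    rw [hk] at this
    exact this

theorem finrank_forms (n d : ℕ) :
    Module.finrank ℂ (homogeneousSubmodule (Fin (n + 1)) ℂ d) = (d + n).choose n := by
  classical
  have h1 : homogeneousSubmodule (Fin (n + 1)) ℂ d = Submodule.span ℂ (Set.range
      fun s : {s // s ∈ (Finset.univ : Finset (Fin (n + 1))).finsuppAntidiag d} =>
        (monomial s.1 1 : MvPolynomial (Fin (n + 1)) ℂ)) := by
    rw [homogeneousSubmodule_eq_finsupp_supported, AddMonoidAlgebra.supported_eq_span_single]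
    congr 1
    ext f
    constructor
    · rintro ⟨s, hs, rfl⟩
      refine ⟨⟨s, ?_⟩, rfl⟩
      rw [Finset.mem_finsuppAntidiag]
      refine ⟨?_, Finset.subset_univ _⟩
      rw [← Finsupp.degree_eq_sum]
      exact hs
    · rintro ⟨⟨s, hs⟩, rfl⟩
      refine ⟨s, ?_, rfl⟩
      rw [Finset.mem_finsuppAntidiag, ← Finsupp.degree_eq_sum] at hs
      exact hs.1
  have h2 : LinearIndependent ℂ
      fun s : {s // s ∈ (Finset.univ : Finset (Fin (n + 1))).finsuppAntidiag d} =>
        (monomial s.1 1 : MvPolynomial (Fin (n + 1)) ℂ) := by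
    have h3 := (basisMonomials (Fin (n + 1)) ℂ).linearIndependent.comp
      (fun s : {s // s ∈ (Finset.univ : Finset (Fin (n + 1))).finsuppAntidiag d} => s.1)
      Subtype.val_injective
    refine (linearIndependent_equiv' (Equiv.refl _) ?_).1 h3
    funext s
    change (monomial s.1 1 : MvPolynomial (Fin (n + 1)) ℂ) = basisMonomials (Fin (n + 1)) ℂ s.1
    rw [coe_basisMonomials]
  rw [h1, finrank_span_eq_card h2, Fintype.card_coe, Finset.card_finsuppAntidiag_nat_eq_choose,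
    Finset.card_univ, Fintype.card_fin]
  have h4 : n + 1 + d - 1 = d + n := by omega
  rw [h4]
  exact Nat.choose_symm_add

theorem li_of_ind {V : Type} [AddCommGroup V] [Module ℂ V] {κ : Type} (s : Finset κ)
    (f : κ → V) (h : ∀ a : κ → ℂ, ∑ k ∈ s, a k • f k = 0 → ∀ k ∈ s, a k = 0) :
    LinearIndependent ℂ fun k : {k // k ∈ s} => f k.1 := by
  classical
  rw [Fintype.linearIndependent_iff]
  intro g hg k
  have h1 := h (fun k => if hk : k ∈ s then g ⟨k, hk⟩ else 0) (by
    rw [← hg, ← Finset.sum_coe_sort s]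
    refine Finset.sum_congr rfl fun k _ => ?_
    rw [dif_pos k.2]) k.1 k.2
  rw [dif_pos k.2] at h1
  exact h1

theorem card_Tm {E : τ → Sx N} {w : τ → ℕ} (hw : ∀ t, 1 ≤ w t)
    (hE : ∀ t, (E t).IsHomogeneous (w t)) {b : Fin m → Sx N} {e : Fin m → ℕ}
    (hb : ∀ i, (b i).IsHomogeneous (e i)) (hu : UR E b) (v : ℕ) :
    (Tm w e v).card = (N + v).choose N := by
  have h1 : LinearIndependent ℂ fun k : {k // k ∈ Tm w e v} => mn E b k.1 := by
    refine li_of_ind _ _ fun a ha => ?_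
    refine ind_mod hu ∅ _ (fun k _ t ht => absurd ht (Set.notMem_empty t)) a ?_
    rw [ha]
    exact Ideal.zero_mem _
  have h2 := finrank_span_eq_card h1
  rw [← span_mn hw hE hb hu v, Fintype.card_coe] at h2
  rw [← h2, finrank_forms, Nat.add_comm]

/-- the products are independent after a linear map with the kernel in `span (E '' A)` -/
theorem card_le {E : τ → Sx N} {b : Fin m → Sx N} (hu : UR E b) (A : Set τ)
    (s : Finset (Fin m × (τ →₀ ℕ))) (hs : ∀ k ∈ s, ∀ t ∈ A, k.2 t = 0)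
    {V : Type} [AddCommGroup V] [Module ℂ V] (R : Sx N →ₗ[ℂ] V)
    (hR : ∀ G, R G = 0 → G ∈ Ideal.span (E '' A)) (U : Submodule ℂ V) [Module.Finite ℂ U]
    (hU : ∀ k ∈ s, R (mn E b k) ∈ U) : s.card ≤ Module.finrank ℂ U := by
  have h1 : LinearIndependent ℂ fun k : {k // k ∈ s} => R (mn E b k.1) := by
    refine li_of_ind s (fun k => R (mn E b k)) fun a ha => ind_mod hu A s hs a (hR _ ?_)
    rw [← ha, map_sum]
    exact Finset.sum_congr rfl fun k _ => map_smul _ _ _
  have h2 := finrank_span_eq_card h1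
  rw [Fintype.card_coe] at h2
  rw [← h2]
  refine Submodule.finrank_mono ?_
  rw [Submodule.span_le]
  rintro _ ⟨k, rfl⟩
  exact hU k.1 k.2

end basis

/-! ### 3. The enumeration -/

section enum

/-- existence of the basis, from `stmtFre` -/
theorem exists_UR {N : ℕ} {τ : Type} [Fintype τ] (hcard : Fintype.card τ = N + 1)
    (E : τ → Sx N) (w : τ → ℕ) (hw : ∀ t, 1 ≤ w t) (hE : ∀ t, (E t).IsHomogeneous (w t))
    (hz : ∀ y : Vx N, (∀ t, eval y (E t) = 0) → y = 0) :
    ∃ (m : ℕ) (b : Fin m → Sx N) (e : Fin m → ℕ), (∀ i, (b i).IsHomogeneous (e i)) ∧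
      UR E b := by
  classical
  have φ : Fin (N + 1) ≃ τ := (Fintype.equivFinOfCardEq hcard).symm
  obtain ⟨m, b, e, hb, hu⟩ := Pool.Agent.PC.stmtFre
    (Pool.Agent.PC.stmtReg Pool.Agent.PC.stmtRlo) (Fin (N + 1)) (N + 1)
    (Fintype.card_fin _) ℂ (fun _ => 1) (fun _ => Nat.one_pos) (fun i => E (φ i))
    (fun i => w (φ i)) (fun i => hw _) (fun i => hE _) (fun y hy => hz y fun t => by
      have := hy (φ.symm t)
      rwa [Equiv.apply_symm_apply] at this)
  refine ⟨m, b, e, hb, fun P => ?_⟩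
  obtain ⟨c, hc, hc'⟩ := hu P
  have key : ∀ c : Fin m → MvPolynomial (Fin (N + 1)) ℂ,
      cb E b (fun i => rename φ (c i)) = ∑ i, aeval (fun i => E (φ i)) (c i) * b i := by
    intro c
    unfold cb
    refine Finset.sum_congr rfl fun i _ => ?_
    rw [aeval_rename]
    rfl
  refine ⟨fun i => rename φ (c i), ?_, ?_⟩
  · change P = _
    rw [key]
    exact hc
  · intro c₁ h1
    have h2 : ∀ i, rename φ (rename φ.symm (c₁ i)) = c₁ i := by
      intro i
      rw [rename_rename]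
      have : (φ ∘ φ.symm : τ → τ) = id := by
        funext t
        exact Equiv.apply_symm_apply φ t
      rw [this, rename_id_apply]
    have h3 : (fun i => rename φ.symm (c₁ i)) = c := by
      refine hc' _ ?_
      change P = _
      rw [← key]
      simp only [h2]
      exact h1
    funext i
    rw [← h3, h2]

end enum

/-! ### 4. The monomials of the powers -/

section main

variable {N c : ℕ}

/-- the index type of the parameters -/
abbrev Ta (d : Fin c → ℕ) (K : ℕ) : Type := Option (UN.Ex d) ⊕ Fin K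

/-- the weights -/
def wtt (d : Fin c → ℕ) (K : ℕ) : Ta d K → ℕ :=
  Sum.elim (fun o => o.elim 1 fun e => e.2.1 + 1) fun _ => 1

/-- the parameters -/
def En (d : Fin c → ℕ) (x lam : Vx N) (F : Fin c → Sx N) {K : ℕ} (l : Fin K → Sx N) :
    Ta d K → Sx N :=
  Sum.elim (fun o => o.elim (LI.lf lam) fun e => UN.gT d F x e) l

theorem lf_hom (a : Vx N) : (LI.lf a).IsHomogeneous 1 := by
  unfold LI.lf
  refine IsHomogeneous.sum _ _ _ fun i _ => ?_
  have h := (isHomogeneous_C (Fin (N + 1)) (a i)).mul (isHomogeneous_X ℂ i)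
  rwa [zero_add] at h

/-- the linear ones -/
def AA (d : Fin c → ℕ) (K : ℕ) : Set (Ta d K) :=
  {t | t = Sum.inl none ∨ ∃ e : UN.Ex d, e.2.1 = 0 ∧ t = Sum.inl (some e)}

/-- the exponent `α` extended by zero -/
def ah {d : Fin c → ℕ} (K : ℕ) (α : UN.Ex2 d → ℕ) : Ta d K →₀ ℕ :=
  Finsupp.equivFunOnFinite.symm (Sum.elim
    (fun o => o.elim 0 fun e => if h : e.2.1 ≠ 0 then α ⟨e, h⟩ else 0) fun _ => 0)

theorem ah_none {d : Fin c → ℕ} (K : ℕ) (α : UN.Ex2 d → ℕ) : ah K α (Sum.inl none) = 0 := rfl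

theorem ah_some {d : Fin c → ℕ} (K : ℕ) (α : UN.Ex2 d → ℕ) (e : UN.Ex d) :
    ah K α (Sum.inl (some e)) = if h : e.2.1 ≠ 0 then α ⟨e, h⟩ else 0 := rfl

theorem ah_inr {d : Fin c → ℕ} (K : ℕ) (α : UN.Ex2 d → ℕ) (j : Fin K) :
    ah K α (Sum.inr j) = 0 := rfl

/-- a sum over `Ex d` of a function supported on `Ex2 d` -/
theorem sum_ex2 {d : Fin c → ℕ} {M : Type} [AddCommMonoid M] (f : UN.Ex d → M)
    (hf : ∀ e : UN.Ex d, e.2.1 = 0 → f e = 0) : ∑ e, f e = ∑ e : UN.Ex2 d, f e.1 := by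
  classical
  rw [← Finset.sum_subtype (Finset.univ.filter fun e : UN.Ex d => e.2.1 ≠ 0) (by
    intro e
    simp) f, Finset.sum_filter]
  refine Finset.sum_congr rfl fun e _ => ?_
  split_ifs with h
  · rfl
  · exact hf e (not_not.1 h)

theorem prod_ex2 {d : Fin c → ℕ} {M : Type} [CommMonoid M] (f : UN.Ex d → M)
    (hf : ∀ e : UN.Ex d, e.2.1 = 0 → f e = 1) : ∏ e, f e = ∏ e : UN.Ex2 d, f e.1 :=
  sum_ex2 (M := Additive M) f hf

theorem ah_deg {d : Fin c → ℕ} (K : ℕ) (α : UN.Ex2 d → ℕ) :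
    ∑ t, wtt d K t * ah K α t = ∑ e, α e * (e.1.2.1 + 1) := by
  rw [Fintype.sum_sum_type, Fintype.sum_option]
  simp only [ah_none, ah_inr, mul_zero, Finset.sum_const_zero, add_zero, zero_add]
  rw [sum_ex2 (fun e => wtt d K (Sum.inl (some e)) * ah K α (Sum.inl (some e))) (fun e he => by
    rw [ah_some, dif_neg (not_not.2 he), mul_zero])]
  refine Finset.sum_congr rfl fun e _ => ?_
  rw [ah_some, dif_pos e.2, mul_comm]
  rfl

theorem prod_mem {d : Fin c → ℕ} {K : ℕ} (x lam : Vx N) (F : Fin c → Sx N) (l : Fin K → Sx N)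
    (β : Ta d K →₀ ℕ) (hβ : ∀ t ∈ AA d K, β t = 0) :
    ∏ t, En d x lam F l t ^ β t ∈ Ideal.span (Set.range fun e : UN.Ex2 d =>
      UN.gT d F x e.1) ^ (∑ e : UN.Ex2 d, β (Sum.inl (some e.1))) := by
  rw [Fintype.prod_sum_type]
  refine Ideal.mul_mem_right _ _ ?_
  rw [Fintype.prod_option]
  refine Ideal.mul_mem_left _ _ ?_
  rw [prod_ex2 (fun e => En d x lam F l (Sum.inl (some e)) ^ β (Sum.inl (some e)))
    (fun e he => by rw [hβ _ (Or.inr ⟨e, he, rfl⟩), pow_zero])]
  rw [← Finset.prod_pow_eq_pow_sum]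
  refine Ideal.prod_mem_prod fun e _ => Ideal.pow_mem_pow ?_ _
  exact Ideal.subset_span (Set.mem_range_self (f := fun e : UN.Ex2 d => UN.gT d F x e.1) e)

theorem aI_le {d : Fin c → ℕ} {K : ℕ} (x lam : Vx N) (F : Fin c → Sx N) (l : Fin K → Sx N) :
    UN.aI d lam (UN.gT d F x) ≤ Ideal.span (En d x lam F l '' AA d K) := by
  unfold UN.aI
  refine sup_le ?_ ?_
  · rw [Ideal.span_le, Set.singleton_subset_iff]
    exact Ideal.subset_span ⟨Sum.inl none, Or.inl rfl, rfl⟩
  · rw [Ideal.span_le]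
    rintro _ ⟨e, he, rfl⟩
    exact Ideal.subset_span ⟨Sum.inl (some e), Or.inr ⟨e, he, rfl⟩, rfl⟩

end main

end L6Aux

open L6Aux in
theorem tL6 (h5 : S_L5) : S_L6 := by
  classical
  intro N c I hI hom hs x lam L T hT d ξ F f hE hξ l hC r m'
  have hcard : Fintype.card (Ta d (N - ∑ i, d i)) = N + 1 := by
    rw [Fintype.card_sum, Fintype.card_option, Fintype.card_sigma, Fintype.card_fin]
    simp only [Fintype.card_fin]
    have := hC.le
    omega
  have hw : ∀ t, 1 ≤ wtt d (N - ∑ i, d i) t := by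
    rintro ((_ | e) | j)
    · exact le_refl 1
    · exact Nat.succ_le_succ (Nat.zero_le _)
    · exact le_refl 1
  have hEh : ∀ t, (En d x lam F l t).IsHomogeneous (wtt d (N - ∑ i, d i) t) := by
    rintro ((_ | e) | j)
    · exact L6Aux.lf_hom lam
    · exact (mLinS N x (F e.1) (e.2.1 + 1)).2.2.1
    · exact hC.lin j
  have hz : ∀ y : Vx N, (∀ t, eval y (En d x lam F l t) = 0) → y = 0 := fun y hy =>
    hC.zero y (fun e => hy (Sum.inl (some e))) (hy (Sum.inl none)) fun j => hy (Sum.inr j)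
  obtain ⟨m, b, e, hb, hu⟩ := exists_UR hcard (En d x lam F l) _ hw hEh hz
  have hN := card_Tm hw hEh hb hu
  have hcount := fun u => incl hw e hN (j := (Sum.inl : Option (UN.Ex d) → Ta d (N - ∑ i, d i)))
    Sum.inl_injective u
  have h5' := (h5 N c I hI hom hs x lam hC.xI hC.x0 hC.lamx L T hT d ξ F f hE hξ hC.one_le).2.2
  have hfin : Module.Finite ℂ (homogeneousSubmodule (Fin (N + 1)) ℂ r) := by
    rw [span_mn hw hEh hb hu r]
    exact FiniteDimensional.span_of_finite ℂ (Set.finite_range _)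
  have hfin2 : Module.Finite ℂ (Ga d x lam F T r m') := by
    unfold Ga
    infer_instance
  have hR : ((Tm (wtt d (N - ∑ i, d i)) e r).filter fun k => (∀ t ∈ AA d (N - ∑ i, d i), k.2 t = 0) ∧
      m' ≤ ∑ e : UN.Ex2 d, k.2 (Sum.inl (some e.1))).card ≤
      Module.finrank ℂ (Ga d x lam F T r m') := by
    refine card_le hu (AA d (N - ∑ i, d i)) _ ?_ (rho x lam T).toLinearMap ?_ _ ?_
    · intro k hk
      exact (Finset.mem_filter.1 hk).2.1
    · intro G hG
      exact aI_le x lam F l ((h5' G).1 hG)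
    · intro k hk
      rw [Finset.mem_filter, mem_Tm hw] at hk
      refine Submodule.mem_map_of_mem ⟨?_, ?_⟩
      · have := mn_hom hEh hb k
        rw [hk.1] at this
        exact this
      · exact Ideal.mul_mem_right _ _ (Ideal.pow_le_pow_right hk.2.2
          (prod_mem x lam F l k.2 hk.2.1))
  have hS : ∑ α ∈ UN.mu d r m', ((Tm (wtt d (N - ∑ i, d i)) e
      (r - ∑ e, α e * (e.1.2.1 + 1))).filter fun k => ∀ o : Option (UN.Ex d),
        k.2 (Sum.inl o) = 0).card ≤
      ((Tm (wtt d (N - ∑ i, d i)) e r).filter fun k => (∀ t ∈ AA d (N - ∑ i, d i), k.2 t = 0) ∧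
      m' ≤ ∑ e : UN.Ex2 d, k.2 (Sum.inl (some e.1))).card := by
    rw [← Finset.card_sigma]
    refine Finset.card_le_card_of_injOn
      (fun p => (p.2.1, p.2.2 + ah (N - ∑ i, d i) p.1)) ?_ ?_
    · rintro ⟨α, i, β⟩ hp
      rw [Finset.mem_coe, Finset.mem_sigma, Finset.mem_filter, mem_Tm hw] at hp
      obtain ⟨h1, h2, h3⟩ := hp
      simp only at h1 h2 h3
      rw [UN.mu, Finset.mem_filter] at h1
      rw [Finset.mem_coe, Finset.mem_filter, mem_Tm hw]
      simp only
      refine ⟨?_, ?_, ?_⟩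
      · have h4 : ∑ t, wtt d (N - ∑ i, d i) t * (β + ah (N - ∑ i, d i) α) t =
            ∑ t, wtt d (N - ∑ i, d i) t * β t +
            ∑ t, wtt d (N - ∑ i, d i) t * ah (N - ∑ i, d i) α t := by
          rw [← Finset.sum_add_distrib]
          refine Finset.sum_congr rfl fun t _ => ?_
          rw [Finsupp.add_apply, Nat.mul_add]
        rw [h4, ah_deg]
        have := h1.2.2
        omega
      · rintro t (rfl | ⟨e', he', rfl⟩)
        · rw [Finsupp.add_apply, h3, ah_none]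
        · rw [Finsupp.add_apply, h3, ah_some, dif_neg (not_not.2 he')]
      · refine h1.2.1.trans (le_of_eq ?_)
        refine Finset.sum_congr rfl fun e' _ => ?_
        rw [Finsupp.add_apply, h3, ah_some, dif_pos e'.2, zero_add]
    · rintro ⟨α, i, β⟩ hp ⟨α', i', β'⟩ hp' heq
      rw [Finset.mem_coe, Finset.mem_sigma, Finset.mem_filter] at hp hp'
      have h3 := hp.2.2
      have h3' := hp'.2.2
      simp only at h3 h3'
      simp only [Prod.mk.injEq] at heq
      obtain ⟨rfl, h4⟩ := heq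
      have h5 : α = α' := by
        funext e'
        have := DFunLike.congr_fun h4 (Sum.inl (some e'.1))
        rw [Finsupp.add_apply, Finsupp.add_apply, h3, h3', ah_some, ah_some, dif_pos e'.2,
          dif_pos e'.2, zero_add, zero_add] at this
        exact this
      subst h5
      rw [add_right_cancel h4]
  have hS' : (∑ α ∈ UN.mu d r m', (((Tm (wtt d (N - ∑ i, d i)) e
      (r - ∑ e, α e * (e.1.2.1 + 1))).filter fun k => ∀ o : Option (UN.Ex d),
        k.2 (Sum.inl o) = 0).card : ℤ)) ≤ (Module.finrank ℂ (Ga d x lam F T r m') : ℤ) := by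
    exact_mod_cast hS.trans hR
  refine le_trans (le_of_eq ?_) hS'
  refine Finset.sum_congr rfl fun α _ => ?_
  rw [hcount]
  rfl

end Pool.Agent.Lib.MP_776403_ag.SD.FR
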