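import Pool.Agent.Lib.MP_776403_ag.SD.FR.SpecL
import Pool.Agent.Lib.MP_776403_ag.SD.Main
import Pool.Agent.Lib.MP_776403_ag.SD.UN.RT
import Pool.Agent.Lib.MP_776403_ag.SD.UN.RN
import Pool.Agent.Lib.MP_776403_ag.SD.UN.TEx
import Pool.Agent.Lib.MP_776403_ag.SD.UN.TKer
import Pool.Agent.Lib.MP_776403_ag.SD.UN.TUn
import Pool.Agent.Lib.MP_776403_ag.SD.UN.TCh

/-!
# THEOREM FR, part L: (LB) the lower bound `hci d N k ≤ dim (S / I)_k` (assembly)
-/

set_option autoImplicit false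

open MvPolynomial

noncomputable section

namespace Pool.Agent.Lib.MP_776403_ag.SD.FR

theorem tLB (h4 : S_L4) (h6 : S_L6) : S_LB := by
  intro N c I hP hH hS x lam d ξ F f hE hξ l hCX k
  obtain ⟨L⟩ := mLoc N c I hS x hCX.xI hCX.x0
  obtain ⟨hPar, -⟩ := UN.tRT UN.tTKer UN.tTUn UN.tTCh eLinB N c I hP hH x L
  obtain ⟨T, hT⟩ := UN.tTEx N c x L.F L.B hPar
  obtain ⟨-, hN⟩ := UN.tRN N c d hCX.one_le k
  have hm := h4 N c I hP hH x lam hCX.xI hCX.lamx L T hT d ξ F f hE k (2 * k + 1)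
  rw [← hN]
  calc ∑ r ∈ Finset.range (2 * k + 1), ∑ α ∈ UN.mu d r (r - k),
        hcG (fun o : Option (UN.Ex d) => o.elim 1 fun e => e.2.1 + 1) N
          (r - ∑ e, α e * (e.1.2.1 + 1))
      ≤ ∑ r ∈ Finset.range (2 * k + 1),
        (Module.finrank ℂ (Ga d x lam F T r (r - k)) : ℤ) :=
        Finset.sum_le_sum fun r _ => h6 N c I hP hH hS x lam L T hT d ξ F f hE hξ l hCX r (r - k)
    _ = ((∑ r ∈ Finset.range (2 * k + 1),
        Module.finrank ℂ (Ga d x lam F T r (r - k)) : ℕ) : ℤ) := by push_cast; rfl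
    _ ≤ (Module.finrank ℂ (gr I k) : ℤ) := by exact_mod_cast hm

end Pool.Agent.Lib.MP_776403_ag.SD.FR
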