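import Pool.Agent.Lib.MP_776403_ag.SD.FR.SpecL
import Pool.Agent.Lib.MP_776403_ag.SD.U.Gp
import Pool.Agent.Lib.MP_776403_ag.SD.UN.RN

/-!
# THEOREM FR, module LD: growth of `hci`
-/

set_option autoImplicit false

noncomputable section

namespace Pool.Agent.Lib.MP_776403_ag.SD.FR

open Filter

namespace LDAux

/-- The numerator of the Hilbert series of a complete intersection. -/
def num {c : ℕ} (d : Fin c → ℕ) : Polynomial ℤ :=
  ∏ i, ∑ j ∈ Finset.range (d i), (Polynomial.X : Polynomial ℤ) ^ j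

theorem num_eval {c : ℕ} (d : Fin c → ℕ) : (num d).eval 1 = ((∏ i, d i : ℕ) : ℤ) := by
  unfold num
  rw [Polynomial.eval_prod]
  push_cast
  refine Finset.prod_congr rfl fun i _ => ?_
  simp [Polynomial.eval_finset_sum]

theorem num_mul {c : ℕ} (d : Fin c → ℕ) :
    (1 - Polynomial.X) ^ c * num d = ∏ i, (1 - (Polynomial.X : Polynomial ℤ) ^ d i) := by
  have h1 : (1 - Polynomial.X : Polynomial ℤ) ^ c = ∏ _i : Fin c, (1 - Polynomial.X) := by
    rw [Finset.prod_const, Finset.card_univ, Fintype.card_fin]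
  rw [h1, num, ← Finset.prod_mul_distrib]
  refine Finset.prod_congr rfl fun i _ => ?_
  rw [mul_comm, geom_sum_mul_neg]

/-- The values of a power series with the numerator `h`. -/
theorem val {n : ℕ} {T : PowerSeries ℤ} {h : Polynomial ℤ}
    (hT : T * (1 - PowerSeries.X) ^ (n + 1) = (h : PowerSeries ℤ)) (m : ℕ) (hm : h.natDegree ≤ m) :
    PowerSeries.coeff m T =
      ∑ i ∈ Finset.range (h.natDegree + 1), h.coeff i * ((n + (m - i)).choose n : ℤ) := by
  have h1 : (PowerSeries.mk fun k => (Nat.choose (n + k) n : ℤ)) *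
      ((1 - PowerSeries.X) ^ (n + 1)) = 1 :=
    PowerSeries.mk_add_choose_mul_one_sub_pow_eq_one ℤ n
  have h3 : T = (h : PowerSeries ℤ) * PowerSeries.mk fun k => (Nat.choose (n + k) n : ℤ) := by
    rw [← hT, mul_assoc, mul_comm ((1 - PowerSeries.X) ^ (n + 1)), h1, mul_one]
  rw [h3, PowerSeries.coeff_mul, Finset.Nat.sum_antidiagonal_eq_sum_range_succ_mk]
  simp only [Polynomial.coeff_coe, PowerSeries.coeff_mk]
  refine (Finset.sum_subset ?_ ?_).symm
  · intro i hi
    rw [Finset.mem_range] at hi ⊢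
    omega
  · intro i _ hi
    rw [Finset.mem_range] at hi
    rw [Polynomial.coeff_eq_zero_of_natDegree_lt (by omega), zero_mul]

/-- The growth of the values. -/
theorem grow {n : ℕ} {T : PowerSeries ℤ} {h : Polynomial ℤ}
    (hT : T * (1 - PowerSeries.X) ^ (n + 1) = (h : PowerSeries ℤ)) :
    Tendsto (fun m : ℕ => (n.factorial : ℝ) * ((PowerSeries.coeff m T : ℤ) : ℝ) / (m : ℝ) ^ n)
      atTop (nhds ((h.eval 1 : ℤ) : ℝ)) := by
  have h1 : Tendsto (fun m : ℕ => ∑ i ∈ Finset.range (h.natDegree + 1), (h.coeff i : ℝ) *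
      ((n.factorial : ℝ) * (((n + (m - i)).choose n : ℕ) : ℝ) / (m : ℝ) ^ n)) atTop
      (nhds (∑ i ∈ Finset.range (h.natDegree + 1), (h.coeff i : ℝ) * 1)) :=
    tendsto_finsetSum _ fun i _ => (U.GpAux.limc n i).const_mul _
  have h2 : (∑ i ∈ Finset.range (h.natDegree + 1), (h.coeff i : ℝ) * 1) =
      ((h.eval 1 : ℤ) : ℝ) := by
    rw [Polynomial.eval_eq_sum_range]
    push_cast
    simp
  rw [h2] at h1
  refine h1.congr' ?_
  filter_upwards [eventually_ge_atTop h.natDegree] with m hm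
  have h3 := val hT m hm
  have h4 : ((PowerSeries.coeff m T : ℤ) : ℝ) = ∑ i ∈ Finset.range (h.natDegree + 1),
      (h.coeff i : ℝ) * (((n + (m - i)).choose n : ℕ) : ℝ) := by
    have := congrArg (fun z : ℤ => (z : ℝ)) h3
    push_cast at this
    exact_mod_cast this
  rw [h4, Finset.mul_sum, Finset.sum_div]
  refine Finset.sum_congr rfl fun i _ => ?_
  ring

/-- The series of `hci`. -/
theorem ser {c : ℕ} (d : Fin c → ℕ) (N n : ℕ) (hN : N = c + n) :
    (PowerSeries.mk fun u => hci d N u) * (1 - PowerSeries.X) ^ (n + 1) =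
      ((num d : Polynomial ℤ) : PowerSeries ℤ) := by
  have hI : (PowerSeries.mk fun u => hci d N u) * (1 - (PowerSeries.X : PowerSeries ℤ)) ^ (N + 1) =
      ∏ i, (1 - (PowerSeries.X : PowerSeries ℤ) ^ d i) := UN.RNAux.gen d N
  have hP : ((((1 - Polynomial.X) ^ c * num d : Polynomial ℤ)) : PowerSeries ℤ) =
      ∏ i, (1 - (PowerSeries.X : PowerSeries ℤ) ^ d i) := by
    rw [num_mul, ← Polynomial.coeToPowerSeries.ringHom_apply, map_prod]
    refine Finset.prod_congr rfl fun i _ => ?_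
    rw [Polynomial.coeToPowerSeries.ringHom_apply, Polynomial.coe_sub, Polynomial.coe_one,
      Polynomial.coe_pow, Polynomial.coe_X]
  have hne : (1 - PowerSeries.X : PowerSeries ℤ) ≠ 0 := by
    intro h0
    have := congrArg (PowerSeries.coeff 0) h0
    simp at this
  rw [← hP, Polynomial.coe_mul, Polynomial.coe_pow, Polynomial.coe_sub, Polynomial.coe_one,
    Polynomial.coe_X] at hI
  have e : N + 1 = c + (n + 1) := by omega
  rw [e, pow_add] at hI
  refine mul_left_cancel₀ (pow_ne_zero c hne) ?_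
  rw [← hI]
  ring

end LDAux

open LDAux in
/-- (LD). -/
theorem tLD : S_LD := by
  intro N c D I d hc _ hD hk
  obtain ⟨n, hn⟩ : ∃ n, N - c = n := ⟨_, rfl⟩
  have hN : N = c + n := by omega
  unfold U.HasDeg at hD
  rw [hn] at hD
  have h1 := grow (ser d N n hN)
  rw [num_eval] at h1
  have h2 : (((∏ i, d i : ℕ) : ℤ) : ℝ) ≤ (D : ℝ) := by
    refine le_of_tendsto_of_tendsto h1 hD ?_
    filter_upwards with m
    refine div_le_div_of_nonneg_right ?_ (by positivity)
    refine mul_le_mul_of_nonneg_left ?_ (by positivity)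
    rw [PowerSeries.coeff_mk]
    exact_mod_cast hk m
  exact_mod_cast h2

end Pool.Agent.Lib.MP_776403_ag.SD.FR
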