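import Pool.Agent.Lib.MP_776403_ag.SD.FR.SpecM
import Pool.Agent.Lib.MP_776403_ag.SD.U.FB
import Pool.Agent.Lib.MP_776403_ag.SD.U.Ch
import Pool.Agent.Lib.MP_776403_ag.SD.U.Up

/-!
# THEOREM FR, part M: (MS) the most special flag
-/

set_option autoImplicit false

open MvPolynomial

noncomputable section

namespace Pool.Agent.Lib.MP_776403_ag.SD.FR

namespace MSAux

variable {N : ℕ}

/-- The flag of level `1`. -/
theorem flag1 {c : ℕ} {I J : Ideal (Sx N)} {x : Vx N} (L : Loc I x c) (d : Fin c → ℕ)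
    (hd : ∀ i, 2 ≤ d i)
    (hq : ∀ z ∈ zer J, z ≠ 0 → ∀ ξ : Fin c → ℂ, ξ ≠ 0 → U.qv L ξ 0 z ≠ 0) :
    U.Flag L d J 1 (fun i => Pi.single i (1 : ℂ)) := by
  refine ⟨Pi.linearIndependent_single_one (Fin c) ℂ, ?_, ?_⟩
  · intro z hz hz0
    have hker : LinearMap.ker (U.ChAux.qlin L 0 z) = ⊥ := by
      rw [LinearMap.ker_eq_bot']
      intro ξ hξ
      by_contra hne
      exact hq z hz hz0 ξ hne hξ
    have hp0 : ∀ p : U.FI d 1, p.1.2 = 0 := by
      intro p
      have := (Finset.mem_filter.1 p.2).1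
      rw [Finset.mem_product, Finset.mem_range] at this
      omega
    have hinj : Function.Injective fun p : U.FI d 1 => p.1.1 := by
      intro p p' hpp
      apply Subtype.ext
      apply Prod.ext hpp
      rw [hp0, hp0]
    have hli := ((Pi.linearIndependent_single_one (Fin c) ℂ).comp _ hinj).map' _ hker
    have heq : (fun p : U.FI d 1 => U.qv L (Pi.single p.1.1 (1 : ℂ)) p.1.2 z) =
        (U.ChAux.qlin L 0 z) ∘ ((fun i => Pi.single i (1 : ℂ)) ∘ fun p : U.FI d 1 => p.1.1) := by
      funext p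
      simp only [Function.comp, hp0 p]
      rfl
    rw [heq]
    exact hli
  · intro z _ _ i hi
    have := hd i
    omega

/-- The invariant of the induction. -/
structure Inv {c : ℕ} {I J₀ : Ideal (Sx N)} {x : Vx N} (L : Loc I x c) (b δ K : ℕ)
    (d : Fin c → ℕ) (J : Ideal (Sx N)) (B : Fin c → Fin c → ℂ) : Prop where
  le : J₀ ≤ J
  fml : U.Fml I J c b x
  pt : ∃ z ∈ zer J, z ≠ 0
  val : ∀ i, 2 ≤ d i ∧ (d i ≤ K ∨ d i = b + 2)
  flag : U.Flag L d J K B
  all : (∀ i, d i ≤ K) → (U.FI d K).card = b - c ∧ DimGe J (δ - (c - 1) * (b - 2 * c))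
  some : (∃ i, d i = b + 2) →
    DimGe J (δ - (Finset.univ.filter fun i => d i ≤ K).card * (b - 2 * c))

/-- The level sets. -/
theorem card_split {c : ℕ} (d d' : Fin c → ℕ) (K : ℕ) (h : ∀ i, d i ≤ K → d' i = d i) :
    (Finset.univ.filter fun i => d i ≤ K).card + Nat.card {i : Fin c // d' i = K + 1} ≤
      (Finset.univ.filter fun i => d' i ≤ K + 1).card := by
  classical
  rw [Nat.card_eq_fintype_card, Fintype.card_subtype, ← Finset.card_union_of_disjoint]
  · refine Finset.card_le_card fun i hi => ?_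
    simp only [Finset.mem_union, Finset.mem_filter, Finset.mem_univ, true_and] at hi ⊢
    rcases hi with hi | hi
    · rw [h i hi]
      omega
    · omega
  · rw [Finset.disjoint_left]
    intro i hi hi'
    simp only [Finset.mem_filter, Finset.mem_univ, true_and] at hi hi'
    rw [h i hi] at hi'
    omega

theorem card_lt {c : ℕ} (d : Fin c → ℕ) (K : ℕ) (i₀ : Fin c) (h : K < d i₀) :
    (Finset.univ.filter fun i => d i ≤ K).card ≤ c - 1 := by
  have h1 : (Finset.univ.filter fun i => d i ≤ K) ⊂ (Finset.univ : Finset (Fin c)) := by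
    rw [Finset.filter_ssubset]
    exact ⟨i₀, Finset.mem_univ _, not_le.2 h⟩
  have h2 := Finset.card_lt_card h1
  rw [Finset.card_univ, Fintype.card_fin] at h2
  omega

/-- One step of the induction. -/
theorem step (h : S_MSs) {c b : ℕ} {I J₀ : Ideal (Sx N)} {x : Vx N} (hc : 1 ≤ c)
    (hp : I.IsPrime) (hh : IsHom I) (hs : Smooth I c) (L : Loc I x c) (δ K : ℕ) (hK1 : 1 ≤ K)
    (hKb : K ≤ b) {d : Fin c → ℕ} {J : Ideal (Sx N)} {B : Fin c → Fin c → ℂ}
    (H : Inv (J₀ := J₀) L b δ K d J B) :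
    ∃ (d' : Fin c → ℕ) (J' : Ideal (Sx N)) (B' : Fin c → Fin c → ℂ),
      Inv (J₀ := J₀) L b δ (K + 1) d' J' B' := by
  by_cases hall : ∀ i, d i ≤ K
  · obtain ⟨hcard, hdim⟩ := H.all hall
    obtain ⟨d', J', B', hJJ, hF, hpt, hv, hold, -, hfl, hD, -⟩ := h N c b I J x hc hp hh hs H.fml
      H.pt L d K B hK1 hKb H.val H.flag _ hdim
    have hdd : d' = d := funext fun i => hold i (hall i)
    subst hdd
    have h0 : Nat.card {i : Fin c // d' i = K + 1} = 0 := by
      rw [Nat.card_eq_fintype_card, Fintype.card_subtype, Finset.card_eq_zero,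
        Finset.filter_eq_empty_iff]
      intro i _ hi
      have := hall i
      omega
    rw [h0, Nat.zero_mul, Nat.sub_zero] at hD
    refine ⟨d', J', B', H.le.trans hJJ, hF, hpt, hv, hfl, fun _ => ⟨?_, hD⟩, fun ⟨i, hi⟩ => ?_⟩
    · rw [U.ChAux.card_FI] at hcard ⊢
      rw [← hcard]
      refine Finset.sum_congr rfl fun i _ => ?_
      have := hall i
      omega
    · have := hall i
      omega
  · push Not at hall
    obtain ⟨i₀, hi₀⟩ := hall
    have hi₁ : d i₀ = b + 2 := by
      rcases (H.val i₀).2 with h1 | h1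
      · omega
      · exact h1
    have hdim := H.some ⟨i₀, hi₁⟩
    obtain ⟨d', J', B', hJJ, hF, hpt, hv, hold, hnew, hfl, hD, hlast⟩ := h N c b I J x hc hp hh hs
      H.fml H.pt L d K B hK1 hKb H.val H.flag _ hdim
    have hu := card_lt d K i₀ hi₀
    refine ⟨d', J', B', H.le.trans hJJ, hF, hpt, hv, hfl, fun hall' => ?_, fun _ => ?_⟩
    · have hcd := hlast hall' ⟨i₀, hi₁⟩
      constructor
      · rw [← hcd, U.ChAux.card_FI, U.ChAux.card_FI]
        refine Finset.sum_congr rfl fun i _ => ?_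
        rcases (H.val i).2 with h1 | h1
        · rw [hold i h1]
          omega
        · have h2 := hall' i
          rcases hnew i h1 with h3 | h3
          · omega
          · omega
      · rw [hcd, Nat.sub_self, Nat.mul_zero, Nat.sub_zero] at hD
        refine U.ChAux.dimGe_le ?_ hD
        have := Nat.mul_le_mul_right (b - 2 * c) hu
        omega
    · refine U.ChAux.dimGe_le ?_ hD
      have h1 : c ≤ (U.FI d K).card := by
        rw [U.ChAux.card_FI]
        calc c = ∑ _i : Fin c, 1 := by simp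
          _ ≤ ∑ i, min K (d i - 1) := Finset.sum_le_sum fun i _ => by
            have := (H.val i).1
            omega
      have h2 := card_split d d' K hold
      have h3 : Nat.card {i : Fin c // d' i = K + 1} * (b - c - (U.FI d K).card) ≤
          Nat.card {i : Fin c // d' i = K + 1} * (b - 2 * c) :=
        Nat.mul_le_mul_left _ (by omega)
      have h4 := Nat.mul_le_mul_right (b - 2 * c) h2
      rw [Nat.add_mul] at h4
      omega

end MSAux

open MSAux

/-- (MS) MOST SPECIAL FLAG. -/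
theorem tMS (h : S_MSs) : S_MS := by
  intro N c b I J₀ x hc hp hh hs hF hpt L hq δ hδ
  have hfl1 := flag1 L (fun _ => b + 2) (fun _ => by omega) hq
  obtain ⟨z₀, hz₀, hz₀0⟩ := hpt
  have hFB := U.tFB N c b I J₀ x hc hp hh hs hF L z₀ hz₀ hz₀0
  have h2c : 2 * c ≤ b := by
    have h1 := (hFB.2.2.2 (fun _ => b + 2) 1 _ (fun _ => by omega) hfl1).2.1 1 le_rfl
    have h2 := hFB.2.1 1
    rw [h1, U.ChAux.card_FI] at h2
    have h3 : ∑ _i : Fin c, min 1 (b + 2 - 1) = c := by
      have : min 1 (b + 2 - 1) = 1 := by omega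
      rw [this]
      simp
    rw [h3] at h2
    omega
  refine ⟨h2c, ?_⟩
  have key : ∀ K, 1 ≤ K → K ≤ b + 1 → ∃ (d : Fin c → ℕ) (J : Ideal (Sx N))
      (B : Fin c → Fin c → ℂ), Inv (J₀ := J₀) L b δ K d J B := by
    intro K hK
    induction K, hK using Nat.le_induction with
    | base =>
      intro _
      refine ⟨fun _ => b + 2, J₀, _, le_rfl, hF, ⟨z₀, hz₀, hz₀0⟩, fun _ => ⟨by omega, Or.inr rfl⟩,
        hfl1, fun hall => ?_, fun _ => ?_⟩
      · have := hall ⟨0, hc⟩
        omega
      · have h1 : (Finset.univ.filter fun _i : Fin c => b + 2 ≤ 1) = ∅ := by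
          rw [Finset.filter_eq_empty_iff]
          intro i _
          omega
        rw [h1, Finset.card_empty, Nat.zero_mul, Nat.sub_zero]
        exact hδ
    | succ K hK ih =>
      intro hKb
      obtain ⟨d, J, B, H⟩ := ih (by omega)
      exact step h hc hp hh hs L δ K hK (by omega) H
  obtain ⟨d, J, B, H⟩ := key (b + 1) (by omega) le_rfl
  have hall : ∀ i, d i ≤ b + 1 := by
    intro i
    rcases (H.val i).2 with h1 | h1
    · exact h1
    · exfalso
      obtain ⟨z, hz, hz0⟩ := H.pt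
      have hFB' := U.tFB N c b I J x hc hp hh hs H.fml L z hz hz0
      have h2 := (hFB'.2.2.2 d (b + 1) B (fun i => by have := (H.val i).1; omega)
        H.flag).2.1 (b + 1) le_rfl
      have h3 := hFB'.2.1 (b + 1)
      rw [h2, U.ChAux.card_FI] at h3
      have h4 : min (b + 1) (d i - 1) ≤ ∑ i, min (b + 1) (d i - 1) :=
        Finset.single_le_sum (f := fun i => min (b + 1) (d i - 1)) (fun _ _ => Nat.zero_le _)
          (Finset.mem_univ i)
      omega
  obtain ⟨hcard, hdim⟩ := H.all hall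
  refine ⟨d, J, B, fun i => (H.val i).1, ?_, H.le, H.fml, H.pt,
    U.UpAux.flag_mono L (Nat.le_succ b) H.flag, hdim⟩
  rw [U.ChAux.card_FI] at hcard
  have h5 : ∑ i, d i = ∑ i, min (b + 1) (d i - 1) + c := by
    have h6 : ∑ i, d i = ∑ i, (min (b + 1) (d i - 1) + 1) :=
      Finset.sum_congr rfl fun i _ => by
        have := (H.val i).1
        have := hall i
        omega
    rw [h6, Finset.sum_add_distrib]
    simp
  omega

end Pool.Agent.Lib.MP_776403_ag.SD.FR
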