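import Pool.Agent.Lib.MP_776403_ag.SD.FR.SpecM
import Pool.Agent.Lib.MP_776403_ag.SD.U.FB
import Pool.Agent.Lib.MP_776403_ag.SD.U.St

/-!
# THEOREM FR: one step of the most special flag (helper57)

`tMSs (h1 : U.S_FB) (h2 : U.S_Cut) : S_MSs`.
-/

set_option autoImplicit false

open MvPolynomial

noncomputable section

namespace Pool.Agent.Lib.MP_776403_ag.SD.FR

namespace MSsAux

open U U.StAux U.FBAux

variable {N : ℕ} {I : Ideal (Sx N)} {x : Vx N} {c : ℕ}

/-- The space of the `ξ` which lift. -/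
def Az (L : Loc I x c) (K : ℕ) (z : Vx N) : Submodule ℂ (Fin c → ℂ) :=
  (Fj L K z).comap (ql L z K)

theorem mem_Az (L : Loc I x c) (K : ℕ) (z : Vx N) (ξ : Fin c → ℂ) :
    ξ ∈ Az L K z ↔ qv L ξ K z ∈ Fj L K z := Iff.rfl

theorem finrank_Az (L : Loc I x c) (K : ℕ) (z : Vx N) : Module.finrank ℂ (Az L K z) ≤ c := by
  have h := Submodule.finrank_le (Az L K z)
  rwa [Module.finrank_fin_fun] at h

/-- A point where the dimension is maximal. -/
theorem max_pt (L : Loc I x c) (K : ℕ) (J : Ideal (Sx N)) (hpt : ∃ z ∈ zer J, z ≠ 0) :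
    ∃ z₀ ∈ zer J, z₀ ≠ 0 ∧ ∀ z ∈ zer J, z ≠ 0 →
      Module.finrank ℂ (Az L K z) ≤ Module.finrank ℂ (Az L K z₀) := by
  classical
  let P : ℕ → Prop := fun n => ∃ z ∈ zer J, z ≠ 0 ∧ Module.finrank ℂ (Az L K z) = n
  obtain ⟨z₁, hz₁, hz₁0⟩ := hpt
  have h1 : P (Nat.findGreatest P c) :=
    Nat.findGreatest_spec (finrank_Az L K z₁) ⟨z₁, hz₁, hz₁0, rfl⟩
  obtain ⟨z₀, hz₀, hz₀0, h2⟩ := h1
  refine ⟨z₀, hz₀, hz₀0, fun z hz hz0 => ?_⟩
  rw [h2]
  exact Nat.le_findGreatest (finrank_Az L K z) ⟨z, hz, hz0, rfl⟩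

/-- The determined `B i` lift. -/
theorem low_mem {a : ℕ} (h1 : S_FB) (hc : 1 ≤ c) (hp : I.IsPrime) (hh : IsHom I)
    (hs : Smooth I c) {J : Ideal (Sx N)} (hF : Fml I J c a x) (L : Loc I x c) {z : Vx N}
    (hz : z ∈ zer J) (hz0 : z ≠ 0) {ξ : Fin c → ℂ} {k l : ℕ} (hkl : k ≤ l)
    (h : qv L ξ k z ∈ Fj L k z) : qv L ξ l z ∈ Fj L l z := by
  induction l, hkl using Nat.le_induction with
  | base => exact h
  | succ l _ ih => exact (h1 N c a I J x hc hp hh hs hF L z hz hz0).1 ξ l ih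

/-- Vectors completing a basis of a subspace. -/
theorem compl_ind {ι : Type} [Fintype ι] {M : Type} [AddCommGroup M] [Module ℂ M]
    [FiniteDimensional ℂ M] (A : Submodule ℂ M) (v : ι → M) (hv : LinearIndependent ℂ v)
    (hA : ∀ i, v i ∈ A) (μ : ℕ) (hμ : Fintype.card ι + μ = Module.finrank ℂ A) :
    ∃ η : Fin μ → M, LinearIndependent ℂ (Sum.elim v η) ∧ (∀ l, η l ∈ A) ∧
      Submodule.span ℂ (Set.range (Sum.elim v η)) = A := by
  classical
  let v' : ι → A := fun i => ⟨v i, hA i⟩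
  have hv' : LinearIndependent ℂ v' := by
    refine LinearIndependent.of_comp A.subtype ?_
    exact hv
  let w : {i : ι ⊕ Fin μ // i.isLeft = true} → A := fun i => v' (i.1.getLeft i.2)
  have hw : LinearIndependent ℂ w := by
    refine hv'.comp (fun i : {i : ι ⊕ Fin μ // i.isLeft = true} => i.1.getLeft i.2) ?_
    rintro ⟨i, hi⟩ ⟨j, hj⟩ hij
    apply Subtype.ext
    rcases i with i | i
    · rcases j with j | j
      · exact congrArg Sum.inl hij
      · simp at hj
    · simp at hi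
  obtain ⟨E, hE, hEv⟩ := extend (ι := ι ⊕ Fin μ) (M := A)
    (by rw [Fintype.card_sum, Fintype.card_fin]; exact hμ.symm) (fun i => i.isLeft = true) w hw
  refine ⟨fun l => ((E (Sum.inr l) : A) : M), ?_, fun l => (E (Sum.inr l)).2, ?_⟩
  · have h2 : Sum.elim v (fun l => ((E (Sum.inr l) : A) : M)) = fun i => ((E i : A) : M) := by
      funext i
      rcases i with i | i
      · have h3 := hEv (Sum.inl i) rfl
        rw [Sum.elim_inl, h3]
        rfl
      · rfl
    rw [h2]
    exact hE.map' A.subtype A.ker_subtype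
  · have h2 : Sum.elim v (fun l => ((E (Sum.inr l) : A) : M)) = fun i => ((E i : A) : M) := by
      funext i
      rcases i with i | i
      · have h3 := hEv (Sum.inl i) rfl
        rw [Sum.elim_inl, h3]
        rfl
      · rfl
    rw [h2]
    refine Submodule.eq_of_le_of_finrank_le ?_ ?_
    · rw [Submodule.span_le]
      rintro _ ⟨i, rfl⟩
      exact (E i).2
    · have h3 : LinearIndependent ℂ fun i => ((E i : A) : M) :=
        hE.map' A.subtype A.ker_subtype
      rw [finrank_span_eq_card h3, Fintype.card_sum, Fintype.card_fin]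
      exact hμ.ge

/-- The cuts. -/
theorem chain2 (h2 : S_Cut) {a : ℕ} {J : Ideal (Sx N)} (hc : 1 ≤ c) (hp : I.IsPrime)
    (hh : IsHom I) (hs : Smooth I c) (hF : Fml I J c a x) (L : Loc I x c) (d : Fin c → ℕ)
    (hd1 : ∀ i, 1 ≤ d i) (K : ℕ) (B : Fin c → Fin c → ℂ) (hB : Flag L d J K B) (δ : ℕ)
    (hD : DimGe J δ) {z₀ : Vx N} (hz₀ : z₀ ∈ zer J) (hz₀0 : z₀ ≠ 0) {μ : ℕ}
    (η : Fin μ → Fin c → ℂ) (hη : ∀ l, qv L (η l) K z₀ ∈ Fj L K z₀) :
    ∀ r ≤ μ, ∃ J' : Ideal (Sx N), J ≤ J' ∧ Fml I J' c a x ∧ z₀ ∈ zer J' ∧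
      DimGe J' (δ - r * (a - c - (FI d K).card)) ∧
      ∀ l : Fin μ, l.1 < r → ∀ z ∈ zer J', z ≠ 0 → qv L (η l) K z ∈ Fj L K z := by
  intro r
  induction r with
  | zero =>
    intro _
    exact ⟨J, le_refl J, hF, hz₀, by rw [Nat.zero_mul, Nat.sub_zero]; exact hD,
      fun l hl => absurd hl (Nat.not_lt_zero _)⟩
  | succ r ih =>
    intro hr
    obtain ⟨J₁, hJ, hF₁, hz₁, hD₁, hη₁⟩ := ih (by omega)
    obtain ⟨J₂, hJ₂, hF₂, hz₂, hD₂, hq₂⟩ := h2 N c a I J₁ x hc hp hh hs hF₁ L d K B hd1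
      (flag_anti hJ hB) (η ⟨r, hr⟩) z₀ hz₁ hz₀0 (hη _) _ hD₁
    refine ⟨J₂, hJ.trans hJ₂, hF₂, hz₂, ?_, ?_⟩
    · have h5 : δ - (r + 1) * (a - c - (FI d K).card) =
          δ - r * (a - c - (FI d K).card) - (a - c - (FI d K).card) := by
        rw [Nat.succ_mul]
        omega
      rw [h5]
      exact hD₂
    · intro l hl z hz hz0
      rcases Nat.lt_succ_iff_lt_or_eq.1 hl with h | h
      · exact hη₁ l h z (zer_anti hJ₂ hz) hz0
      · have h6 : l = ⟨r, hr⟩ := Fin.ext h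
        rw [h6]
        exact hq₂ z hz hz0

end MSsAux

open U U.StAux U.FBAux MSsAux in
/-- (MSs) ONE STEP. -/
theorem tMSs (h1 : U.S_FB) (h2 : U.S_Cut) : S_MSs := by
  classical
  intro N c b I J x hc hp hh hs hF hpt L d K B hK hKb hd hB δ hD
  have hd1 : ∀ i, 1 ≤ d i := fun i => le_trans (by omega) (hd i).1
  obtain ⟨z₀, hz₀, hz₀0, hmax⟩ := max_pt L K J hpt
  -- the number of new indices
  have hlow : ∀ z ∈ zer J, z ≠ 0 → ∀ i, d i ≤ K → B i ∈ Az L K z := by
    intro z hz hz0 i hi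
    rw [mem_Az]
    exact low_mem h1 hc hp hh hs hF L hz hz0 (by omega) (hB.mem z hz hz0 i hi)
  have hindB : LinearIndependent ℂ (fun i : {i : Fin c // d i ≤ K} => B i) :=
    hB.bas.comp _ Subtype.val_injective
  have hcard1 : Fintype.card {i : Fin c // d i ≤ K} ≤ Module.finrank ℂ (Az L K z₀) := by
    rw [← finrank_span_eq_card hindB]
    refine Submodule.finrank_mono ?_
    rw [Submodule.span_le]
    rintro _ ⟨i, rfl⟩
    exact hlow z₀ hz₀ hz₀0 i.1 i.2
  obtain ⟨μ, hμ⟩ := Nat.exists_eq_add_of_le hcard1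
  have hμ2 : μ ≤ (Finset.univ.filter fun i : Fin c => ¬ d i ≤ K).card := by
    have h3 := finrank_Az L K z₀
    have h4 := Finset.card_filter_add_card_filter_not (s := (Finset.univ : Finset (Fin c)))
      (fun i => d i ≤ K)
    rw [Finset.card_univ, Fintype.card_fin] at h4
    rw [Fintype.card_subtype] at hμ
    omega
  obtain ⟨T, hTs, hTc⟩ := Finset.exists_subset_card_eq hμ2
  let d' : Fin c → ℕ := fun i => if i ∈ T then K + 1 else d i
  have hT : ∀ i ∈ T, d' i = K + 1 ∧ d i = b + 2 := by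
    intro i hi
    refine ⟨if_pos hi, ?_⟩
    have h3 := (Finset.mem_filter.1 (hTs hi)).2
    rcases (hd i).2 with h4 | h4
    · exact absurd h4 h3
    · exact h4
  have hT' : ∀ i, i ∉ T → d' i = d i := fun i hi => if_neg hi
  have hle : ∀ i, d' i ≤ K ↔ d i ≤ K := by
    intro i
    by_cases hi : i ∈ T
    · have := hT i hi
      omega
    · rw [hT' i hi]
  have heq : ∀ i, d' i = K + 1 ↔ i ∈ T := by
    intro i
    by_cases hi : i ∈ T
    · exact iff_of_true (hT i hi).1 hi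
    · refine iff_of_false ?_ hi
      rw [hT' i hi]
      have := hd i
      omega
  have hd' : ∀ i, 2 ≤ d' i ∧ (d' i ≤ K + 1 ∨ d' i = b + 2) := by
    intro i
    by_cases hi : i ∈ T
    · have := hT i hi
      omega
    · rw [hT' i hi]
      have := hd i
      omega
  have hd1' : ∀ i, 1 ≤ d' i := fun i => le_trans (by omega) (hd' i).1
  have hcardT : Nat.card {i : Fin c // d' i = K + 1} = μ := by
    rw [Nat.card_eq_fintype_card, Fintype.card_subtype, ← hTc]
    congr 1
    ext i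
    simp [heq]
  have hFI : FI d' K = FI d K := by
    ext p
    rw [mem_FI, mem_FI]
    by_cases hi : p.1 ∈ T
    · have := hT _ hi
      omega
    · rw [hT' _ hi]
  have hB2 : Flag L d' J K B := by
    refine ⟨hB.bas, ?_, ?_⟩
    · intro z hz hz0
      rw [hFI]
      exact hB.ind z hz hz0
    · intro z hz hz0 i hi
      have h3 : i ∉ T := fun h => by
        have := hT i h
        omega
      rw [hT' i h3]
      exact hB.mem z hz hz0 i ((hle i).1 hi)
  -- the new vectors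
  have hindB' : LinearIndependent ℂ (fun i : {i : Fin c // d' i ≤ K} => B i) :=
    hB.bas.comp _ Subtype.val_injective
  have hcard3 : Fintype.card {i : Fin c // d' i ≤ K} + Nat.card {i : Fin c // d' i = K + 1} =
      Module.finrank ℂ (Az L K z₀) := by
    rw [hcardT, hμ]
    congr 1
    rw [Fintype.card_subtype, Fintype.card_subtype]
    congr 1
    ext i
    simp [hle]
  obtain ⟨η, hind, hηA, hηS⟩ := compl_ind (Az L K z₀) (fun i : {i : Fin c // d' i ≤ K} => B i)
    hindB' (fun i => hlow z₀ hz₀ hz₀0 i.1 ((hle _).1 i.2)) _ hcard3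
  obtain ⟨J', hJ, hF', hz₀', hD', hη'⟩ := chain2 h2 hc hp hh hs hF L d' hd1' K B hB2 δ hD hz₀ hz₀0
    η hηA _ (le_refl _)
  have hη : ∀ l, ∀ z ∈ zer J', z ≠ 0 → qv L (η l) K z ∈ Fj L K z :=
    fun l => hη' l l.2
  obtain ⟨B', e, hB', hB1, hB3⟩ := newB d' K B η hind
  -- maximality
  have hAz : ∀ z ∈ zer J', z ≠ 0 → Az L K z =
      Submodule.span ℂ (Set.range (Sum.elim (fun i : {i : Fin c // d' i ≤ K} => B i) η)) := by
    intro z hz hz0
    refine (Submodule.eq_of_le_of_finrank_le ?_ ?_).symm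
    · rw [Submodule.span_le]
      rintro _ ⟨i | l, rfl⟩
      · exact hlow z (zer_anti hJ hz) hz0 i.1 ((hle _).1 i.2)
      · exact hη l z hz hz0
    · rw [hηS]
      exact hmax z (zer_anti hJ hz) hz0
  have hle2 : Submodule.span ℂ
      (Set.range (Sum.elim (fun i : {i : Fin c // d' i ≤ K} => B i) η)) ≤
      Submodule.span ℂ (B' '' {i | d' i ≤ K + 1}) := by
    rw [Submodule.span_le]
    rintro _ ⟨i | l, rfl⟩
    · exact Submodule.subset_span ⟨i.1, by have := i.2; change d' i.1 ≤ K + 1; omega, hB1 i.1 i.2⟩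
    · refine Submodule.subset_span ⟨(e.symm l).1, by have := (e.symm l).2; change d' _ ≤ K + 1; omega, ?_⟩
      rw [hB3 _ (e.symm l).2]
      change η (e (e.symm l)) = η l
      rw [e.apply_symm_apply]
  have hle3 : Submodule.span ℂ (B' '' {i | d' i ≤ K + 1}) ≤ Submodule.span ℂ
      (Set.range (Sum.elim (fun i : {i : Fin c // d' i ≤ K} => B i) η)) := by
    rw [Submodule.span_le]
    rintro _ ⟨i, hi, rfl⟩
    have hi' : d' i ≤ K + 1 := hi
    rcases Nat.lt_or_ge K (d' i) with h5 | h5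
    · have h6 : d' i = K + 1 := by omega
      refine Submodule.subset_span ⟨Sum.inr (e ⟨i, h6⟩), ?_⟩
      rw [hB3 i h6]
      rfl
    · refine Submodule.subset_span ⟨Sum.inl ⟨i, h5⟩, ?_⟩
      rw [hB1 i h5]
      rfl
  refine ⟨d', J', B', hJ, hF', ⟨z₀, hz₀', hz₀0⟩, hd', ?_, ?_, ⟨hB', ?_, ?_⟩, ?_, ?_⟩
  · intro i hi
    refine hT' i fun h => ?_
    have := hT i h
    omega
  · intro i hi
    by_cases hi' : i ∈ T
    · exact Or.inl (hT i hi').1
    · exact Or.inr ((hT' i hi').trans hi)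
  · intro z hz hz0
    have hkey : ∀ j ≤ K, ∀ θ : Fin c → ℂ, qv L θ j z ∈ Fj L j z →
        θ ∈ Submodule.span ℂ (B' '' {i | d' i ≤ j + 1}) := by
      intro j hj θ hθ
      rcases Nat.lt_or_ge j K with hjK | hjK
      · have h5 := ((h1 N c b I J' x hc hp hh hs hF' L z hz hz0).2.2.2 d' K B
          hd1' (flag_anti hJ hB2)).2.2 j hjK θ hθ
        refine Submodule.span_mono ?_ h5
        rintro _ ⟨i, hi, rfl⟩
        have hi' : d' i ≤ j + 1 := hi
        exact ⟨i, hi, hB1 i (by omega)⟩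
      · have hjK' : j = K := by omega
        subst hjK'
        refine hle2 ?_
        rw [← hAz z hz hz0]
        exact hθ
    have hfr := frame_ind L d' B' hB' K z hkey (K + 1) (le_refl _)
    rw [Fintype.linearIndependent_iff]
    intro g hg p
    have h6 := hfr (fun p => if h : p ∈ FI d' (K + 1) then g ⟨p, h⟩ else 0) (by
      rw [← Finset.sum_coe_sort, ← hg]
      exact Finset.sum_congr rfl fun p _ => by rw [dif_pos p.2]) p.1 p.2
    rw [dif_pos p.2] at h6
    exact h6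
  · intro z hz hz0 i hi
    rcases Nat.lt_or_ge K (d' i) with h5 | h5
    · have h6 : d' i = K + 1 := by omega
      rw [hB3 i h6, h6, Nat.add_sub_cancel]
      exact hη _ z hz hz0
    · rw [hB1 i h5]
      exact hB2.mem z (zer_anti hJ hz) hz0 i h5
  · rw [← hFI]
    exact hD'
  · intro hall _
    have htop : Az L K z₀ = ⊤ := by
      rw [← hηS, eq_top_iff]
      refine le_trans ?_ hle3
      have h5 : (B' '' {i | d' i ≤ K + 1}) = Set.range B' := by
        rw [← Set.image_univ]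
        congr 1
        ext i
        exact iff_of_true (hall i) trivial
      rw [h5, hB'.span_eq_top_of_card_eq_finrank' (by simp)]
    have hq : ∀ (ξ : Fin c → ℂ) (k : ℕ), K ≤ k → qv L ξ k z₀ ∈ Fj L k z₀ := by
      intro ξ k hk
      refine low_mem h1 hc hp hh hs hF L hz₀ hz₀0 hk ?_
      rw [← mem_Az, htop]
      trivial
    have hFk : ∀ k, K ≤ k → Fj L k z₀ ≤ Fj L K z₀ := by
      intro k hk
      induction k, hk using Nat.le_induction with
      | base => exact le_refl _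
      | succ k hk ih =>
        refine Submodule.span_le.2 ?_
        rintro w ⟨ξ, j, hj, rfl⟩
        rcases Nat.lt_succ_iff_lt_or_eq.1 hj with h | h
        · exact ih (Submodule.subset_span ⟨ξ, j, h, rfl⟩)
        · subst h
          exact ih (hq ξ j hk)
    have hQ : Qz L z₀ ≤ Fj L K z₀ := by
      refine Submodule.span_le.2 ?_
      rintro _ ⟨ik, rfl⟩
      have h6 : (fun y : L.Ix => eval z₀ (L.qk ik.1 ik.2 y)) = qv L (Pi.single ik.1 1) ik.2 z₀ := by
        funext y
        rw [qv_apply, Finset.sum_eq_single ik.1]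
        · rw [Pi.single_eq_same, one_mul]
        · intro j _ hj
          rw [Pi.single_eq_of_ne hj, zero_mul]
        · intro h
          exact absurd (Finset.mem_univ _) h
      change (fun y : L.Ix => eval z₀ (L.qk ik.1 ik.2 y)) ∈ Fj L K z₀
      rw [h6]
      rcases Nat.lt_or_ge ik.2 K with h | h
      · exact Submodule.subset_span ⟨_, _, h, rfl⟩
      · exact hFk _ (Nat.le_succ_of_le h) (Submodule.subset_span ⟨_, _, Nat.lt_succ_self _, rfl⟩)
    have h7 := rk hF hp hh hs L hz₀ hz₀0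
    have h8 := Submodule.finrank_mono hQ
    have h9 := (h1 N c b I J x hc hp hh hs hF L z₀ hz₀ hz₀0).2.1 K
    have h10 := ((h1 N c b I J x hc hp hh hs hF L z₀ hz₀ hz₀0).2.2.2 d K B hd1 hB).2.1 K
      (le_refl _)
    omega

end Pool.Agent.Lib.MP_776403_ag.SD.FR
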