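import Pool.Agent.Lib.MP_776403_ag.SD.FR.SpecC2
import Pool.Agent.Lib.MP_776403_ag.SD.U.FB
import Pool.Agent.Lib.MP_776403_ag.SD.U.Ch
import Pool.Agent.Lib.MP_776403_ag.SD.U.Up

/-!
# The most special flag with the exact loss of dimension (`S_MSx`)
-/

set_option autoImplicit false

open MvPolynomial

noncomputable section

namespace Pool.Agent.Lib.MP_776403_ag.SD.FR

namespace MSxAux

variable {N : ℕ}

/-- The flag of level `1`. -/
theorem flag1 {c : ℕ} {I J : Ideal (Sx N)} {x : Vx N} (L : Loc I x c) (d : Fin c → ℕ)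
    (hd : ∀ i, 2 ≤ d i)
    (hq : ∀ z ∈ zer J, z ≠ 0 → ∀ ξ : Fin c → ℂ, ξ ≠ 0 → U.qv L ξ 0 z ≠ 0) :
    U.Flag L d J 1 (fun i => Pi.single i (1 : ℂ)) := by
  refine ⟨Pi.linearIndependent_single_one (Fin c) ℂ, ?_, ?_⟩
  · intro z hz hz0
    have hker : LinearMap.ker (U.ChAux.qlin L 0 z) = ⊥ := by
      rw [LinearMap.ker_eq_bot']
      intro ξ hξ
      by_contra hne
      exact hq z hz hz0 ξ hne hξ
    have hp0 : ∀ p : U.FI d 1, p.1.2 = 0 := by
      intro p
      have := (Finset.mem_filter.1 p.2).1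
      rw [Finset.mem_product, Finset.mem_range] at this
      omega
    have hinj : Function.Injective fun p : U.FI d 1 => p.1.1 := by
      intro p p' hpp
      apply Subtype.ext
      apply Prod.ext hpp
      rw [hp0, hp0]
    have hli := ((Pi.linearIndependent_single_one (Fin c) ℂ).comp _ hinj).map' _ hker
    have heq : (fun p : U.FI d 1 => U.qv L (Pi.single p.1.1 (1 : ℂ)) p.1.2 z) =
        (U.ChAux.qlin L 0 z) ∘ ((fun i => Pi.single i (1 : ℂ)) ∘ fun p : U.FI d 1 => p.1.1) := by
      funext p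
      simp only [Function.comp, hp0 p]
      rfl
    rw [heq]
    exact hli
  · intro z _ _ i hi
    have := hd i
    omega

/-- The loss for the index `i`. -/
def kap {c : ℕ} (b : ℕ) (d : Fin c → ℕ) (i : Fin c) : ℕ :=
  b - c - ∑ j, min (d i - 1) (d j - 1)

/-- The total loss for the determined indices. -/
def los {c : ℕ} (b K : ℕ) (d : Fin c → ℕ) : ℕ := ∑ i, if d i ≤ K then kap b d i else 0

/-- The invariant of the induction. -/
structure Inv {c : ℕ} {I J₀ : Ideal (Sx N)} {x : Vx N} (L : Loc I x c) (b δ K : ℕ)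
    (d : Fin c → ℕ) (J : Ideal (Sx N)) (B : Fin c → Fin c → ℂ) : Prop where
  le : J₀ ≤ J
  fml : U.Fml I J c b x
  pt : ∃ z ∈ zer J, z ≠ 0
  val : ∀ i, 2 ≤ d i ∧ (d i ≤ K ∨ d i = b + 2)
  flag : U.Flag L d J K B
  all : (∀ i, d i ≤ K) → (U.FI d K).card = b - c
  dim : DimGe J (δ - los b K d)

theorem los_step {c b K : ℕ} {d d' : Fin c → ℕ} (hKb : K ≤ b)
    (hv : ∀ i, 2 ≤ d i ∧ (d i ≤ K ∨ d i = b + 2))
    (hold : ∀ i, d i ≤ K → d' i = d i) (hnew : ∀ i, d i = b + 2 → d' i = K + 1 ∨ d' i = b + 2) :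
    los b K d + Nat.card {i : Fin c // d' i = K + 1} * (b - c - (U.FI d K).card) ≤
      los b (K + 1) d' := by
  classical
  have e1 : Nat.card {i : Fin c // d' i = K + 1} * (b - c - (U.FI d K).card) =
      ∑ i, if d' i = K + 1 then b - c - (U.FI d K).card else 0 := by
    rw [Nat.card_eq_fintype_card, Fintype.card_subtype, ← Finset.sum_filter, Finset.sum_const,
      smul_eq_mul]
  rw [e1]
  unfold los
  rw [← Finset.sum_add_distrib]
  refine Finset.sum_le_sum fun i _ => ?_
  rcases (hv i).2 with hi | hi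
  · have h1 := hold i hi
    have h2 : kap b d i = kap b d' i := by
      unfold kap
      congr 1
      refine Finset.sum_congr rfl fun j _ => ?_
      rcases (hv j).2 with hj | hj
      · rw [hold j hj, h1]
      · rcases hnew j hj with hj' | hj'
        · omega
        · omega
    rw [if_pos hi, if_neg (by omega), if_pos (by omega), h2, Nat.add_zero]
  · rcases hnew i hi with hi' | hi'
    · rw [if_neg (by omega), if_pos hi', if_pos (by omega), Nat.zero_add]
      unfold kap
      have h3 : ∑ j, min (d' i - 1) (d' j - 1) = (U.FI d K).card := by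
        rw [U.ChAux.card_FI]
        refine Finset.sum_congr rfl fun j _ => ?_
        rcases (hv j).2 with hj | hj
        · have := hold j hj
          omega
        · rcases hnew j hj with hj' | hj'
          · omega
          · omega
      rw [h3]
    · rw [if_neg (by omega), if_neg (by omega)]
      exact Nat.zero_le _

/-- One step of the induction. -/
theorem step (h : S_MSs) {c b : ℕ} {I J₀ : Ideal (Sx N)} {x : Vx N} (hc : 1 ≤ c)
    (hp : I.IsPrime) (hh : IsHom I) (hs : Smooth I c) (L : Loc I x c) (δ K : ℕ) (hK1 : 1 ≤ K)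
    (hKb : K ≤ b) {d : Fin c → ℕ} {J : Ideal (Sx N)} {B : Fin c → Fin c → ℂ}
    (H : Inv (J₀ := J₀) L b δ K d J B) :
    ∃ (d' : Fin c → ℕ) (J' : Ideal (Sx N)) (B' : Fin c → Fin c → ℂ),
      Inv (J₀ := J₀) L b δ (K + 1) d' J' B' := by
  obtain ⟨d', J', B', hJJ, hF, hpt, hv, hold, hnew, hfl, hD, hlast⟩ := h N c b I J x hc hp hh hs
    H.fml H.pt L d K B hK1 hKb H.val H.flag _ H.dim
  have hls := los_step hKb H.val hold hnew
  refine ⟨d', J', B', H.le.trans hJJ, hF, hpt, hv, hfl, fun hall' => ?_,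
    U.ChAux.dimGe_le (by omega) hD⟩
  by_cases hall : ∀ i, d i ≤ K
  · have hcard := H.all hall
    rw [U.ChAux.card_FI] at hcard ⊢
    rw [← hcard]
    refine Finset.sum_congr rfl fun i _ => ?_
    have h1 := hall i
    have h2 := hold i h1
    omega
  · push Not at hall
    obtain ⟨i₀, hi₀⟩ := hall
    have hi₁ : d i₀ = b + 2 := by
      rcases (H.val i₀).2 with h1 | h1
      · omega
      · exact h1
    have hcd := hlast hall' ⟨i₀, hi₁⟩
    rw [← hcd, U.ChAux.card_FI, U.ChAux.card_FI]
    refine Finset.sum_congr rfl fun i _ => ?_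
    rcases (H.val i).2 with h1 | h1
    · rw [hold i h1]
      omega
    · have h2 := hall' i
      rcases hnew i h1 with h3 | h3
      · omega
      · omega

theorem los_end {c b : ℕ} {d : Fin c → ℕ} (hv : ∀ i, 2 ≤ d i) (hall : ∀ i, d i ≤ b + 1)
    (hs : ∑ i, d i = b) : los b (b + 1) d = ∑ i, ∑ j, (d j - d i) := by
  unfold los
  refine Finset.sum_congr rfl fun i _ => ?_
  rw [if_pos (hall i)]
  unfold kap
  have h1 : ∑ j, d j = ∑ j, min (d i - 1) (d j - 1) + ∑ j, (d j - d i) + c := by
    have h2 : ∑ j, d j = ∑ j, (min (d i - 1) (d j - 1) + (d j - d i) + 1) :=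
      Finset.sum_congr rfl fun j _ => by
        have h3 := hv i
        have h4 := hv j
        omega
    rw [h2, Finset.sum_add_distrib, Finset.sum_add_distrib]
    simp
  omega

end MSxAux

open MSxAux

/-- (MSx) MOST SPECIAL FLAG, exact loss. -/
theorem tMSx : S_MSs → S_MSx := by
  intro h N c b I J₀ x hc hp hh hs hF hpt L hq δ hδ
  have hfl1 := flag1 L (fun _ => b + 2) (fun _ => by omega) hq
  obtain ⟨z₀, hz₀, hz₀0⟩ := hpt
  have hFB := U.tFB N c b I J₀ x hc hp hh hs hF L z₀ hz₀ hz₀0
  have h2c : 2 * c ≤ b := by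
    have h1 := (hFB.2.2.2 (fun _ => b + 2) 1 _ (fun _ => by omega) hfl1).2.1 1 le_rfl
    have h2 := hFB.2.1 1
    rw [h1, U.ChAux.card_FI] at h2
    have h3 : ∑ _i : Fin c, min 1 (b + 2 - 1) = c := by
      have : min 1 (b + 2 - 1) = 1 := by omega
      rw [this]
      simp
    rw [h3] at h2
    omega
  have key : ∀ K, 1 ≤ K → K ≤ b + 1 → ∃ (d : Fin c → ℕ) (J : Ideal (Sx N))
      (B : Fin c → Fin c → ℂ), Inv (J₀ := J₀) L b δ K d J B := by
    intro K hK
    induction K, hK using Nat.le_induction with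
    | base =>
      intro _
      refine ⟨fun _ => b + 2, J₀, _, le_rfl, hF, ⟨z₀, hz₀, hz₀0⟩, fun _ => ⟨by omega, Or.inr rfl⟩,
        hfl1, fun hall => ?_, ?_⟩
      · have := hall ⟨0, hc⟩
        omega
      · have h1 : los b 1 (fun _ : Fin c => b + 2) = 0 := by
          unfold los
          refine Finset.sum_eq_zero fun i _ => if_neg ?_
          show ¬ b + 2 ≤ 1
          omega
        rw [h1, Nat.sub_zero]
        exact hδ
    | succ K hK ih =>
      intro hKb
      obtain ⟨d, J, B, H⟩ := ih (by omega)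
      exact step h hc hp hh hs L δ K hK (by omega) H
  obtain ⟨d, J, B, H⟩ := key (b + 1) (by omega) le_rfl
  have hall : ∀ i, d i ≤ b + 1 := by
    intro i
    rcases (H.val i).2 with h1 | h1
    · exact h1
    · exfalso
      obtain ⟨z, hz, hz0⟩ := H.pt
      have hFB' := U.tFB N c b I J x hc hp hh hs H.fml L z hz hz0
      have h2 := (hFB'.2.2.2 d (b + 1) B (fun i => by have := (H.val i).1; omega)
        H.flag).2.1 (b + 1) le_rfl
      have h3 := hFB'.2.1 (b + 1)
      rw [h2, U.ChAux.card_FI] at h3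
      have h4 : min (b + 1) (d i - 1) ≤ ∑ i, min (b + 1) (d i - 1) :=
        Finset.single_le_sum (f := fun i => min (b + 1) (d i - 1)) (fun _ _ => Nat.zero_le _)
          (Finset.mem_univ i)
      omega
  have hcard := H.all hall
  have hsum : ∑ i, d i = b := by
    rw [U.ChAux.card_FI] at hcard
    have h5 : ∑ i, d i = ∑ i, min (b + 1) (d i - 1) + c := by
      have h6 : ∑ i, d i = ∑ i, (min (b + 1) (d i - 1) + 1) :=
        Finset.sum_congr rfl fun i _ => by
          have := (H.val i).1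
          have := hall i
          omega
      rw [h6, Finset.sum_add_distrib]
      simp
    omega
  refine ⟨d, J, B, fun i => (H.val i).1, hsum, H.le, H.fml, H.pt,
    U.UpAux.flag_mono L (Nat.le_succ b) H.flag, ?_⟩
  rw [← los_end (fun i => (H.val i).1) hall hsum]
  exact H.dim

end Pool.Agent.Lib.MP_776403_ag.SD.FR
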