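import Pool.Agent.Lib.MP_776403_ag.SD.FR.SpecC2
import Pool.Agent.Lib.MP_776403_ag.SD.FR.MT

/-!
# THEOREM FR, part M: the output, exact loss (proof of `S_MTx`)
-/

set_option autoImplicit false

open MvPolynomial

noncomputable section

namespace Pool.Agent.Lib.MP_776403_ag.SD.FR

open MTAux U.V3Aux in
/-- (MTx) The output (`U.S_VT` is closed by `U.tVT`). -/
theorem tMTx (h1 : S_B2) (h2 : S_MSx) (h3 : U.S_VT) (h4 : S_NSx) : S_MTx := by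
  intro N c b D I q0 hU hbN x hxI hx0
  have hcb := hU.cb
  have hpos := hU.pos
  obtain ⟨L⟩ := eLoc N c I hU.smooth x hxI hx0
  obtain ⟨J₀, hF0, hJ0⟩ := cut_cone hU hxI hx0
  have hpt : ∃ z ∈ zer J₀, z ≠ 0 := ex_pt_dim hF0.prime hF0.hom (m := N - b) (by omega) hJ0
  have hq : ∀ z ∈ zer J₀, z ≠ 0 → ∀ ξ : Fin c → ℂ, ξ ≠ 0 → U.qv L ξ 0 z ≠ 0 :=
    h1 N c b (N - b) I J₀ x hpos hcb hU.prime hU.hom hU.nd hU.smooth hF0 hJ0 (by omega) L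
  obtain ⟨d, J, B, hd, hs, hJJ, hF, hz, hB, hJ⟩ :=
    h2 N c b I J₀ x hpos hU.prime hU.hom hU.smooth hF0 hpt L hq (N - b) hJ0
  obtain ⟨l, hl1, hlx, hlJ⟩ := hF.lam
  obtain ⟨lam, rfl⟩ := exists_lf l hl1
  refine ⟨d, lam, fun i => U.xv L (B i), J, hd, hs, ⟨⟨hx0, hxI, ?_, hF.prime, hF.hom, hlJ,
    hF.line⟩, hJ, xv_ind L hB.bas, fun z hz hz0 => ?_, fun z hz hz0 => ?_⟩, hz, fun hdim => ?_⟩
  · rw [← eval_lf]
    exact hlx
  · exact (h3 N c b I J x hpos hU.prime hU.hom hU.smooth hF L d B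
      (fun i => le_trans (by omega) (hd i)) hs hB z hz hz0).2
  · rw [hs]
    exact hF.deg z hz hz0
  · exact h4 N c b D I J q0 x hU hF L d B hd hs hB (tMono _ J _ _ hdim hJ)

end Pool.Agent.Lib.MP_776403_ag.SD.FR
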