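import Pool.Agent.Lib.MP_776403_ag.SD.FR.SpecR
import Pool.Agent.Lib.MP_776403_ag.SD.FR.L5
import Pool.Agent.Lib.MP_776403_ag.SD.Main
import Pool.Agent.Lib.MP_776403_ag.SD.P2.TS
import Pool.Agent.Lib.MP_776403_ag.SD.UN.TKer
import Pool.Agent.Lib.MP_776403_ag.SD.UN.TUn
import Pool.Agent.Lib.MP_776403_ag.SD.UN.TCh
import Pool.Agent.Lib.MP_776403_ag.SD.UN.RT
import Pool.Agent.Lib.MP_776403_ag.SD.UN.RR
import Pool.Agent.Lib.MP_776403_ag.SD.UN.RD
import Pool.Agent.Lib.MP_776403_ag.SD.UN.RQ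
import Pool.Agent.Lib.MP_776403_ag.SD.UN.RF1
import Pool.Agent.Lib.MP_776403_ag.SD.UN.RO1
import Pool.Agent.Lib.MP_776403_ag.SD.UN.RO2
import Pool.Agent.Lib.MP_776403_ag.SD.UN.RO
import Pool.Agent.Lib.MP_776403_ag.SD.UN.RE
import Pool.Agent.Lib.MP_776403_ag.SD.UN.RZ
import Pool.Agent.Lib.MP_776403_ag.SD.UN.RI
import Pool.Agent.Lib.MP_776403_ag.SD.UN.RJ
import Pool.Agent.Lib.MP_776403_ag.SD.UN.RN

/-!
# THEOREM FR, (R2): forms of large order are products modulo `I` (helper30)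
-/

set_option autoImplicit false

open MvPolynomial

noncomputable section

namespace Pool.Agent.Lib.MP_776403_ag.SD.FR

namespace R2Aux

variable {N c : ℕ}

private theorem cRT : UN.S_RT := UN.tRT UN.tTKer UN.tTUn UN.tTCh eLinB

private theorem cRE : UN.S_RE :=
  UN.tRE cRT UN.tRQ (UN.tRO P2.tTS mHom mCr cRT UN.tRQ UN.tRD (UN.tRR eLinB)
    (UN.tRF1 mLoc mHom mCr eCN P2.tTS tD6p) UN.tRO1 UN.tRO2)

private theorem cRZ : UN.S_RZ := UN.tRZ tNull

private theorem cRI : UN.S_RI := UN.tRI cRZ tNull eCN P2.tTS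

/-- A form as a regular function. -/
private theorem rf_one {I : Ideal (Sx N)} {x : Vx N} {k : ℕ} {G : Sx N}
    (hG : G.IsHomogeneous k) : UN.RF I x k G 1 := by
  have h0 : G.IsHomogeneous (0 + k) := by rwa [zero_add]
  refine ⟨⟨0, h0, isHomogeneous_one _ _⟩, ?_,
    fun y _ _ => ⟨G, 1, 0, h0, isHomogeneous_one _ _, ?_, ?_⟩⟩
  · rw [map_one]
    exact one_ne_zero
  · rw [map_one]
    exact one_ne_zero
  · rw [mul_one, sub_self]
    exact I.zero_mem

/-- Powers of an ideal generated by forms are homogeneous. -/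
private theorem pow_hom (s : Set (Sx N)) (hs : ∀ f ∈ s, ∃ m : ℕ, f.IsHomogeneous m) (m : ℕ) :
    IsHom (Ideal.span s ^ m) := by
  intro F hF n
  let _ := MvPolynomial.gradedAlgebra (σ := Fin (N + 1)) (R := ℂ)
  have h1 : (Ideal.span s).IsHomogeneous (homogeneousSubmodule (Fin (N + 1)) ℂ) := by
    refine Ideal.homogeneous_span _ _ ?_
    intro f hf
    obtain ⟨n, hn⟩ := hs f hf
    exact ⟨n, hn⟩
  have h2 : ∀ m : ℕ, (Ideal.span s ^ m).IsHomogeneous (homogeneousSubmodule (Fin (N + 1)) ℂ) := by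
    intro m
    induction m with
    | zero =>
      rw [pow_zero, Ideal.one_eq_top]
      exact Ideal.IsHomogeneous.top _
    | succ m ih =>
      rw [pow_succ]
      exact ih.mul h1
  exact homogeneousComponent_mem_of_mem (h2 m) hF n

private theorem span_hom (s : Set (Sx N)) (hs : ∀ f ∈ s, ∃ m : ℕ, f.IsHomogeneous m) :
    IsHom (Ideal.span s) := by
  have h := pow_hom s hs 1
  rwa [pow_one] at h

private theorem lf_hom (a : Vx N) : (LI.lf a).IsHomogeneous 1 := by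
  unfold LI.lf
  refine IsHomogeneous.sum _ _ 1 fun i _ => ?_
  have h := (isHomogeneous_C (Fin (N + 1)) (a i)).mul (isHomogeneous_X ℂ i)
  rwa [zero_add] at h

private theorem pow_sup {J K A : Ideal (Sx N)} (h : J ≤ K ⊔ A) (j : ℕ) :
    J ^ j ≤ K ^ j ⊔ A := by
  induction j with
  | zero => rw [pow_zero, pow_zero]; exact le_sup_left
  | succ j ih =>
    rw [pow_succ, pow_succ, Ideal.mul_le]
    intro a ha b hb
    obtain ⟨a1, ha1, a2, ha2, rfl⟩ := Submodule.mem_sup.1 (ih ha)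
    obtain ⟨b1, hb1, b2, hb2, rfl⟩ := Submodule.mem_sup.1 (h hb)
    have : (a1 + a2) * (b1 + b2) = a1 * b1 + (a1 * b2 + a2 * (b1 + b2)) := by ring
    rw [this]
    exact Submodule.add_mem_sup (Ideal.mul_mem_mul ha1 hb1)
      (A.add_mem (A.mul_mem_left _ hb2) (A.mul_mem_right _ ha2))

/-- `rho (Rn p) = p` if `p` is constant in the direction of `x`. -/
private theorem rho_Rn {I : Ideal (Sx N)} {x : Vx N} (lam : Vx N) (L : Loc I x c)
    {T : Sx N →ₐ[ℂ] PowerSeries (UN.Ay L.B)} (hT : UN.PT x L.F L.B T) (p : UN.Ay L.B)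
    (hp : ∑ j : UN.Bn L.B, C (x j.1) * pderiv j p = 0) :
    rho x lam T (UN.RIAux.Rn L.B p) = p := by
  refine MvPolynomial.funext fun u => ?_
  rw [L5Aux.eval_rho hT, UN.RIAux.Rn_eval,
    UN.RIAux.const_dir (fun j : UN.Bn L.B => x j.1) p hp u (LI.dp lam (L5Aux.yt T u))]
  refine congrArg (fun w => eval w p) ?_
  funext j
  rw [Pi.sub_apply, Pi.smul_apply, smul_eq_mul, L5Aux.yt_free hT]

/-- Leading forms of large order are restrictions of forms of powers of the ideal of the `g e`. -/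
private theorem key (h5 : S_L5) {I : Ideal (Sx N)} (hP : I.IsPrime) (hH : IsHom I)
    (hS : Smooth I c) {x lam : Vx N} {d : Fin c → ℕ} {ξ : Fin c → Vx N} {F : Fin c → Sx N}
    {f : Fin c → ℕ} (hE : Eqs I x ξ F f) (hξ : LinearIndependent ℂ ξ) {J : Ideal (Sx N)}
    (hLC : UN.LC I d x lam (UN.gT d F x) J) (L : Loc I x c)
    {T : Sx N →ₐ[ℂ] PowerSeries (UN.Ay L.B)} (hT : UN.PT x L.F L.B T) {k r : ℕ}
    {p : UN.Ay L.B} (hp : p ∈ UN.LFm L J k r) : p ∈ Ga d x lam F T r (r - k) := by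
  set 𝔤 : Ideal (Sx N) := Ideal.span (Set.range fun e : UN.Ex2 d => UN.gT d F x e.1) with h𝔤
  have hJ : J ≤ 𝔤 ⊔ UN.aI d lam (UN.gT d F x) := by
    refine hLC.eq.le.trans (sup_le (Ideal.span_le.mpr ?_) (Ideal.span_le.mpr ?_))
    · rintro _ ⟨e, rfl⟩
      by_cases he : e.2.1 = 0
      · exact Ideal.mem_sup_right (Ideal.mem_sup_right (Ideal.subset_span ⟨e, he, rfl⟩))
      · exact Ideal.mem_sup_left (Ideal.subset_span ⟨⟨e, he⟩, rfl⟩)
    · rintro _ rfl
      exact Ideal.mem_sup_right (Ideal.mem_sup_left (Ideal.subset_span rfl))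
  obtain ⟨b, hb, a, ha, hab⟩ := Submodule.mem_sup.1
    (pow_sup hJ (r - k) (UN.RIAux.mem_pow cRZ tNull hLC L hp))
  have hgh : IsHom (𝔤 ^ (r - k)) := by
    refine pow_hom _ ?_ _
    rintro _ ⟨e, rfl⟩
    exact ⟨_, hLC.hom e.1⟩
  have hah : IsHom (UN.aI d lam (UN.gT d F x)) := by
    unfold UN.aI
    rw [← Ideal.span_union]
    refine span_hom _ ?_
    rintro _ (rfl | ⟨e, -, rfl⟩)
    · exact ⟨1, lf_hom lam⟩
    · exact ⟨_, hLC.hom e⟩
  have hcomp : UN.RIAux.Rn L.B p = homogeneousComponent r b + homogeneousComponent r a := by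
    rw [← map_add, hab, homogeneousComponent_of_mem
      ((mem_homogeneousSubmodule _ _).2 (UN.RIAux.Rn_hom hp.1)), if_pos rfl]
  have hz : rho x lam T (homogeneousComponent r a) = 0 :=
    ((h5 N c I hP hH hS x lam hLC.cn.xI hLC.cn.x0 hLC.cn.lamx L T hT d ξ F f hE hξ
      hLC.one_le).2.2 _).2 (hah a ha r)
  refine ⟨homogeneousComponent r b, ⟨?_, hgh b hb r⟩, ?_⟩
  · exact (mem_homogeneousSubmodule _ _).2 (homogeneousComponent_isHomogeneous r b)
  · have h1 := rho_Rn lam L hT p hp.2.1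
    rw [hcomp, map_add, hz, add_zero] at h1
    exact h1

private theorem Pr_mono {d : Fin c → ℕ} {x lam : Vx N} {F : Fin c → Sx N} (k r : ℕ) :
    Pr d x lam F k (r + 1) ≤ Pr d x lam F k r := by
  refine Submodule.span_mono ?_
  rintro H ⟨e, s, p, α, h1, h2, h3, h4⟩
  exact ⟨e, s, p, α, h1, h2, by omega, h4⟩

end R2Aux

open R2Aux in
/-- (R2) FORMS OF LARGE ORDER ARE PRODUCTS modulo `I`. -/
theorem tR2 (h3 : S_L3) (h5 : S_L5) : S_R2 := by
  intro N c I hP hH hS x lam d ξ F f hE hξ J hLC L T hT k r₀ G₀ hk₀ hG₀ hd₀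
  have hlead : ∀ (r : ℕ) (G : Sx N), G.IsHomogeneous k → PowerSeries.X ^ r ∣ T G →
      PowerSeries.coeff r (T G) ∈ UN.LFm L J k r := fun r G hG hd =>
    cRE N c k I d hP hH hS x lam _ J hLC L T hT G 1 (rf_one hG) (T G)
      (by rw [map_one, one_mul]) r hd
  have hbot : ∀ r, 2 * k < r → UN.LFm L J k r = ⊥ := by
    intro r hr
    obtain ⟨hf, hle⟩ := cRI N c k r I d hP hH hS x lam _ J hLC L
    have h1 := UN.tRJ N c I d x lam _ J hLC r (r - k)
    rw [(UN.tRN N c d hLC.one_le k).1 r hr, Finset.sum_empty] at h1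
    have := hf
    exact Submodule.finrank_eq_zero.mp (by omega)
  have hsucc : ∀ (r : ℕ) (q : PowerSeries (UN.Ay L.B)), PowerSeries.X ^ r ∣ q →
      PowerSeries.coeff r q = 0 → PowerSeries.X ^ (r + 1) ∣ q := by
    intro r q h1 h2
    rw [PowerSeries.X_pow_dvd_iff]
    intro m hm
    rcases Nat.lt_succ_iff_lt_or_eq.1 hm with h' | h'
    · exact (PowerSeries.X_pow_dvd_iff.1 h1) m h'
    · rw [h']
      exact h2
  have hzero : ∀ (G : Sx N) (r : ℕ), 2 * k < r → G.IsHomogeneous k → PowerSeries.X ^ r ∣ T G →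
      G ∈ I := by
    intro G r hr hG hd
    have h1 : ∀ n, PowerSeries.X ^ (r + n) ∣ T G := by
      intro n
      induction n with
      | zero => exact hd
      | succ n ih =>
        have h2 := hlead (r + n) G hG ih
        rw [hbot (r + n) (by omega), Submodule.mem_bot] at h2
        exact hsucc (r + n) (T G) ih h2
    have h3 : T G = 0 := by
      refine PowerSeries.ext fun n => ?_
      rw [map_zero]
      exact (PowerSeries.X_pow_dvd_iff.1 (h1 (n + 1))) n (by omega)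
    exact ((cRT N c I hP hH x L).2 T hT).2.1 G h3
  have main : ∀ (n r : ℕ) (G : Sx N), k < r → 2 * k + 1 ≤ r + n → G.IsHomogeneous k →
      PowerSeries.X ^ r ∣ T G → ∃ H ∈ Pr d x lam F k r, G - H ∈ I := by
    intro n
    induction n with
    | zero =>
      intro r G _ hr hG hd
      refine ⟨0, Submodule.zero_mem _, ?_⟩
      rw [sub_zero]
      exact hzero G r (by omega) hG hd
    | succ n ih =>
      intro r G hkr hr hG hd
      obtain ⟨h31, h32⟩ := h3 N c I hP hH x lam hLC.cn.xI hLC.cn.lamx L T hT d ξ F f hE k r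
      obtain ⟨H₁, hH₁, hc⟩ := h32 _ (key h5 hP hH hS hE hξ hLC L hT (hlead r G hG hd))
      obtain ⟨hh, hd₁⟩ := h31 H₁ hH₁
      have hd2 : PowerSeries.X ^ (r + 1) ∣ T (G - H₁) := by
        rw [map_sub]
        refine hsucc r _ (dvd_sub hd hd₁) ?_
        rw [map_sub, hc, sub_self]
      obtain ⟨H₂, hH₂, h4⟩ := ih (r + 1) (G - H₁) (by omega) (by omega) (hG.sub hh) hd2
      refine ⟨H₁ + H₂, Submodule.add_mem _ hH₁ (Pr_mono k r hH₂), ?_⟩
      rwa [← sub_sub]
  exact main (2 * k + 1) r₀ G₀ hk₀ (by omega) hG₀ hd₀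

end Pool.Agent.Lib.MP_776403_ag.SD.FR
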