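import Pool.Agent.Lib.MP_776403_ag.SD.FR.SpecR
import Pool.Agent.Lib.MP_776403_ag.SD.UN.TEx
import Pool.Agent.Lib.MP_776403_ag.SD.UN.FRg
import Pool.Agent.Lib.MP_776403_ag.SD.Main

/-!
# THEOREM FR, (R3): the equations `G i` and their gradients at `x` (helper2)
-/

set_option autoImplicit false

open MvPolynomial

noncomputable section

namespace Pool.Agent.Lib.MP_776403_ag.SD.FR

namespace R3Aux

variable {N : ℕ}

theorem grad_C_mul (a : ℂ) (F : Sx N) (y : Vx N) : grad (C a * F) y = a • grad F y := by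
  rw [UN.FRgAux.grad_mul]
  have : grad (C a : Sx N) y = 0 := by funext i; simp [grad]
  rw [this, smul_zero, add_zero, eval_C]

theorem grad_sub (F G : Sx N) (y : Vx N) : grad (F - G) y = grad F y - grad G y := by
  funext i
  unfold grad
  rw [map_sub, map_sub]
  rfl

/-- The gradient at `y` as a linear map. -/
def gradL (y : Vx N) : Sx N →ₗ[ℂ] Vx N where
  toFun F := grad F y
  map_add' F G := UN.FRgAux.grad_add F G y
  map_smul' a F := by
    show grad (a • F) y = a • grad F y
    rw [smul_eq_C_mul, grad_C_mul]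

/-- `sg p` vanishes at `x` for forms `p` of positive degree. -/
theorem sg_zero {x lam : Vx N} (hl : LI.dp lam x = 1) {p : Sx N} {s : ℕ} (hp : p.IsHomogeneous s)
    (hs : s ≠ 0) : eval x (sg x lam p) = 0 := by
  have h2 : (fun j => eval x (ux x lam j)) = (0 : Vx N) := by
    funext j
    have h3 : eval x (LI.lf lam) = 1 := by
      rw [← hl]
      simp [LI.lf, LI.dp]
    show eval x (X j - C (x j) * LI.lf lam) = 0
    rw [map_sub, map_mul, eval_X, eval_C, h3, mul_one, sub_self]
  have h1 : eval x (sg x lam p) = eval (0 : Vx N) p := by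
    have h4 : (eval x).comp (sg x lam).toRingHom = eval (fun j => eval x (ux x lam j)) := by
      apply MvPolynomial.ringHom_ext
      · intro a
        simp [sg]
      · intro j
        simp [sg]
    rw [← h2, ← h4]
    rfl
  rw [h1]
  have h5 := eval_smul_form hp (0 : ℂ) (0 : Vx N)
  rw [zero_smul, zero_pow hs, zero_mul] at h5
  exact h5

/-- The product of elements of `ptI x`. -/
theorem prod_mem {x : Vx N} {ι : Type} [Fintype ι] (G : ι → Sx N) (α : ι → ℕ)
    (h : ∀ i, eval x (G i) = 0) : ∏ i, G i ^ α i ∈ (ptI x) ^ (∑ i, α i) := by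
  rw [← Finset.prod_pow_eq_pow_sum]
  refine Ideal.prod_mem_prod fun i _ => Ideal.pow_mem_pow ?_ _
  exact h i

/-- The gradient of the products at `x`. -/
theorem grad_Pr {c : ℕ} {d : Fin c → ℕ} {x lam : Vx N} {F : Fin c → Sx N} {ξ : Fin c → Vx N}
    (hl : LI.dp lam x = 1) (ht : ∀ i m, 1 ≤ m → eval x (tr x lam (F i) m) = 0 ∧
      grad (tr x lam (F i) m) x = ξ i) {k : ℕ} {H : Sx N} (hH : H ∈ Pr d x lam F k (k + 1)) :
    grad H x ∈ Submodule.span ℂ (ξ '' {i | k < d i}) := by
  have h1 : Pr d x lam F k (k + 1) ≤ (Submodule.span ℂ (ξ '' {i | k < d i})).comap (gradL x) := by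
    refine Submodule.span_le.mpr ?_
    rintro H ⟨e, s, p, α, hp, hk, hr, rfl⟩
    show grad _ x ∈ Submodule.span ℂ (ξ '' {i | k < d i})
    have hsum : ∑ i, α i * (i.1.2.1 + 1) = ∑ i, α i * i.1.2.1 + ∑ i, α i := by
      rw [← Finset.sum_add_distrib]
      exact Finset.sum_congr rfl fun i _ => by ring
    rw [hsum] at hr
    have hm : ∀ i : UN.Ex2 d, 1 ≤ i.1.2.1 := fun i => Nat.one_le_iff_ne_zero.mpr i.2
    have hprod : ∏ i, tr x lam (F i.1.1) i.1.2.1 ^ α i ∈ (ptI x) ^ (∑ i, α i) :=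
      prod_mem _ α fun i => (ht i.1.1 i.1.2.1 (hm i)).1
    by_cases h2 : 2 ≤ ∑ i, α i
    · have h3 := UN.FRgAux.grad_sq x _ (Ideal.mul_mem_left ((ptI x) ^ 2)
        (LI.lf lam ^ e * sg x lam p) (Ideal.pow_le_pow_right h2 hprod))
      rw [h3]
      exact Submodule.zero_mem _
    · have h4 : ∑ i, α i = 1 := by omega
      have he : e = 0 := by omega
      by_cases hs : s = 0
      · obtain ⟨i₀, -, hi₀⟩ := Finset.exists_ne_zero_of_sum_ne_zero (by rw [h4]; exact one_ne_zero)
        have h5 := Finset.add_sum_erase Finset.univ α (Finset.mem_univ i₀)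
        have h6 : α i₀ = 1 := by omega
        have h7 : ∀ i, i ≠ i₀ → α i = 0 := by
          intro i hi
          have h8 : ∑ i ∈ Finset.univ.erase i₀, α i = 0 := by omega
          exact Finset.sum_eq_zero_iff.mp h8 i (Finset.mem_erase.mpr ⟨hi, Finset.mem_univ _⟩)
        have h8 : ∏ i, tr x lam (F i.1.1) i.1.2.1 ^ α i = tr x lam (F i₀.1.1) i₀.1.2.1 := by
          rw [Finset.prod_eq_single i₀ (fun i _ hi => by rw [h7 i hi, pow_zero])
            (fun hn => absurd (Finset.mem_univ _) hn), h6, pow_one]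
        have h9 : ∑ i, α i * i.1.2.1 = i₀.1.2.1 := by
          rw [Finset.sum_eq_single i₀ (fun i _ hi => by rw [h7 i hi, zero_mul])
            (fun hn => absurd (Finset.mem_univ _) hn), h6, one_mul]
        obtain ⟨a, rfl⟩ : ∃ a : ℂ, p = C a := by
          subst hs
          exact ⟨coeff 0 p, totalDegree_eq_zero_iff_eq_C.mp
            ((totalDegree_zero_iff_isHomogeneous _).mpr hp)⟩
        have h10 : sg x lam (C a) = C a := by
          unfold sg
          rw [algHom_C]
          rfl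
        rw [h8, he, pow_zero, one_mul, h10, grad_C_mul, (ht i₀.1.1 i₀.1.2.1 (hm i₀)).2]
        refine Submodule.smul_mem _ _ (Submodule.subset_span ⟨i₀.1.1, ?_, rfl⟩)
        show k < d i₀.1.1
        have h11 := i₀.1.2.2
        omega
      · have h3 := UN.FRgAux.grad_sq x (LI.lf lam ^ e * sg x lam p *
          ∏ i, tr x lam (F i.1.1) i.1.2.1 ^ α i) (by
            rw [pow_two, mul_assoc]
            refine Ideal.mul_mem_left _ _ (Ideal.mul_mem_mul (sg_zero hl hp hs) ?_)
            rw [h4, pow_one] at hprod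
            exact hprod)
        rw [h3]
        exact Submodule.zero_mem _
  exact h1 hH

/-- LINEAR ALGEBRA: triangular changes of an independent family. -/
theorem tri {V : Type} [AddCommGroup V] [Module ℂ V] {c : ℕ} (d : Fin c → ℕ) (ξ η : Fin c → V)
    (hξ : LinearIndependent ℂ ξ) (hη : ∀ i, η i ∈ Submodule.span ℂ (ξ '' {j | d i < d j})) :
    LinearIndependent ℂ fun i => ξ i - η i := by
  have h1 : ∀ i, ∃ M : Fin c → ℂ, (∀ j, M j ≠ 0 → d i < d j) ∧ ∑ j, M j • ξ j = η i := by
    intro i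
    obtain ⟨l, hl, hl'⟩ := (Finsupp.mem_span_image_iff_linearCombination ℂ).mp (hη i)
    refine ⟨l, fun j hj => ?_, ?_⟩
    · exact (Finsupp.mem_supported ℂ l).mp hl (Finsupp.mem_support_iff.mpr hj)
    · rw [← hl', Finsupp.linearCombination_apply]
      exact (Finsupp.sum_fintype l (fun i a => a • ξ i) (fun i => zero_smul _ _)).symm
  choose M hM hM' using h1
  rw [Fintype.linearIndependent_iff] at hξ ⊢
  intro a ha
  have h2 : ∀ j, a j = ∑ i, a i * M i j := by
    have h3 := hξ (fun j => a j - ∑ i, a i * M i j) (by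
      rw [← ha]
      simp_rw [sub_smul, smul_sub, Finset.sum_sub_distrib, ← hM', Finset.smul_sum, Finset.sum_smul,
        mul_smul]
      rw [Finset.sum_comm])
    exact fun j => sub_eq_zero.mp (h3 j)
  have h4 : ∀ n : ℕ, ∀ j, d j = n → a j = 0 := by
    intro n
    induction n using Nat.strong_induction_on with
    | _ n ih =>
      intro j hj
      rw [h2 j]
      refine Finset.sum_eq_zero fun i _ => ?_
      by_cases hi : M i j = 0
      · rw [hi, mul_zero]
      · rw [ih (d i) (hj ▸ hM i j hi) i rfl, zero_mul]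
  exact fun j => h4 _ j rfl

end R3Aux

theorem tR3 (h2 : S_L2) (h3 : S_L3) (h : S_R2) : S_R3 := by
  intro N c I hP hH hS x lam d ξ F f hE hξ J hLC
  have hx : x ∈ zer I := hLC.cn.xI
  have hx0 : x ≠ 0 := hLC.cn.x0
  have hl : LI.dp lam x = 1 := hLC.cn.lamx
  obtain ⟨L⟩ := mLoc N c I hS x hx hx0
  obtain ⟨T, hT⟩ := UN.tTEx N c x L.F L.B ⟨fun i => hx _ (L.memF i), L.injB, L.detx⟩
  have ht := fun (i : Fin c) (m : ℕ) (hm : 1 ≤ m) =>
    h2 N c I hP hH x lam hx hl L T hT (F i) (f i) m (hE.mem i) (hE.hom i) hm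
  have hex : ∀ i, ∃ H ∈ Pr d x lam F (d i) (d i + 1), tr x lam (F i) (d i) - H ∈ I := fun i =>
    h N c I hP hH hS x lam d ξ F f hE hξ J hLC L T hT (d i) (d i + 1) (tr x lam (F i) (d i))
      (Nat.lt_succ_self _) (ht i (d i) (hLC.one_le i)).1 (ht i (d i) (hLC.one_le i)).2.1
  choose H hH1 hH2 using hex
  refine ⟨fun i => tr x lam (F i) (d i) - H i, fun i => ⟨hH2 i, ?_⟩, ?_⟩
  · exact (ht i (d i) (hLC.one_le i)).1.sub
      (((h3 N c I hP hH x lam hx hl L T hT d ξ F f hE (d i) (d i + 1)).1 (H i) (hH1 i)).1)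
  · have h5 : (fun i => grad (tr x lam (F i) (d i) - H i) x) = fun i => ξ i - grad (H i) x := by
      funext i
      rw [R3Aux.grad_sub, (ht i (d i) (hLC.one_le i)).2.2.2.2, hE.gr i]
    rw [h5]
    refine R3Aux.tri d ξ _ hξ fun i => R3Aux.grad_Pr hl (fun j m hm => ?_) (hH1 i)
    exact ⟨(ht j m hm).2.2.2.1, by rw [(ht j m hm).2.2.2.2, hE.gr j]⟩

end Pool.Agent.Lib.MP_776403_ag.SD.FR
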