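import Pool.Agent.Lib.MP_776403_ag.SD.FR.SpecR
import Pool.Agent.Lib.MP_776403_ag.SD.U.VK
import Pool.Agent.Lib.MP_776403_ag.SD.U.VT
import Pool.Agent.Lib.MP_776403_ag.SD.U.FB
import Pool.Agent.Lib.MP_776403_ag.SD.WG.GSat
import Pool.Agent.Lib.MP_776403_ag.SD.Main

/-!
# THEOREM FR, part R: independence of the gradients along a line (R4)
-/

set_option autoImplicit false

open MvPolynomial

noncomputable section

namespace Pool.Agent.Lib.MP_776403_ag.SD.FR

namespace R4Aux

section

variable {c : ℕ} {W : Type} [AddCommGroup W] [Module ℂ W]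

/-- The number of the indices of the frame. -/
theorem card_FI (d : Fin c → ℕ) (K : ℕ) : (U.FI d K).card ≤ ∑ i, (d i - 1) := by
  classical
  have h1 : U.FI d K ⊆ (Finset.univ.sigma fun i : Fin c => Finset.range (d i - 1)).image
      (fun s : (_ : Fin c) × ℕ => ((s.1, s.2) : Fin c × ℕ)) := by
    intro p hp
    have h2 := U.FBAux.mem_FJ.1 hp
    refine Finset.mem_image.2 ⟨⟨p.1, p.2⟩, ?_, rfl⟩
    refine Finset.mem_sigma.2 ⟨Finset.mem_univ _, Finset.mem_range.2 ?_⟩
    have h3 := h2.2
    change p.2 < d p.1 - 1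
    omega
  refine (Finset.card_le_card h1).trans (Finset.card_image_le.trans ?_)
  rw [Finset.card_sigma]
  exact le_of_eq (Finset.sum_congr rfl fun i _ => Finset.card_range _)

/-- Exchange of one basis vector. -/
theorem ind_update (ξ : Fin c → Fin c → ℂ) (hξ : LinearIndependent ℂ ξ) (i₀ : Fin c)
    (β : Fin c → ℂ) (hβ : β i₀ ≠ 0) :
    LinearIndependent ℂ (Function.update ξ i₀ (∑ j, β j • ξ j)) := by
  classical
  rw [Fintype.linearIndependent_iff]
  intro g hg
  have h1 : ∑ i, (g i₀ * β i + (if i = i₀ then 0 else g i)) • ξ i = 0 := by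
    rw [← hg, ← Finset.add_sum_erase Finset.univ
      (fun i => g i • Function.update ξ i₀ (∑ j, β j • ξ j) i) (Finset.mem_univ i₀)]
    simp only [Function.update_self]
    rw [Finset.smul_sum]
    have h2 : ∑ i ∈ Finset.univ.erase i₀, g i • Function.update ξ i₀ (∑ j, β j • ξ j) i =
        ∑ i, (if i = i₀ then (0 : ℂ) else g i) • ξ i := by
      rw [← Finset.add_sum_erase Finset.univ (fun i => (if i = i₀ then (0 : ℂ) else g i) • ξ i)
        (Finset.mem_univ i₀), if_pos rfl, zero_smul, zero_add]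
      refine Finset.sum_congr rfl fun i hi => ?_
      have h3 : i ≠ i₀ := Finset.ne_of_mem_erase hi
      rw [Function.update_of_ne h3, if_neg h3]
    rw [h2, ← Finset.sum_add_distrib]
    exact Finset.sum_congr rfl fun i _ => by rw [add_smul, smul_smul]
  have h2 := Fintype.linearIndependent_iff.1 hξ _ h1
  have h3 : g i₀ = 0 := by
    have h4 := h2 i₀
    rw [if_pos rfl, add_zero] at h4
    exact (mul_eq_zero.1 h4).resolve_right hβ
  intro i
  by_cases hi : i = i₀
  · rw [hi]
    exact h3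
  · have h4 := h2 i
    rwa [if_neg hi, h3, zero_mul, zero_add] at h4

/-- The count. -/
theorem count [Module.Finite ℂ W] (q : ℕ → (Fin c → ℂ) →ₗ[ℂ] W) (m : W →ₗ[ℂ] W)
    (hm : ∀ k ξ, m (q k ξ) = q (k + 1) ξ) (ξ : Fin c → Fin c → ℂ) (d : Fin c → ℕ)
    (hd : ∀ i, 2 ≤ d i) (hmem : ∀ i, q (d i - 1) (ξ i) ∈ U.FBAux.F q (d i - 1)) (i₀ : Fin c)
    (θ : Fin c → ℂ) (hθ : LinearIndependent ℂ (Function.update ξ i₀ θ))
    (hθm : q (d i₀ - 2) θ ∈ U.FBAux.F q (d i₀ - 2)) (Q : Submodule ℂ W)
    (hQ : ∀ w ∈ Q, ∃ K, w ∈ U.FBAux.F q K) : Module.finrank ℂ Q + c + 1 ≤ ∑ i, d i := by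
  classical
  set d' : Fin c → ℕ := Function.update d i₀ (d i₀ - 1) with hd'
  set B' : Fin c → Fin c → ℂ := Function.update ξ i₀ θ with hB'
  have hd0 : d' i₀ = d i₀ - 1 := Function.update_self _ _ _
  have hdi : ∀ i, i ≠ i₀ → d' i = d i := fun i hi => Function.update_of_ne hi _ _
  have hd1 : ∀ i, 1 ≤ d' i := by
    intro i
    by_cases hi : i = i₀
    · subst hi
      have := hd i
      rw [hd0]
      omega
    · have := hd i
      rw [hdi i hi]
      omega
  have hmem' : ∀ i, q (d' i - 1) (B' i) ∈ U.FBAux.F q (d' i - 1) := by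
    intro i
    by_cases hi : i = i₀
    · subst hi
      have h1 : B' i = θ := Function.update_self _ _ _
      have h2 : d' i - 1 = d i - 2 := by
        rw [hd0]
        omega
      rw [h1, h2]
      exact hθm
    · have h1 : B' i = ξ i := Function.update_of_ne hi _ _
      rw [h1, hdi i hi]
      exact hmem i
  have hspan : ∀ j, U.FBAux.F q j =
      Submodule.span ℂ (Set.range (U.FBAux.fr q B' d' j)) := fun j =>
    U.FBAux.span_eq (K := j) hθ hd1 hm (fun i _ => hmem' i) le_rfl
  set M := ∑ i, d' i with hM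
  have hle : Q ≤ Submodule.span ℂ (Set.range (U.FBAux.fr q B' d' M)) := by
    intro w hw
    obtain ⟨K, hK⟩ := hQ w hw
    rw [hspan] at hK
    refine Submodule.span_mono ?_ hK
    rintro w ⟨p, rfl⟩
    have hp := U.FBAux.mem_FJ.1 p.2
    have h1 : d' p.1.1 ≤ M := Finset.single_le_sum (fun j _ => Nat.zero_le (d' j))
      (Finset.mem_univ p.1.1)
    exact ⟨⟨p.1, U.FBAux.mem_FJ.2 ⟨by have := hp.2; omega, hp.2⟩⟩, rfl⟩
  have h1 : Module.finrank ℂ Q ≤ ∑ i, (d' i - 1) := by
    refine (Submodule.finrank_mono hle).trans ?_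
    refine (finrank_range_le_card (R := ℂ) (U.FBAux.fr q B' d' M)).trans ?_
    rw [Fintype.card_coe]
    exact card_FI d' M
  have h2 : ∑ i, (d' i - 1) + c = ∑ i, d' i := by
    have h3 : ∑ i : Fin c, ((d' i - 1) + 1) = ∑ i, d' i :=
      Finset.sum_congr rfl fun i _ => Nat.sub_add_cancel (hd1 i)
    rw [Finset.sum_add_distrib, Finset.sum_const, Finset.card_univ, Fintype.card_fin,
      smul_eq_mul, mul_one] at h3
    exact h3
  have h3 : ∑ i, d' i + 1 = ∑ i, d i := by
    have h4 : ∑ i ∈ Finset.univ.erase i₀, d' i = ∑ i ∈ Finset.univ.erase i₀, d i :=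
      Finset.sum_congr rfl fun i hi => hdi i (Finset.ne_of_mem_erase hi)
    rw [← Finset.add_sum_erase Finset.univ d' (Finset.mem_univ i₀),
      ← Finset.add_sum_erase Finset.univ d (Finset.mem_univ i₀), hd0, h4]
    have := hd i₀
    omega
  omega

end

section

variable {N : ℕ}

theorem top_mem {p : Polynomial ℂ} {k : ℕ} (h : p ∈ Polynomial.degreeLT ℂ (k + 1)) :
    p - Polynomial.C (p.coeff k) * Polynomial.X ^ k ∈ Polynomial.degreeLT ℂ k := by
  rw [Polynomial.mem_degreeLT, Polynomial.degree_lt_iff_coeff_zero]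
  intro n hn
  rw [Polynomial.coeff_sub, Polynomial.coeff_C_mul_X_pow]
  rw [Polynomial.mem_degreeLT, Polynomial.degree_lt_iff_coeff_zero] at h
  by_cases h1 : n = k
  · rw [if_pos h1, h1, sub_self]
  · rw [if_neg h1, sub_zero]
    exact h n (by omega)

/-- Gradients of forms at multiples. -/
theorem grad_smul {F : Sx N} {m : ℕ} (hF : F.IsHomogeneous m) (t : ℂ) (y : Vx N) :
    grad F (t • y) = t ^ (m - 1) • grad F y := by
  funext l
  exact eval_smul_form (hF.pderiv (i := l)) t y

variable {I : Ideal (Sx N)} {x z : Vx N} {c : ℕ}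

open U.VTAux in
/-- A linear relation between the gradients at a point of the line gives a vector `θ`. -/
theorem key (L : Loc I x c) (d : Fin c → ℕ) (B : Fin c → Fin c → ℂ) (hd : ∀ i, 2 ≤ d i)
    (g : Fin c → Fin c → Polynomial ℂ) (p : Fin c → Fin (N + 1) → Polynomial ℂ)
    (hg : ∀ i b, g i b - Polynomial.C (B i b) * Polynomial.X ^ (d i - 1) ∈
      Polynomial.degreeLT ℂ (d i - 1))
    (hp : ∀ i j, lin z x L.dt * p i j = ∑ b, lin z x (L.coef b j) * g i b)
    (b : Fin c → ℂ) (t : ℂ) (h0 : ∀ l, ∑ i, b i * (p i l).eval t = 0) (m : ℕ) (hm2 : 2 ≤ m)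
    (hm : ∀ i, m < d i → b i = 0) :
    U.qv L (∑ i, (if d i = m then b i else 0) • B i) (m - 2) z ∈ U.Fj L (m - 2) z := by
  set P : Fin (N + 1) → Polynomial ℂ := fun l => ∑ i, Polynomial.C (b i) * p i l with hP
  set G : Fin c → Polynomial ℂ := fun b' => ∑ i, Polynomial.C (b i) * g i b' with hG
  have hroot : ∀ l, ∃ q, P l = (Polynomial.X - Polynomial.C t) * q := by
    intro l
    refine Polynomial.dvd_iff_isRoot.2 ?_
    rw [Polynomial.IsRoot.def, hP, Polynomial.eval_finsetSum, ← h0 l]
    exact Finset.sum_congr rfl fun i _ => by rw [Polynomial.eval_mul, Polynomial.eval_C]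
  choose p' hp' using hroot
  have hPG : ∀ j, lin z x L.dt * P j = ∑ b', lin z x (L.coef b' j) * G b' := by
    intro j
    simp only [hP, hG, Finset.mul_sum]
    rw [Finset.sum_comm]
    refine Finset.sum_congr rfl fun i _ => ?_
    rw [mul_left_comm, hp i j, Finset.mul_sum]
    exact Finset.sum_congr rfl fun b' _ => by ring
  have hGB : ∀ b', G b' = P (L.B b') := by
    intro b'
    refine mul_left_cancel₀ (lin_dt_ne L z) ?_
    rw [hPG (L.B b'), Finset.sum_eq_single b']
    · rw [coef_B, if_pos rfl]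
    · intro b'' _ hb
      rw [coef_B, if_neg hb, map_zero, zero_mul]
    · intro hb
      exact absurd (Finset.mem_univ b') hb
  have hp2 : ∀ j, lin z x L.dt * p' j = ∑ b', lin z x (L.coef b' j) * p' (L.B b') := by
    intro j
    refine mul_left_cancel₀ (Polynomial.X_sub_C_ne_zero t) ?_
    rw [mul_left_comm, ← hp' j, hPG j, Finset.mul_sum]
    refine Finset.sum_congr rfl fun b' _ => ?_
    rw [hGB b', hp' (L.B b')]
    ring
  set θ : Fin c → ℂ := ∑ i, (if d i = m then b i else 0) • B i with hθ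
  have hθb : ∀ b', θ b' = ∑ i, (if d i = m then b i else 0) * B i b' := by
    intro b'
    rw [hθ, Finset.sum_apply]
    rfl
  have hGθ : ∀ b', G b' - Polynomial.C (θ b') * Polynomial.X ^ (m - 1) ∈
      Polynomial.degreeLT ℂ (m - 1) := by
    intro b'
    rw [hθb, map_sum, Finset.sum_mul, hG, ← Finset.sum_sub_distrib]
    refine Submodule.sum_mem _ fun i _ => ?_
    rcases lt_trichotomy (d i) m with h | h | h
    · rw [if_neg (by omega), zero_mul, map_zero, zero_mul, sub_zero]
      refine C_mul_mem _ ?_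
      have h5 : g i b' = (g i b' - Polynomial.C (B i b') * Polynomial.X ^ (d i - 1)) +
          Polynomial.C (B i b') * Polynomial.X ^ (d i - 1) := by ring
      rw [h5]
      have h6 := hd i
      exact Submodule.add_mem _ (Polynomial.degreeLT_mono (by omega) (hg i b')) (CX_mem _ (by omega))
    · rw [if_pos h, ← h]
      have h5 : Polynomial.C (b i) * g i b' - Polynomial.C (b i * B i b') * Polynomial.X ^ (d i - 1) =
          Polynomial.C (b i) * (g i b' - Polynomial.C (B i b') * Polynomial.X ^ (d i - 1)) := by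
        rw [map_mul]
        ring
      rw [h5]
      exact C_mul_mem _ (hg i b')
    · rw [if_neg (by omega), hm i h, map_zero, zero_mul, zero_mul, map_zero, zero_mul, sub_zero]
      exact Submodule.zero_mem _
  obtain ⟨k, rfl⟩ : ∃ k, m = k + 2 := ⟨m - 2, by omega⟩
  have h5 : ∀ b', p' (L.B b') - Polynomial.C (θ b') * Polynomial.X ^ k ∈
      Polynomial.degreeLT ℂ k := by
    intro b'
    refine deg_div (t := t) ?_
    have h6 : (Polynomial.X - Polynomial.C t) *
        (p' (L.B b') - Polynomial.C (θ b') * Polynomial.X ^ k) =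
        (G b' - Polynomial.C (θ b') * Polynomial.X ^ (k + 1)) +
          Polynomial.C t * (Polynomial.C (θ b') * Polynomial.X ^ k) := by
      rw [hGB b', hp' (L.B b'), pow_succ]
      ring
    rw [h6]
    exact Submodule.add_mem _ (hGθ b') (C_mul_mem _ (CX_mem _ (Nat.lt_succ_self k)))
  exact U.tVK N c I x z L k θ (fun b' => p' (L.B b')) h5 fun j => ⟨p' j, (hp2 j).symm⟩

/-- The statement, if the gradients are independent at `x`. -/
theorem core {b : ℕ} (hI : I.IsPrime) (hIh : IsHom I) (hS : Smooth I c) (hline : IsLine I x z)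
    (hdeg : DegEq I c b x z) (d : Fin c → ℕ) (hd : ∀ i, 2 ≤ d i) (hsum : ∑ i, d i = b)
    (G : Fin c → Sx N) (hG : ∀ i, G i ∈ I ∧ (G i).IsHomogeneous (d i))
    (hx : LinearIndependent ℂ fun i => grad (G i) x) (s t : ℂ) (hst : s ≠ 0 ∨ t ≠ 0) :
    LinearIndependent ℂ fun i => grad (G i) (s • x + t • z) := by
  classical
  rw [Fintype.linearIndependent_iff]
  intro a ha
  by_cases ht : t = 0
  · have hs : s ≠ 0 := hst.resolve_right fun h => h ht
    have h1 : ∑ i, (a i * s ^ (d i - 1)) • grad (G i) x = 0 := by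
      rw [← ha]
      refine Finset.sum_congr rfl fun i _ => ?_
      rw [ht, zero_smul, add_zero, grad_smul (hG i).2, smul_smul]
    intro i
    have h2 := Fintype.linearIndependent_iff.1 hx _ h1 i
    exact (mul_eq_zero.1 h2).resolve_right (pow_ne_zero _ hs)
  by_contra hne
  push Not at hne
  obtain ⟨i₁, hi₁⟩ := hne
  have hxI : x ∈ zer I := by
    have := hline.2 1 0
    rwa [one_smul, zero_smul, add_zero] at this
  have hx0 : x ≠ 0 := by
    have := hline.1.ne_zero 0
    exact this
  obtain ⟨L⟩ := mLoc N c I hS x hxI hx0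
  -- the new relation
  set a' : Fin c → ℂ := fun i => a i * t ^ (d i - 1) with ha'
  have ha0 : ∀ i, a' i = 0 → a i = 0 := fun i h =>
    (mul_eq_zero.1 h).resolve_right (pow_ne_zero _ ht)
  have h0 : ∀ l, ∑ i, a' i * (lin z x (pderiv l (G i))).eval (s / t) = 0 := by
    intro l
    have h1 := congrFun ha l
    rw [Finset.sum_apply, Pi.zero_apply] at h1
    rw [← h1]
    refine Finset.sum_congr rfl fun i _ => ?_
    have h2 : s • x + t • z = t • (z + (s / t) • x) := by
      rw [smul_add, smul_smul, mul_div_cancel₀ _ ht, add_comm]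
    rw [Pi.smul_apply, smul_eq_mul, h2, grad_smul (hG i).2, Pi.smul_apply, smul_eq_mul, lin_eval,
      ha', mul_assoc]
    rfl
  obtain ⟨i₀, hi₀, hmax⟩ := Finset.exists_max_image (Finset.univ.filter fun i => a' i ≠ 0) d
    ⟨i₁, Finset.mem_filter.2 ⟨Finset.mem_univ _, fun h => hi₁ (ha0 i₁ h)⟩⟩
  have hi0 : a' i₀ ≠ 0 := (Finset.mem_filter.1 hi₀).2
  have hmx : ∀ i, d i₀ < d i → a' i = 0 := by
    intro i hi
    by_contra h
    have := hmax i (Finset.mem_filter.2 ⟨Finset.mem_univ _, h⟩)
    omega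
  -- the vectors `ξ i`
  set ξ : Fin c → Fin c → ℂ := fun i b' => eval x (pderiv (L.B b') (G i)) with hξ
  have hg : ∀ i b', lin z x (pderiv (L.B b') (G i)) -
      Polynomial.C (ξ i b') * Polynomial.X ^ (d i - 1) ∈ Polynomial.degreeLT ℂ (d i - 1) := by
    intro i b'
    have h1 := lin_mem ((hG i).2.pderiv (i := L.B b')) z x
    have h2 := top_mem h1
    rwa [lin_coeff_top ((hG i).2.pderiv (i := L.B b')) z x] at h2
  have hcr : ∀ i j, lin z x L.dt * lin z x (pderiv j (G i)) =
      ∑ b', lin z x (L.coef b' j) * lin z x (pderiv (L.B b') (G i)) := fun i j =>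
    GSatAux.cramer mCr eLinB hI hIh hS L z hline.2 (G i) (hG i).1 j
  have hmem : ∀ i, U.qv L (ξ i) (d i - 1) z ∈ U.Fj L (d i - 1) z := fun i =>
    U.tVK N c I x z L (d i - 1) (ξ i) (fun b' => lin z x (pderiv (L.B b') (G i))) (hg i)
      fun j => ⟨_, (hcr i j).symm⟩
  have hind : LinearIndependent ℂ ξ := by
    rw [Fintype.linearIndependent_iff]
    intro e he
    have heb : ∀ b', ∑ i, e i * ξ i b' = 0 := by
      intro b'
      have h1 := congrFun he b'
      rw [Finset.sum_apply, Pi.zero_apply] at h1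
      exact h1
    refine Fintype.linearIndependent_iff.1 hx e ?_
    funext j
    rw [Finset.sum_apply, Pi.zero_apply]
    obtain ⟨-, -, hC, -⟩ := mCrL N c I x z x 0 L (by rw [zero_smul, add_zero]) hline.2
    have hev : ∀ F : Sx N, (lin x z F).eval 0 = eval x F := by
      intro F
      rw [lin_eval, zero_smul, add_zero]
    have h2 : ∀ i, eval x L.dt * eval x (pderiv j (G i)) =
        ∑ b', eval x (L.coef b' j) * ξ i b' := by
      intro i
      have h3 := congrArg (Polynomial.eval 0) (hC (G i) (hG i).1 j)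
      rw [Polynomial.eval_mul, hev, hev, Polynomial.eval_finsetSum] at h3
      rw [h3]
      refine Finset.sum_congr rfl fun b' _ => ?_
      rw [Polynomial.eval_mul, hev, hev]
    have hdx : eval x L.dt ≠ 0 := L.detx
    refine mul_left_cancel₀ hdx ?_
    rw [mul_zero, Finset.mul_sum]
    calc ∑ i, eval x L.dt * (e i • grad (G i) x) j
        = ∑ i, ∑ b', eval x (L.coef b' j) * (e i * ξ i b') := by
          refine Finset.sum_congr rfl fun i _ => ?_
          rw [Pi.smul_apply, smul_eq_mul, mul_left_comm]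
          have h4 : grad (G i) x j = eval x (pderiv j (G i)) := rfl
          rw [h4, h2 i, Finset.mul_sum]
          exact Finset.sum_congr rfl fun b' _ => by ring
      _ = ∑ b', eval x (L.coef b' j) * ∑ i, e i * ξ i b' := by
          rw [Finset.sum_comm]
          exact Finset.sum_congr rfl fun b' _ => by rw [Finset.mul_sum]
      _ = 0 := Finset.sum_eq_zero fun b' _ => by rw [heb b', mul_zero]
  have hθm := key L d ξ hd (fun i b' => lin z x (pderiv (L.B b') (G i)))
    (fun i j => lin z x (pderiv j (G i))) hg hcr a' (s / t) h0 (d i₀) (hd i₀) hmx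
  have hcount := count (U.FBAux.ql L z) (U.FBAux.ms L z) (U.FBAux.ms_ql L z) ξ d hd hmem i₀
    (∑ i, (if d i = d i₀ then a' i else 0) • ξ i)
    (ind_update ξ hind i₀ (fun i => if d i = d i₀ then a' i else 0) (by
      rw [if_pos rfl]
      exact hi0)) hθm (U.FBAux.Qz L z) ?_
  · have hrk := zGRk N c b I hI hIh hS x z hline hdeg L
    have hrk' : Module.finrank ℂ (U.FBAux.Qz L z) + c = b := hrk
    omega
  · intro w hw
    refine Submodule.span_induction ?_ ?_ ?_ ?_ hw
    · rintro w ⟨⟨i, k⟩, rfl⟩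
      refine ⟨k + 1, Submodule.subset_span ⟨Pi.single i 1, k, Nat.lt_succ_self k, ?_⟩⟩
      funext y
      rw [U.FBAux.ql_apply, Finset.sum_eq_single i]
      · rw [Pi.single_eq_same, one_mul]
      · intro i' _ hi'
        rw [Pi.single_eq_of_ne hi', zero_mul]
      · intro h
        exact absurd (Finset.mem_univ i) h
    · exact ⟨0, Submodule.zero_mem _⟩
    · rintro u v - - ⟨K, hK⟩ ⟨K', hK'⟩
      exact ⟨max K K', Submodule.add_mem _ (U.FBAux.F_mono _ (le_max_left _ _) hK)
        (U.FBAux.F_mono _ (le_max_right _ _) hK')⟩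
    · rintro r u - ⟨K, hK⟩
      exact ⟨K, Submodule.smul_mem _ _ hK⟩

/-- Another basis of the line. -/
theorem rebase {α β γ δ : ℂ} (hD : α * δ - β * γ ≠ 0) (s t : ℂ) (x z : Vx N) :
    s • x + t • z = ((s * δ - t * γ) / (α * δ - β * γ)) • (α • x + β • z) +
      ((t * α - s * β) / (α * δ - β * γ)) • (γ • x + δ • z) := by
  funext i
  simp only [Pi.add_apply, Pi.smul_apply, smul_eq_mul]
  rw [div_mul_eq_mul_div, div_mul_eq_mul_div, ← add_div, eq_div_iff hD]
  ring

end

end R4Aux

open R4Aux in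
/-- (R4) -/
theorem tR4 : S_R4 := by
  intro N c b I _ hI hIh hS x z hline hdeg d hd hsum G hG σ τ hστ hind s t hst
  obtain ⟨γ, δ, hD⟩ : ∃ γ δ : ℂ, σ * δ - τ * γ ≠ 0 := by
    by_cases h : σ = 0
    · refine ⟨1, 0, ?_⟩
      have h1 : τ ≠ 0 := hστ.resolve_left fun h' => h' h
      rw [mul_zero, mul_one, zero_sub]
      exact neg_ne_zero.2 h1
    · refine ⟨0, 1, ?_⟩
      rw [mul_one, mul_zero, sub_zero]
      exact h
  set x' : Vx N := σ • x + τ • z with hx'
  set z' : Vx N := γ • x + δ • z with hz'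
  have hcomb : ∀ s t : ℂ, s • x' + t • z' = (s * σ + t * γ) • x + (s * τ + t * δ) • z := by
    intro s t
    funext i
    simp only [hx', hz', Pi.add_apply, Pi.smul_apply, smul_eq_mul]
    ring
  have hline' : IsLine I x' z' := by
    refine ⟨?_, fun s t => ?_⟩
    · rw [LinearIndependent.pair_iff]
      intro s t h
      rw [hcomb] at h
      obtain ⟨h1, h2⟩ := LinearIndependent.pair_iff.1 hline.1 _ _ h
      constructor
      · refine (mul_eq_zero.1 (?_ : s * (σ * δ - τ * γ) = 0)).resolve_right hD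
        linear_combination δ * h1 - γ * h2
      · refine (mul_eq_zero.1 (?_ : t * (σ * δ - τ * γ) = 0)).resolve_right hD
        linear_combination σ * h2 - τ * h1
    · rw [hcomb]
      exact hline.2 _ _
  have hlI : lineI x' z' = lineI x z := by
    ext F
    constructor
    · intro h s t
      rw [rebase hD s t x z]
      exact h _ _
    · intro h s t
      rw [hcomb]
      exact h _ _
  have hdeg' : DegEq I c b x' z' := by
    unfold DegEq at hdeg ⊢
    rw [hlI]
    exact hdeg
  rw [rebase hD s t x z]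
  refine core hI hIh hS hline' hdeg' d hd hsum G hG hind _ _ ?_
  by_contra h
  push Not at h
  obtain ⟨h1, h2⟩ := h
  have h3 := rebase hD s t x z
  rw [h1, h2, zero_smul, zero_smul, add_zero] at h3
  obtain ⟨h4, h5⟩ := LinearIndependent.pair_iff.1 hline.1 _ _ h3
  rcases hst with h | h
  · exact h h4
  · exact h h5

end Pool.Agent.Lib.MP_776403_ag.SD.FR
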