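import Pool.Agent.Lib.MP_776403_ag.SD.FR.SpecR

/-!
# THEOREM FR, part R: independence everywhere (module R5)
-/

set_option autoImplicit false

open MvPolynomial

noncomputable section

namespace Pool.Agent.Lib.MP_776403_ag.SD.FR

variable {N : ℕ}

namespace R5Aux

private theorem smul_zer' {P : Ideal (Sx N)} (hH : IsHom P) {z : Vx N} (hz : z ∈ zer P) (s : ℂ) :
    s • z ∈ zer P := by
  intro F hF
  have h1 : eval (s • z) F =
      ∑ m ∈ Finset.range (F.totalDegree + 1), s ^ m * eval z (homogeneousComponent m F) := by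
    conv_lhs => rw [← sum_homogeneousComponent F]
    rw [map_sum]
    refine Finset.sum_congr rfl fun m _ => ?_
    exact eval_smul_form (homogeneousComponent_isHomogeneous m F) s z
  rw [h1]
  refine Finset.sum_eq_zero fun m _ => ?_
  rw [hz _ (hH F hF m), mul_zero]

/-- the gradients at a multiple of the point -/
private theorem ind_smul {c : ℕ} {G : Fin c → Sx N} {d : Fin c → ℕ}
    (hG : ∀ i, (G i).IsHomogeneous (d i)) {x : Vx N} (hx : LinearIndependent ℂ fun i => grad (G i) x)
    {a : ℂ} (ha : a ≠ 0) : LinearIndependent ℂ fun i => grad (G i) (a • x) := by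
  have h1 : (fun i => grad (G i) (a • x)) =
      (fun i => (Units.mk0 (a ^ (d i - 1)) (pow_ne_zero _ ha)) • grad (G i) x) := by
    funext i
    rw [grad_smul_form (hG i)]
    rfl
  rw [h1]
  exact hx.units_smul _

/-- two dependent nonzero vectors -/
private theorem dep {x z : Vx N} (hx : x ≠ 0) (hz : z ≠ 0) (h : ¬ LinearIndependent ℂ ![x, z]) :
    ∃ a : ℂ, a ≠ 0 ∧ z = a • x := by
  rw [LinearIndependent.pair_iff' hx] at h
  push Not at h
  obtain ⟨a, ha⟩ := h
  refine ⟨a, ?_, ha.symm⟩
  rintro rfl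
  rw [zero_smul] at ha
  exact hz ha.symm

end R5Aux

open R5Aux

theorem tR5 (h : S_R4) : S_R5 := by
  intro N c b D I q0 hB hN d hd hsum G hG x hx hx0 hind y hy hy0
  obtain ⟨P, hPp, hPh, hIP, hPd, hPc, hPl, hPdeg⟩ := hB.cone x hx hx0
  obtain ⟨P', hPp', hPh', hIP', hPd', hPc', hPl', hPdeg'⟩ := hB.cone y hy hy0
  have hcb := hB.cb
  have hbN := hB.bN
  obtain ⟨z, hz0, hzP, hzP'⟩ := mMeet N P P' (N + 1 - b) (N + 1 - b) hPp hPp' hPh hPh' hPd hPd' (by omega)
  have hGh : ∀ i, (G i).IsHomogeneous (d i) := fun i => (hG i).2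
  -- independence moves along the lines through `u`
  have key : ∀ (u v : Vx N), (∀ s t : ℂ, s • u + t • v ∈ zer I) → LinearIndependent ℂ ![u, v] →
      DegEq I c b u v → ∀ σ τ : ℂ, (σ ≠ 0 ∨ τ ≠ 0) →
      LinearIndependent ℂ (fun i => grad (G i) (σ • u + τ • v)) →
      ∀ s t : ℂ, (s ≠ 0 ∨ t ≠ 0) → LinearIndependent ℂ (fun i => grad (G i) (s • u + t • v)) := by
    intro u v hl hi hdeg
    exact h N c b I hB.pos hB.prime hB.hom hB.smooth u v ⟨hi, hl⟩ hdeg d hd hsum G hG
  -- from `u` to `v` and back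
  have go1 : ∀ (u v : Vx N), (∀ s t : ℂ, s • u + t • v ∈ zer I) → LinearIndependent ℂ ![u, v] →
      DegEq I c b u v → LinearIndependent ℂ (fun i => grad (G i) u) →
      LinearIndependent ℂ (fun i => grad (G i) v) := by
    intro u v hl hi hdeg hu
    have h1 := key u v hl hi hdeg 1 0 (Or.inl one_ne_zero) (by
      have : (1 : ℂ) • u + (0 : ℂ) • v = u := by rw [one_smul, zero_smul, add_zero]
      rw [this]
      exact hu) 0 1 (Or.inr one_ne_zero)
    have h2 : (0 : ℂ) • u + (1 : ℂ) • v = v := by rw [one_smul, zero_smul, zero_add]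
    rw [h2] at h1
    exact h1
  have go2 : ∀ (u v : Vx N), (∀ s t : ℂ, s • u + t • v ∈ zer I) → LinearIndependent ℂ ![u, v] →
      DegEq I c b u v → LinearIndependent ℂ (fun i => grad (G i) v) →
      LinearIndependent ℂ (fun i => grad (G i) u) := by
    intro u v hl hi hdeg hu
    have h1 := key u v hl hi hdeg 0 1 (Or.inr one_ne_zero) (by
      have : (0 : ℂ) • u + (1 : ℂ) • v = v := by rw [one_smul, zero_smul, zero_add]
      rw [this]
      exact hu) 1 0 (Or.inl one_ne_zero)
    have h2 : (1 : ℂ) • u + (0 : ℂ) • v = u := by rw [one_smul, zero_smul, add_zero]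
    rw [h2] at h1
    exact h1
  by_cases hxy : LinearIndependent ℂ ![x, y]
  · have hyx : LinearIndependent ℂ ![y, x] := by
      rw [LinearIndependent.pair_symm_iff]
      exact hxy
    by_cases hxz : LinearIndependent ℂ ![x, z]
    · by_cases hyz : LinearIndependent ℂ ![y, z]
      · have hzi := go1 x z (hPl z hzP) hxz (hPdeg z hzP hxz) hind
        exact go2 y z (hPl' z hzP') hyz (hPdeg' z hzP' hyz) hzi
      · obtain ⟨a, ha, hza⟩ := dep hy0 hz0 hyz
        have hyP : y ∈ zer P := by
          have h1 : y = a⁻¹ • z := by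
            rw [hza, smul_smul, inv_mul_cancel₀ ha, one_smul]
          rw [h1]
          exact smul_zer' hPh hzP _
        exact go1 x y (hPl y hyP) hxy (hPdeg y hyP hxy) hind
    · obtain ⟨a, ha, hza⟩ := dep hx0 hz0 hxz
      have hxP : x ∈ zer P' := by
        have h1 : x = a⁻¹ • z := by
          rw [hza, smul_smul, inv_mul_cancel₀ ha, one_smul]
        rw [h1]
        exact smul_zer' hPh' hzP' _
      exact go2 y x (hPl' x hxP) hyx (hPdeg' x hxP hyx) hind
  · obtain ⟨a, ha, hya⟩ := dep hx0 hy0 hxy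
    rw [hya]
    exact ind_smul hGh hind ha

end Pool.Agent.Lib.MP_776403_ag.SD.FR
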