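import Pool.Agent.Lib.MP_776403_ag.SD.FR.SpecR
import Pool.Agent.Lib.MP_776403_ag.SD.UN.FCI
import Pool.Agent.Lib.MP_776403_ag.SD.UN.FRl
import Pool.Agent.Lib.MP_776403_ag.SD.UN.FRg
import Pool.Agent.Lib.MP_776403_ag.SD.UN.FDr
import Pool.Agent.Lib.MP_776403_ag.SD.UN.FLn
import Pool.Agent.Lib.MP_776403_ag.SD.UN.FHc

/-!
# THEOREM FR, part R: complete intersection (module R7, helper55)
-/

set_option autoImplicit false

open MvPolynomial

noncomputable section

namespace Pool.Agent.Lib.MP_776403_ag.SD.FR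

namespace R7Aux

variable {N : ℕ}

/-- Forms with independent gradients along the variety `I` of dimension `N + 1 - c` generate `I`. -/
theorem span_eq (hRg : UN.S_FRg) (hDr : UN.S_FDr) {c : ℕ} {I : Ideal (Sx N)} (hI : I.IsPrime)
    (hc : c ≤ N) (hdim : DimGe I (N + 1 - c)) {z : Vx N} (hz : z ∈ zer I)
    (G : Fin c → Sx N) (hG : ∀ i, G i ∈ I) (hind : LinearIndependent ℂ fun i => grad (G i) z)
    (hprime : (Ideal.span (Set.range G)).IsPrime) : I = Ideal.span (Set.range G) := by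
  have hle : Ideal.span (Set.range G) ≤ I := Ideal.span_le.mpr (by rintro _ ⟨i, rfl⟩; exact hG i)
  by_contra hne
  have hlt : Ideal.span (Set.range G) < I := lt_of_le_of_ne hle (Ne.symm hne)
  have hd := (hDr N).1 (N + 1 - c) _ I hprime hI hlt hdim
  obtain ⟨P, hPp, hPm, -, hPf, hPloc⟩ := hRg N c G z (fun i => hz _ (hG i)) hind
  have hPle : P (Fin.last c) ≤ Ideal.span (Set.range G) := by
    intro F hF
    obtain ⟨h, hh, hhF⟩ := hPloc F hF
    exact (hprime.mem_or_mem hhF).resolve_left fun hcon => hh (hz h (hle hcon))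
  have := (hDr N).2 c (N + 1 - c + 1) P hPp hPm (Q1.dimGe_anti hPle hd)
  omega

end R7Aux

open R7Aux

/-- (R7) Complete intersection. -/
theorem tR7 (h3 : S_R3) (h5 : S_R5) : S_R7 := by
  intro N c b D I q0 hB hN x lam d ξ F f hd hsum hE hξ J hL
  obtain ⟨G, hG, hind⟩ := h3 N c I hB.prime hB.hom hB.smooth x lam d ξ F f hE hξ J hL
  have hx : x ∈ zer I := hL.cn.xI
  have hx0 : x ≠ 0 := hL.cn.x0
  have hall := h5 N c b D I q0 hB hN d hd hsum G hG x hx hx0 hind
  have hcb := hB.cb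
  have hdim : DimGe I (N + 1 - c) := Q1.dimGe_smooth c I hB.hom hB.smooth ⟨x, hx, hx0⟩
  have hRg : UN.S_FRg := UN.tFRg UN.tFRl
  obtain ⟨hprime, -⟩ := UN.tFCI hRg UN.tFDr UN.tFLn UN.tFHc N c G d I (fun i => by
    have := hd i
    omega) (fun i => (hG i).2) hB.prime hB.hom (fun i => (hG i).1)
    (tMono _ _ _ (c + 1) (by omega) (show DimGeG I (N + 1 - c) from hdim)) hall
  exact ⟨G, fun i => (hG i).2, span_eq hRg UN.tFDr hB.prime (by omega) hdim hx G
    (fun i => (hG i).1) hind hprime⟩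

end Pool.Agent.Lib.MP_776403_ag.SD.FR
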