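import Pool.Agent.Lib.MP_776403_ag.SD.FR.SpecR
import Pool.Agent.Lib.MP_776403_ag.SD.FR.U6

/-!
# THEOREM FR, (U6z): the Taylor forms are a complete intersection, one dimension less
-/

set_option autoImplicit false

open MvPolynomial

noncomputable section

namespace Pool.Agent.Lib.MP_776403_ag.SD.FR

open LI UN UN.U6vAux

theorem tU6z (hZ : S_FCz) : S_U6z := by
  intro N c m I d hI hh hS hc hd2 x lam ξ J₀ hFT hpt hfree F hF hloc hm
  have hU : UN.S_U6b := UN.tU6b
  have hcn := hFT.cn
  have hξ := hFT.ind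
  have hdeg := hFT.deg
  have hd1 : ∀ i, 1 ≤ d i := fun i => (Nat.le_succ 1).trans (hd2 i)
  classical
  set g := gT d F x with hg
  have hcard : Fintype.card (Ex d) = ∑ i, d i := by
    rw [Fintype.card_sigma]
    exact Finset.sum_congr rfl fun i _ => Fintype.card_fin _
  -- the equations
  have hgJ : ∀ e, g e ∈ JL I x := fun e =>
    Ideal.subset_span ⟨F e.1, (hF e.1).1, e.2.1 + 1, rfl⟩
  have hghom : ∀ e, (g e).IsHomogeneous (e.2.1 + 1) := fun e =>
    (mLinS N x (F e.1) (e.2.1 + 1)).2.2.1
  have hlam : ∀ z : Vx N, dp lam z = 0 → (∀ s t : ℂ, s • x + t • z ∈ zer I) → z ≠ 0 →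
      IsLine I x z := by
    intro z hz hl hz0
    refine ⟨?_, hl⟩
    rw [LinearIndependent.pair_iff]
    intro s t hst
    have h1 : dp lam (s • x + t • z) = s := by
      rw [dp_add, dp_smul, dp_smul, hcn.lamx, hz, mul_one, mul_zero, add_zero]
    have h2 : s = 0 := by
      rw [← h1, hst]
      simp [dp]
    refine ⟨h2, ?_⟩
    rw [h2, zero_smul, zero_add] at hst
    exact (smul_eq_zero.1 hst).resolve_right hz0
  have hlam0 : ∀ z ∈ zer J₀, dp lam z = 0 := fun z hz => by
    rw [← eval_lf]
    exact hz _ hcn.lamJ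
  -- independence of the gradients
  have hind1 : ∀ z ∈ zer J₀, z ≠ 0 → LinearIndependent ℂ fun e => grad (g e) z := by
    intro z hz hz0
    have hl := hcn.line z hz
    have hIL := hlam z (hlam0 z hz) hl hz0
    have hJz := JL_eval hl
    have h1 := hU N c (∑ i, d i) I hI hh hS x z hIL (hdeg z hz hz0) (hfree z hIL)
    rw [linearIndependent_iff_card_le_finrank_span, hcard]
    refine h1.trans ?_
    refine Submodule.finrank_mono ?_
    rw [Submodule.span_le]
    rintro _ ⟨G, hG, n, rfl⟩
    have h2 : (linS x G).coeff n ∈ Ideal.span (Set.range g) ⊔ ptI z * JL I x :=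
      hloc z hz hz0 (Ideal.subset_span ⟨G, hG, n, rfl⟩)
    obtain ⟨u, hu, v, hv, huv⟩ := Submodule.mem_sup.1 h2
    rw [← huv, grad_add, grad_mulI hJz hv, add_zero]
    exact (grad_span (fun e => hJz _ (hgJ e)) hu).2
  have hgx : ∀ z ∈ zer J₀, ∀ e, dp (grad (g e) z) x = 0 := by
    intro z hz e
    have h1 : lin z x (g e) = 0 := by
      refine poly_ext fun s => ?_
      rw [lin_eval, Polynomial.eval_zero]
      refine JL_eval (I := I) (x := x) ?_ _ (hgJ e)
      intro s' t'
      have h2 : s' • x + t' • (z + s • x) = (s' + t' * s) • x + t' • z := by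
        rw [smul_add, add_smul, mul_smul]
        abel
      rw [h2]
      exact hcn.line z hz _ _
    rw [← lin_coeff_one, h1, Polynomial.coeff_zero]
  have hind : ∀ z ∈ zer J₀, z ≠ 0 →
      LinearIndependent ℂ (fun o : Option (Ex d) => o.elim lam fun e => grad (g e) z) := by
    intro z hz hz0
    rw [Fintype.linearIndependent_iff]
    intro a ha
    rw [Fintype.sum_option] at ha
    simp only [Option.elim_none, Option.elim_some] at ha
    have h0 : a none = 0 := by
      have h1 : dp (a none • lam + ∑ e, a (some e) • grad (g e) z) x = a none := by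
        rw [dp_add_left, dp_smul_left, hcn.lamx, dp_sum_left]
        rw [Finset.sum_eq_zero fun e _ => by rw [dp_smul_left, hgx z hz e, mul_zero]]
        ring
      rw [← h1, ha, dp_zero_left]
    rw [h0, zero_smul, zero_add] at ha
    have h2 := (Fintype.linearIndependent_iff.1 (hind1 z hz hz0)) (fun e => a (some e)) ha
    intro o
    cases o with
    | none => exact h0
    | some e => exact h2 e
  -- the family indexed by `Fin r`
  set f₀ : Option (Ex d) → Sx N := fun o => o.elim (lf lam) g with hf₀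
  set e₀ : Option (Ex d) → ℕ := fun o => o.elim 1 fun e => e.2.1 + 1 with he₀
  have hcard' : Fintype.card (Option (Ex d)) = ∑ i, d i + 1 := by
    rw [Fintype.card_option, hcard]
  let κ₀ : Option (Ex d) ≃ Fin (∑ i, d i + 1) := Fintype.equivFinOfCardEq hcard'
  let e₁ : Ex d := ⟨⟨0, hc⟩, ⟨1, hd2 _⟩⟩
  let κ : Option (Ex d) ≃ Fin (∑ i, d i + 1) :=
    κ₀.trans (Equiv.swap (κ₀ (some e₁)) (Fin.last _))
  have hκ1 : κ (some e₁) = Fin.last _ := by
    simp only [κ, Equiv.trans_apply, Equiv.swap_apply_left]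
  have hf₀J : ∀ o, f₀ o ∈ J₀ := by
    intro o
    cases o with
    | none => exact hcn.lamJ
    | some e =>
      exact (tNull N J₀ hcn.prime hcn.hom).1 _ fun z hz => JL_eval (hcn.line z hz) _ (hgJ e)
  have hf₀h : ∀ o, (f₀ o).IsHomogeneous (e₀ o) := by
    intro o
    cases o with
    | none => exact lf_hom lam
    | some e => exact hghom e
  have hf₀g : ∀ z : Vx N, (fun o => grad (f₀ o) z) =
      fun o : Option (Ex d) => o.elim lam fun e => grad (g e) z := by
    intro z
    funext o
    cases o with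
    | none => exact grad_lf lam z
    | some e => rfl
  -- the linear forms
  have hlin : ∀ i, (linS x (F i)).coeff 1 = lf (ξ i) := by
    intro i
    refine MvPolynomial.funext fun v => ?_
    rw [(mLinS N x (F i) 1).2.1 v, lin_coeff_one, (hF i).2, eval_lf]
  have hspf : ∀ o, o ≠ some e₁ → f₀ o ∈ Ideal.span (Set.range fun i : Fin (∑ i, d i) =>
      (f₀ ∘ κ.symm) i.castSucc) := by
    intro o ho
    have h1 : κ o ≠ Fin.last _ := fun h => ho (κ.injective (h.trans hκ1.symm))
    obtain ⟨i, hi⟩ := Fin.exists_castSucc_eq.2 h1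
    refine Ideal.subset_span ⟨i, ?_⟩
    show f₀ (κ.symm i.castSucc) = f₀ o
    rw [hi, Equiv.symm_apply_apply]
  have hlf : ∀ j : Fin (c + 1), lf (Fin.snoc (α := fun _ => Vx N) ξ lam j) ∈
      Ideal.span (Set.range fun i : Fin (∑ i, d i) => (f₀ ∘ κ.symm) i.castSucc) := by
    intro j
    refine Fin.lastCases ?_ (fun i => ?_) j
    · rw [Fin.snoc_last]
      exact hspf none (by simp)
    · rw [Fin.snoc_castSucc, ← hlin i]
      refine hspf (some ⟨i, ⟨0, hd1 i⟩⟩) ?_
      intro h
      have h2 := Option.some.inj h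
      have h3 : (⟨i, ⟨0, hd1 i⟩⟩ : Ex d).2.1 = e₁.2.1 := by rw [h2]
      exact absurd h3 (by simp [e₁])
  have hlind : LinearIndependent ℂ (Fin.snoc (α := fun _ => Vx N) ξ lam) := by
    rw [linearIndependent_finSnoc]
    refine ⟨hξ, fun hmem => ?_⟩
    have h1 : ∀ φ ∈ Submodule.span ℂ (Set.range ξ), dp φ x = 0 := by
      intro φ hφ
      refine Submodule.span_induction (p := fun φ _ => dp φ x = 0) ?_ (dp_zero_left x) ?_ ?_ hφ
      · rintro _ ⟨i, rfl⟩
        have hx := TSAux.euler hh hcn.xI (F i) (hF i).1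
        rwa [(hF i).2] at hx
      · intro a b _ _ ha hb
        rw [dp_add_left, ha, hb, add_zero]
      · intro r a _ ha
        rw [dp_smul_left, ha, mul_zero]
    have h2 := h1 lam hmem
    rw [hcn.lamx] at h2
    exact one_ne_zero h2
  -- the numbers
  have hs2 : 2 * c ≤ ∑ i, d i := by
    have h1 : ∑ _i : Fin c, 2 ≤ ∑ i, d i := Finset.sum_le_sum fun i _ => hd2 i
    simpa [mul_comm] using h1
  have hdim : DimGe J₀ (∑ i, d i - (c + 1) + 1) :=
    tMono _ J₀ m (∑ i, d i - (c + 1) + 1) (by omega) hFT.dim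
  obtain ⟨hrN, l', hl'1, hl'0⟩ := hZ N (∑ i, d i) (c + 1) (f₀ ∘ κ.symm) (e₀ ∘ κ.symm) J₀
    (Fin.snoc (α := fun _ => Vx N) ξ lam)
    (fun i => by
      show 1 ≤ e₀ (κ.symm i)
      cases κ.symm i with
      | none => exact le_refl _
      | some e => exact Nat.le_add_left _ _)
    (fun i => hf₀h _) hlind hlf (by omega) hcn.prime hcn.hom (fun i => hf₀J _) hdim
    (fun z hz hz0 => by
      have h1 := hind z hz hz0
      rw [← hf₀g z] at h1
      exact h1.comp κ.symm κ.symm.injective)
  refine ⟨l', ?_⟩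
  exact
    { le := hrN
      one_le := hd1
      x0 := hcn.x0
      xI := hcn.xI
      lamx := hcn.lamx
      lin := hl'1
      zero := by
        intro y hy1 hy2 hy3
        refine hl'0 y (fun i => ?_) hy3
        show eval y (f₀ (κ.symm i)) = 0
        cases κ.symm i with
        | none => exact hy2
        | some e => exact hy1 e }

end Pool.Agent.Lib.MP_776403_ag.SD.FR
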