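import Pool.Agent.Lib.MP_776403_ag.SD.FR.SpecZ
import Pool.Agent.Lib.MP_776403_ag.SD.UN.Main

/-!
# THEOREM FR, part W: the numbers, if the cones are large (adapted from `U/A.lean`)
-/

set_option autoImplicit false

open MvPolynomial

noncomputable section

namespace Pool.Agent.Lib.MP_776403_ag.SD.FR

open RAux RLAux U.AAux

theorem tW2 : S_W2 := by
  intro N c a D I q0 hc2 hB hN
  have hI := hB.prime
  have hIh := hB.hom
  have hnd := hB.nd
  have hS := hB.smooth
  have hdeg := hB.deg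
  have hca := hB.cb
  have hQP := hB.qp
  have hqD := hB.q1
  obtain ⟨x, hx, hx0⟩ := U.V3Aux.ex_pt hI hIh hnd
  have hne : ∃ y ∈ zer I, y ≠ 0 := ⟨x, hx, hx0⟩
  have hDpos : (0 : ℤ) < D := by
    obtain ⟨q0', -, hqD', hq1'⟩ := U.tQD U.tGp N c D I (by omega) hI hIh hS hne hdeg
    rw [← hqD']
    exact hq1'
  have hq1 : 0 < q0.eval 1 := by
    rw [hqD]
    exact hDpos
  obtain ⟨q, hq0, hDat', hqj⟩ := zSDatfin N c (by omega) I q0 hI hIh hS hne hQP hq1
  obtain ⟨y, hy⟩ := br c (N + 1 - 2 * c) q hDat'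
  -- the cone of lines
  obtain ⟨P, hPp, hPh, hIP, hPD, hst, hpl, hPa⟩ := hB.cone x hx hx0
  have hPD' : DimGe P (a + c + 2) := tMono _ P _ _ (by omega) hPD
  obtain ⟨d, hd1, hyd, hda⟩ := wOutfin N c a I (by omega) hI hIh hS x P hx0 hPp
    hPh hIP hPD' hst hpl hPa q hDat' (by rw [hq0]; exact hQP) hqj y hy
  have hdiv := ZAux.dvd_of_int q y d hyd hy
  have hac : c ≤ a := by
    calc c = ∑ _i : Fin c, 1 := by simp
      _ ≤ ∑ i, d i := Finset.sum_le_sum fun i _ => hd1 i
      _ = a := hda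
  have hsum : ∑ i, y i = (a : ℂ) := by
    rw [Finset.sum_congr rfl fun i _ => hyd i, ← hda]
    push_cast
    rfl
  -- all lines of large cones have degree `a`
  have hnum : ∀ J : Ideal (Sx N), J.IsPrime → IsHom J → I ≤ J →
      Gw (c - 1) (fun m => (Module.finrank ℂ (Lam I J c m) : ℤ) -
        (Module.finrank ℂ (gr J (m - a)) : ℤ)) :=
    zNumB N c a I hI hIh hS (by omega) (by omega) q (by rw [hq0]; exact hQP)
      (by rw [hq0]; exact ne_of_gt hq1) (hqj c le_rfl) (dvd_det q y hsum (hy c))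
  have hcone : ∀ P : Ideal (Sx N), P.IsPrime → IsHom P → DimGe P (c + 2) → ∀ x : Vx N,
      x ≠ 0 → (∀ z ∈ zer P, ∀ s t : ℂ, s • x + t • z ∈ zer I) →
      ∀ v ∈ zer P, LinearIndependent ℂ ![x, v] → DegEq I c a x v :=
    fun P hP hPh hD x hx0 hpl v hv hli => zJLBfin N c a I hI hIh hS (by omega) hnum P hP hPh
      hD x hx0 hpl v hv hli
  -- every line has degree at least `a`
  have hmin : ∀ x v : Vx N, IsLine I x v → ∀ᶠ m : ℕ in Filter.atTop,
      Module.finrank ℂ (Lam I (lineI x v) 1 m) + a ≤ c * (m + 1) := by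
    intro x v hl
    obtain ⟨b, hb⟩ := exists_deg c I hI hIh hS x v hl
    by_cases hba : b < a
    · exfalso
      obtain ⟨P, hPp, hPh, -, hPD, hvP, -, hpl⟩ := H.mLineE N c b I hI hIh hS x v hl (by
        unfold H.DegLe
        filter_upwards [hb] with m hm
        omega)
      have h1 := hcone P hPp hPh (tMono _ P _ _ (by omega) hPD) x (hl.1.ne_zero 0) hpl v hvP hl.1
      unfold DegEq at hb h1
      obtain ⟨m, hm1, hm2⟩ := (hb.and h1).exists
      omega
    · filter_upwards [hb] with m hm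
      omega
  -- the data
  have hU : U.UDat c a I d q :=
      { pos := by omega
        prime := hI
        hom := hIh
        nd := hnd
        smooth := hS
        one_le := hd1
        sum := hda
        large := hN
        qp := by rw [hq0]; exact hQP
        q1 := by rw [hq0]; exact hq1
        qj := hqj
        dvd := hdiv
        numW := zNumErr N c I d hI hIh hS (by omega) (by omega) q (by rw [hq0]; exact hQP)
          (by rw [hq0]; exact ne_of_gt hq1) hqj hdiv
        deg_ge := hmin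
        cone := hB.cone }
  have hd2 : ∀ i, 2 ≤ d i := by
    obtain ⟨J₀, hF, hJ⟩ := UN.exists_Fml hU hx hx0
    obtain ⟨L⟩ := eLoc N c I hS x hx hx0
    exact U.uTL N c a I J₀ d q x hU hF (tMono _ J₀ _ _ (by omega) hJ) ⟨L⟩
  refine ⟨d, hd2, hda, ?_⟩
  -- the product formula
  have h4 := SDV.pP1 c (N + 1 - 2 * c) q y hDat' hy
  rw [← tau_prod y d hyd, hq0] at h4
  have h5 : SDV.tau ((1 - Polynomial.X) ^ c * q0) - SDV.tau (∏ i, (1 - Polynomial.X ^ (d i))) =
      SDV.tau ((1 - Polynomial.X) ^ c * q0 - ∏ i, (1 - Polynomial.X ^ (d i))) := by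
    unfold SDV.tau
    rw [map_sub]
  rw [h5, ← SDV.pT1] at h4
  have h6 := prod_one d q0 (by omega) h4
  rw [hqD] at h6
  exact_mod_cast h6.symm

end Pool.Agent.Lib.MP_776403_ag.SD.FR
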