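import Pool.Agent.Lib.MP_776403_ag.SD.FR.SpecW
import Pool.Agent.Lib.MP_776403_ag.SD.J.Fin

/-!
# THEOREM FR, part W: the determinant of the conormal sheaf on a cone of lines (module Wc, helper55)

Adapted from `jVb` in `SD/J/Asm.lean`, without numerical hypotheses.
-/

set_option autoImplicit false

open MvPolynomial

noncomputable section

namespace Pool.Agent.Lib.MP_776403_ag.SD.FR

open JAsmAux JLamAux in
/-- `Λ^c N^*` on a cone of lines and the degree of the lines. -/
private theorem wcAux : S_Loc → S_Good → S_Hom → S_JLin → S_JCst → S_JBig → S_JInj → S_JHF →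
    S_JLam → S_JFit → S_JRev → S_JTr → S_JSur → S_Wc := by
  intro hLoc hGood hHom hLin hCst hBig hInj hHF hLam hFit hRev hTr hSur N c b I J x hc
    hI hIh hS hJ hJh hIJ hxI hx0 hJv hline v hv hind hdeg
  obtain ⟨i0, hi0⟩ : ∃ i, x i ≠ 0 := by
    by_contra h
    push Not at h
    exact hx0 (funext h)
  obtain ⟨a, hax⟩ : ∃ a : Vx N, ∑ i, a i * x i = 1 := by
    refine ⟨Pi.single i0 (x i0)⁻¹, ?_⟩
    rw [Finset.sum_eq_single i0]
    · rw [Pi.single_eq_same, inv_mul_cancel₀ hi0]
    · intro j _ hj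
      rw [Pi.single_eq_of_ne hj, zero_mul]
    · intro h
      exact absurd (Finset.mem_univ i0) h
  obtain ⟨L⟩ := hLoc N c I hS x hxI hx0
  obtain ⟨μ, hμ⟩ := hGood N c I x v L
  have hcone : ∀ z ∈ zer J, ∀ s t : ℂ, s • x + t • z ∈ zer J := by
    intro z hz s t
    have := hJv _ (JInjAux.zer_smul hJh hz t) s
    rwa [add_comm] at this
  have hxJ : x ∈ zer J := by
    have := hJv _ (eval_zero_mem hJh hv) 1
    rwa [one_smul, zero_add] at this
  set v' := v + μ • x with hv'
  have hv'J : v' ∈ zer J := hJv v hv μ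
  have hind' : LinearIndependent ℂ ![x, v'] := by
    rw [LinearIndependent.pair_iff] at hind ⊢
    intro s t hst
    have e : s • x + t • v' = (s + t * μ) • x + t • v := by rw [hv']; module
    rw [e] at hst
    obtain ⟨h1, h2⟩ := hind _ _ hst
    refine ⟨?_, h2⟩
    rw [h2, zero_mul, add_zero] at h1
    exact h1
  have hdth : L.dt.IsHomogeneous L.dg := (hHom N c I x v' L).1
  have hdtx : eval x L.dt ≠ 0 := L.detx
  set A := idB I J L.B with hA
  set A' := idF J L.F with hA'
  have hJA : J ≤ A := le_sup_left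
  have hAh : IsHom A := idB_hom hIh hJh L.B
  have hDA : L.dt ∈ A := Ideal.mem_sup_right (Ideal.subset_span ⟨L.F, L.memF, rfl⟩)
  have hDA' : L.dt ∈ A' := Ideal.mem_sup_right (Ideal.subset_span ⟨L.B, rfl⟩)
  have hindz : ∀ z : Vx N, z ≠ 0 → ∑ i, a i * z i = 0 → LinearIndependent ℂ ![x, z] := by
    intro z hz0 hzl
    rw [LinearIndependent.pair_iff]
    intro s t hst
    have h1 : ∑ i, a i * (s • x + t • z) i = s := by
      have : ∀ i, a i * (s • x + t • z) i = s * (a i * x i) + t * (a i * z i) := fun i => by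
        rw [Pi.add_apply, Pi.smul_apply, Pi.smul_apply, smul_eq_mul, smul_eq_mul]; ring
      rw [Finset.sum_congr rfl fun i _ => this i, Finset.sum_add_distrib, ← Finset.mul_sum,
        ← Finset.mul_sum, hax, hzl, mul_one, mul_zero, add_zero]
    rw [hst] at h1
    have h2 : s = 0 := by
      rw [← h1]
      exact Finset.sum_eq_zero fun i _ => by rw [Pi.zero_apply, mul_zero]
    rw [h2, zero_smul, zero_add] at hst
    exact ⟨h2, (smul_eq_zero.mp hst).resolve_right hz0⟩
  have hsum : ∀ z ∈ zer J, z ≠ 0 → ∑ i, a i * z i = 0 → col A x z + col A' x z = L.dg :=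
    fun z hz hz0 hzl => hLin N c I J hI hIh hS hIJ x z (hindz z hz0 hzl) (hcone z hz) L
  -- the point `v₀`
  obtain ⟨hv0J, hv0l⟩ := JInjAux.zer_proj hax hJv hv'J
  set v0 := v' - (∑ i, a i * v' i) • x with hv0
  have hv00 : v0 ≠ 0 := by
    intro h
    rw [LinearIndependent.pair_iff] at hind'
    have := hind' (-(∑ i, a i * v' i)) 1 (by
      rw [← h, hv0]
      module)
    exact one_ne_zero this.2
  set δ := col A x v0 with hδ
  have hconst : ∀ z ∈ zer J, z ≠ 0 → ∑ i, a i * z i = 0 → col A x z = δ := by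
    intro z hz hz0 hzl
    exact le_antisymm
      (hCst N a x hax J A A' hJ hJh hJv L.dt L.dg hDA hDA' hdth hdtx hsum v0 hv0J hv00 hv0l z hz
        hz0 hzl)
      (hCst N a x hax J A A' hJ hJh hJv L.dt L.dg hDA hDA' hdth hdtx hsum z hz hz0 hzl v0 hv0J
        hv00 hv0l)
  have hbig := hBig N a x hax J A hJ hJh hJv hAh hJA L.dt L.dg hDA hdth hdtx δ
    (fun z hz hz0 hzl => (hconst z hz hz0 hzl).le)
  have hinj := hInj N a x hax J A hJ hJh hJv L.dt L.dg hDA hdth hdtx ⟨v0, hv0J, hv00, hv0l⟩ δ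
    (fun z hz hz0 hzl => (hconst z hz hz0 hzl).ge)
  have hHF' := hHF N a x hax J A hJ hJh hxJ hJv hJA δ hbig hinj
  -- the line
  have hD0 : lin x v' L.dt ≠ 0 := by
    intro h
    have h1 := lin_eval x v' L.dt 0
    rw [h, Polynomial.eval_zero, zero_smul, add_zero] at h1
    exact hdtx h1.symm
  have hfit := (hFit c {e | ∃ F ∈ I, e = fun b => lin x v' (pderiv (L.B b) F)}
    (lin x v' L.dt) hD0 (ColAux.D_mul_mem L v')).2
  rw [fit_eq (J := J) L v' (hcone v' hv'J)] at hfit
  have hr1 := hRev N A hAh x v' L.dt L.dg hDA hdth hdtx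
  have hr2 := hRev N A hAh v' x L.dt L.dg hDA hdth hμ
  have hcolv : Module.finrank ℂ (Polynomial ℂ ⧸ A.map (lin x v')) = δ := by
    have e1 : col A x v' = δ := by
      have e2 : v' = v0 + (∑ i, a i * v' i) • x := by rw [hv0]; module
      rw [e2, hTr]
    have e3 : Module.finrank ℂ (Polynomial ℂ ⧸ A.map (lin v' x)) = col A x v' := rfl
    have e4 : col A v' x = Module.finrank ℂ (Polynomial ℂ ⧸ A.map (lin x v')) := rfl
    rw [e3, e4, e1] at hr2
    rw [e1] at hr1
    exact le_antisymm hr1 hr2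
  have hlineI : IsLine I x v' := ⟨hind', fun s t => by
    have := hcone v' hv'J s t
    exact fun F hF => this F (hIJ hF)⟩
  have e5 : Module.finrank ℂ ((Fin c → Polynomial ℂ) ⧸ L.E v') = δ := by
    rw [← hcolv, ← hfit]
    rfl
  have hlin : ∀ᶠ m : ℕ in Filter.atTop,
      Module.finrank ℂ (Lam I (lineI x v') 1 m) + δ = c * m := by
    filter_upwards [hSur N c I hI hIh hS x v' hlineI L hμ] with m hm
    rw [e5] at hm
    omega
  have hcb : b = c + δ := by
    have hdeg' : ∀ᶠ m : ℕ in Filter.atTop,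
        Module.finrank ℂ (Lam I (lineI x v') 1 m) + b = c * (m + 1) := by
      rw [hv', lineI_add x v μ]
      exact hdeg
    obtain ⟨m, h1, h2⟩ := (hlin.and hdeg').exists
    have e6 : c * (m + 1) = c * m + c := by ring
    omega
  refine ⟨by omega, ?_⟩
  filter_upwards [Filter.eventually_ge_atTop c, (Filter.tendsto_sub_atTop_nat c).eventually hHF']
    with m hm1 hm2
  rw [hLam N c I J hI hIh hS hJ hJh hIJ x hxJ L m hm1, hm2, hcb, Nat.sub_sub]

/-- (Wc) `Λ^c N^*` on a cone of lines, no numerical hypothesis. -/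
theorem tWc : S_Wc :=
  wcAux eLoc (eGood (eHom eLinB)) (eHom eLinB) (jLin jPid (eHom eLinB) (jMin eCN))
    (jCst jPid tNull (jDec tNull) (jCr jPid (jDec tNull)))
    (jBig (jDec tNull) tNull tD6p (jCr jPid (jDec tNull)))
    (jInj jPid tNull (jDec tNull)) (jHF (jDec tNull) tNull) (jLam tNull eCN) (jFit jPid)
    (jRev jPid) jTr (jSur (eHom eLinB) (eCrL eLinB) (eLineI eLinB))

end Pool.Agent.Lib.MP_776403_ag.SD.FR
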