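import Pool.Agent.Lib.MP_776403_ag.SD.FR.SpecW
import Pool.Agent.Lib.MP_776403_ag.SD.Z.MainK
import Pool.Agent.Lib.MP_776403_ag.SD.Z.MainW
import Pool.Agent.Lib.MP_776403_ag.SD.M.FinB

/-!
# THEOREM FR, (Wd): from a cone to `X`
-/

set_option autoImplicit false

noncomputable section

namespace Pool.Agent.Lib.MP_776403_ag.SD.FR

open Polynomial BrAux SFEAux

theorem tWd : S_Wd := by
  intro N c b δ I P hc hI hIh hIs hP hPh hle hdim hL q0 pc hq0 hpc
  have gvA : GV (AF N) := tKGV.1 N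
  have gvL : GV (VL I c) := (tKGV.2.2.1 N I c).1
  have hgr : ∀ K : Ideal (Sx N), hV K (AF N) = fun k => Module.finrank ℂ (gr K k) := by
    intro K
    funext k
    exact (zKPV.1 N Unit Unit K (AF N) (AF N) gvA k).2.2.2
  obtain ⟨c', h, hc', hh, hpos⟩ := zWQP N δ P hP hPh hdim
  obtain ⟨Q, hQ⟩ := zKHV N _ P (VL I c) gvL
  obtain ⟨p, hp⟩ := zKI N c (Fin c → Fin (N + 1)) Unit I P hI hIh hIs hP hPh hle (VL I c) (AF N)
    gvL gvA (zKLF N c I P hI hIh hIs hle c)
  have hPV : hV P (PV (VL I c) (AF N)) = hV P (VL I c) := by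
    funext k
    exact (zKPV.1 N (Fin c → Fin (N + 1)) Unit P (VL I c) (AF N) gvL k).2.2.1
  rw [hPV, hgr P] at hp
  unfold QP at hq0 hpc hh
  obtain ⟨A, hA⟩ : ∃ A : ℤ[X], A = (1 - X) ^ c * pc := ⟨_, rfl⟩
  obtain ⟨B, hB⟩ : ∃ B : ℤ[X], B = (1 - X) ^ c * q0 := ⟨_, rfl⟩
  obtain ⟨G, hG⟩ : ∃ G : ℤ[X], G = (1 - X) ^ c' * h := ⟨_, rfl⟩
  rw [← hA] at hpc
  rw [← hB] at hq0
  rw [← hG] at hh
  -- the self-intersection formula for polynomials
  have hpoly : A * G - B * Q = (1 - X) ^ (N + 1) * p := by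
    apply Polynomial.coe_injective ℤ
    rw [Polynomial.coe_sub, Polynomial.coe_mul, Polynomial.coe_mul, Polynomial.coe_mul, om_coe,
      ← hp, ← hpc, ← hh, ← hq0, ← hQ]
    ring
  -- the polynomial `r`
  obtain ⟨m0, hm0⟩ := Filter.eventually_atTop.1 hL
  obtain ⟨r, hr⟩ := poly_of_ev (PowerSeries.X ^ c * ps (hV P (VL I c)) -
    PowerSeries.X ^ b * ps (fun k => Module.finrank ℂ (gr P k))) (max m0 (max b c)) (by
      intro m hm
      have h1 : m0 ≤ m := (le_max_left _ _).trans hm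
      have h2 : b ≤ m := (le_max_left _ _).trans ((le_max_right _ _).trans hm)
      have h3 : c ≤ m := (le_max_right _ _).trans ((le_max_right _ _).trans hm)
      rw [map_sub, coeff_pow_mul _ _ _ h3, coeff_pow_mul _ _ _ h2]
      have h6 : PowerSeries.coeff (m - c) (ps (hV P (VL I c))) =
          (Module.finrank ℂ (Lam I P c m) : ℤ) := by
        unfold ps
        rw [PowerSeries.coeff_mk]
        have h7 := (tKVL N I P c).1 (m - c)
        rw [Nat.sub_add_cancel h3] at h7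
        rw [h7]
        rfl
      rw [h6, hm0 m h1]
      unfold ps
      rw [PowerSeries.coeff_mk, sub_self])
  have hQG : X ^ c * Q - X ^ b * G = (1 - X) ^ (N + 1) * r := by
    apply Polynomial.coe_injective ℤ
    rw [Polynomial.coe_sub, Polynomial.coe_mul, Polynomial.coe_mul, Polynomial.coe_mul, om_coe,
      Polynomial.coe_pow, Polynomial.coe_pow, Polynomial.coe_X, ← hr, ← hh, ← hQ]
    ring
  have h1 : (X ^ c * A - X ^ b * B) * G = (1 - X) ^ (N + 1) * (X ^ c * p + B * r) := by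
    calc (X ^ c * A - X ^ b * B) * G = X ^ c * (A * G - B * Q) + B * (X ^ c * Q - X ^ b * G) := by
          ring
      _ = X ^ c * ((1 - X) ^ (N + 1) * p) + B * ((1 - X) ^ (N + 1) * r) := by rw [hpoly, hQG]
      _ = _ := by ring
  by_cases hcc : c + c' ≤ N + 1
  · have h2 : h * (X ^ c * pc - X ^ b * q0) = (1 - X) ^ (N + 1 - (c + c')) *
        (X ^ c * p + B * r) := by
      refine mul_left_cancel₀ (om_ne (c + c')) ?_
      rw [← mul_assoc ((1 - X : ℤ[X]) ^ (c + c')) _ (X ^ c * p + B * r), ← pow_add,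
        Nat.add_sub_cancel' hcc, ← h1, hA, hB, hG, pow_add]
      ring
    have h3 : (1 - X : ℤ[X]) ^ (N + 1 - (c + c')) ∣ X ^ c * pc - X ^ b * q0 :=
      dvd_of_unit _ h _ hpos.ne' ⟨_, h2⟩
    exact (pow_dvd_pow _ (by omega)).trans h3
  · have h2 : δ + 1 - c = 0 := by omega
    rw [h2, pow_zero]
    exact one_dvd _

end Pool.Agent.Lib.MP_776403_ag.SD.FR
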