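import Pool.Agent.Lib.MP_776403_ag.SD.FR.SpecW
import Pool.Agent.Lib.MP_776403_ag.SD.Z.Main

/-!
# THEOREM FR, part W: the trace formula for the exterior algebra of the conormal bundle
-/

set_option autoImplicit false

open MvPolynomial TensorProduct

noncomputable section

namespace Pool.Agent.Lib.MP_776403_ag.SD.FR

open SFEAux in
theorem tWp : S_Wp := by
  intro N c hc I h hI hIh hS hQ p hp
  have hSEul : S_SEul := kSEul zSRi zSSg zKEuT (kSTr kSTB kSPerm tKGV) kSwT zKGF
  obtain ⟨gAF, gPV, gVL, _⟩ := tKGV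
  obtain ⟨kp1, kp2⟩ := zKPV
  have hall : ∀ i, ∃ r, QP N c (hV I (VL I i)) r := fun i =>
    zSDv N c hc I h hQ _ (VL I i) (gVL N I i).1
  choose r hr using hall
  have hrp : ∀ i, i ≤ c → r i = p i := fun i hi =>
    qz_uniq (N := N) (c := c) (F := ps (hV I (VL I i))) (hr i) (hp i hi)
  have hAF : hV I (AF N) = fun k => Module.finrank ℂ (gr I k) := by
    funext k
    exact (kp1 N Unit Unit I (AF N) (AF N) (gAF N) k).2.2.2
  have k5 : (1 - Polynomial.X : Polynomial ℤ) ^ (N + 1 - 2 * c) ∣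
      (∑ i ∈ Finset.range (N + 2), Polynomial.X ^ i * (r i - 0)) -
        (1 + Polynomial.X) ^ c * h.comp (Polynomial.X ^ 2) := by
    obtain ⟨m0, H⟩ := hSEul N c Unit I hIh hS (AF N) (gAF N) (lfr_AF I I)
    refine cong1 hc (fun i => hV I (PV (SV 1 (AF N)) (VT I i)))
      (fun i => hV I (PV (SV (-1) (AF N)) (VT I i))) (hV I (AF N)) r (fun _ => 0) h
      (fun i => ?_) (fun i => ?_) ?_ m0 H
    · have e1 : hV I (PV (SV 1 (AF N)) (VT I i)) = hV I (VL I i) := by
        funext k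
        rw [SVp_AF, (kp1 N Unit _ I (AF N) (VT I i) (gAF N) k).1,
          (kp1 N _ Unit I (VT I i) (AF N) (gVL N I i).2 k).2.1, (kp2 N Unit I I (AF N) i k).2]
      change QP N c (hV I (PV (SV 1 (AF N)) (VT I i))) (r i)
      rw [e1]
      exact hr i
    · have e1 : hV I (PV (SV (-1) (AF N)) (VT I i)) = fun _ => 0 := by
        funext k
        unfold hV
        rw [SVm_AF, PV_bot, Submodule.map_bot]
        exact finrank_bot ℂ _
      change QP N c (hV I (PV (SV (-1) (AF N)) (VT I i))) 0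
      rw [e1]
      unfold QP ps
      rw [mul_zero, Polynomial.coe_zero]
      have : (PowerSeries.mk fun _ => ((0 : ℕ) : ℤ)) = 0 := by
        ext n
        simp
      rw [this, mul_zero]
    · rw [hAF]
      exact hQ
  have k7 : ∀ i, c < i → (1 - Polynomial.X : Polynomial ℤ) ^ (N + 1 - 2 * c) ∣ r i := by
    intro i hi
    obtain ⟨k0, hk0⟩ := zKTop N c I hI hIh hS i hi
    exact cong2 hc _ _ (hr i) k0 fun k hk => (hk0 k hk).1
  have hle : c + 1 ≤ N + 2 := by omega
  have hsplit : ∑ i ∈ Finset.range (N + 2), Polynomial.X ^ i * (r i - 0) =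
      (∑ i ∈ Finset.range (c + 1), Polynomial.X ^ i * p i) +
        ∑ i ∈ Finset.Ico (c + 1) (N + 2), Polynomial.X ^ i * r i := by
    rw [← Finset.sum_range_add_sum_Ico _ hle]
    congr 1
    · refine Finset.sum_congr rfl fun i hi => ?_
      rw [sub_zero, hrp i (by rw [Finset.mem_range] at hi; omega)]
    · refine Finset.sum_congr rfl fun i _ => ?_
      rw [sub_zero]
  have k8 : (1 - Polynomial.X : Polynomial ℤ) ^ (N + 1 - 2 * c) ∣
      ∑ i ∈ Finset.Ico (c + 1) (N + 2), Polynomial.X ^ i * r i :=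
    Finset.dvd_sum fun i hi => Dvd.dvd.mul_left (k7 i (by rw [Finset.mem_Ico] at hi; omega)) _
  rw [hsplit] at k5
  have e : (∑ j ∈ Finset.range (c + 1), Polynomial.X ^ j * p j) -
        (1 + Polynomial.X) ^ c * h.comp (Polynomial.X ^ 2) =
      ((∑ i ∈ Finset.range (c + 1), Polynomial.X ^ i * p i) +
        (∑ i ∈ Finset.Ico (c + 1) (N + 2), Polynomial.X ^ i * r i) -
        (1 + Polynomial.X) ^ c * h.comp (Polynomial.X ^ 2)) -
        ∑ i ∈ Finset.Ico (c + 1) (N + 2), Polynomial.X ^ i * r i := by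
    ring
  rw [e]
  exact dvd_sub k5 k8

end Pool.Agent.Lib.MP_776403_ag.SD.FR
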