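import Pool.Agent.Lib.MP_776403_ag.SD.FR.SpecW

/-!
# Module Wq: arithmetic of the first order data
-/

set_option autoImplicit false

open MvPolynomial

noncomputable section

namespace Pool.Agent.Lib.MP_776403_ag.SD.FR

namespace WqAux

open PowerSeries

lemma c0_mul (F G : PowerSeries ℂ) : coeff 0 (F * G) = coeff 0 F * coeff 0 G := by
  rw [PowerSeries.coeff_mul]
  simp

lemma c1_mul (F G : PowerSeries ℂ) :
    coeff 1 (F * G) = coeff 0 F * coeff 1 G + coeff 1 F * coeff 0 G := by
  rw [PowerSeries.coeff_mul, show Finset.HasAntidiagonal.antidiagonal 1 = {(0, 1), (1, 0)} from rfl]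
  rw [Finset.sum_pair (by decide)]

lemma c0_eu (x : ℂ) : coeff 0 (SDV.eu x) = 1 := by
  unfold SDV.eu
  rw [PowerSeries.coeff_rescale, PowerSeries.coeff_exp]
  simp

lemma c1_eu (x : ℂ) : coeff 1 (SDV.eu x) = x := by
  unfold SDV.eu
  rw [PowerSeries.coeff_rescale, PowerSeries.coeff_exp]
  simp

lemma c_pow (n : ℕ) : coeff 0 (SDV.eu (-1) ^ n) = 1 ∧ coeff 1 (SDV.eu (-1) ^ n) = -(n : ℂ) := by
  induction n with
  | zero => simp [PowerSeries.coeff_one]
  | succ n ih =>
    rw [pow_succ, c0_mul, c1_mul, ih.1, ih.2, c0_eu, c1_eu]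
    refine ⟨by ring, ?_⟩
    push_cast
    ring

lemma c_tau (F : Polynomial ℤ) : coeff 0 (SDV.tau F) = ((F.eval 1 : ℤ) : ℂ) ∧
    coeff 1 (SDV.tau F) = -(((Polynomial.derivative F).eval 1 : ℤ) : ℂ) := by
  unfold SDV.tau
  induction F using Polynomial.induction_on' with
  | add p q hp hq =>
    rw [map_add, map_add, map_add, hp.1, hp.2, hq.1, hq.2, Polynomial.eval_add,
      Polynomial.derivative_add, Polynomial.eval_add]
    push_cast
    exact ⟨rfl, by ring⟩
  | monomial n a =>
    rw [Polynomial.aeval_monomial, Polynomial.eval_monomial, Polynomial.derivative_monomial,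
      Polynomial.eval_monomial, c0_mul, c1_mul, (c_pow n).1, (c_pow n).2]
    have h0 : coeff 0 (algebraMap ℤ (PowerSeries ℂ) a) = (a : ℂ) := by simp
    have h1 : coeff 1 (algebraMap ℤ (PowerSeries ℂ) a) = 0 := by
      have : algebraMap ℤ (PowerSeries ℂ) a = PowerSeries.C (a : ℂ) := by simp
      rw [this, PowerSeries.coeff_C]
      simp
    rw [h0, h1]
    push_cast
    constructor <;> ring

/-- divisibility by `(1 - X)^2` -/
lemma dvd2 {F : Polynomial ℤ} (h : (1 - Polynomial.X : Polynomial ℤ) ^ 2 ∣ F) :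
    (Polynomial.derivative F).eval 1 = 0 := by
  obtain ⟨G, rfl⟩ := h
  simp [Polynomial.derivative_pow]

lemma sum_esx {c : ℕ} (y : Fin c → ℂ) : ∑ j ∈ Finset.range (c + 1), SDV.esx y j =
    ∑ A : Finset (Fin c), SDV.eu (-∑ i ∈ A, y i) := by
  have h := Finset.sum_powerset (s := (Finset.univ : Finset (Fin c)))
    (f := fun A => SDV.eu (-∑ i ∈ A, y i))
  rw [Finset.powerset_univ, Finset.card_univ, Fintype.card_fin] at h
  rw [h]
  rfl

lemma sum_sub {c : ℕ} (y : Fin c → ℂ) :
    2 * ∑ A : Finset (Fin c), ∑ i ∈ A, y i = 2 ^ c * ∑ i, y i := by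
  have h1 : ∑ A : Finset (Fin c), ∑ i ∈ A, y i = ∑ A : Finset (Fin c), ∑ i ∈ Aᶜ, y i := by
    exact (Fintype.sum_equiv (Function.Involutive.toPerm compl compl_involutive)
      (fun A : Finset (Fin c) => ∑ i ∈ Aᶜ, y i) (fun A => ∑ i ∈ A, y i) (fun A => rfl)).symm
  have h2 : ∑ A : Finset (Fin c), (∑ i ∈ A, y i + ∑ i ∈ Aᶜ, y i) = 2 ^ c * ∑ i, y i := by
    simp_rw [Finset.sum_add_sum_compl]
    rw [Finset.sum_const, Finset.card_univ, Fintype.card_finset, Fintype.card_fin, nsmul_eq_mul]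
    push_cast
    rfl
  rw [Finset.sum_add_distrib, ← h1] at h2
  rw [two_mul, h2]

end WqAux

open WqAux in
theorem tWq : S_Wq := by
  intro c m b q y hc hm hD h1 h2 h3
  set D : ℤ := (q 0).eval 1 with hDdef
  set a : ℤ := (Polynomial.derivative (q 0)).eval 1 with hadef
  have hc0 : ∀ j k, k < 2 → PowerSeries.coeff k (SDV.tau (q j)) =
      PowerSeries.coeff k (SDV.esx y j * SDV.tau (q 0)) := by
    intro j k hk
    have h := PowerSeries.X_pow_dvd_iff.mp (h1 j) k (by omega)
    rw [map_sub, sub_eq_zero] at h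
    exact h
  have hj : ∀ j, -(((Polynomial.derivative (q j)).eval 1 : ℤ) : ℂ) =
      PowerSeries.coeff 0 (SDV.esx y j) * -(a : ℂ) +
        PowerSeries.coeff 1 (SDV.esx y j) * (D : ℂ) := by
    intro j
    have h := hc0 j 1 (by norm_num)
    rw [(c_tau (q j)).2, c1_mul, (c_tau (q 0)).1, (c_tau (q 0)).2] at h
    exact h
  have hD0 : (D : ℂ) ≠ 0 := by exact_mod_cast hD.ne'
  -- the last term
  have hec : SDV.esx y c = SDV.eu (-∑ i, y i) := by
    unfold SDV.esx
    have : (Finset.univ : Finset (Fin c)).powersetCard c = {Finset.univ} := by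
      have h := Finset.powersetCard_self (Finset.univ : Finset (Fin c))
      rwa [Finset.card_univ, Fintype.card_fin] at h
    rw [this, Finset.sum_singleton]
  have e1 := hj c
  rw [hec, c0_eu, c1_eu] at e1
  have e2 := dvd2 h2
  rw [Polynomial.derivative_sub, Polynomial.eval_sub, Polynomial.derivative_mul,
    Polynomial.eval_add, Polynomial.eval_mul, Polynomial.eval_mul, Polynomial.derivative_X_pow] at e2
  simp only [Polynomial.eval_mul, Polynomial.eval_pow, Polynomial.eval_X, one_pow, mul_one,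
    one_mul, ← hDdef, ← hadef] at e2
  have e2' : (((Polynomial.derivative (q c)).eval 1 : ℤ) : ℂ) = (b : ℂ) * D + a := by
    have : (Polynomial.derivative (q c)).eval 1 = (b : ℤ) * D + a := by
      have h5 : Polynomial.eval 1 (Polynomial.C ((b : ℕ) : ℤ)) = (b : ℤ) := by simp
      rw [h5] at e2
      linarith
    rw [this]
    push_cast
    ring
  have hs : ∑ i, y i = (b : ℂ) := by
    rw [e2'] at e1
    have : (∑ i, y i) * (D : ℂ) = (b : ℂ) * D := by linear_combination e1
    exact mul_right_cancel₀ hD0 this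
  -- the sum
  have e3 : -(((∑ j ∈ Finset.range (c + 1), (Polynomial.derivative (q j)).eval 1 : ℤ)) : ℂ) =
      2 ^ c * -(a : ℂ) + -(∑ A : Finset (Fin c), ∑ i ∈ A, y i) * (D : ℂ) := by
    have h5 : ∑ j ∈ Finset.range (c + 1), -(((Polynomial.derivative (q j)).eval 1 : ℤ) : ℂ) =
        ∑ j ∈ Finset.range (c + 1), (PowerSeries.coeff 0 (SDV.esx y j) * -(a : ℂ) +
        PowerSeries.coeff 1 (SDV.esx y j) * (D : ℂ)) := Finset.sum_congr rfl fun j _ => hj j
    rw [Finset.sum_neg_distrib, Finset.sum_add_distrib, ← Finset.sum_mul, ← Finset.sum_mul,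
      ← map_sum, ← map_sum, sum_esx, map_sum, map_sum] at h5
    simp only [c0_eu, c1_eu] at h5
    rw [Finset.sum_const, Finset.card_univ, Fintype.card_finset, Fintype.card_fin, nsmul_eq_mul,
      Finset.sum_neg_distrib] at h5
    push_cast at h5 ⊢
    rw [h5]
    ring
  have e4 := dvd2 h3
  rw [Polynomial.derivative_sub, Polynomial.eval_sub, Polynomial.derivative_mul,
    Polynomial.derivative_comp, Polynomial.derivative_pow, Polynomial.derivative_sum] at e4
  simp only [Polynomial.eval_add, Polynomial.eval_mul, Polynomial.eval_pow, Polynomial.eval_X,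
    Polynomial.eval_one, Polynomial.eval_comp, Polynomial.derivative_add, Polynomial.derivative_one,
    Polynomial.derivative_X, Polynomial.derivative_X_pow, Polynomial.eval_finsetSum, one_pow,
    mul_one, ← hDdef, ← hadef, Polynomial.eval_C, zero_add] at e4
  obtain ⟨k, rfl⟩ : ∃ k, c = k + 1 := ⟨c - 1, by omega⟩
  have h6 := sum_sub y
  rw [hs] at h6
  have e5 : ((∑ j ∈ Finset.range (k + 1 + 1), (Polynomial.derivative (q j)).eval 1 : ℤ)) =
      2 ^ (k + 1) * a + 2 ^ k * b * D := by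
    have h7 : (((∑ j ∈ Finset.range (k + 1 + 1), (Polynomial.derivative (q j)).eval 1 : ℤ)) : ℂ) =
        ((2 ^ (k + 1) * a + 2 ^ k * b * D : ℤ) : ℂ) := by
      have h8 : ∑ A : Finset (Fin (k + 1)), ∑ i ∈ A, y i = 2 ^ k * (b : ℂ) := by
        have h9 : (2 : ℂ) * (∑ A : Finset (Fin (k + 1)), ∑ i ∈ A, y i) = 2 * (2 ^ k * (b : ℂ)) := by
          rw [h6, pow_succ]; ring
        exact mul_left_cancel₀ two_ne_zero h9
      rw [h8] at e3
      push_cast at e3 ⊢
      linear_combination -e3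
    exact_mod_cast h7
  rw [e5] at e4
  have hk : (0 : ℤ) < 2 ^ k := by positivity
  have e6 : (2 : ℤ) ^ k * (2 * a) = 2 ^ k * (D * ((b : ℤ) - ((k + 1 : ℕ) : ℤ))) := by
    norm_num at e4
    rw [pow_succ] at e4
    push_cast
    linear_combination -e4
  exact mul_left_cancel₀ hk.ne' e6

end Pool.Agent.Lib.MP_776403_ag.SD.FR

end
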