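import Pool.Agent.Lib.MP_776403_ag.SD.UN.Main
import Pool.Agent.Lib.MP_776403_ag.SD.UK.Main
import Pool.Agent.Lib.MP_776403_ag.SD.FR.A12
import Pool.Agent.Lib.MP_776403_ag.SD.FR.A3
import Pool.Agent.Lib.MP_776403_ag.SD.FR.A45
import Pool.Agent.Lib.MP_776403_ag.SD.FR.As
import Pool.Agent.Lib.MP_776403_ag.SD.FR.DG
import Pool.Agent.Lib.MP_776403_ag.SD.FR.FCz
import Pool.Agent.Lib.MP_776403_ag.SD.FR.FE
import Pool.Agent.Lib.MP_776403_ag.SD.FR.B2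
import Pool.Agent.Lib.MP_776403_ag.SD.FR.Wq
import Pool.Agent.Lib.MP_776403_ag.SD.FR.MS
import Pool.Agent.Lib.MP_776403_ag.SD.FR.R4
import Pool.Agent.Lib.MP_776403_ag.SD.FR.Fin
import Pool.Agent.Lib.MP_776403_ag.SD.FR.L1
import Pool.Agent.Lib.MP_776403_ag.SD.FR.L2
import Pool.Agent.Lib.MP_776403_ag.SD.FR.L3
import Pool.Agent.Lib.MP_776403_ag.SD.FR.L4
import Pool.Agent.Lib.MP_776403_ag.SD.FR.L5
import Pool.Agent.Lib.MP_776403_ag.SD.FR.L6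
import Pool.Agent.Lib.MP_776403_ag.SD.FR.LB
import Pool.Agent.Lib.MP_776403_ag.SD.FR.LD
import Pool.Agent.Lib.MP_776403_ag.SD.FR.MSs
import Pool.Agent.Lib.MP_776403_ag.SD.FR.MT
import Pool.Agent.Lib.MP_776403_ag.SD.FR.R2
import Pool.Agent.Lib.MP_776403_ag.SD.FR.R3
import Pool.Agent.Lib.MP_776403_ag.SD.FR.R5
import Pool.Agent.Lib.MP_776403_ag.SD.FR.R7
import Pool.Agent.Lib.MP_776403_ag.SD.FR.U6z
import Pool.Agent.Lib.MP_776403_ag.SD.FR.W1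
import Pool.Agent.Lib.MP_776403_ag.SD.FR.W2
import Pool.Agent.Lib.MP_776403_ag.SD.FR.Wc
import Pool.Agent.Lib.MP_776403_ag.SD.FR.Wd
import Pool.Agent.Lib.MP_776403_ag.SD.FR.Wp

/-!
# THEOREM FR: closed forms and the cases with `c ≥ 3`, except `deg X = c + 2`, `n = c + 3`
-/

set_option autoImplicit false

open MvPolynomial

noncomputable section

namespace Pool.Agent.Lib.MP_776403_ag.SD.FR

theorem cW1a : S_W1a := tW1a (U.tCov (U.tRank U.tGro)) (U.tQD U.tGp) (U.tPa U.tGro) tWc tWd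

theorem cW1 : S_W1 := tW1 cW1a

theorem cW1r : S_W1r := tW1r (U.tQD U.tGp) tWc tWd tWp tWq

theorem cDG : S_DG := tDG UK.uCasC cW1r

theorem cMSs : S_MSs := tMSs U.tFB U.uCut

theorem cMS : S_MS := tMS cMSs

theorem cB2 : S_B2 := tB2 U.uCut U.tVL U.uZak

theorem cMT : S_MT := tMT cB2 cMS U.uVT

theorem cL3 : S_L3 := tL3 tL1 (tL2 tL1)

theorem cLB : S_LB := tLB (tL4 cL3) (tL6 tL5)

theorem cR2 : S_R2 := tR2 cL3 tL5

theorem cR3 : S_R3 := tR3 (tL2 tL1) cL3 cR2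

theorem cR5 : S_R5 := tR5 tR4

theorem cR7 : S_R7 := tR7 cR3 cR5

theorem cAs : S_As := tAs cMT tFE cR7 (tU6z tFCz) cLB tLD

theorem cFRc : S_FRc := tFRc cW1 tW2 cMT tA1 tA2 tA3 tA4 tA5 cAs

/-- THEOREM FR. -/
theorem cFR : S_FR := tFR cFRc cDG

/-- All cases with `c ≥ 3`, except `deg X = c + 2`, `n = c + 3`. -/
theorem q1c3 : ∀ (N n c D : ℕ) (I : Ideal (Sx N)), N = n + c → 3 ≤ c →
    D + 1 ≤ n → I.IsPrime → IsHom I → (∀ F ∈ I, F.IsHomogeneous 1 → F = 0) → Smooth I c →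
    U.HasDeg I n D → (D = c + 2 ∧ n = c + 3) ∨
    ∃ (d : Fin c → ℕ) (G : Fin c → Sx N), (∀ i, 2 ≤ d i ∧ (G i).IsHomogeneous (d i)) ∧
      I = Ideal.span (Set.range G) := by
  intro N n c D I hN hc hn hI hIh hnd hX hD
  by_cases hE : D = c + 2 ∧ n = c + 3
  · exact Or.inl hE
  right
  rcases Nat.lt_or_ge D (c + 3) with h | h
  · exfalso
    obtain ⟨b, q0, hB, hbD⟩ := cW1a N c D I (by omega) (by omega) hI hIh hnd hX
      (by rw [show N - c = n by omega]; exact hD)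
    have h1 := (cMT N c b D I q0 hB (by omega)).1
    omega
  · exact cFR N n c D I hN hc h hn hI hIh hnd hX hD

end Pool.Agent.Lib.MP_776403_ag.SD.FR
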