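import Pool.Agent.Lib.MP_776403_ag.SD.FR.SpecQ
import Pool.Agent.Lib.MP_776403_ag.SD.FR.SpecM
import Pool.Agent.Lib.MP_776403_ag.SD.E2.HF

/-!
# THEOREM FR, module Q2: the number of quadrics for `D = c + 2`, `n = c + 3` (helper28)
-/

set_option autoImplicit false

open MvPolynomial

noncomputable section

namespace Pool.Agent.Lib.MP_776403_ag.SD.FR

namespace Q2Aux

theorem term_eq (n j : ℕ) : (if j ≤ 2 then (n + (2 - j)).choose n else 0) =
    (if j ≤ 0 then (n + 2).choose 2 - (n + 1) else 0) + (if j ≤ 1 then n else 0) +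
      (if j ≤ 2 then 1 else 0) := by
  have h2 : (n + 2).choose n = (n + 2).choose 2 := Nat.choose_symm_add
  have h1 : (n + 1).choose n = n + 1 := Nat.choose_succ_self_right n
  have h3 : n + 1 ≤ (n + 2).choose 2 := by
    rw [Nat.choose_succ_succ' (n + 1) 1, Nat.choose_one_right]
    exact Nat.le_add_right _ _
  rcases j with _ | _ | _ | j
  · simp only [Nat.sub_zero, h2, le_refl, zero_le, if_true]
    omega
  · norm_num [h1]
  · norm_num
  · rw [if_neg (by omega), if_neg (by omega), if_neg (by omega), if_neg (by omega)]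

theorem sum_if {D : ℕ} (jj : Fin D → ℕ) (m k : ℕ) : ∑ i, (if jj i ≤ m then k else 0) =
    (Finset.univ.filter fun i => jj i ≤ m).card * k := by
  rw [← Finset.sum_filter, Finset.sum_const, smul_eq_mul]

theorem hf2 (n c : ℕ) (hc : 1 ≤ c) (jj : Fin (c + 2) → ℕ)
    (h : ∀ j : ℕ, (Finset.univ.filter fun i => jj i ≤ j).card = min (c + 2) (j * c + 1)) :
    ∑ i, (if jj i ≤ 2 then (n + (2 - jj i)).choose n else 0) =
      (n + 2).choose 2 + c * (n + 1) + 1 := by
  have h3 : n + 1 ≤ (n + 2).choose 2 := by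
    rw [Nat.choose_succ_succ' (n + 1) 1, Nat.choose_one_right]
    exact Nat.le_add_right _ _
  rw [Finset.sum_congr rfl fun i _ => term_eq n (jj i), Finset.sum_add_distrib,
    Finset.sum_add_distrib, sum_if, sum_if, sum_if, h 0, h 1, h 2,
    min_eq_right (by omega : 0 * c + 1 ≤ c + 2), min_eq_right (by omega : 1 * c + 1 ≤ c + 2),
    min_eq_left (by omega : c + 2 ≤ 2 * c + 1)]
  obtain ⟨t, ht⟩ := Nat.exists_eq_add_of_le h3
  rw [ht, Nat.add_sub_cancel_left]
  ring

theorem sum_D (c : ℕ) (hc : 1 ≤ c) :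
    ∑ j ∈ Finset.range (c + 2), (c + 2 - 1 - c * j) = c + 2 := by
  rw [show c + 2 = (c + 1) + 1 by ring, Finset.sum_range_succ', Finset.sum_range_succ',
    Finset.sum_eq_zero fun j _ => ?_]
  · simp only [zero_add, mul_one, mul_zero]
    omega
  · have h1 : c * 2 ≤ c * (j + 1 + 1) := Nat.mul_le_mul_left c (by omega)
    omega

end Q2Aux

open Q2Aux

theorem tQ2 (h1 : S_W1a) (hT : S_MT) (hr : S_W1r) (hce : CE.S_CE) : S_Q2 := by
  intro N n c I hN hn hc hI hh hnd hs hD
  obtain ⟨b, q0, hB, hbD⟩ := h1 N c (c + 2) I (by omega) (by omega) hI hh hnd hs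
    (by rw [show N - c = n by omega]; exact hD)
  have hb : b = c + 2 := by
    by_contra hne
    have h2 := (hT N c b (c + 2) I q0 hB (by omega)).1
    omega
  have hr1 := hr N c b (c + 2) I q0 hB
  have hq1 : (Polynomial.derivative q0).eval 1 = ((c + 2 : ℕ) : ℤ) := by
    rw [hb] at hr1
    push_cast at hr1 ⊢
    linarith
  obtain ⟨jj, hjj, hHF⟩ := hce N c (c + 2) I q0 (by omega) (by omega) (by omega) hI hh hnd hB.qp
    hB.q1 (by rw [sum_D c (by omega)]; exact hq1)
  refine E2.i2_ge n c I hN ?_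
  rw [hHF 2, show N - c = n by omega, hf2 n c (by omega) jj hjj]

end Pool.Agent.Lib.MP_776403_ag.SD.FR
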