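import Pool.Agent.Lib.MP_776403_ag.SD.FR.SpecQ
import Pool.Agent.Lib.MP_776403_ag.SD.FR.Main
import Pool.Agent.Lib.MP_776403_ag.SD.FR.Q2
import Pool.Agent.Lib.MP_776403_ag.SD.FR.GRf
import Pool.Agent.Lib.MP_776403_ag.SD.E2.Main
import Pool.Agent.Lib.MP_776403_ag.SD.C2.Main

/-!
# Q1: final assembly
-/

set_option autoImplicit false

open MvPolynomial

noncomputable section

namespace Pool.Agent.Lib.MP_776403_ag.SD.FR

theorem cQ2 : S_Q2 := tQ2 cW1a cMT cW1r CE.ceC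

/-- All cases with `c ≥ 3`: complete intersection or `G(1, 4)`. -/
theorem q1c3' (hGR : S_GR) (N n c D : ℕ) (I : Ideal (Sx N)) (hN : N = n + c) (hc : 3 ≤ c)
    (hn : D + 1 ≤ n) (hI : I.IsPrime) (hIh : IsHom I) (hnd : ∀ F ∈ I, F.IsHomogeneous 1 → F = 0)
    (hX : Smooth I c) (hD : U.HasDeg I n D) :
    (∃ (d : Fin c → ℕ) (G : Fin c → Sx N), (∀ i, 2 ≤ d i ∧ (G i).IsHomogeneous (d i)) ∧
      I = Ideal.span (Set.range G)) ∨ IsG14 I := by
  rcases q1c3 N n c D I hN hc hn hI hIh hnd hX hD with ⟨h1, h2⟩ | h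
  · subst h1
    have h3 := cQ2 N n c I hN h2 hc hI hIh hnd hX hD
    rcases Nat.lt_or_ge c 4 with h4 | h4
    · obtain rfl : c = 3 := by omega
      subst h2
      obtain rfl : N = 9 := by omega
      right
      refine hGR I hI hIh hnd hX ?_
      have h5 : Nat.choose (3 + 1) 2 = 6 := by decide
      omega
    · exact (E2.mC4 N c I h4 (by omega) hI hIh hnd hX h3).elim
  · exact Or.inl h

/-- Codimension `0`. -/
theorem q1c0 (N : ℕ) (I : Ideal (Sx N)) (hI : I.IsPrime) (hIh : IsHom I)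
    (hnd : ∀ F ∈ I, F.IsHomogeneous 1 → F = 0) (hX : Smooth I 0) :
    ∃ (d : Fin 0 → ℕ) (G : Fin 0 → Sx N), (∀ i, 2 ≤ d i ∧ (G i).IsHomogeneous (d i)) ∧
      I = Ideal.span (Set.range G) := by
  obtain ⟨y, hy, hy0⟩ := U.V3Aux.ex_pt hI hIh hnd
  obtain ⟨F, f, h, e, -, -, hhy, -, hloc⟩ := hX y hy hy0
  have hF : Set.range F = ∅ := Set.range_eq_empty F
  rw [hF, Ideal.span_empty] at hloc
  refine ⟨fun i => i.elim0, fun i => i.elim0, fun i => i.elim0, ?_⟩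
  rw [Set.range_eq_empty, Ideal.span_empty, eq_bot_iff]
  intro G hG
  have h1 := hloc G hG
  rw [Ideal.mem_bot] at h1 ⊢
  rcases mul_eq_zero.1 h1 with h2 | h2
  · exact absurd (by rw [h2, map_zero]) hhy
  · exact h2

theorem tQ1' (hC2 : C2.S_C2) (hGR : S_GR) : S_Q1 := by
  intro N n c D I hN hn hI hIh hnd hX hD
  have hne : ∃ y ∈ zer I, y ≠ 0 := U.V3Aux.ex_pt hI hIh hnd
  rcases Nat.lt_or_ge c 3 with hc | hc
  · left
    have h012 : c = 0 ∨ c = 1 ∨ c = 2 := by omega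
    rcases h012 with rfl | rfl | rfl
    · exact q1c0 N I hI hIh hnd hX
    · exact UN.tC1 N I hI hIh hnd hX
    · have hD1 : 1 ≤ D := by
        obtain ⟨q0, -, hqD, hq1⟩ := U.tQD U.tGp N 2 D I (by omega) hI hIh hX hne
          (by rw [show N - 2 = n by omega]; exact hD)
        rw [hqD] at hq1
        exact_mod_cast hq1
      exact hC2 N n D I hN hD1 hn hI hIh hnd hX hD
  · exact q1c3' hGR N n c D I hN hc hn hI hIh hnd hX hD

end Pool.Agent.Lib.MP_776403_ag.SD.FR
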