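import Pool.Agent.Lib.MP_776403_ag.SD.FR.Q1
import Pool.Agent.Lib.MP_776403_ag.SD.GR.ArP
import Pool.Agent.Lib.MP_776403_ag.SD.GR.Arc
import Pool.Agent.Lib.MP_776403_ag.SD.GR.Bas
import Pool.Agent.Lib.MP_776403_ag.SD.GR.Bl
import Pool.Agent.Lib.MP_776403_ag.SD.GR.Cls
import Pool.Agent.Lib.MP_776403_ag.SD.GR.Dec
import Pool.Agent.Lib.MP_776403_ag.SD.GR.Dom
import Pool.Agent.Lib.MP_776403_ag.SD.GR.Fld
import Pool.Agent.Lib.MP_776403_ag.SD.GR.Frm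
import Pool.Agent.Lib.MP_776403_ag.SD.GR.GP
import Pool.Agent.Lib.MP_776403_ag.SD.GR.Gm
import Pool.Agent.Lib.MP_776403_ag.SD.GR.KT
import Pool.Agent.Lib.MP_776403_ag.SD.GR.Mnr
import Pool.Agent.Lib.MP_776403_ag.SD.GR.NF
import Pool.Agent.Lib.MP_776403_ag.SD.GR.Pd
import Pool.Agent.Lib.MP_776403_ag.SD.GR.Prp
import Pool.Agent.Lib.MP_776403_ag.SD.GR.Q
import Pool.Agent.Lib.MP_776403_ag.SD.GR.Qn
import Pool.Agent.Lib.MP_776403_ag.SD.GR.GR3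
import Pool.Agent.Lib.MP_776403_ag.SD.GR.R4
import Pool.Agent.Lib.MP_776403_ag.SD.GR.Ver
import Pool.Agent.Lib.MP_776403_ag.SD.GR.Vtx

/-!
# Q1: the complete answer, closed form
-/

set_option autoImplicit false

open MvPolynomial

noncomputable section

namespace Pool.Agent.Lib.MP_776403_ag.SD.GR

theorem xR4 : S_R4 := tR4 E2.mHsf E2.mRk6

theorem xKT : S_KT := tKT E2.mTS E2.mHsf E2.mTQ E2.mRk6

theorem xGP : S_GP := tGP E2.mTS E2.mHsf xKT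

theorem xVer : S_Ver := tVer tFld E2.mTS

theorem xMnr : S_Mnr := tMnr E2.mHsf xR4 xKT tPrp

theorem xVtx : S_Vtx := tVtx E2.mHsf tFld xVer tDom tPrp xR4 xMnr

theorem xFrm : S_Frm := tFrm E2.mTS E2.mHsf E2.mTQ xGP xVtx tBas

theorem xArP : S_ArP := tArP tBas tArc

theorem xCls : S_Cls := tCls tFld tBas tDec

theorem xPd : S_Pd := tPd xFrm xArP (tNF tQ tBl tGm) (tQn tBas)

theorem xGR3 : S_GR3 := tGR3 xPd tDec xCls

end Pool.Agent.Lib.MP_776403_ag.SD.GR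

namespace Pool.Agent.Lib.MP_776403_ag.SD.FR

/-- THEOREM Q1: the complete answer. -/
theorem cQ1 : S_Q1 := tQ1' C2.cC2 (tGRf GR.xGR3)

end Pool.Agent.Lib.MP_776403_ag.SD.FR
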