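import Pool.Agent.Lib.MP_776403_ag.SD.FR.SpecW
import Pool.Agent.Lib.MP_776403_ag.SD.FR.SpecM
import Pool.Agent.Lib.MP_776403_ag.SD.UK.Spec2

/-!
# Small degrees: `D ≤ c + 1` is impossible for `c ≥ 2`, and `D = c + 2`, `c ≥ 3` forces `n = c + 3`, `b = c + 2`

`tDG`: the inequality of Castelnuovo for all `BDat` (no condition on `n`), from `S_W1r`.
-/

set_option autoImplicit false

open MvPolynomial

noncomputable section

namespace Pool.Agent.Lib.MP_776403_ag.SD.FR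

/-- (Sml) `D ≤ c + 1` is impossible for `c ≥ 2`, `n ≥ D + 1`. -/
def S_Sml : Prop :=
  ∀ (N c D : ℕ) (I : Ideal (Sx N)), 2 ≤ c → D ≤ c + 1 → D + c + 1 ≤ N → I.IsPrime → IsHom I →
    (∀ F ∈ I, F.IsHomogeneous 1 → F = 0) → Smooth I c → U.HasDeg I (N - c) D → False

/-- (Dpz) `D = c + 2`, `c ≥ 3`, `n ≥ D + 1`: `n = c + 3`, the lines have degree `c + 2`, and `q_0'(1) = c + 2` (equality in
the inequality of Castelnuovo). -/
def S_Dpz : Prop :=
  ∀ (N c D : ℕ) (I : Ideal (Sx N)), 3 ≤ c → D = c + 2 → D + c + 1 ≤ N → I.IsPrime → IsHom I →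
    (∀ F ∈ I, F.IsHomogeneous 1 → F = 0) → Smooth I c → U.HasDeg I (N - c) D →
    N = 2 * c + 3 ∧ ∃ q0 : Polynomial ℤ, BDat c (c + 2) (c + 2) I q0 ∧
      (Polynomial.derivative q0).eval 1 = (c : ℤ) + 2

/-- Castelnuovo's inequality for all `BDat`. -/
theorem tDG (h : S_W1r) (hk : UK.S_Cas) : S_DG := by
  intro N c b D I q0 hc hB
  rcases Nat.eq_zero_or_pos D with hD | hD
  · rw [hD, Nat.zero_mul]
    exact Nat.zero_le _
  have h1 := h N c b D I q0 hB
  have hbN := hB.bN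
  have hcb := hB.cb
  have h2 := hk N c D I q0 (by omega) (by omega) hD hB.prime hB.hom hB.nd hB.qp hB.q1
  have h3 : ((D * (b - c) : ℕ) : ℤ) = (D : ℤ) * ((b : ℤ) - c) := by
    rw [Nat.cast_mul, Nat.cast_sub hcb]
  have h4 : ((D * (b - c) : ℕ) : ℤ) ≤
      ((2 * ∑ j ∈ Finset.range D, (D - 1 - c * j) : ℕ) : ℤ) := by
    rw [h3, Nat.cast_mul, ← h1]
    push_cast at h2 ⊢
    linarith
  exact_mod_cast h4

theorem sum_le {c D : ℕ} (hD : D ≤ c + 1) (hD0 : 1 ≤ D) :
    ∑ j ∈ Finset.range D, (D - 1 - c * j) = D - 1 := by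
  rw [Finset.sum_eq_single 0]
  · simp
  · intro j _ hj
    have : c ≤ c * j := Nat.le_mul_of_pos_right c (Nat.pos_of_ne_zero hj)
    omega
  · intro h
    exact absurd (Finset.mem_range.2 (by omega)) h

theorem sum_two {c : ℕ} (hc : 2 ≤ c) :
    ∑ j ∈ Finset.range (c + 2), (c + 2 - 1 - c * j) = c + 2 := by
  rw [Finset.sum_range_succ', Finset.sum_range_succ', Finset.sum_eq_zero]
  · simp
    omega
  · intro j _
    have : c * 2 ≤ c * (j + 1 + 1) := Nat.mul_le_mul_left c (by omega)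
    omega

theorem tSml (h1 : S_W1a) (hG : S_DG) (hT : S_MT) : S_Sml := by
  intro N c D I hc hD hN hI hh hnd hS hdeg
  obtain ⟨b, q0, hB, hbD⟩ := h1 N c D I hc hN hI hh hnd hS hdeg
  have hcb := hB.cb
  have h2 := hG N c b D I q0 hc hB
  rw [sum_le hD (by omega)] at h2
  have h3 : b - c < 2 := by
    by_contra hcon
    have : D * 2 ≤ D * (b - c) := Nat.mul_le_mul_left D (by omega)
    omega
  have h4 := (hT N c b D I q0 hB (by omega)).1
  omega

theorem tDpz (h1 : S_W1a) (hr : S_W1r) (hT : S_MT) : S_Dpz := by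
  intro N c D I hc hD hN hI hh hnd hS hdeg
  subst hD
  obtain ⟨b, q0, hB, hbD⟩ := h1 N c (c + 2) I (by omega) hN hI hh hnd hS hdeg
  have hcb := hB.cb
  have hb : b = c + 2 := by
    by_contra hcon
    have h4 := (hT N c b (c + 2) I q0 hB (by omega)).1
    omega
  subst hb
  have hN2 : N = 2 * c + 3 := by
    by_contra hcon
    have h4 := (hT N c (c + 2) (c + 2) I q0 hB (by omega)).1
    omega
  refine ⟨hN2, q0, hB, ?_⟩
  have h5 := hr N c (c + 2) (c + 2) I q0 hB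
  push_cast at h5
  have h6 : 2 * (Polynomial.derivative q0).eval 1 = 2 * ((c : ℤ) + 2) := by
    rw [h5]; ring
  linarith

end Pool.Agent.Lib.MP_776403_ag.SD.FR
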