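import Pool.Agent.Lib.MP_776403_ag.SD.FR.SpecZ
import Pool.Agent.Lib.MP_776403_ag.SD.FR.SpecM

/-!
# The full range for `c = 2` (and the exact loss of the most special flag for all `c`)

`S_MSx`, `S_MTx`, `S_Asx`: as `S_MS`, `S_MT`, `S_As`, with the exact loss `∑_i ∑_j (d j - d i)` (truncated subtraction) instead of the
bound `(c - 1) (b - 2 c)`.  `S_NSx` (helper5: `SD/NS`): `D = ∏ d i`.  `S_E1` (helper5: `SD/CE`): equality in Castelnuovo,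
`c = 2`.  `S_C2`: THE FULL RANGE FOR `c = 2`.
-/

set_option autoImplicit false

open MvPolynomial

noncomputable section

namespace Pool.Agent.Lib.MP_776403_ag.SD.FR

/-- (MSx) MOST SPECIAL FLAG, exact loss.

PROOF.  As `S_MS` (`FR/MS.lean`), with another invariant.  For a type `d` (`d i ≤ K` or `d i = b + 2`) put
`κ i = b - c - ∑_j min (d i - 1) (d j - 1)` for the determined `i` (`d i ≤ K`).  Induction on `K` with `S_MSs`, from `1` to `b + 1`, invariant: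
`J₀ ≤ J`, `Fml`, a point, `2 ≤ d i`, `d i ≤ K ∨ d i = b + 2`, `Flag L d J K B`, and `DimGe J (δ - ∑_(i : d i ≤ K) κ i)`.  Step: the new
indices `i` have `d' i = K + 1`, and `card (FI d K) = ∑_j min K (d j - 1)` (`U.ChAux.card_FI`), which is `∑_j min (d' i - 1) (d' j - 1)`
(`K ≤ b`; for the undetermined `j` both minima are `K`): the loss of `S_MSs` is `∑ κ' i` over the new `i`; for the old `i`
`κ' i = κ i` (if `d j = b + 2` and `d' j = K + 1` then both minima are `d i - 1`, because `d i ≤ K`).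
At `K = b + 1`: as in `S_MS` all `d i` are determined, `∑ (d i - 1) = b - c`, `∑ d i = b`, and
`κ i = ∑_j ((d j - 1) - min (d i - 1) (d j - 1)) = ∑_j (d j - d i)`.  (If all `d i ≤ K` already, `S_MSs` gives `d' = d` and the loss `0`:
there is no `i` with `d' i = K + 1`, because `d' i = d i ≤ K`.) -/
def S_MSx : Prop :=
  ∀ (N c b : ℕ) (I J₀ : Ideal (Sx N)) (x : Vx N), 1 ≤ c → I.IsPrime → IsHom I → Smooth I c →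
    U.Fml I J₀ c b x → (∃ z ∈ zer J₀, z ≠ 0) → ∀ L : Loc I x c,
    (∀ z ∈ zer J₀, z ≠ 0 → ∀ ξ : Fin c → ℂ, ξ ≠ 0 → U.qv L ξ 0 z ≠ 0) → ∀ δ : ℕ, DimGe J₀ δ →
    ∃ (d : Fin c → ℕ) (J : Ideal (Sx N)) (B : Fin c → Fin c → ℂ),
      (∀ i, 2 ≤ d i) ∧ ∑ i, d i = b ∧ J₀ ≤ J ∧ U.Fml I J c b x ∧ (∃ z ∈ zer J, z ≠ 0) ∧
      U.Flag L d J b B ∧ DimGe J (δ - ∑ i, ∑ j, (d j - d i))

/-- (NSx) THE DEGREE IS THE PRODUCT (helper5, `SD/NS`). -/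
def S_NSx : Prop :=
  ∀ (N c b D : ℕ) (I J : Ideal (Sx N)) (q0 : Polynomial ℤ) (x : Vx N), BDat c b D I q0 →
    U.Fml I J c b x → ∀ (L : Loc I x c) (d : Fin c → ℕ) (B : Fin c → Fin c → ℂ),
    (∀ i, 2 ≤ d i) → ∑ i, d i = b → U.Flag L d J b B → DimGe J (c + 1) → ∏ i, d i = D

/-- (MTx) OUTPUT, exact loss, with the product.

PROOF.  As `S_MT` (`FR/MT.lean`), with `S_MSx` and `S_NSx`. -/
def S_MTx : Prop :=
  ∀ (N c b D : ℕ) (I : Ideal (Sx N)) (q0 : Polynomial ℤ), BDat c b D I q0 → 2 * b ≤ N →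
    ∀ x ∈ zer I, x ≠ 0 → ∃ (d : Fin c → ℕ) (lam : Vx N) (ξ : Fin c → Vx N)
      (J : Ideal (Sx N)), (∀ i, 2 ≤ d i) ∧ ∑ i, d i = b ∧
      FTm I d x lam ξ J (N - b - ∑ i, ∑ j, (d j - d i)) ∧ (∃ z ∈ zer J, z ≠ 0) ∧
      (c + 1 ≤ N - b - ∑ i, ∑ j, (d j - d i) → ∏ i, d i = D)

/-- (Asx) ONE GENERAL POINT, exact loss.

PROOF.  As `S_As` (`FR/As.lean`), with `S_MTx`, `UN.cU6w` and `S_R7`. -/
def S_Asx : Prop :=
  ∀ (N c b D : ℕ) (I : Ideal (Sx N)) (q0 : Polynomial ℤ), BDat c b D I q0 → 2 * b ≤ N →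
    ∃ d : Fin c → ℕ, (∀ i, 2 ≤ d i) ∧ ∑ i, d i = b ∧
      (c + 1 ≤ N - b - ∑ i, ∑ j, (d j - d i) → ∏ i, d i = D) ∧
      (b - c + 1 ≤ N - b - ∑ i, ∑ j, (d j - d i) →
        ∃ G : Fin c → Sx N, (∀ i, (G i).IsHomogeneous (d i)) ∧ I = Ideal.span (Set.range G))

/-- (E1) EQUALITY IN CASTELNUOVO, `c = 2` (helper5, `SD/CE`). -/
def S_E1 : Prop :=
  ∀ (N b D : ℕ) (I : Ideal (Sx N)) (q0 : Polynomial ℤ), BDat 2 b D I q0 → D = 2 * (b - 2) →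
    ∃ G : Fin 2 → Sx N, (∀ i, ∃ e, (G i).IsHomogeneous e) ∧ I = Ideal.span (Set.range G)

/-- (C2a) ARITHMETIC, `c = 2`.

PROOF.  `∑_(j < D) (D - 1 - 2 j) = μ^2` for `D = 2 μ`, `μ (μ + 1)` for `D = 2 μ + 1` (induction).  So `D (b - 2) ≤ 2 μ^2 = D μ`, resp.
`(2 μ + 1)(b - 2) ≤ 2 μ (μ + 1) < (2 μ + 1)(μ + 1)`: `2 (b - 2) ≤ D`. -/
def S_C2a : Prop :=
  ∀ b D : ℕ, 1 ≤ D → D * (b - 2) ≤ 2 * ∑ j ∈ Finset.range D, (D - 1 - 2 * j) → 2 * (b - 2) ≤ D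

/-- (C2b) ARITHMETIC, `c = 2`.

PROOF.  `d 0 + d 1 = b`, `∑_i ∑_j (d j - d i) = |d 0 - d 1|`; let `d 0 ≤ d 1`.  First claim: `|d 0 - d 1| ≤ b - 4`,
`N - b - (b - 4) ≥ 4`.  Second: `d 0 = 2` gives `D = 2 d 1 = 2 (b - 2)`; so `d 0 ≥ 3`, and
`b - 1 ≤ N - b - (d 1 - d 0)` iff `d 0 + 3 d 1 - 1 ≤ N`: `d 0 d 1 + 3 - (d 0 + 3 d 1 - 1) = (d 0 - 3)(d 1 - 1) + 1 ≥ 0`. -/
def S_C2b : Prop :=
  ∀ (N b D : ℕ) (d : Fin 2 → ℕ), (∀ i, 2 ≤ d i) → ∑ i, d i = b → 2 * b ≤ N → D + 3 ≤ N →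
    2 + 1 ≤ N - b - ∑ i, ∑ j, (d j - d i) ∧
    (∏ i, d i = D → D ≠ 2 * (b - 2) → b - 2 + 1 ≤ N - b - ∑ i, ∑ j, (d j - d i))

/-- (C2) THE FULL RANGE FOR `c = 2`.

PROOF.  `S_W1`: `b`, `q0`.  `S_DG`, `S_C2a`: `2 (b - 2) ≤ D`.  `D = 2 (b - 2)`: `S_E1`.  Otherwise `2 b ≤ D + 3 ≤ N`: `S_Asx`, `S_C2b`. -/
def S_C2 : Prop :=
  ∀ (N n D : ℕ) (I : Ideal (Sx N)), N = n + 2 → D + 1 ≤ n → I.IsPrime →
    IsHom I → (∀ F ∈ I, F.IsHomogeneous 1 → F = 0) → Smooth I 2 → U.HasDeg I n D →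
    ∃ G : Fin 2 → Sx N, (∀ i, ∃ e, (G i).IsHomogeneous e) ∧ I = Ideal.span (Set.range G)

end Pool.Agent.Lib.MP_776403_ag.SD.FR
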