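import Pool.Agent.Lib.MP_776403_ag.SD.FR.Defs
import Pool.Agent.Lib.MP_410da7_agP.Fre

/-!
# THEOREM FR, part L: the LOWER BOUND `hci d N k ≤ dim (S / I)_k` from the lines through one point

`F i ∈ I` forms with the gradients `ξ i` at `x` (a basis of the conormal space); `g ⟨i, m⟩ = gT d F x ⟨i, m⟩` the
coefficient of `t^(m+1)` of `F_i (x + t v)`, `m < d i`; `lam(x) = 1`.  `v = X - lam(X) x`.  The Taylor polynomial
`tr F m = ∑_(r ≤ m) lam^(m - r) (coefficient r of F(x + t v))(v)` is a form of degree `m`, and on `X` its expansion at `x` starts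
with `- g ⟨i, m⟩` in degree `m + 1`.  So products have large order.

Statements with complete proofs in the docstrings; `S_Xyz` is proved in `SD/FR/Xyz.lean` (theorem `SD.FR.tXyz`).
Tools: `UN.tRT : UN.S_RT`, `UN.tTEx`, `UN.RIAux`, `UN.tRN`, `mLinS`, `eLinB`, `tNull`, `LI` facts; `Pool.Agent.PC.stmtFre`,
`stmtReg`, `stmtRlo` (freeness of `ℂ[x]` over `ℂ[E_1, …, E_n]`), `UN.tFHc`.
-/

set_option autoImplicit false

open MvPolynomial

noncomputable section

namespace Pool.Agent.Lib.MP_776403_ag.SD.FR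

variable {N : ℕ}

/-- The coordinate `j` of `v = X - lam(X) x`. -/
def ux (x lam : Vx N) (j : Fin (N + 1)) : Sx N := X j - C (x j) * LI.lf lam

/-- `G ↦ G(v)`, `v = X - lam(X) x`. -/
def sg (x lam : Vx N) : Sx N →ₐ[ℂ] Sx N := aeval (ux x lam)

/-- The Taylor polynomial of degree `m` of `F` at `x`, homogenized with `lam`. -/
def tr (x lam : Vx N) (F : Sx N) (m : ℕ) : Sx N :=
  ∑ r ∈ Finset.range (m + 1), LI.lf lam ^ (m - r) * sg x lam ((linS x F).coeff r)

/-- The restriction of `G` to `T_x X ∩ {lam = 0}`, in the coordinates `y`. -/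
def rho {r : ℕ} (x lam : Vx N) {B : Fin r → Fin (N + 1)} (T : Sx N →ₐ[ℂ] PowerSeries (UN.Ay B)) :
    Sx N →ₐ[ℂ] UN.Ay B := aeval fun j => PowerSeries.coeff 1 (T (ux x lam j))

/-- (L1) EXPANSIONS of `sg G`.

PROOF.  `T (ux j)` has the constant coefficient `C (eval x (ux j)) = C (x_j - x_j dp lam x) = 0` (`PT.c0`), so it is
`ε y'_j + ε^2 (…)`, `y'_j = coeff 1`; for a monomial `G` of degree `r`: `T (sg G) = ∏ T(ux j)^(..) = ε^r (G(y') + ε …)`; sum over the
monomials of `G` (or `MvPolynomial` induction on homogeneous polynomials: `p * X j`).  Second: `PT.c0`.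
Third: `F(X) = F(lam(X) x + v)`; for a form `F` of degree `f`: `F(s x + v) = ∑_(r ≤ f) s^(f - r) (linS x F).coeff r (v)`: at a point
`y`: `s = lam(y)`, `v = y - s x`; for `s ≠ 0`: `F(s x + v) = s^f F(x + v/s) = ∑ s^f (coeff r)(v / s)`, `coeff r` homogeneous of degree `r`
(`mLinS`); a polynomial identity multiplied by `lam`, or both sides polynomial in `s` (`MvPolynomial.funext`; `S_LinB`). -/
def S_L1 : Prop :=
  ∀ (N r : ℕ) (x lam : Vx N) (f : Fin r → Sx N) (B : Fin r → Fin (N + 1))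
    (T : Sx N →ₐ[ℂ] PowerSeries (UN.Ay B)), UN.PT x f B T → LI.dp lam x = 1 →
    (∀ (G : Sx N) (n : ℕ), G.IsHomogeneous n → (sg x lam G).IsHomogeneous n ∧
      PowerSeries.X ^ n ∣ T (sg x lam G) ∧ PowerSeries.coeff n (T (sg x lam G)) = rho x lam T G) ∧
    PowerSeries.coeff 0 (T (LI.lf lam)) = 1 ∧
    ∀ (F : Sx N) (m : ℕ), F.IsHomogeneous m →
      F = ∑ n ∈ Finset.range (m + 1), LI.lf lam ^ (m - n) * sg x lam ((linS x F).coeff n)

/-- (L2) THE TAYLOR POLYNOMIALS.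

PROOF.  Homogeneous: `(linS x F).coeff r` is a form of degree `r` (`mLinS`), `sg` preserves degrees.  Let `F` be a form of degree `f`.
If `f ≤ m`: `(linS x F).coeff r = 0` for `r > f` (`mLinS`), so `tr F m = lam^(m - f) F` (`S_L1`, third) is in `I`, its `T` is `0`, and
`coeff (m + 1) = 0` too.  If `f > m`: `F = lam^(f - m) tr F m + ∑_(m < r ≤ f) lam^(f - r) sg (coeff r)` (`S_L1`), `T F = 0`, so
`T(lam)^(f - m) T(tr F m) = - ∑_(m < r ≤ f) T(lam)^(f - r) T(sg (coeff r))` is divisible by `ε^(m+1)`; `T(lam)` is a unit with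
constant coefficient `1`: `ε^(m+1) ∣ T(tr F m)` and the coefficient `m + 1` is `- rho ((linS x F).coeff (m + 1))`.
Last: `tr F m` at `x`: `(linS x F).coeff 0 = C (F(x)) = 0`, `sg G (x) = G(0) = 0` for forms of positive degree.  Gradient at `x`: the terms
with `r ≥ 2` have two factors vanishing at `x` (`sg G`, `G` of degree `≥ 2`: gradient at `x` is the linear image of `grad G (0) = 0`);
`r = 1`: `lam^(m-1) sg (coeff 1)`, `coeff 1 = ∑_l ∂_l F(x) X_l`, `sg` of it is `∑_l ∂_l F(x) X_l - (∑_l ∂_l F(x) x_l) lam`, and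
`∑_l ∂_l F(x) x_l = f F(x) = 0` (Euler): so the gradient is `grad F x` (`lam(x) = 1`). -/
def S_L2 : Prop :=
  ∀ (N c : ℕ) (I : Ideal (Sx N)), I.IsPrime → IsHom I → ∀ (x lam : Vx N), x ∈ zer I →
    LI.dp lam x = 1 → ∀ (L : Loc I x c) (T : Sx N →ₐ[ℂ] PowerSeries (UN.Ay L.B)),
    UN.PT x L.F L.B T → ∀ (F : Sx N) (f m : ℕ), F ∈ I → F.IsHomogeneous f → 1 ≤ m →
    (tr x lam F m).IsHomogeneous m ∧ PowerSeries.X ^ (m + 1) ∣ T (tr x lam F m) ∧
    PowerSeries.coeff (m + 1) (T (tr x lam F m)) = - rho x lam T ((linS x F).coeff (m + 1)) ∧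
    eval x (tr x lam F m) = 0 ∧ grad (tr x lam F m) x = grad F x

/-- The products: forms of degree `k` and order `≥ r` at `x`. -/
def Pr {c : ℕ} (d : Fin c → ℕ) (x lam : Vx N) (F : Fin c → Sx N) (k r : ℕ) : Submodule ℂ (Sx N) :=
  Submodule.span ℂ {H | ∃ (e s : ℕ) (p : Sx N) (α : UN.Ex2 d → ℕ), p.IsHomogeneous s ∧
    e + s + ∑ i, α i * i.1.2.1 = k ∧ r ≤ s + ∑ i, α i * (i.1.2.1 + 1) ∧
    H = LI.lf lam ^ e * sg x lam p * ∏ i, tr x lam (F i.1.1) i.1.2.1 ^ α i}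

/-- The leading forms of the products: the restrictions of the forms of degree `r` in the `m`-th power of the
ideal of the `g e`, `deg g e ≥ 2`. -/
def Ga {c r₀ : ℕ} (d : Fin c → ℕ) (x lam : Vx N) (F : Fin c → Sx N) {B : Fin r₀ → Fin (N + 1)}
    (T : Sx N →ₐ[ℂ] PowerSeries (UN.Ay B)) (r m : ℕ) : Submodule ℂ (UN.Ay B) :=
  (homogeneousSubmodule (Fin (N + 1)) ℂ r ⊓ (Ideal.span (Set.range fun e : UN.Ex2 d =>
    UN.gT d F x e.1) ^ m).restrictScalars ℂ).map (rho x lam T).toLinearMap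

/-- (L3) PRODUCTS REALIZE ALL LEADING FORMS.

PROOF.  `S_L1`, `S_L2`: the product `H` with the data `(e, s, p, α)` is a form of degree `k`; `ε^q ∣ T H`, `q = s + ∑ α_i (m_i + 1)`, and the
coefficient `q` is `(-1)^|α| rho(p ∏ g_i^(α_i))` (`T` is a ring homomorphism; the constant coefficient of `T(lam)` is `1`).  First
claim: linear combinations.  Second claim: `G` a form of degree `r` in `(span g)^m`, `m = r - k`: `G = ∑_α p_α ∏ g^α`, `|α| = m`, `p_α` a
form of degree `r - deg α` (`0` if `deg α > r`), `deg α = ∑ α_i (m_i + 1)` (elements of the power of an ideal generated by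
`g_i`: `Ideal.span_pow`-type lemma or induction on `m`; take components of degree `r`).  The product with `p_α`, `α`, `s = r - deg α`,
`e = k - s - ∑ α_i m_i = k - r + |α| = k - r + (r - k) ≥ 0` (natural numbers: if `r ≤ k`: `m = 0`, `α = 0`, `e = k - r`; if
`r > k`: `e = 0`), order `q = r`; sign `(-1)^|α|`. -/
def S_L3 : Prop :=
  ∀ (N c : ℕ) (I : Ideal (Sx N)), I.IsPrime → IsHom I → ∀ (x lam : Vx N), x ∈ zer I →
    LI.dp lam x = 1 → ∀ (L : Loc I x c) (T : Sx N →ₐ[ℂ] PowerSeries (UN.Ay L.B)),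
    UN.PT x L.F L.B T → ∀ (d : Fin c → ℕ) (ξ : Fin c → Vx N) (F : Fin c → Sx N) (f : Fin c → ℕ),
    Eqs I x ξ F f → ∀ k r : ℕ,
    (∀ H ∈ Pr d x lam F k r, H.IsHomogeneous k ∧ PowerSeries.X ^ r ∣ T H) ∧
    ∀ p ∈ Ga d x lam F T r (r - k), ∃ H ∈ Pr d x lam F k r, PowerSeries.coeff r (T H) = p

/-- (L4) COUNTING ORDERS.

PROOF.  `V = gr I k` (finite-dimensional), or `V = S_k` = forms of degree `k`, `V₀ = S_k ⊓ I` = the kernel of `T` on `S_k` (`UN.S_RT`),
`finrank (gr I k) = finrank (S_k) - finrank V₀`.  `U_r = {F ∈ S_k | ε^r ∣ T F}`, decreasing, `U_0 = S_k`, all contain `V₀`; the map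
`U_r → A`, `F ↦ coeff r (T F)` has the kernel `U_(r+1)` and its image contains `Ga … r (r - k)` (`S_L3`): so
`finrank U_r ≥ finrank U_(r+1) + finrank (Ga r (r - k))`.  Sum over `r < R`: `finrank S_k ≥ finrank U_R + ∑ ≥ finrank V₀ + ∑`. -/
def S_L4 : Prop :=
  ∀ (N c : ℕ) (I : Ideal (Sx N)), I.IsPrime → IsHom I → ∀ (x lam : Vx N), x ∈ zer I →
    LI.dp lam x = 1 → ∀ (L : Loc I x c) (T : Sx N →ₐ[ℂ] PowerSeries (UN.Ay L.B)),
    UN.PT x L.F L.B T → ∀ (d : Fin c → ℕ) (ξ : Fin c → Vx N) (F : Fin c → Sx N) (f : Fin c → ℕ),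
    Eqs I x ξ F f → ∀ k R : ℕ, ∑ r ∈ Finset.range R,
      Module.finrank ℂ (Ga d x lam F T r (r - k)) ≤ Module.finrank ℂ (gr I k)

/-- (L5) THE KERNEL OF `rho` is generated by linear forms.

PROOF.  Let `v ∈ TS I x`, `dp lam v = 0`.  `y'_j = coeff 1 (T (ux j))` is a linear form in `y`; CLAIM: `y'_j (v_B) = v_j`,
`v_B = (v_l)_(l ∉ B)`.  `ỹ_j = coeff 1 (T (X j))` evaluated at `u : Bn L.B → ℂ` is a vector `ỹ(u) ∈ TS I x` with `ỹ(u)_l = u_l` for
`l ∉ B`: `T G = 0` for `G ∈ I` (`UN.S_RT`), and the coefficient `1` of `T G` is `∑_l ∂_l G(x) ỹ_l` (for all `G ∈ S`: derivation-like,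
`MvPolynomial.induction_on`, `PT.c0`).  A vector of `TS I x` with `v_l = 0` for `l ∉ B` is `0` (`L.detx`).  So `ỹ(v_B) = v`, and
`y'(u) = ỹ(u) - dp lam (ỹ(u)) x`; for `u = v_B`: `y' = v`.  So `eval (v_B) (rho G) = G(v)`, and `y'(u) ∈ TS I x ∩ {lam = 0}` for all
`u`, `eval u (rho G) = G(y'(u))`: `rho G = 0` iff `G` vanishes on `W = TS I x ∩ {dp lam = 0}`.
`W` is the set of the common zeros of the linear forms `lf lam` and `g ⟨i, 0⟩ = ∑_l ξ_i(l) X_l` (`mLinS`/`S_LinB`: coefficient `1` of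
`F_i (x + t v)`; the `ξ i` are a basis of `CN I x`, `S_CN`, `LI.S_TS`): `c + 1` independent linear forms (`dp lam x = 1`,
`dp (ξ i) x = 0`).  A polynomial vanishing on the common zeros of independent linear forms is in the ideal generated by
them (change of coordinates; or: choose `w_j ∈ ℂ^(N+1)` dual to the forms `l_j`; `G(X) - G(X - ∑_j l_j(X) w_j)` is in the ideal
`(l_j)` (Taylor, `MvPolynomial.induction_on`), and `X - ∑ l_j(X) w_j ∈ W`, so the second polynomial vanishes identically). -/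
def S_L5 : Prop :=
  ∀ (N c : ℕ) (I : Ideal (Sx N)), I.IsPrime → IsHom I → Smooth I c → ∀ (x lam : Vx N),
    x ∈ zer I → x ≠ 0 → LI.dp lam x = 1 → ∀ (L : Loc I x c)
    (T : Sx N →ₐ[ℂ] PowerSeries (UN.Ay L.B)), UN.PT x L.F L.B T → ∀ (d : Fin c → ℕ)
    (ξ : Fin c → Vx N) (F : Fin c → Sx N) (f : Fin c → ℕ), Eqs I x ξ F f →
    LinearIndependent ℂ ξ → (∀ i, 1 ≤ d i) →
    (∀ u : UN.Bn L.B → ℂ, ∃ v ∈ LI.TS I x, LI.dp lam v = 0 ∧
      ∀ G : Sx N, eval u (rho x lam T G) = eval v G) ∧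
    (∀ v ∈ LI.TS I x, LI.dp lam v = 0 → ∀ G : Sx N,
      eval (fun j : UN.Bn L.B => v j.1) (rho x lam T G) = eval v G) ∧
    ∀ G : Sx N, rho x lam T G = 0 ↔ G ∈ UN.aI d lam (UN.gT d F x)

/-- (L6) THE DIMENSION OF THE POWERS, by freeness.

PROOF.  `E : Fin (N + 1) → Sx N`: an enumeration of the `N + 1` forms `lf lam`, `g e` (`e : Ex d`), `l j` (`∑ d i + 1 + (N - ∑ d i)`), of
positive degrees, with only the zero `0` (`CX.zero`).  `stmtFre (stmtReg stmtRlo)` (`ws = 1`): a homogeneous basis `b_1, …, b_m` of `S` over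
`ℂ[E]`, of degrees `e_i`.  In terms of the coefficients: an ideal generated by some of the `E_t` is `⊕ b_i (Y_t)`.  So the classes of
the `b_i l^β`, `e_i + |β| = u`, are a basis of `gr 𝔟 u`, `𝔟 = span (range g) ⊔ span {lf lam}` (spanning: write a form of degree `u` in
the basis and drop the terms in `𝔟`; independent: uniqueness), and `finrank (gr 𝔟 u) = hcG …` (`UN.S_FHc`; the forms
`none ↦ lf lam, some e ↦ g e` are a regular sequence by `stmtReg` for the enumeration `E`; transport of `hcG` as in `UN/U6v.lean`).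
The elements `rho (b_i l^β ∏_(e : Ex2) g_e^(α_e))`, for all `(i, β, α)` with `e_i + |β| + deg α = r`, `m ≤ |α|`, are in `Ga r m` and
independent: a linear combination which is `0` under `rho` is in `aI d lam g = (lf lam, g e : e.2 = 0)` (`S_L5`), and by uniqueness of the
coefficients it is `0` (the coefficients do not involve the variables of the linear equations).  Their number is
`∑_(α ∈ mu d r m) #{(i, β) | e_i + |β| = r - deg α}` (`α ∈ mu d r m` iff `m ≤ |α|`, `deg α ≤ r`; `α e ≤ r` follows). -/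
def S_L6 : Prop :=
  ∀ (N c : ℕ) (I : Ideal (Sx N)), I.IsPrime → IsHom I → Smooth I c → ∀ (x lam : Vx N),
    ∀ (L : Loc I x c) (T : Sx N →ₐ[ℂ] PowerSeries (UN.Ay L.B)), UN.PT x L.F L.B T →
    ∀ (d : Fin c → ℕ) (ξ : Fin c → Vx N) (F : Fin c → Sx N) (f : Fin c → ℕ), Eqs I x ξ F f →
    LinearIndependent ℂ ξ → ∀ l : Fin (N - ∑ i, d i) → Sx N, CX I d x lam F l → ∀ r m : ℕ,
    ∑ α ∈ UN.mu d r m, hcG (fun o : Option (UN.Ex d) => o.elim 1 fun e => e.2.1 + 1) N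
      (r - ∑ e, α e * (e.1.2.1 + 1)) ≤ (Module.finrank ℂ (Ga d x lam F T r m) : ℤ)

/-- (LB) THE LOWER BOUND.

PROOF.  `L : Loc I x c` (`mLoc`), `T` (`UN.tTEx`, `UN.S_RT`).  `S_L4` with `R = 2 k + 1`, `S_L6` with `m = r - k`, and `UN.S_RN`. -/
def S_LB : Prop :=
  ∀ (N c : ℕ) (I : Ideal (Sx N)), I.IsPrime → IsHom I → Smooth I c → ∀ (x lam : Vx N)
    (d : Fin c → ℕ) (ξ : Fin c → Vx N) (F : Fin c → Sx N) (f : Fin c → ℕ), Eqs I x ξ F f →
    LinearIndependent ℂ ξ → ∀ l : Fin (N - ∑ i, d i) → Sx N, CX I d x lam F l →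
    ∀ k, hci d N k ≤ (Module.finrank ℂ (gr I k) : ℤ)

/-- (LD) Degrees.

PROOF.  The power series `∑_k hci d N k T^k` is `∏ (1 - T^(d i)) / (1 - T)^(N+1) = ∏ (1 + … + T^(d i - 1)) / (1 - T)^(N + 1 - c)`
(see `UN/RN.lean`, `L/Hci.lean`), so `(N - c)! hci d N k / k^(N - c) → ∏ d i` (`U.S_Gp` or its proof; `c ≤ N`).  Limits. -/
def S_LD : Prop :=
  ∀ (N c D : ℕ) (I : Ideal (Sx N)) (d : Fin c → ℕ), c ≤ N → (∀ i, 1 ≤ d i) →
    U.HasDeg I (N - c) D → (∀ k, hci d N k ≤ (Module.finrank ℂ (gr I k) : ℤ)) → ∏ i, d i ≤ D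

end Pool.Agent.Lib.MP_776403_ag.SD.FR
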