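import Pool.Agent.Lib.MP_776403_ag.SD.FR.SpecW
import Pool.Agent.Lib.MP_776403_ag.SD.E2.Spec
import Pool.Agent.Lib.MP_776403_ag.SD.C2.Spec

/-!
# Q1: the complete answer.  Final statements

`S_GR` (helper43, `SD/GR`): the Grassmannian.  `S_Q1` is the problem.
-/

set_option autoImplicit false

open MvPolynomial

noncomputable section

namespace Pool.Agent.Lib.MP_776403_ag.SD.FR

/-- The Pluecker coordinates: the pairs `i < j`, `i, j < 5`. -/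
abbrev Pij : Type := {p : Fin 5 × Fin 5 // p.1 < p.2}

/-- The cone over the Grassmannian `G(1, 4)` of lines in `ℙ^4`, in the Pluecker embedding: the vectors of the
`2 × 2` minors of the `2 × 5` matrices with the rows `u`, `v`. -/
def coneG14 : Set (Pij → ℂ) :=
  {p | ∃ u v : Fin 5 → ℂ, ∀ q : Pij, p q = u q.1.1 * v q.1.2 - u q.1.2 * v q.1.1}

/-- The zero set of `I` is projectively equivalent to `G(1, 4) ⊆ ℙ^9`. -/
def IsG14 {N : ℕ} (I : Ideal (Sx N)) : Prop :=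
  ∃ T : Vx N ≃ₗ[ℂ] (Pij → ℂ), T '' zer I = coneG14

/-- (GR) THE GRASSMANNIAN (helper43). -/
def S_GR : Prop :=
  ∀ I : Ideal (Sx 9), I.IsPrime → IsHom I → (∀ F ∈ I, F.IsHomogeneous 1 → F = 0) → Smooth I 3 →
    5 ≤ Module.finrank ℂ (E2.I2 I) → IsG14 I

/-- (Q2) THE QUADRICS for `D = c + 2`, `n = c + 3`.

PROOF.  `S_W1a`: `b`, `q0`, `BDat`, `b ≤ D = c + 2`; `S_MT`: `b ≤ c + 1` would give `2 b ≤ N = 2 c + 3`, so `2 c ≤ b ≤ c + 1`, `c ≤ 1`: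
contradiction; so `b = c + 2`.  `S_W1r`: `q0'(1) = c + 2 = ∑_(j < D) (D - 1 - c j)` (`(c + 1) + 1`).  `CE.S_CE`: `jj` with
`#{i | jj i ≤ j} = min D (j c + 1)`, so one `jj i` is `0`, `c` of them are `1`, one is `2`, and the Hilbert function in degree `2` is
`binom (n + 2) n + c (n + 1) + 1`; `E2.i2_ge`. -/
def S_Q2 : Prop :=
  ∀ (N n c : ℕ) (I : Ideal (Sx N)), N = n + c → n = c + 3 → 3 ≤ c → I.IsPrime → IsHom I →
    (∀ F ∈ I, F.IsHomogeneous 1 → F = 0) → Smooth I c → U.HasDeg I n (c + 2) →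
    Nat.choose (c + 1) 2 ≤ Module.finrank ℂ (E2.I2 I) + 1

/-- THEOREM Q1: THE COMPLETE ANSWER.

PROOF.  `c = 0`: `I = ⊥`.  `c = 1`: `UN.tC1`.  `c = 2`: `C2.S_C2` (`D ≥ 1`: `U.tQD`).  `c ≥ 3`: `q1c3` (`FR/Main.lean`): the conclusion or
`D = c + 2`, `n = c + 3`.  Then `S_Q2`; `c ≥ 4`: `E2.S_C4`: contradiction; `c = 3`: `subst`, `S_GR`. -/
def S_Q1 : Prop :=
  ∀ (N n c D : ℕ) (I : Ideal (Sx N)), N = n + c → D + 1 ≤ n → I.IsPrime →
    IsHom I → (∀ F ∈ I, F.IsHomogeneous 1 → F = 0) → Smooth I c → U.HasDeg I n D →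
    (∃ (d : Fin c → ℕ) (G : Fin c → Sx N), (∀ i, 2 ≤ d i ∧ (G i).IsHomogeneous (d i)) ∧
      I = Ideal.span (Set.range G)) ∨ IsG14 I

end Pool.Agent.Lib.MP_776403_ag.SD.FR
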