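import Pool.Agent.Lib.MP_776403_ag.SD.FR.SpecL
import Pool.Agent.Lib.MP_776403_ag.SD.UN.SpecF

/-!
# THEOREM FR, part R: `X` is a complete intersection, from the lines through one general point

`LC I d x lam (gT d F x) J`: the lines through `x` form a smooth complete intersection.  Then there are `G i ∈ I` of degree
`d i` with independent gradients at `x`, hence everywhere, and `I = (G)`.

Statements with complete proofs in the docstrings; `S_Xyz` is proved in `SD/FR/Xyz.lean` (theorem `SD.FR.tXyz`).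
-/

set_option autoImplicit false

open MvPolynomial

noncomputable section

namespace Pool.Agent.Lib.MP_776403_ag.SD.FR

variable {N : ℕ}

/-- (R2) FORMS OF LARGE ORDER ARE PRODUCTS modulo `I`.

PROOF.  Descending induction on `r`.  `r > 2 k`: `λ = coeff r (T f) ∈ LFm L J k r` (`UN.S_RE` with `P = f`, `Q = 1`, `τ = T f`; `UN.RF I x k f 1`:
`f` a form of degree `k`, at every `y` take `P' = f`, `Q' = 1`), and `LFm L J k r = ⊥` for `r > 2 k` (`UN.S_RI`, `UN.S_RJ`: `mu d r (r - k) = ∅`,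
`UN.S_RN`); so `ε^(r+1) ∣ T f`, and by induction on `r` `T f = 0`, `f ∈ I` (`UN.S_RT`); `H = 0`.
`k < r ≤ 2 k`: `λ ∈ LFm L J k r`.  As in the proof of `UN.S_RI` (`UN/RI.lean`): `Rn λ = rename Subtype.val λ` is a form of degree `r` in
`J^(r-k)` (`pdL l (Rn λ) ∈ J` for `l.length < r - k`; `UN.S_RZ`).  `rho (Rn λ) = λ`: `rho (X_j) = coeff 1 (T (ux j)) = y_j - x_j ℓ` for
`j ∉ B`, `ℓ = coeff 1 (T (lf lam))`, and `λ(y - ℓ x_B) = λ(y)` because `∑ x_j ∂_j λ = 0` (`RIAux.const_dir`, at all points `u`).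
`J = span (range g) ⊔ span {lf lam}` (`LC.eq`), `rho` kills `lf lam` and the `g ⟨i, 0⟩` (`S_L5`), so `λ = rho (Rn λ)` is `rho` of a form of degree `r`
in `(span {g e | e : Ex2})^(r-k)` (expand `(𝔞 + 𝔤)^m ≤ 𝔞 + 𝔤^m`, take components of degree `r`): `λ ∈ Ga … r (r - k)`.
`S_L3`: `H₁ ∈ Pr … k r`, `coeff r (T H₁) = λ`; `ε^(r+1) ∣ T(f - H₁)`.  Induction: `H₂ ∈ Pr … k (r + 1) ≤ Pr … k r`. -/
def S_R2 : Prop :=
  ∀ (N c : ℕ) (I : Ideal (Sx N)), I.IsPrime → IsHom I → Smooth I c → ∀ (x lam : Vx N)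
    (d : Fin c → ℕ) (ξ : Fin c → Vx N) (F : Fin c → Sx N) (f : Fin c → ℕ), Eqs I x ξ F f →
    LinearIndependent ℂ ξ → ∀ J : Ideal (Sx N), UN.LC I d x lam (UN.gT d F x) J →
    ∀ (L : Loc I x c) (T : Sx N →ₐ[ℂ] PowerSeries (UN.Ay L.B)), UN.PT x L.F L.B T →
    ∀ (k r : ℕ) (G : Sx N), k < r → G.IsHomogeneous k → PowerSeries.X ^ r ∣ T G →
    ∃ H ∈ Pr d x lam F k r, G - H ∈ I

/-- (R3) THE EQUATIONS.

PROOF.  `L : Loc I x c`, `T`.  `k = d i ≥ 1`.  `t = tr x lam (F i) (d i)`: a form of degree `d i`, `ε^(d i + 1) ∣ T t`, `grad t x = ξ i` (`S_L2`).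
`S_R2` with `r = d i + 1`: `H ∈ Pr … (d i) (d i + 1)`, `G i = t - H ∈ I`, a form of degree `d i` (`S_L3`).
GRADIENT OF `H` AT `x`: for a product with the data `(e, s, p, α)`, `e + s + ∑ α m = k`, `k + 1 ≤ s + ∑ α (m + 1)`: `∑ α ≥ e + 1 ≥ 1`.  All
`tr … m` (`m ≥ 1`) vanish at `x` (`S_L2`), `sg p` vanishes at `x` if `s ≥ 1`.  So the gradient at `x` is `0` unless `s = 0` and
`∑ α = 1` (then `e = 0`): `H = C a * tr x lam (F i') m`, `m = k = d i`, `m < d i'`, with the gradient `a ξ i'`.  So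
`grad H x ∈ span {ξ i' | d i < d i'}`.
INDEPENDENCE: `grad (G i) x = ξ i - η_i`, `η_i ∈ span {ξ i' | d i < d i'}`.  Let `∑ a_i grad (G i) x = 0`, `a ≠ 0`; among the `i` with `a_i ≠ 0`
take `i₀` with `d i₀` minimal: the coefficient of `ξ i₀` is `a_(i₀)` (the `η_i`, `a_i ≠ 0`, involve only `ξ i'` with
`d i' > d i ≥ d i₀`): contradiction. -/
def S_R3 : Prop :=
  ∀ (N c : ℕ) (I : Ideal (Sx N)), I.IsPrime → IsHom I → Smooth I c → ∀ (x lam : Vx N)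
    (d : Fin c → ℕ) (ξ : Fin c → Vx N) (F : Fin c → Sx N) (f : Fin c → ℕ), Eqs I x ξ F f →
    LinearIndependent ℂ ξ → ∀ J : Ideal (Sx N), UN.LC I d x lam (UN.gT d F x) J →
    ∃ G : Fin c → Sx N, (∀ i, G i ∈ I ∧ (G i).IsHomogeneous (d i)) ∧
      LinearIndependent ℂ fun i => grad (G i) x

/-- (R4) INDEPENDENCE ALONG A LINE (`det N^*(b)` is trivial on the lines of degree `b = ∑ d i`).

PROOF.  Choose the point `x` of the line as the point where the gradients are independent (first claim), then the general case: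
if the independence holds at the point `y₀ = σ₀ x + τ₀ z` then the line is `span (y₀, z')` for a second vector `z'`
(`lineI` depends on the span only: `JAsmAux.lineI_add`, or `lineI` is defined by the points), and `y₀` plays the role of `x`.
So let the `grad (G i) x` be independent; `L : Loc I x c` (`mLoc`).  `p_i l = lin z x (∂_l (G i)) ∈ ℂ[σ]` (the point `z + σ x`), of
degree `≤ d i - 1`, coefficient `d i - 1` = `∂_l (G i)(x)` (`S_LinB`).  `lin z x Δ * p_i l = ∑_b lin z x (coef b l) * p_i (B b)` (`S_CrL`;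
`L.coef`; conormal vectors are determined by their `B`-coordinates).  Suppose `∑ a_i grad (G i) y = 0`, `a ≠ 0`, at `y = s x + t z`; `t ≠ 0`
(otherwise `y = s x`, contradiction), so `y = t (z + σ₀ x)`; with `a'_i = a_i t^(d i - 1)`: `∑ a'_i p_i` vanishes at `σ₀`:
`∑ a'_i p_i = (X - C σ₀) p'`.  `g b = p' (B b)`: `lin z x Δ ∣ ∑_b lin z x (coef b l) g b` for all `l` (cancel `X - C σ₀`).
`m` = the maximum of the `d i` with `a_i ≠ 0`, `θ = ∑_(d i = m) a'_i ξ_i`, `ξ_i b = ∂_(B b) (G i)(x)` (independent in `ℂ^c`: `coef b (B b')`), `θ ≠ 0`;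
`g b = C (θ b) X^(m-2) + ` lower terms (`m ≥ 2`).  `U.S_VK`: `q_θ^(m-2)(z) ∈ F_(m-2)(z)`; and for every `i` (the same argument for `p_i`,
`K = d i - 1`): `q_(ξ_i)^(d i - 1)(z) ∈ F_(d i - 1)(z)`.  By the shift (`U.S_FB` (1) or `FBAux.shifts`; `IsLine` and the degree are enough)
`q_(ξ_i)^k ∈ F_k` for `k ≥ d i - 1` and `q_θ^k ∈ F_k` for `k ≥ m - 2`.  Choose `i₀` with `d i₀ = m`, `a_(i₀) ≠ 0`; the family `ξ_i` (`i ≠ i₀`), `θ` is a
basis of `ℂ^c`.  So by induction on `j` `F_j(z)` is spanned by the `q_(ξ_i)^k` (`i ≠ i₀`, `k < d i - 1`, `k < j`) and `q_θ^k` (`k < m - 2`, `k < j`): so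
`dim Q(z) ≤ ∑_(i ≠ i₀) (d i - 1) + (m - 2) = b - c - 1`, but it is `b - c` (`SD.S_GRk`, closed `zGRk`; `DegEq I c b x z`). -/
def S_R4 : Prop :=
  ∀ (N c b : ℕ) (I : Ideal (Sx N)), 1 ≤ c → I.IsPrime → IsHom I → Smooth I c →
    ∀ x z : Vx N, IsLine I x z → DegEq I c b x z → ∀ (d : Fin c → ℕ), (∀ i, 2 ≤ d i) →
    ∑ i, d i = b → ∀ G : Fin c → Sx N, (∀ i, G i ∈ I ∧ (G i).IsHomogeneous (d i)) →
    ∀ σ τ : ℂ, (σ ≠ 0 ∨ τ ≠ 0) → LinearIndependent ℂ (fun i => grad (G i) (σ • x + τ • z)) →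
    ∀ s t : ℂ, (s ≠ 0 ∨ t ≠ 0) → LinearIndependent ℂ (fun i => grad (G i) (s • x + t • z))

/-- (R5) INDEPENDENCE EVERYWHERE.

PROOF.  Let `y ∈ zer I`, `y ≠ 0`.  `BDat.cone` at `x` and at `y`: `P_x`, `P_y`, `DimGe _ (N + 1 - b)`; `2 (N + 1 - b) ≥ N + 2`: `mMeet`: `z ≠ 0`,
`z ∈ zer P_x ∩ zer P_y`.  If `x, y` are dependent: `y = a x`, `grad (G i) y = a^(d i - 1) grad (G i) x`: independent.  Otherwise:
if `x, z` are dependent then `x` is a multiple of `z`, so `x ∈ zer P_y` (homogeneous), the line `(y, x)` has the degree `b`: `S_R4`.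
If `y, z` are dependent: the same with `P_x`.  Otherwise `S_R4` on the line `(x, z)` gives the independence at `z`, and `S_R4` on the
line `(y, z)` at `y`.  (`IsLine` from `BDat.cone`.) -/
def S_R5 : Prop :=
  ∀ (N c b D : ℕ) (I : Ideal (Sx N)) (q0 : Polynomial ℤ), BDat c b D I q0 → 2 * b ≤ N →
    ∀ (d : Fin c → ℕ), (∀ i, 2 ≤ d i) → ∑ i, d i = b → ∀ G : Fin c → Sx N,
    (∀ i, G i ∈ I ∧ (G i).IsHomogeneous (d i)) → ∀ x ∈ zer I, x ≠ 0 →
    LinearIndependent ℂ (fun i => grad (G i) x) →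
    ∀ y ∈ zer I, y ≠ 0 → LinearIndependent ℂ (fun i => grad (G i) y)

/-- (R7) COMPLETE INTERSECTION.

PROOF.  `G` of `S_R3`; `S_R5`: independent everywhere.  `UN.S_FCI` with `f = G`, `e = d`, `J₀ = I` (`DimGe I (N + 1 - c)`: as in the proof of
`U.S_QD`; `N + 1 - c ≥ c + 1` since `N ≥ 2 b ≥ 2 c`): `𝔤 = (G)` is prime, `𝔤 ≤ I`.  If `𝔤 ≠ I` then `DimGe 𝔤 (N + 2 - c)` (`UN.S_FDr`, first
claim), and `UN.S_FRg` at a point `z ∈ zer I - 0` gives a chain of `c + 1` primes whose last member `P` is `≤ 𝔤` (`h F ∈ 𝔤`, `h ∉ 𝔤` as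
`h(z) ≠ 0`, `𝔤 ≤ ptI z`) and contains the `G i`, so `P = 𝔤`: `(N + 2 - c) + c ≤ N + 1` (`UN.S_FDr`, second claim): contradiction. -/
def S_R7 : Prop :=
  ∀ (N c b D : ℕ) (I : Ideal (Sx N)) (q0 : Polynomial ℤ), BDat c b D I q0 → 2 * b ≤ N →
    ∀ (x lam : Vx N) (d : Fin c → ℕ) (ξ : Fin c → Vx N) (F : Fin c → Sx N) (f : Fin c → ℕ),
    (∀ i, 2 ≤ d i) → ∑ i, d i = b → Eqs I x ξ F f → LinearIndependent ℂ ξ →
    ∀ J : Ideal (Sx N), UN.LC I d x lam (UN.gT d F x) J →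
    ∃ G : Fin c → Sx N, (∀ i, (G i).IsHomogeneous (d i)) ∧ I = Ideal.span (Set.range G)

/-- (FE) FORMS WITH GIVEN GRADIENTS.

PROOF.  `ξ i ∈ CN I x` is `grad F₀ x`, `F₀ ∈ I` (`S_Perp`/`S_CN`).  With `M ≥` the total degree: `F = ∑_(m ≤ M) lam^(M - m) (F₀)_m` (`lf lam`): a form of
degree `M` in `I` (components are in `I`), and its gradient at `x` is `∑ grad (F₀)_m x = ξ i`, because `lam(x) = 1`, `(F₀)_m (x) = 0`. -/
def S_FE : Prop :=
  ∀ (N c : ℕ) (I : Ideal (Sx N)), I.IsPrime → IsHom I → Smooth I c → ∀ (x lam : Vx N),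
    x ∈ zer I → x ≠ 0 → LI.dp lam x = 1 → ∀ ξ : Fin c → Vx N, (∀ i, ξ i ∈ CN I x) →
    ∃ (F : Fin c → Sx N) (f : Fin c → ℕ), Eqs I x ξ F f

/-! ## One dimension less (helper44) -/

/-- (FCz) COMPLETE INTERSECTION, one dimension less than in `UN.S_FCI1`: `r + 1` forms, the `s` independent linear forms
`lf (l j)` are in the span of the first `r`; `DimGe J₀ (r - s + 1)`.

PROOF.  `UN.S_FCI1` for the first `r` forms: `𝔟` is prime, and there are `N + 1 - r` linear forms which have only the zero `0` with them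
(proof of `UN.S_FCI`, (5), (6)).  `f (last) ∉ 𝔟`: at a point `z ∈ zer J₀ - 0` the gradient of an element `∑ a_i f_i` of `𝔟` is
`∑ a_i(z) grad f_i (z)`.  So `𝔟' = 𝔟 ⊔ span {f (last)}` has `UN.NoCh 𝔟' (N - r)`: a chain of primes above `𝔟'` below `ptI 0` extends by
`𝔟 <` to a chain above `𝔟`.  `UN.S_FLn`: `l'`. -/
def S_FCz : Prop :=
  ∀ (N r s : ℕ) (f : Fin (r + 1) → Sx N) (e : Fin (r + 1) → ℕ) (J₀ : Ideal (Sx N)) (l : Fin s → Vx N),
    (∀ i, 1 ≤ e i) → (∀ i, (f i).IsHomogeneous (e i)) → LinearIndependent ℂ l →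
    (∀ j, LI.lf (l j) ∈ Ideal.span (Set.range fun i : Fin r => f i.castSucc)) → s ≤ r →
    J₀.IsPrime → IsHom J₀ → (∀ i, f i ∈ J₀) → DimGe J₀ (r - s + 1) →
    (∀ z ∈ zer J₀, z ≠ 0 → LinearIndependent ℂ fun i => grad (f i) z) → r ≤ N ∧
    ∃ l' : Fin (N - r) → Sx N, (∀ i, (l' i).IsHomogeneous 1) ∧
      ∀ y : Vx N, (∀ i, eval y (f i) = 0) → (∀ i, eval y (l' i) = 0) → y = 0

/-- (U6z) The Taylor forms are a complete intersection if `DimGe J₀ (∑ d i - c)` (`UN.S_U6w` needs one more).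

PROOF.  As `UN.tU6w` (`FR/U6.lean`): `f` = an enumeration of `lf lam`, `g e` with the linear forms (`lf lam`, `g ⟨i, 0⟩ = lf (ξ i)`) first;
`s = c + 1`, `r = ∑ d i`, `r - s + 1 = ∑ d i - c` (`∑ d i ≥ 2 c ≥ c + 1`), `S_FCz`. -/
def S_U6z : Prop :=
  ∀ (N c m : ℕ) (I : Ideal (Sx N)) (d : Fin c → ℕ), I.IsPrime → IsHom I → Smooth I c → 1 ≤ c →
    (∀ i, 2 ≤ d i) → ∀ (x lam : Vx N) (ξ : Fin c → Vx N) (J₀ : Ideal (Sx N)),
    FTm I d x lam ξ J₀ m → (∃ z ∈ zer J₀, z ≠ 0) → (∀ z : Vx N, IsLine I x z → UN.FreeL I x z) →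
    ∀ F : Fin c → Sx N, (∀ i, F i ∈ I ∧ grad (F i) x = ξ i) →
    (∀ z ∈ zer J₀, z ≠ 0 →
      UN.JL I x ≤ Ideal.span (Set.range (UN.gT d F x)) ⊔ ptI z * UN.JL I x) →
    ∑ i, d i - c ≤ m → ∃ l : Fin (N - ∑ i, d i) → Sx N, CX I d x lam F l

end Pool.Agent.Lib.MP_776403_ag.SD.FR
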