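import Pool.Agent.Lib.MP_776403_ag.SD.FR.SpecZ
import Pool.Agent.Lib.MP_776403_ag.SD.U.SpecA
import Pool.Agent.Lib.MP_776403_ag.SD.V.Spec

/-!
# THEOREM FR, part W: the first order data `BDat` for `D + c + 1 ≤ N`

Statements with complete proofs in the docstrings; `S_Xyz` is proved in `SD/FR/Xyz.lean` (theorem
`SD.FR.tXyz`).  `q j` is the numerator of the Hilbert series of `Λ^j N^*`.  The congruences are
`q_c = T^b q_0` modulo `(1 - T)^2` (from ONE cone of lines of dimension `≥ c + 2`), `q_j = e_j(y) q_0`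
modulo `(1 - T)^(N+1-2c)` (`U.AAux.br`) and `∑ q_j = (1 + T)^c q_0(T²)` modulo `(1 - T)^(N+1-2c)`.
-/

set_option autoImplicit false

open MvPolynomial

noncomputable section

namespace Pool.Agent.Lib.MP_776403_ag.SD.FR

/-- (Wc) `Λ^c N^*` ON A CONE OF LINES, no numerical hypothesis.

PROOF.  As the proof of `jVb` (`J/Asm.lean`; closed forms of its hypotheses: `J/Fin.lean`).  All steps up to
`hHF'` and the last part (`hfit`, `hcolv`, `hSur`, `e5`) do not use `hnumc` or `DimGe`.  So with the number `δ` of that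
proof: `finrank (Lam I P c m) = finrank (gr P (m - c - δ))` for large `m` (`hLam`, `hHF'`), and for the line
`finrank (Lam I (lineI x v') 1 m) + δ = c m` for large `m`; `DegEq I c b x v` (`lineI x v' = lineI x v`) says
`finrank (…) + b = c (m + 1)`: `b = c + δ`. -/
def S_Wc : Prop :=
  ∀ (N c b : ℕ) (I P : Ideal (Sx N)) (x : Vx N), 1 ≤ c → I.IsPrime → IsHom I →
    Smooth I c → P.IsPrime → IsHom P → I ≤ P → x ∈ zer I → x ≠ 0 →
    (∀ v ∈ zer P, ∀ s : ℂ, v + s • x ∈ zer P) →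
    (∀ v ∈ zer P, ∀ s t : ℂ, s • x + t • v ∈ zer I) →
    ∀ v ∈ zer P, LinearIndependent ℂ ![x, v] → DegEq I c b x v → c ≤ b ∧
      ∀ᶠ m : ℕ in Filter.atTop,
        Module.finrank ℂ (Lam I P c m) = Module.finrank ℂ (gr P (m - b))

/-- (Wd) From a cone to `X`.

PROOF.  As `mPErrB` (`M/FinB.lean`), with `V = VL I c`, `W = AF N`, `J = P` in `S_KI` (closed forms `zKI`, `zKHV`,
`tKVL`, `zKPV`, `tKGV`, `zKLF` in `Z/MainK.lean`, `Z/Main.lean`; `zWQP` in `Z/MainW.lean`).  In `ℤ[X]`: `A = (1 - X)^c pc`,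
`B = (1 - X)^c q0`, `G = (1 - X)^c' h` (`zWQP`: `c' + (δ + 1) ≤ N + 1`, `QP N c' (gr P) h`, `h(1) > 0`), `Q` with
`(1 - X)^(N+1) ps (hV P (VL I c)) = Q` (`S_KHV`).  `S_KI`, `S_KPV`: `A G - B Q = (1 - X)^(N+1) p`.  `hV P (VL I c) k =
finrank (Lam I P c (k + c))` (`S_KVL`), so by hypothesis `X^c ps (hV P (VL I c)) - X^b ps (gr P)` is a polynomial `r`
(`SFEAux.poly_of_ev`): `X^c Q - X^b G = (1 - X)^(N+1) r`.  So `(X^c A - X^b B) G = (1 - X)^(N+1) (X^c p + B r)`, i.e.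
`(1 - X)^(c + c') (X^c pc - X^b q0) h = (1 - X)^(N+1) (…)`.  If `c + c' ≤ N + 1`: cancel, `N + 1 - c - c' ≥ δ + 1 - c`, and
`dvd_of_unit` (`h(1) ≠ 0`).  Otherwise `δ + 1 ≤ N + 1 - c' ≤ c`: the exponent is `0`. -/
def S_Wd : Prop :=
  ∀ (N c b δ : ℕ) (I P : Ideal (Sx N)), 1 ≤ c → I.IsPrime → IsHom I → Smooth I c →
    P.IsPrime → IsHom P → I ≤ P → DimGe P (δ + 1) →
    (∀ᶠ m : ℕ in Filter.atTop,
      Module.finrank ℂ (Lam I P c m) = Module.finrank ℂ (gr P (m - b))) →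
    ∀ q0 pc : Polynomial ℤ, QP N c (fun k => Module.finrank ℂ (gr I k)) q0 →
      QP N c (hV I (VL I c)) pc →
      (1 - Polynomial.X : Polynomial ℤ) ^ (δ + 1 - c) ∣
        Polynomial.X ^ c * pc - Polynomial.X ^ b * q0

/-- (Wp) THE TRACE FORMULA for the exterior algebra of the conormal bundle.

PROOF.  `k5` and `k7` in the proof of `kSFE` (`K/SFE.lean`): extend `p` to all `j` (`zSDv` for `j > c`); `SFEAux.cong1` with
`S_SEul` for `V = AF N` (closed forms: see `zSDat` in `Z/MainK.lean` and `zSDatfin` in `Z/Main.lean`), `SVp_AF`, `SVm_AF`, and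
`cong2` with `zKTop` for `j > c`; the sum over `range (N + 2)` is the sum over `range (c + 1)` plus terms divisible by
`(1 - X)^(N + 1 - 2 c)`. -/
def S_Wp : Prop :=
  ∀ (N c : ℕ), c ≤ N → ∀ (I : Ideal (Sx N)) (h : Polynomial ℤ), I.IsPrime → IsHom I →
    Smooth I c → QP N c (fun k => Module.finrank ℂ (gr I k)) h →
    ∀ p : ℕ → Polynomial ℤ, (∀ j, j ≤ c → QP N c (hV I (VL I j)) (p j)) →
    (1 - Polynomial.X : Polynomial ℤ) ^ (N + 1 - 2 * c) ∣
      (∑ j ∈ Finset.range (c + 1), Polynomial.X ^ j * p j) -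
        (1 + Polynomial.X) ^ c * h.comp (Polynomial.X ^ 2)

/-- (Wq) ARITHMETIC: `2 q_0'(1) = q_0(1) (b - c)`.

PROOF.  `D = q_0(1) > 0`, `s = ∑ y_i`.  The coefficients of `1`, `u` of `tau F` are `F(1)`, `- F'(1)` (`SDV.S_T2`, `SDV.tau`), those of
`esx y j` are `binom c j`, `- binom (c-1) (j-1) s` (each `i` is in `binom (c-1) (j-1)` of the `A` with `|A| = j`;
`Finset.card_powersetCard`…).  The hypothesis (coefficient of `u`, `m ≥ 2`): `q_j'(1) = binom c j q_0'(1) + binom (c-1) (j-1) s D`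
in `ℂ` for `j ≤ c` (`j = 0`: the second term is `0`).  `j = c` and `q_c - X^b q_0 = (1 - X)^2 (…)`, derivative at `1`:
`q_c'(1) = b D + q_0'(1)`: `s = b`.  The last hypothesis, derivative at `1`:
`∑_(j ≤ c) q_j'(1) = c 2^(c-1) D + 2^c 2 q_0'(1)`, and the left side is `2^c q_0'(1) + 2^(c-1) b D`
(`∑ binom c j = 2^c`, `∑_(1 ≤ j ≤ c) binom (c-1) (j-1) = 2^(c-1)`).  So `2^(c-1) (2 q_0'(1)) = 2^(c-1) D (b - c)`.
(One may avoid `esx` for `j ≠ c`: sum over all `j` first, `∑_j esx y j = ∏ (1 + eu (- y_i))`, as a power series with the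
coefficients `2^c`, `- 2^(c-1) s`; for `j = c`: `esx y c = eu (- ∑ y_i)`.) -/
def S_Wq : Prop :=
  ∀ (c m b : ℕ) (q : ℕ → Polynomial ℤ) (y : Fin c → ℂ), 1 ≤ c → 2 ≤ m → 0 < (q 0).eval 1 →
    (∀ j, (PowerSeries.X : PowerSeries ℂ) ^ m ∣ SDV.tau (q j) - SDV.esx y j * SDV.tau (q 0)) →
    (1 - Polynomial.X : Polynomial ℤ) ^ 2 ∣ q c - Polynomial.X ^ b * q 0 →
    (1 - Polynomial.X : Polynomial ℤ) ^ 2 ∣ (∑ j ∈ Finset.range (c + 1), q j) -
      (1 + Polynomial.X) ^ c * (q 0).comp (Polynomial.X ^ 2) →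
    2 * (Polynomial.derivative (q 0)).eval 1 = (q 0).eval 1 * ((b : ℤ) - c)

/-- (W1a) THE FIRST ORDER DATA.

PROOF.  As `U.tA` (`U/A.lean`), shorter.  `X` is not empty; `U.S_Cov`: `Covered I`; `U.S_QD`: `q0`; `zSDatfin`: `q`.
Lines of degree `b ≤ D` through points with `g(x) ≠ 0`: `P2.tPb`, `U.S_Pa`; `H.mLineE`: cones `P` with `DimGe P (N + 1 - b)`,
`N + 1 - b ≥ c + 2`.  (1) For every cone `P` of lines with the vertex `x` and `DimGe P (c + 2)` and a line in it of degree `b'`: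
`S_Wc`, `S_Wd` (`δ + 1 = c + 2`): `(1 - X)^2 ∣ q_c - X^b' q_0`, so `b' D = q_c'(1) - q_0'(1)` is independent of `P`: `b' = b`.
(2) `P2.tClG`: a cone of dimension `≥ c + 2` through every point `y`; a line in it (`GAcmAux.exists_indep`) has some degree
(`RLAux.exists_deg`), which is `b` by (1); `H.mLineE` and `cCon`: the field `cone`. -/
def S_W1a : Prop :=
  ∀ (N c D : ℕ) (I : Ideal (Sx N)), 2 ≤ c → D + c + 1 ≤ N → I.IsPrime → IsHom I →
    (∀ F ∈ I, F.IsHomogeneous 1 → F = 0) → Smooth I c → U.HasDeg I (N - c) D →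
    ∃ (b : ℕ) (q0 : Polynomial ℤ), BDat c b D I q0 ∧ b ≤ D

/-- (W1r) `2 q_0'(1) = D (b - c)`, for all `n ≥ c + 1`.

PROOF.  A point `y` of `X` (`nd`), `BDat.cone`, a line of `P` (`GAcmAux.exists_indep`), `S_Wc`, `S_Wd`; `zSDatfin`: `q`; `U.AAux.br`: `y`;
`S_Wp`, `S_Wq` (`N + 1 - 2 c ≥ 2` since `c ≤ b`). -/
def S_W1r : Prop :=
  ∀ (N c b D : ℕ) (I : Ideal (Sx N)) (q0 : Polynomial ℤ), BDat c b D I q0 →
    2 * (Polynomial.derivative q0).eval 1 = (D : ℤ) * ((b : ℤ) - c)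

end Pool.Agent.Lib.MP_776403_ag.SD.FR
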