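import Pool.Agent.Lib.MP_776403_ag.SD.FR.SpecR

/-!
# THEOREM FR, part Z: arithmetic and assembly

`S_W1`, `S_W1q`, `S_DG`, `S_W2` (helper7): the first order data and the numbers.  `S_Ca` follows from `UK.S_Cas`.
-/

set_option autoImplicit false

open MvPolynomial

noncomputable section

namespace Pool.Agent.Lib.MP_776403_ag.SD.FR

variable {N : ℕ}

/-- (W1) THE FIRST ORDER DATA (helper7). -/
def S_W1 : Prop :=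
  ∀ (N c D : ℕ) (I : Ideal (Sx N)), 2 ≤ c → D + c + 1 ≤ N → I.IsPrime → IsHom I →
    (∀ F ∈ I, F.IsHomogeneous 1 → F = 0) → Smooth I c → U.HasDeg I (N - c) D →
    ∃ (b : ℕ) (q0 : Polynomial ℤ), BDat c b D I q0

/-- (W1q) `2 q0'(1) = D (b - c)` for `n ≥ 2 c + 1` (helper7). -/
def S_W1q : Prop :=
  ∀ (N c b D : ℕ) (I : Ideal (Sx N)) (q0 : Polynomial ℤ), 2 ≤ c → BDat c b D I q0 → 3 * c + 1 ≤ N →
    2 * (Polynomial.derivative q0).eval 1 = (D : ℤ) * ((b : ℤ) - c)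

/-- (DG) CASTELNUOVO for `BDat` without `S_W1q`, by the discriminant (helper7). -/
def S_DG : Prop :=
  ∀ (N c b D : ℕ) (I : Ideal (Sx N)) (q0 : Polynomial ℤ), 2 ≤ c → BDat c b D I q0 →
    D * (b - c) ≤ 2 * ∑ j ∈ Finset.range D, (D - 1 - c * j)

/-- (W2) THE NUMBERS, if the cones are large (helper7): THEOREM W, and `2 ≤ d i` by `U.S_TL`. -/
def S_W2 : Prop :=
  ∀ (N c b D : ℕ) (I : Ideal (Sx N)) (q0 : Polynomial ℤ), 2 ≤ c → BDat c b D I q0 →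
    2 * b + c + 1 ≤ N → ∃ d : Fin c → ℕ, (∀ i, 2 ≤ d i) ∧ ∑ i, d i = b ∧ ∏ i, d i = D

/-- (Ca) CASTELNUOVO for `BDat`, `n ≥ 2 c + 1`.

PROOF.  `UK.S_Cas` (`UK/Spec2.lean`; `QP N c (HF) q0`, `q0(1) = D`): `2 q0'(1) ≤ 2 ∑_(j < D) (D - 1 - c j)` (truncated), and
`2 q0'(1) = D (b - c)` (`S_W1q`).  `c ≤ b`, so `(b - c : ℕ)` is the integer.  (`UK.S_Cas` needs `D ≥ 1`; for `D = 0` the left side is `0`.) -/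
def S_Ca : Prop :=
  ∀ (N c b D : ℕ) (I : Ideal (Sx N)) (q0 : Polynomial ℤ), 2 ≤ c → BDat c b D I q0 → 3 * c + 1 ≤ N →
    D * (b - c) ≤ 2 * ∑ j ∈ Finset.range D, (D - 1 - c * j)

/-- (A1) ARITHMETIC: `b ≤ c + m + 1`.

PROOF.  `m = (D - 1) / c`, `D = m c + ε + 1`, `ε < c`; `∑_(j < D) (D - 1 - c j) = ∑_(j ≤ m) (D - 1 - c j)`, and
`2 ∑_(j ≤ m) (D - 1 - c j) = (m + 1) (2 (D - 1) - c m) = (m + 1) (c m + 2 ε)` (the terms with `j > m` are `0`).  So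
`(b - c) D ≤ (m + 1) (m c + 2 ε) = (m + 1) D + (m + 1) (ε - 1)`.  If `b - c ≥ m + 2`: `D ≤ (m + 1)(ε - 1) = m ε - m + ε - 1 < m c + ε + 1`,
contradiction.  If `ε = 0` and `b - c ≥ m + 1`: `0 ≤ -(m + 1)`, contradiction. -/
def S_A1 : Prop :=
  ∀ c b D : ℕ, 1 ≤ c → c ≤ b → 1 ≤ D →
    D * (b - c) ≤ 2 * ∑ j ∈ Finset.range D, (D - 1 - c * j) →
    b ≤ c + (D - 1) / c + 1 ∧ (c ∣ D - 1 → b ≤ c + (D - 1) / c)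

/-- (A2) `2 b ≤ N`.

PROOF.  `D - 1 = m c + ε`, `m ≥ 1` (`D ≥ c + 3`).  `b ≤ c + m + 1`: it is enough that `2 c + 2 m + 2 ≤ m c + ε + 2 + c`, i.e.
`(m - 1)(c - 2) - 2 + ε ≥ 0`: `m = 1`: `ε ≥ 2` (`D ≥ c + 3`); `m ≥ 2`: true for `c ≥ 4`, for `m ≥ 3`, and for `ε ≥ 1`; if `ε = 0`
use `b ≤ c + m`: `(m - 1)(c - 2) ≥ 0`. -/
def S_A2 : Prop :=
  ∀ N c b D : ℕ, 3 ≤ c → c + 3 ≤ D → D + 1 + c ≤ N →
    b ≤ c + (D - 1) / c + 1 → (c ∣ D - 1 → b ≤ c + (D - 1) / c) → 2 * b ≤ N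

/-- (A3) THE CASES.

PROOF.  `D - 1 = m c + ε`.  `b ≥ 2 c`, so `m ≥ c - 1`.  (1) holds if `(m - 2)(c - 2) - 5 + ε ≥ 0` (from `b ≤ c + m + 1`), and for `ε = 0` if
`(m - 2)(c - 2) - 3 ≥ 0`: true for `c ≥ 5` (`m ≥ 4`).  `c = 4`: `m ≥ 4`: true (`ε ≥ 1`: `4 - 5 + 1 ≥ 0`; `ε = 0`: `4 - 3`).  `m = 3`: `b = 8`: (2):
`N - 8 ≥ 5`.  `c = 3`, `6 ≤ b ≤ m + 4`: `m ≥ 7`: (1).  `m = 2`: `b = 6`, (2).  `m = 3` (`D = 10, 11, 12`): `b = 6`: (2); `b = 7`: `D ≥ 11`, `N ≥ 15`, (2):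
`N ≥ 4 b - 14 = 14`.  `m = 4` (`D = 13, 14, 15`): `b ≤ 8`, `N ≥ D + 4`: `b ≤ 7`: (2) as `N ≥ 17`; `b = 8`: `D ≥ 14`, `N ≥ 18 = 4 b - 14`.
`m = 5` (`D = 16, 17, 18`): `b ≤ 8`: (1) `2 b + 4 ≤ 20 ≤ N`; `b = 9`: `D ≥ 17`; `D = 18`: `22 ≤ N`; `D = 17`: (1) if `N ≥ 22`, otherwise (3).
`m = 6` (`D = 19, 20, 21`): `b ≤ 9`: `22 ≤ 23 ≤ N`; `b = 10`: `D ≥ 20`, `24 ≤ N`.  (For `c ≤ 4` finitely many values of `m`, `ε`: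
`interval_cases` / `omega` after writing `D = c m + ε + 1`.) -/
def S_A3 : Prop :=
  ∀ N c b D : ℕ, 3 ≤ c → c + 3 ≤ D → D + 1 + c ≤ N → 2 * c ≤ b →
    b ≤ c + (D - 1) / c + 1 → (c ∣ D - 1 → b ≤ c + (D - 1) / c) →
    2 * b + c + 1 ≤ N ∨ b - c + 1 ≤ N - b - (c - 1) * (b - 2 * c) ∨
      (c = 3 ∧ b = 9 ∧ D = 17 ∧ b - c ≤ N - b - (c - 1) * (b - 2 * c))

/-- (A4) The worst type is good enough if the numbers are known.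

PROOF.  `x i = d i - 2`, `X = ∑ x i`: `b = 2 c + X`; the claim is `(c + 1) b ≤ D + 2 c^2`, i.e. `2 c + (c + 1) X ≤ ∏ (2 + x i)`, and
`∏ (2 + x i) ≥ 2^c + 2^(c-1) X` (induction on `c`), `2^c ≥ 2 c`, `2^(c-1) ≥ c + 1` for `c ≥ 3`. -/
def S_A4 : Prop :=
  ∀ (N c b D : ℕ) (d : Fin c → ℕ), 3 ≤ c → (∀ i, 2 ≤ d i) → ∑ i, d i = b → ∏ i, d i = D →
    D + 1 + c ≤ N → b - c + 1 ≤ N - b - (c - 1) * (b - 2 * c)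

/-- (A5) PROOF.  `x, y, z ≥ 2`, `x + y + z = 9`: the product is `20`, `24` or `27`. -/
def S_A5 : Prop := ∀ d : Fin 3 → ℕ, (∀ i, 2 ≤ d i) → ∑ i, d i = 9 → 17 < ∏ i, d i

/-- (As) ONE GENERAL POINT.

PROOF.  `UN.S_U6a` (closed `UN.tU6a …`): `g ∉ I`; `x ∈ zer I`, `g(x) ≠ 0`, `x ≠ 0` (multiply `g` by a variable not in `I`; `tNull`): all
lines through `x` are free.  `S_MT`: `d`, `lam`, `ξ`, `J` with `FTm … (N - b - (c - 1)(b - 2 c))`.  `ξ i ∈ CN I x`: value of a section at `x`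
(`Ty.sec`, `S_SecVal`; `(s i l).coeff 0 = hval (s i) (d i) 1 0 l`).  `S_FE`: `F`, `f`.  For `z ∈ zer J - 0`: `IsLine I x z` (`Cn.line`, `lam`), `FTm.ty`:
`s`, `grad (F i) x l = ξ i l = (s i l).coeff 0`: `UN.S_U5` gives the local generation.
(1) `b - c + 1 ≤ m`: `UN.S_U6w`: `J'`, `LC`; `S_R7`.  (2) `b - c ≤ m`: `S_U6z`: `l`, `CX`; `S_LB`, `S_LD`: `∏ d i ≤ D`. -/
def S_As : Prop :=
  ∀ (N c b D : ℕ) (I : Ideal (Sx N)) (q0 : Polynomial ℤ), BDat c b D I q0 → 2 * b ≤ N →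
    ∃ d : Fin c → ℕ, (∀ i, 2 ≤ d i) ∧ ∑ i, d i = b ∧
      (b - c ≤ N - b - (c - 1) * (b - 2 * c) → ∏ i, d i ≤ D) ∧
      (b - c + 1 ≤ N - b - (c - 1) * (b - 2 * c) →
        ∃ G : Fin c → Sx N, (∀ i, (G i).IsHomogeneous (d i)) ∧ I = Ideal.span (Set.range G))

/-- THEOREM FR, from Castelnuovo's inequality.

PROOF.  `S_W1`: `b`, `q0`; the hypothesis, `S_A1`, `S_A2`: `2 b ≤ N`; `S_MT`: `2 c ≤ b`.  `S_A3`: case (1): `S_W2`, `S_A4`, `S_As`; case (2): `S_As`;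
case (3): `S_As`: `∏ d i ≤ 17`, contradiction to `S_A5` (`c = 3`: `subst`). -/
def S_FRc : Prop :=
  ∀ (N n c D : ℕ) (I : Ideal (Sx N)), N = n + c → 3 ≤ c → c + 3 ≤ D → D + 1 ≤ n → I.IsPrime →
    IsHom I → (∀ F ∈ I, F.IsHomogeneous 1 → F = 0) → Smooth I c → U.HasDeg I n D →
    (∀ (b : ℕ) (q0 : Polynomial ℤ), BDat c b D I q0 →
      D * (b - c) ≤ 2 * ∑ j ∈ Finset.range D, (D - 1 - c * j)) →
    ∃ (d : Fin c → ℕ) (G : Fin c → Sx N), (∀ i, 2 ≤ d i ∧ (G i).IsHomogeneous (d i)) ∧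
      I = Ideal.span (Set.range G)

/-- THEOREM FR for `n ≥ 2 c + 1` (`S_FRc`, `S_Ca`). -/
def S_FR1 : Prop :=
  ∀ (N n c D : ℕ) (I : Ideal (Sx N)), N = n + c → 3 ≤ c → c + 3 ≤ D → D + 1 ≤ n →
    2 * c + 1 ≤ n → I.IsPrime →
    IsHom I → (∀ F ∈ I, F.IsHomogeneous 1 → F = 0) → Smooth I c → U.HasDeg I n D →
    ∃ (d : Fin c → ℕ) (G : Fin c → Sx N), (∀ i, 2 ≤ d i ∧ (G i).IsHomogeneous (d i)) ∧
      I = Ideal.span (Set.range G)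

/-- THEOREM FR (`S_FRc`, `S_DG`). -/
def S_FR : Prop :=
  ∀ (N n c D : ℕ) (I : Ideal (Sx N)), N = n + c → 3 ≤ c → c + 3 ≤ D → D + 1 ≤ n → I.IsPrime →
    IsHom I → (∀ F ∈ I, F.IsHomogeneous 1 → F = 0) → Smooth I c → U.HasDeg I n D →
    ∃ (d : Fin c → ℕ) (G : Fin c → Sx N), (∀ i, 2 ≤ d i ∧ (G i).IsHomogeneous (d i)) ∧
      I = Ideal.span (Set.range G)

end Pool.Agent.Lib.MP_776403_ag.SD.FR
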