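import Pool.Agent.Lib.MP_776403_ag.SD.FR.SpecW
import Pool.Agent.Lib.MP_776403_ag.SD.U.A

/-!
# THEOREM FR, part W: the first order data
-/

set_option autoImplicit false

open MvPolynomial

noncomputable section

namespace Pool.Agent.Lib.MP_776403_ag.SD.FR

open RAux RLAux U.AAux

namespace W1Aux

variable {N : ℕ}

/-- A nondegenerate variety has a point. -/
theorem exists_point {I : Ideal (Sx N)} (hI : I.IsPrime) (hIh : IsHom I)
    (hnd : ∀ F ∈ I, F.IsHomogeneous 1 → F = 0) : ∃ y ∈ zer I, y ≠ 0 := by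
  by_contra hcon
  push Not at hcon
  have h1 : (MvPolynomial.X 0 : Sx N) ∈ I := by
    refine (tNull N I hI hIh).1 (MvPolynomial.X 0) (fun z hz => ?_)
    rw [hcon z hz]
    simp
  have h2 := hnd _ h1 (MvPolynomial.isHomogeneous_X ℂ 0)
  exact MvPolynomial.X_ne_zero (R := ℂ) (0 : Fin (N + 1)) h2

/-- A cone of lines of dimension `≥ c + 2` gives the second coefficient of the determinant. -/
theorem key (hWc : S_Wc) (hWd : S_Wd) {c : ℕ} (hc : 1 ≤ c) {I : Ideal (Sx N)} (hI : I.IsPrime)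
    (hIh : IsHom I) (hS : Smooth I c) {q0 pc : Polynomial ℤ}
    (hQP : QP N c (fun k => Module.finrank ℂ (gr I k)) q0) (hpc : QP N c (hV I (VL I c)) pc)
    (P : Ideal (Sx N)) (x : Vx N) (b : ℕ) (hP : P.IsPrime) (hPh : IsHom P) (hIP : I ≤ P)
    (hPD : DimGe P (c + 2)) (hx0 : x ≠ 0) (hst : ∀ v ∈ zer P, ∀ s : ℂ, v + s • x ∈ zer P)
    (hpl : ∀ v ∈ zer P, ∀ s t : ℂ, s • x + t • v ∈ zer I) (v : Vx N) (hv : v ∈ zer P)
    (hli : LinearIndependent ℂ ![x, v]) (hdv : DegEq I c b x v) : c ≤ b ∧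
    (1 - Polynomial.X : Polynomial ℤ) ^ 2 ∣ Polynomial.X ^ c * pc - Polynomial.X ^ b * q0 := by
  have hxI : x ∈ zer I := by
    have := hpl v hv 1 0
    rwa [one_smul, zero_smul, add_zero] at this
  obtain ⟨hcb, hev⟩ := hWc N c b I P x hc hI hIh hS hP hPh hIP hxI hx0 hst hpl v hv hli hdv
  refine ⟨hcb, ?_⟩
  have h5 := hWd N c b (c + 1) I P hc hI hIh hS hP hPh hIP hPD hev q0 pc hQP hpc
  have e1 : c + 1 + 1 - c = 2 := by omega
  rwa [e1] at h5

/-- The number `b` is determined. -/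
theorem uniq {u v : Polynomial ℤ} (hv : 0 < v.eval 1) (b b' : ℕ)
    (hb : (1 - Polynomial.X : Polynomial ℤ) ^ 2 ∣ u - Polynomial.X ^ b * v)
    (hb' : (1 - Polynomial.X : Polynomial ℤ) ^ 2 ∣ u - Polynomial.X ^ b' * v) : b = b' := by
  have h5 : ∀ b : ℕ, (1 - Polynomial.X : Polynomial ℤ) ^ 2 ∣ u - Polynomial.X ^ b * v →
      (Polynomial.derivative u).eval 1 =
        b * v.eval 1 + (Polynomial.derivative v).eval 1 := by
    rintro b ⟨r, hr⟩
    have h6 := congrArg (fun p => (Polynomial.derivative p).eval 1) hr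
    simp only [Polynomial.derivative_sub, Polynomial.derivative_mul,
      Polynomial.derivative_pow, Polynomial.eval_sub, Polynomial.eval_add, Polynomial.eval_mul,
      Polynomial.eval_pow, Polynomial.eval_X, Polynomial.eval_C, Polynomial.eval_one,
      Polynomial.derivative_one, Polynomial.derivative_X] at h6
    simp at h6
    linarith
  have h6 := h5 b hb
  rw [h5 b' hb'] at h6
  have h7 : ((b' : ℤ) - b) * v.eval 1 = 0 := by linarith
  rcases mul_eq_zero.1 h7 with h8 | h8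
  · omega
  · omega

end W1Aux

open W1Aux

theorem tW1a (h1 : U.S_Cov) (h2 : U.S_QD) (h3 : U.S_Pa) (hWc : S_Wc) (hWd : S_Wd) : S_W1a := by
  intro N c D I hc2 hN hI hIh hnd hS hdeg
  have hne := exists_point hI hIh hnd
  have hcov : Covered I := h1 N c D I (by omega) hI hIh hnd hS hdeg
  obtain ⟨q0, hQP, hqD, hq1⟩ := h2 N c D I (by omega) hI hIh hS hne hdeg
  obtain ⟨q, hq0, hDat', hqj⟩ := zSDatfin N c (by omega) I q0 hI hIh hS hne hQP hq1
  obtain ⟨pc, hpc, hqc⟩ := hqj c le_rfl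
  -- lines of small degree through general points
  obtain ⟨k, rfl⟩ : ∃ k, c = k + 1 := ⟨c - 1, by omega⟩
  have hsm : ∀ g : Sx N, g ∉ I → ∃ x v : Vx N, IsLine I x v ∧ MvPolynomial.eval x g ≠ 0 ∧
      ∃ b ≤ D, DegEq I (k + 1) b x v := by
    intro g hg
    obtain ⟨x, v, hl, hgx, hz⟩ := P2.tPb N (k + 1) I hc2 hI hIh hnd hS hcov g hg
    have e1 : N - (k + 1) = (N - (k + 1) - 1) + 1 := by omega
    obtain ⟨b, hb, hbd⟩ := h3 N k (N - (k + 1) - 1) D I (by omega) (by omega) hI hIh hnd hS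
      (by rw [← e1]; exact hdeg) x v hl hz
    exact ⟨x, v, hl, hgx, b, hb, hbd⟩
  have hcl : ∀ (x v : Vx N) (b : ℕ), IsLine I x v → DegEq I (k + 1) b x v →
      ∃ P : Ideal (Sx N), P.IsPrime ∧ IsHom P ∧ I ≤ P ∧ DimGe P (N + 1 - b) ∧ v ∈ zer P ∧
      (∀ z ∈ zer P, ∀ s : ℂ, z + s • x ∈ zer P) ∧
      ∀ z ∈ zer P, ∀ s t : ℂ, s • x + t • z ∈ zer I := by
    intro x v b hl hbd
    refine H.mLineE N (k + 1) b I hI hIh hS x v hl ?_
    unfold H.DegLe
    unfold DegEq at hbd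
    filter_upwards [hbd] with m hm
    omega
  have hone : (1 : Sx N) ∉ I := fun h => hI.ne_top (I.eq_top_iff_one.mpr h)
  obtain ⟨x, v, hl, -, b, hbD, hvb⟩ := hsm 1 hone
  -- the cone of lines
  obtain ⟨P, hPp, hPh, hIP, hPD, hvP, hst, hpl⟩ := hcl x v b hl hvb
  obtain ⟨hcb, hdet⟩ := key hWc hWd (by omega) hI hIh hS hQP hpc P x b hPp hPh hIP
    (tMono _ P _ _ (by omega) hPD) (hl.1.ne_zero 0) hst hpl v hvP hl.1 hvb
  -- a cone of lines of degree `b` through every point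
  have hcn : ∀ y ∈ zer I, y ≠ 0 → ∃ P : Ideal (Sx N), P.IsPrime ∧ IsHom P ∧ I ≤ P ∧
      DimGe P (N + 1 - b) ∧ (∀ z ∈ zer P, ∀ s : ℂ, z + s • y ∈ zer P) ∧
      (∀ z ∈ zer P, ∀ s t : ℂ, s • y + t • z ∈ zer I) ∧
      ∀ z ∈ zer P, LinearIndependent ℂ ![y, z] → DegEq I (k + 1) b y z := by
    intro y hy hy0
    obtain ⟨P, p1, p2, p3, p4, p5, p6⟩ := P2.tClG N (k + 1) I hI hIh (fun g hg => by
      obtain ⟨x, v, hl, hgx, b, hb, hbd⟩ := hsm g hg
      obtain ⟨P, q1, q2, -, q4, -, -, q7⟩ := hcl x v b hl hbd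
      have hx0 : x ≠ 0 := hl.1.ne_zero 0
      have hxI : x ∈ zer I := by
        have := hl.2 1 0
        rwa [one_smul, zero_smul, add_zero] at this
      exact ⟨x, hxI, hx0, hgx, P, q1, q2, tMono _ P _ _ (by omega) q4, q7⟩) y hy hy0
    obtain ⟨v, hv, hli⟩ := GAcmAux.exists_indep tNull P p1 p2 (tMono _ P _ _ (by omega) p4) y hy0
    have hyl : IsLine I y v := ⟨hli, p6 v hv⟩
    obtain ⟨b', hb'⟩ := exists_deg (k + 1) I hI hIh hS y v hyl
    have hbb : b' = b :=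
      uniq hq1 b' b (key hWc hWd (by omega) hI hIh hS hQP hpc P y b' p1 p2 p3 p4 hy0 p5 p6 v hv
        hli hb').2 hdet
    subst hbb
    obtain ⟨P', r1, r2, r3, r4, r5, r6, r7⟩ := hcl y v b' hyl hb'
    exact ⟨P', r1, r2, r3, r4, r6, r7, fun z hz hz' =>
      cCon N (k + 1) b' I P' y hI hIh hS r1 r2 r3 r6 r7 v r5 hli z hz hz' hb'⟩
  refine ⟨b, q0, ?_, hbD⟩
  exact
    { pos := by omega
      prime := hI
      hom := hIh
      nd := hnd
      smooth := hS
      cb := hcb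
      bN := by omega
      deg := hdeg
      qp := hQP
      q1 := hqD
      cone := hcn }

theorem tW1r (h2 : U.S_QD) (hWc : S_Wc) (hWd : S_Wd) (hWp : S_Wp) (hWq : S_Wq) : S_W1r := by
  intro N c b D I q0 hB
  have hI := hB.prime
  have hIh := hB.hom
  have hS := hB.smooth
  have hc := hB.pos
  have hcb := hB.cb
  have hbN := hB.bN
  have hne := exists_point hI hIh hB.nd
  have hq1 : 0 < q0.eval 1 := by
    obtain ⟨q0', hQP', -, hq1'⟩ := h2 N c D I (by omega) hI hIh hS hne hB.deg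
    have : q0' = q0 := SFEAux.qz_uniq (N := N) (c := c) hQP' hB.qp
    rwa [this] at hq1'
  obtain ⟨q, hq0, hDat', hqj⟩ := zSDatfin N c (by omega) I q0 hI hIh hS hne hB.qp hq1
  obtain ⟨w, hw⟩ := br c (N + 1 - 2 * c) q hDat'
  obtain ⟨pc, hpc, hqc⟩ := hqj c le_rfl
  obtain ⟨y, hy, hy0⟩ := hne
  obtain ⟨P, p1, p2, p3, p4, p5, p6, p7⟩ := hB.cone y hy hy0
  obtain ⟨v, hv, hli⟩ := GAcmAux.exists_indep tNull P p1 p2 (tMono _ P _ _ (by omega) p4) y hy0
  have hdet := (key hWc hWd hc hI hIh hS hB.qp hpc P y b p1 p2 p3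
    (tMono _ P _ _ (by omega) p4) hy0 p5 p6 v hv hli (p7 v hv hli)).2
  choose! p hp using hqj
  have h4 := hWq c (N + 1 - 2 * c) b q w hc (by omega) (by rw [hq0]; exact hq1) hw
    (by rw [hqc, hq0]; exact hdet) (by
      have h5 := hWp N c (by omega) I q0 hI hIh hS hB.qp p fun j hj => (hp j hj).1
      have e1 : ∑ j ∈ Finset.range (c + 1), q j =
          ∑ j ∈ Finset.range (c + 1), Polynomial.X ^ j * p j := by
        refine Finset.sum_congr rfl fun j hj => ?_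
        rw [Finset.mem_range] at hj
        exact (hp j (by omega)).2
      rw [e1, hq0]
      exact (pow_dvd_pow _ (by omega)).trans h5)
  rw [hq0, hB.q1] at h4
  exact h4

theorem tW1 (h : S_W1a) : S_W1 := by
  intro N c D I hc2 hN hI hIh hnd hS hdeg
  obtain ⟨b, q0, h1, -⟩ := h N c D I hc2 hN hI hIh hnd hS hdeg
  exact ⟨b, q0, h1⟩

theorem tW1q (h : S_W1r) : S_W1q := fun N c b D I q0 _ hB _ => h N c b D I q0 hB

end Pool.Agent.Lib.MP_776403_ag.SD.FR
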